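import Pool.Agent.Run7.h844.RP.NearZ
import Pool.Agent.Results.MP_d639b3_nt.ExchangeableConstants

set_option autoImplicit false

/-!
The Liouville function at values of polynomials whose last factor has a constant near a value at a prime.
-/

namespace Pool.Agent.Run7.h844.RP

open Finset Filter
open Pool.Agent.N384.MQ (ev_log_pow ev_log_ge)
open Pool.Agent.Results.MP_d639b3_nt.ExchangeableConstants (lam small_of)

/-- the bounds for the scale of the values -/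
lemma sc_bound (F : Finset ℝ) (c : ℝ) (hc : 0 < c) (a : ℝ → ℝ) (U : ℕ) : ∃ X₀ : ℕ, ∀ X : ℕ, X₀ ≤ X →
    (X : ℝ) ^ c ≤ sc (Ac F c a) c X ∧
    (sc (Ac F c a) c X : ℝ) / Real.log (sc (Ac F c a) c X) ^ (U + 2) ≤ (X : ℝ) ^ c / Real.log X ^ U := by
  obtain ⟨X₁, h1⟩ := log_cmp (Ac F c a) c (Ac_pos F c a) hc (U + 1)
  obtain ⟨X₂, h2⟩ := eventually_atTop.mp (ev_log_ge (Ac F c a + 1))
  have hA1 : 1 ≤ Ac F c a := by
    unfold Ac
    have : 0 ≤ ∑ x ∈ F, |a x| := sum_nonneg fun _ _ => abs_nonneg _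
    have : 0 ≤ (2 : ℝ) ^ c * ∑ x ∈ F, |a x| := by positivity
    linarith
  refine ⟨X₁ + X₂ + 1, fun X hX => ?_⟩
  obtain ⟨g1, g2, g3, g4⟩ := h1 X (by omega)
  have g5 := h2 X (by omega)
  have hXc : 0 < (X : ℝ) ^ c := by
    have : (0 : ℝ) < X := by exact_mod_cast (by omega : 0 < X)
    positivity
  have g6 := sc_ge (Ac F c a) c X
  have g7 := sc_le (Ac F c a) c (Ac_pos F c a) hc X (by omega)
  constructor
  · nlinarith
  · have hl0 : 0 < Real.log X := by linarith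
    have hl1 : 0 < Real.log (sc (Ac F c a) c X) := by linarith
    rw [div_le_div_iff₀ (by positivity) (by positivity)]
    calc (sc (Ac F c a) c X : ℝ) * Real.log X ^ U ≤ ((Ac F c a + 1) * (X : ℝ) ^ c) * Real.log X ^ U := by gcongr
      _ ≤ (Real.log X * (X : ℝ) ^ c) * Real.log X ^ U := by gcongr
      _ = (X : ℝ) ^ c * Real.log X ^ (U + 1) := by rw [pow_succ]; ring
      _ ≤ (X : ℝ) ^ c * Real.log (sc (Ac F c a) c X) ^ (U + 2) := by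
          apply mul_le_mul_of_nonneg_left _ hXc.le
          exact g3

/-- For all `l`, all residue classes `r` modulo `q ≤ L` and all integers `u`, `v` with `α l |u| ≤ S` and `α l |v| ≤ S`: the
sum of `λ(f l (n) (α l n + h))` over the integers `n` with `u ≤ n ≤ v` and `n ≡ r mod q` is at most `E` in absolute value. -/
def SmallP (L S E : ℝ) {M : ℕ} (f : Fin M → Polynomial ℤ) (α : Fin M → ℕ) (h : ℤ) : Prop :=
  ∀ l, ∀ q : ℕ, 1 ≤ q → (q : ℝ) ≤ L → ∀ r u v : ℤ, (α l : ℝ) * |(u : ℝ)| ≤ S → (α l : ℝ) * |(v : ℝ)| ≤ S →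
    |((∑ n ∈ (Icc u v).filter (fun n => n ≡ r [ZMOD q]), lam ((f l).eval n * (α l * n + h)) : ℤ) : ℝ)| ≤ E

lemma smallP_mono {L L' S S' E E' : ℝ} {M : ℕ} {f : Fin M → Polynomial ℤ} {α : Fin M → ℕ} {h : ℤ}
    (hs : SmallP L' S' E' f α h) (hL : L ≤ L') (hS : S ≤ S') (hE : E' ≤ E) : SmallP L S E f α h :=
  fun l q hq1 hq2 r u v hu hv => (hs l q hq1 (hq2.trans hL) r u v (hu.trans hS) (hv.trans hS)).trans hE

open Classical in
theorem poly_near (B : ℕ) (δ : ℝ) (hδ : 0 < δ) (hδ1 : δ ≤ 1) (B' T J W U : ℕ) : ∃ V N₀ : ℕ, ∀ N : ℕ, N₀ ≤ N →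
    ∀ θ : (M : ℕ) × (Fin M → Polynomial ℤ) × (Fin M → ℕ), ((θ.1 : ℝ) ≤ Real.log N ^ T ∧ ∀ l, 1 ≤ θ.2.2 l) →
    ∀ (ι : Type) (s : Finset ι) (y : ι → ℝ), (∀ i ∈ s, |y i| ≤ N) → ES B δ V N s y →
    ((s.filter fun i => ¬ NearZ (fun q => ∀ h : ℕ, 1 ≤ h → (h : ℝ) ≤ Real.log N ^ J →
      SmallP (Real.log N ^ T) (B' * N) (N / Real.log N ^ U) θ.2.1 θ.2.2 (h * q)) (Real.log N ^ W) (y i)).card : ℝ) ≤
      s.card / Real.log N ^ U := by
  obtain ⟨V, N₀, h0⟩ := near2 (Θ := (M : ℕ) × (Fin M → Polynomial ℤ) × (Fin M → ℕ)) B δ hδ hδ1 W (U + 3)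
    (fun k θ => θ.1 ≤ k ^ T ∧ ∀ l, 1 ≤ θ.2.2 l)
    (fun k θ q => ∀ h : ℕ, 1 ≤ h → h ≤ k ^ J → ∀ l, Pool.Agent.R501.CP.One B' T (U + 3) (2 ^ k) k (θ.2.1 l) (θ.2.2 l) (h * q))
    (fun C hC => by
      obtain ⟨k₀, h1⟩ := Pool.Agent.N625.PT.t_poly (hC 1 one_ne_zero).2 1 B' T J (W + 1) (U + 3)
      refine ⟨k₀, fun k hk θ hθ p hp c hc => ?_⟩
      exact h1 k hk p hp c (by rw [Nat.cast_one, one_mul]; exact hc) θ.1 hθ.1 θ.2.1 θ.2.2 hθ.2)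
  obtain ⟨N₁, h1⟩ := eventually_atTop.mp (ev_log_ge 9)
  refine ⟨V, N₀ + N₁ + 1, fun N hN θ hθ ι s y hy hes => ?_⟩
  obtain ⟨k, g1, g2, g3, g4, h2⟩ := h0 N (by omega)
  have hL := h1 N (by omega)
  have hL0 : 0 < Real.log N := by linarith
  have hN0 : (0 : ℝ) < N := by exact_mod_cast (by omega : 0 < N)
  have hk0 : (0 : ℝ) < k := by linarith
  have h3 := h2 θ ⟨by
    have : (θ.1 : ℝ) ≤ ((k ^ T : ℕ) : ℝ) := by
      push_cast
      exact hθ.1.trans (pow_le_pow_left₀ hL0.le g1 T)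
    exact_mod_cast this, hθ.2⟩ ι s y hy hes
  refine le_trans ?_ (h3.trans ?_)
  · apply card_filter_mono'
    intro i _ hi hcon
    refine hi (nearZ_mono hcon le_rfl fun q hq h hh1 hh2 => ?_)
    have h4 := small_of B' T (U + 3) (2 ^ k) k θ.2.1 θ.2.2 (h * q) (hq h hh1 (by
      have : (h : ℝ) ≤ ((k ^ J : ℕ) : ℝ) := by
        push_cast
        exact hh2.trans (pow_le_pow_left₀ hL0.le g1 J)
      exact_mod_cast this))
    intro l q' hq1 hq2 r u v hu hv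
    have hNk : (N : ℝ) ≤ 2 ^ k := by exact_mod_cast g3
    have hconv : ∀ w : ℤ, (θ.2.2 l : ℝ) * |(w : ℝ)| ≤ B' * N → (θ.2.2 l : ℤ) * |w| ≤ B' * ((2 ^ k : ℕ) : ℤ) := by
      intro w hw
      have h5 : ((((θ.2.2 l : ℤ) * |w| : ℤ)) : ℝ) ≤ ((B' * ((2 ^ k : ℕ) : ℤ) : ℤ) : ℝ) := by
        push_cast
        exact hw.trans (mul_le_mul_of_nonneg_left hNk (Nat.cast_nonneg _))
      exact_mod_cast h5
    refine (h4 l q' hq1 (by
      have : (q' : ℝ) ≤ ((k ^ T : ℕ) : ℝ) := by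
        push_cast
        exact hq2.trans (pow_le_pow_left₀ hL0.le g1 T)
      exact_mod_cast this) r u v (hconv u hu) (hconv v hv)).trans ?_
    push_cast
    rw [div_le_div_iff₀ (by positivity) (by positivity)]
    calc (2 : ℝ) ^ k * Real.log N ^ U ≤ ((k : ℝ) ^ 2 * N) * (k : ℝ) ^ U := by gcongr
      _ = N * (k : ℝ) ^ (U + 2) := by rw [pow_add]; ring
      _ ≤ N * (k : ℝ) ^ (U + 3) := by
          apply mul_le_mul_of_nonneg_left _ hN0.le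
          exact pow_le_pow_right₀ (by linarith) (by omega)
  · apply div_le_div_of_nonneg_left (Nat.cast_nonneg _) (by positivity)
    exact pow_le_pow_right₀ (by linarith) (by omega)

open Classical in
theorem poly_primes (F : Finset ℝ) (c : ℝ) (hcF : c ∈ F) (hn : ∀ m : ℕ, c ≠ m) (hc : 0 < c)
    (hmax : ∀ x ∈ F, x ≤ c) (a : ℝ → ℝ) (ha : a c ≠ 0) (B T J W U : ℕ) :
    ∃ X₀ : ℕ, ∀ X : ℕ, X₀ ≤ X → ∀ M : ℕ, (M : ℝ) ≤ Real.log X ^ T → ∀ (f : Fin M → Polynomial ℤ) (α : Fin M → ℕ),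
      (∀ l, 1 ≤ α l) → ∀ z : ℝ, |z| ≤ (X : ℝ) ^ c →
      (((Ioc X (2 * X)).filter fun p : ℕ => p.Prime ∧ ¬ NearZ (fun q => ∀ h : ℕ, 1 ≤ h → (h : ℝ) ≤ Real.log X ^ J →
        SmallP (Real.log X ^ T) (B * (X : ℝ) ^ c) ((X : ℝ) ^ c / Real.log X ^ U) f α (h * q)) (Real.log X ^ W)
          (ph F a p + z)).card : ℝ) ≤ X / Real.log X ^ U := by
  obtain ⟨X₁, h1⟩ := log_cmp (Ac F c a) c (Ac_pos F c a) hc T
  obtain ⟨X₂, h2⟩ := log_cmp (Ac F c a) c (Ac_pos F c a) hc J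
  obtain ⟨X₃, h3⟩ := sc_bound F c hc a U
  obtain ⟨X₀, h0⟩ := primes_nearZ (Θ := (M : ℕ) × (Fin M → Polynomial ℤ) × (Fin M → ℕ)) F c hcF hn hc hmax a ha U W
    (fun N θ => (θ.1 : ℝ) ≤ Real.log N ^ (T + 1) ∧ ∀ l, 1 ≤ θ.2.2 l)
    (fun X θ => (θ.1 : ℝ) ≤ Real.log X ^ T ∧ ∀ l, 1 ≤ θ.2.2 l)
    (fun N θ q => ∀ h : ℕ, 1 ≤ h → (h : ℝ) ≤ Real.log N ^ (J + 1) →
      SmallP (Real.log N ^ (T + 1)) (B * N) (N / Real.log N ^ (U + 2)) θ.2.1 θ.2.2 (h * q))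
    (fun X θ q => ∀ h : ℕ, 1 ≤ h → (h : ℝ) ≤ Real.log X ^ J →
        SmallP (Real.log X ^ T) (B * (X : ℝ) ^ c) ((X : ℝ) ^ c / Real.log X ^ U) θ.2.1 θ.2.2 (h * q))
    ⟨X₁ + X₂ + X₃, fun X hX θ hθ => by
      have g1 := (h1 X (by omega)).2.2.1
      have g2 := (h2 X (by omega)).2.2.1
      obtain ⟨g3, g4⟩ := h3 X (by omega)
      refine ⟨⟨hθ.1.trans g1, hθ.2⟩, fun m hm h hh1 hh2 => ?_⟩
      exact smallP_mono (hm h hh1 (hh2.trans g2)) g1 (mul_le_mul_of_nonneg_left g3 (Nat.cast_nonneg _)) g4⟩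
    (by
      obtain ⟨V, N₀, h4⟩ := poly_near 8 (1 / 2) (by norm_num) (by norm_num) B (T + 1) (J + 1) (W + 1) (U + 2)
      obtain ⟨N₁, h5⟩ := eventually_atTop.mp (ev_log_ge 1)
      refine ⟨V, N₀ + N₁, fun N hN θ hθ ι s y hy hes => (h4 N (by omega) θ hθ ι s y hy hes).trans ?_⟩
      have hL := h5 N (by omega)
      have : 0 < Real.log N := by linarith
      apply div_le_div_of_nonneg_left (Nat.cast_nonneg _) (by positivity)
      exact pow_le_pow_right₀ hL (by omega))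
  exact ⟨X₀, fun X hX M hM f α hα z hz => h0 X hX ⟨M, f, α⟩ ⟨hM, hα⟩ z hz⟩

end Pool.Agent.Run7.h844.RP
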