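import Pool.Agent.Run7.h844.RP.PwP

set_option autoImplicit false
set_option maxHeartbeats 4000000

/-!
The values of a generalised polynomial at the primes of a dyadic block: the power saving with an exponent that does not depend
on the constant of the scale.
-/

namespace Pool.Agent.Run7.h844.RP

open Finset Filter
open Pool.Agent.H469R2.NK (e norm_e e_add)
open Pool.Agent.H807R2.Dav (ee norm_ee ee_add)
open Pool.Agent.N193.PS (log_pow_ev)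

/-- the family of the values at primes, with a power saving; the exponent does not depend on the scale -/
theorem primes_PWu (F : Finset ℝ) (c : ℝ) (hcF : c ∈ F) (hn : ∀ m : ℕ, c ≠ m) (hc : 0 < c) (hmax : ∀ x ∈ F, x ≤ c)
    (a : ℝ → ℝ) (ha : a c ≠ 0) : ∃ ρ : ℝ, 0 < ρ ∧ ρ ≤ 1 ∧ ∀ A : ℝ, 0 < A → ∃ X₀ : ℕ, ∀ X : ℕ, X₀ ≤ X →
      PW 8 ρ (sc A c X) ((Ioc X (2 * X)).filter Nat.Prime) (fun p => ph F a p) := by
  obtain ⟨d, hd⟩ : ∃ d : ℕ, c + 1 ≤ d := exists_nat_ge (c + 1)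
  obtain ⟨ε, η, C, hε, hη, hC, hb⟩ := pr_bound F c hcF hn d
  obtain ⟨X₁, h1⟩ := dom_ev F c hmax a ha ε hε
  have hac := abs_pos.2 ha
  -- constants
  obtain ⟨ρ, hρ⟩ : ∃ ρ : ℝ, ρ = min (1 / 2) (min (1 / (2 * c)) (η / (2 * c))) := ⟨_, rfl⟩
  have hρ0 : 0 < ρ := by
    rw [hρ]
    exact lt_min (by norm_num) (lt_min (by positivity) (by positivity))
  have hρh : ρ ≤ 1 / 2 := by rw [hρ]; exact min_le_left _ _
  have hρc : c * ρ ≤ 1 / 2 := by
    have h5 : ρ ≤ 1 / (2 * c) := by rw [hρ]; exact (min_le_right _ _).trans (min_le_left _ _)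
    calc c * ρ ≤ c * (1 / (2 * c)) := mul_le_mul_of_nonneg_left h5 hc.le
      _ = 1 / 2 := by field_simp
  have hρη : c * ρ ≤ η / 2 := by
    have h5 : ρ ≤ η / (2 * c) := by rw [hρ]; exact (min_le_right _ _).trans (min_le_right _ _)
    calc c * ρ ≤ c * (η / (2 * c)) := mul_le_mul_of_nonneg_left h5 hc.le
      _ = η / 2 := by field_simp
  refine ⟨ρ, hρ0, by linarith, fun A hA => ?_⟩
  obtain ⟨X₂, h2⟩ := sc_log A c hA hc
  obtain ⟨X₃, hX₃, h3⟩ := card_pr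
  obtain ⟨κ, hκ⟩ : ∃ κ : ℝ, κ = ((A + 1) / |a c|) := ⟨_, rfl⟩
  have hκ0 : 0 < κ := by rw [hκ]; positivity
  have hlogT := Real.tendsto_log_atTop.comp (tendsto_natCast_atTop_atTop (R := ℝ))
  have hrT := (tendsto_rpow_atTop (by norm_num : (0 : ℝ) < 1 / 2)).comp (tendsto_natCast_atTop_atTop (R := ℝ))
  have hev := ((hlogT.eventually_ge_atTop (2 / c * (κ + 1) + 2 / c)).and
    ((hlogT.eventually_ge_atTop (4 * C * 3 ^ 6 * (κ + 1) * (2 / c) ^ 8 + 3)).and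
    ((hrT.eventually_ge_atTop ((A + 1) * |a c|)).and
    ((tendsto_natCast_atTop_atTop (R := ℝ)).eventually
      (log_pow_ev 7 (4 * C * 3 ^ 6 * (A + 1)) (η / 2) (by positivity) (by positivity))))))
  obtain ⟨X₄, h4⟩ := eventually_atTop.mp hev
  refine ⟨X₁ + X₂ + X₃ + X₄ + 10 ^ 4, fun X hX => ?_⟩
  have hX4 : 10 ^ 4 ≤ X := by omega
  have hXr : (10 ^ 4 : ℝ) ≤ X := by exact_mod_cast hX4
  have hX0 : (0 : ℝ) < X := by linarith
  have hX1 : (1 : ℝ) ≤ X := by linarith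
  obtain ⟨g1, g2⟩ := h2 X (by omega)
  obtain ⟨f1, f2, f3, f4⟩ := h4 X (by omega)
  have hcard := h3 X (by omega)
  simp only [Function.comp] at f1 f2 f3
  obtain ⟨l, hl⟩ : ∃ l : ℝ, l = Real.log X := ⟨_, rfl⟩
  rw [← hl] at g1 g2 f1 f2 f4 hcard
  have hl3 : 3 ≤ l := by
    have : 0 ≤ 4 * C * 3 ^ 6 * (κ + 1) * (2 / c) ^ 8 := by positivity
    linarith
  have hl0 : 0 < l := by linarith
  obtain ⟨N, hN⟩ : ∃ N : ℕ, N = sc A c X := ⟨_, rfl⟩
  rw [← hN] at g1 g2 ⊢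
  obtain ⟨L, hL⟩ : ∃ L : ℝ, L = Real.log N := ⟨_, rfl⟩
  rw [← hL] at g1 g2
  have hL1 : 1 ≤ L := by
    have h5 : 2 / c ≤ l := by
      have : 0 ≤ 2 / c * (κ + 1) := by positivity
      linarith
    have h6 : c / 2 * (2 / c) ≤ c / 2 * l := mul_le_mul_of_nonneg_left h5 (by positivity)
    have h7 : c / 2 * (2 / c) = 1 := by field_simp
    linarith
  have hLκ : κ + 1 ≤ L := by
    have h5 : 2 / c * (κ + 1) ≤ l := by
      have : 0 ≤ 2 / c := by positivity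
      linarith
    have h6 : c / 2 * (2 / c * (κ + 1)) ≤ c / 2 * l := mul_le_mul_of_nonneg_left h5 (by positivity)
    have h7 : c / 2 * (2 / c * (κ + 1)) = κ + 1 := by field_simp
    linarith
  have hL0 : 0 < L := by linarith
  intro t ht0 ht
  rw [← hL]
  have htp := abs_pos.2 ht0
  obtain ⟨s, hs⟩ : ∃ s, s = (Ioc X (2 * X)).filter Nat.Prime := ⟨_, rfl⟩
  rw [← hs] at hcard ⊢
  have hXc : 0 < (X : ℝ) ^ c := by positivity
  have hXc1 : 1 ≤ (X : ℝ) ^ c := Real.one_le_rpow hX1 hc.le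
  have hN1 : A * (X : ℝ) ^ c ≤ N := by rw [hN]; exact sc_ge A c X
  have hN2 : (N : ℝ) ≤ (A + 1) * (X : ℝ) ^ c := by rw [hN]; exact sc_le A c hA hc X (by omega)
  have hN0 : (0 : ℝ) < N := lt_of_lt_of_le (by positivity) hN1
  have hNρ : ∀ τ : ℝ, c * ρ ≤ τ → (N : ℝ) ^ ρ ≤ (A + 1) * (X : ℝ) ^ τ := by
    intro τ hτ
    calc (N : ℝ) ^ ρ ≤ ((A + 1) * (X : ℝ) ^ c) ^ ρ := Real.rpow_le_rpow hN0.le hN2 hρ0.le
      _ = (A + 1) ^ ρ * (X : ℝ) ^ (c * ρ) := by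
          rw [Real.mul_rpow (by positivity) (by positivity), ← Real.rpow_mul hX0.le]
      _ ≤ (A + 1) ^ (1 : ℝ) * (X : ℝ) ^ τ := by
          apply mul_le_mul _ (Real.rpow_le_rpow_of_exponent_le hX1 hτ) (by positivity) (by positivity)
          exact Real.rpow_le_rpow_of_exponent_le (by linarith) (by linarith)
      _ = _ := by rw [Real.rpow_one]
  obtain ⟨Y, hY⟩ : ∃ Y : ℝ, Y = |t| * |a c| * (X : ℝ) ^ c := ⟨_, rfl⟩
  have hY0 : 0 < Y := by rw [hY]; positivity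
  have htN : |t| * N ≤ κ * Y := by
    calc |t| * N ≤ |t| * ((A + 1) * (X : ℝ) ^ c) := mul_le_mul_of_nonneg_left hN2 htp.le
      _ = κ * Y := by rw [hκ, hY]; field_simp
  have hκρ : (κ + 1)⁻¹ ≤ κ ^ (-ρ) := by
    have h7 : (κ + 1) ^ (-ρ) ≤ κ ^ (-ρ) :=
      Real.rpow_le_rpow_of_nonpos hκ0 (by linarith) (by linarith)
    have h8 : (κ + 1) ^ (-(1 : ℝ)) ≤ (κ + 1) ^ (-ρ) :=
      Real.rpow_le_rpow_of_exponent_le (by linarith) (by linarith)
    rw [Real.rpow_neg_one] at h8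
    exact h8.trans h7
  have hsumeq : ∑ p ∈ s, e (t * ph F a p) = ∑ p ∈ s, e (ph F (fun x => t * a x) p) := by
    refine sum_congr rfl fun p _ => ?_
    rw [ph_smul]
  rw [hsumeq]
  have htriv : ‖∑ p ∈ s, e (ph F (fun x => t * a x) p)‖ ≤ s.card := by
    refine (norm_sum_le _ _).trans ?_
    simp only [norm_e, sum_const, nsmul_eq_mul, mul_one]
    exact le_rfl
  have hcard0 : (0 : ℝ) ≤ s.card := Nat.cast_nonneg _
  rcases lt_or_ge Y 1 with hcase | hcase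
  · -- trivial
    have h5 : 1 ≤ L ^ 8 * (|t| * N) ^ (-ρ) := by
      have h6 : |t| * N ≤ κ := by
        calc |t| * N ≤ κ * 1 := htN.trans (mul_le_mul_of_nonneg_left hcase.le hκ0.le)
          _ = κ := mul_one _
      have h7 : κ ^ (-ρ) ≤ (|t| * N) ^ (-ρ) :=
        Real.rpow_le_rpow_of_nonpos (by positivity) h6 (by linarith)
      have h8 : L⁻¹ ≤ (|t| * N) ^ (-ρ) := (inv_anti₀ (by positivity) hLκ).trans (hκρ.trans h7)
      calc (1 : ℝ) ≤ L ^ 7 := one_le_pow₀ hL1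
        _ = L ^ 8 * L⁻¹ := by field_simp
        _ ≤ _ := mul_le_mul_of_nonneg_left h8 (by positivity)
    have h6 : 0 ≤ (N : ℝ) ^ (-ρ) := by positivity
    calc ‖∑ p ∈ s, e (ph F (fun x => t * a x) p)‖ ≤ s.card * 1 := by rw [mul_one]; exact htriv
      _ ≤ _ := mul_le_mul_of_nonneg_left (by linarith) hcard0
  · -- the main case
    have hac2 : |t * a c| * (X : ℝ) ^ c = Y := by rw [abs_mul, hY]
    have hYd : Y ≤ (X : ℝ) ^ d := by
      have h5 : |t| ≤ (A + 1) * (X : ℝ) ^ (1 / 2 : ℝ) := ht.trans (hNρ _ hρc)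
      calc Y = |t| * |a c| * (X : ℝ) ^ c := hY
        _ ≤ ((A + 1) * (X : ℝ) ^ (1 / 2 : ℝ)) * |a c| * (X : ℝ) ^ c := by gcongr
        _ = ((A + 1) * |a c|) * ((X : ℝ) ^ (1 / 2 : ℝ) * (X : ℝ) ^ c) := by ring
        _ ≤ (X : ℝ) ^ (1 / 2 : ℝ) * ((X : ℝ) ^ (1 / 2 : ℝ) * (X : ℝ) ^ c) :=
            mul_le_mul_of_nonneg_right f3 (by positivity)
        _ = (X : ℝ) ^ (c + 1) := by
            rw [← Real.rpow_add hX0, ← Real.rpow_add hX0]
            congr 1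
            ring
        _ ≤ (X : ℝ) ^ (d : ℝ) := Real.rpow_le_rpow_of_exponent_le hX1 hd
        _ = _ := Real.rpow_natCast _ _
    have hmain := hb X (2 * X) hX4 (by omega) le_rfl (fun x => t * a x) (h1 X (by omega) t ht0)
      (by show 1 ≤ |t * a c| * (X : ℝ) ^ c; rw [hac2]; exact hcase)
      (by show |t * a c| * (X : ℝ) ^ c ≤ _; rw [hac2]; exact hYd)
    rw [← hs] at hmain
    have hmain2 : ‖∑ p ∈ s, e (ph F (fun x => t * a x) p)‖ ≤
        C * (1 + Real.log (4 * X)) ^ 6 * (X * (Y ^ (-(1 / 2) : ℝ) + (X : ℝ) ^ (-η))) := by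
      have h5 : |(fun x => t * a x) c| * (X : ℝ) ^ c = Y := hac2
      rw [h5] at hmain
      exact hmain
    refine hmain2.trans ?_
    have hLg : 1 + Real.log (4 * X) ≤ 3 * l := by
      rw [Real.log_mul (by norm_num) hX0.ne', ← hl]
      have : Real.log 4 ≤ 2 := by
        have h5 : Real.log 4 = 2 * Real.log 2 := by
          rw [show (4 : ℝ) = 2 ^ 2 by norm_num, Real.log_pow]
          norm_num
        rw [h5]
        linarith [Real.log_two_lt_d9]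
      linarith
    have hLg0 : 0 ≤ 1 + Real.log (4 * (X : ℝ)) := by
      have := Real.log_nonneg (show (1 : ℝ) ≤ 4 * X by linarith)
      linarith
    have hYneg : Y ^ (-(1 / 2) : ℝ) ≤ (κ + 1) * (|t| * N) ^ (-ρ) := by
      have h4 : Y ^ (-(1 / 2) : ℝ) ≤ Y ^ (-ρ) := Real.rpow_le_rpow_of_exponent_le hcase (by linarith)
      have h5 : (κ * Y) ^ (-ρ) ≤ (|t| * N) ^ (-ρ) :=
        Real.rpow_le_rpow_of_nonpos (by positivity) htN (by linarith)
      rw [Real.mul_rpow hκ0.le hY0.le] at h5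
      have h6 : 1 ≤ (κ + 1) * κ ^ (-ρ) := by
        calc (1 : ℝ) = (κ + 1) * (κ + 1)⁻¹ := by field_simp
          _ ≤ _ := mul_le_mul_of_nonneg_left hκρ (by positivity)
      have h7 : 0 ≤ Y ^ (-ρ) := by positivity
      calc Y ^ (-(1 / 2) : ℝ) ≤ Y ^ (-ρ) := h4
        _ ≤ ((κ + 1) * κ ^ (-ρ)) * Y ^ (-ρ) := le_mul_of_one_le_left h7 h6
        _ = (κ + 1) * (κ ^ (-ρ) * Y ^ (-ρ)) := by ring
        _ ≤ _ := mul_le_mul_of_nonneg_left h5 (by positivity)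
    obtain ⟨T, hT⟩ : ∃ T : ℝ, T = (|t| * N) ^ (-ρ) := ⟨_, rfl⟩
    rw [← hT] at hYneg
    have hT0 : 0 < T := by rw [hT]; positivity
    have hlL : l ≤ 2 / c * L := by
      rw [div_mul_eq_mul_div, le_div_iff₀ hc]
      linarith
    have hpart1 : C * (3 * l) ^ 6 * (4 * l) * (κ + 1) ≤ L ^ 8 := by
      have h5 : l ^ 8 ≤ (2 / c) ^ 8 * L ^ 8 := by
        rw [← mul_pow]
        exact pow_le_pow_left₀ hl0.le hlL 8
      have h6 : (4 * C * 3 ^ 6 * (κ + 1) * (2 / c) ^ 8) * (C * (3 * l) ^ 6 * (4 * l) * (κ + 1)) ≤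
          (4 * C * 3 ^ 6 * (κ + 1) * (2 / c) ^ 8) * L ^ 8 := by
        calc (4 * C * 3 ^ 6 * (κ + 1) * (2 / c) ^ 8) * (C * (3 * l) ^ 6 * (4 * l) * (κ + 1)) =
            (4 * C * 3 ^ 6 * (κ + 1) * (2 / c) ^ 8) * l ^ 7 * (4 * C * 3 ^ 6 * (κ + 1)) := by ring
          _ ≤ l * l ^ 7 * (4 * C * 3 ^ 6 * (κ + 1)) := by
              gcongr
              linarith
          _ = l ^ 8 * (4 * C * 3 ^ 6 * (κ + 1)) := by ring
          _ ≤ ((2 / c) ^ 8 * L ^ 8) * (4 * C * 3 ^ 6 * (κ + 1)) := mul_le_mul_of_nonneg_right h5 (by positivity)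
          _ = _ := by ring
      exact le_of_mul_le_mul_left h6 (by positivity)
    have hpart2 : C * (3 * l) ^ 6 * (4 * l) * (X : ℝ) ^ (-η) ≤ (N : ℝ) ^ (-ρ) := by
      rw [Real.rpow_neg hN0.le, ← one_div, le_div_iff₀ (by positivity)]
      have h5 := hNρ _ hρη
      have hl7 : l ^ 7 ≤ (1 + l) ^ 7 := pow_le_pow_left₀ hl0.le (by linarith) 7
      calc C * (3 * l) ^ 6 * (4 * l) * (X : ℝ) ^ (-η) * (N : ℝ) ^ ρ ≤
          C * (3 * l) ^ 6 * (4 * l) * (X : ℝ) ^ (-η) * ((A + 1) * (X : ℝ) ^ (η / 2)) := by gcongr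
        _ = (4 * C * 3 ^ 6 * (A + 1) * l ^ 7) * ((X : ℝ) ^ (-η) * (X : ℝ) ^ (η / 2)) := by ring
        _ ≤ (4 * C * 3 ^ 6 * (A + 1) * (1 + l) ^ 7) * ((X : ℝ) ^ (-η) * (X : ℝ) ^ (η / 2)) := by gcongr
        _ ≤ (X : ℝ) ^ (η / 2) * ((X : ℝ) ^ (-η) * (X : ℝ) ^ (η / 2)) := mul_le_mul_of_nonneg_right f4 (by positivity)
        _ = 1 := by
            rw [← Real.rpow_add hX0, ← Real.rpow_add hX0]
            have : η / 2 + (-η + η / 2) = 0 := by ring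
            rw [this, Real.rpow_zero]
    calc C * (1 + Real.log (4 * X)) ^ 6 * (X * (Y ^ (-(1 / 2) : ℝ) + (X : ℝ) ^ (-η)))
        ≤ C * (3 * l) ^ 6 * ((4 * l * s.card) * ((κ + 1) * T + (X : ℝ) ^ (-η))) := by gcongr
      _ = s.card * ((C * (3 * l) ^ 6 * (4 * l) * (κ + 1)) * T + C * (3 * l) ^ 6 * (4 * l) * (X : ℝ) ^ (-η)) := by ring
      _ ≤ s.card * (L ^ 8 * T + (N : ℝ) ^ (-ρ)) := by gcongr
      _ = _ := by rw [hT]

end Pool.Agent.Run7.h844.RP
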