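import Pool.Agent.Run7.h844.RP.PwD

set_option autoImplicit false
set_option maxHeartbeats 4000000

/-!
The families of the integer parts of the shifted values of a generalised polynomial at primes.
-/

namespace Pool.Agent.Run7.h844.RP

open Finset Filter

/-- the primes of a dyadic block -/
def PB (N : ℕ) : Finset ℕ := (Ioc N (2 * N)).filter Nat.Prime

/-- the integer parts of the shifted values -/
noncomputable def vz (F : Finset ℝ) (a : ℝ → ℝ) (z : ℝ) (q : ℕ) : ℤ := ⌊ph F a q + z⌋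

theorem primes_fam (F : Finset ℝ) (c : ℝ) (hcF : c ∈ F) (hn : ∀ m : ℕ, c ≠ m) (hc : 0 < c) (hmax : ∀ x ∈ F, x ≤ c)
    (a : ℝ → ℝ) (ha : a c ≠ 0) : ∃ β : ℝ, 0 < β ∧ β ≤ 1 ∧ ∃ N₀ : ℕ, ∀ N : ℕ, N₀ ≤ N → ∀ z : ℝ,
      IFam (PB N) (vz F a z) ((N : ℝ) ^ β) := by
  obtain ⟨β, h1, h2, N₀, h3⟩ := primes_IF F c hcF hn hc hmax a ha
  refine ⟨β, h1, h2, N₀ + 1, fun N hN z => ⟨?_, h3 N (by omega) z⟩⟩
  have : (0 : ℝ) < N := by exact_mod_cast (by omega : 0 < N)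
  positivity

lemma le_pow_of {x N W : ℕ} {β : ℝ} (hW : 1 ≤ W) (h : (x : ℝ) ≤ (N : ℝ) ^ (β / W)) : (x : ℝ) ^ W ≤ (N : ℝ) ^ β := by
  have hW0 : (0 : ℝ) < W := by exact_mod_cast hW
  calc (x : ℝ) ^ W ≤ ((N : ℝ) ^ (β / W)) ^ W := pow_le_pow_left₀ (Nat.cast_nonneg _) h W
    _ = (N : ℝ) ^ β := by
        rw [← Real.rpow_natCast, ← Real.rpow_mul (Nat.cast_nonneg _)]
        congr 1
        field_simp

lemma le_pow_of' {t : ℝ} {N W : ℕ} {β : ℝ} (ht : 0 ≤ t) (hW : 1 ≤ W) (h : t ≤ (N : ℝ) ^ (β / W)) :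
    t ^ W ≤ (N : ℝ) ^ β := by
  have hW0 : (0 : ℝ) < W := by exact_mod_cast hW
  calc t ^ W ≤ ((N : ℝ) ^ (β / W)) ^ W := pow_le_pow_left₀ ht h W
    _ = (N : ℝ) ^ β := by
        rw [← Real.rpow_natCast, ← Real.rpow_mul (Nat.cast_nonneg _)]
        congr 1
        field_simp

end Pool.Agent.Run7.h844.RP
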