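import Pool.Agent.Run7.h844.RP.PwP
import Pool.Agent.N193.PS.Few

set_option autoImplicit false
set_option maxHeartbeats 4000000

/-!
Few large Fourier coefficients of the integer parts of a family of reals with small exponential sums.
-/

namespace Pool.Agent.Run7.h844.RP

open Finset Filter Topology
open Pool.Agent.H469R2.NK (e norm_e e_add)
open Pool.Agent.H807R2.Dav (ee norm_ee ee_add)
open Pool.Agent.N193.PS (ee_eq_e sep_count)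
open Pool.Agent.Results.MP_122e00_nt.SparseRandomShifts (FewLarge)

/-- few large Fourier coefficients -/
theorem ip_few (B : ℕ) (ρ : ℝ) (hρ0 : 0 < ρ) (hρ1 : ρ ≤ 1) (θc : ℝ) (hθc : 0 < θc) : ∃ θ₁ : ℝ, 0 < θ₁ ∧ θ₁ ≤ 1 ∧
    ∀ κ : ℤ, κ ≠ 0 → ∃ N₀ : ℕ, ∀ N : ℕ, N₀ ≤ N → ∀ (ι : Type) (s : Finset ι) (y : ι → ℝ), s.Nonempty → PW B ρ N s y →
    ∀ cc : ℤ, FewLarge (fun _ : {i // i ∈ s} => 1 / (s.card : ℝ)) (fun i => cc + κ * ⌊y i.1⌋) N ((N : ℝ) ^ (-θ₁))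
      ((N : ℝ) ^ θc) := by
  classical
  obtain ⟨θ, hθ⟩ : ∃ θ : ℝ, θ = min 1 (θc / 2) := ⟨_, rfl⟩
  have hθ0 : 0 < θ := by rw [hθ]; exact lt_min one_pos (by positivity)
  have hθ1 : θ ≤ 1 := by rw [hθ]; exact min_le_left _ _
  have hθ2 : θ ≤ θc / 2 := by rw [hθ]; exact min_le_right _ _
  obtain ⟨N₁, h1⟩ := floor_pw B ρ θ hρ0 hρ1 hθ0 hθ1
  refine ⟨θ * ρ / 16, by positivity, by nlinarith, fun κ hκ => ?_⟩
  obtain ⟨N₂, h2⟩ := rpow_large ((2 * |(κ : ℝ)| + 3) * 5) θ hθ0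
  refine ⟨N₁ + N₂ + 1, fun N hN ι s y hs hy cc S hS hsep => ?_⟩
  have hN1 : (1 : ℝ) ≤ N := by exact_mod_cast (by omega : 1 ≤ N)
  have hN0 : (0 : ℝ) < N := by linarith
  have hs0 : (0 : ℝ) < s.card := by exact_mod_cast hs.card_pos
  have hnear : ∀ a ∈ S, 0 ≤ a ∧ a < 1 ∧ |(κ : ℝ) * a - round ((κ : ℝ) * a)| ≤ (N : ℝ) ^ (θ - 1) := by
    intro a ha
    obtain ⟨g1, g2, h3⟩ := hS a ha
    refine ⟨g1, g2, ?_⟩
    by_contra hcon
    push Not at hcon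
    have h4 := h1 N (by omega) ι s y hy ((κ : ℝ) * a) (|(κ : ℝ) * a - round ((κ : ℝ) * a)|) hcon.le (fun m => round_le _ m)
    have hφ : Pool.Agent.Results.MP_122e00_nt.SparseRandomShifts.φ (fun _ : {i // i ∈ s} => 1 / (s.card : ℝ))
        (fun i => cc + κ * ⌊y i.1⌋) a = ee ((cc : ℝ) * a) * ((1 / (s.card : ℂ)) * ∑ i ∈ s, e ((κ : ℝ) * a * ⌊y i⌋)) := by
      have e1 : Pool.Agent.Results.MP_122e00_nt.SparseRandomShifts.φ (fun _ : {i // i ∈ s} => 1 / (s.card : ℝ))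
          (fun i => cc + κ * ⌊y i.1⌋) a =
          ∑ i ∈ s, ((1 / (s.card : ℝ) : ℝ) : ℂ) * ee (((cc + κ * ⌊y i⌋ : ℤ) : ℝ) * a) := by
        rw [← Finset.sum_coe_sort s (fun i => ((1 / (s.card : ℝ) : ℝ) : ℂ) * ee (((cc + κ * ⌊y i⌋ : ℤ) : ℝ) * a))]
        rfl
      rw [e1, mul_sum, mul_sum]
      apply sum_congr rfl
      intro i _
      have : (((cc + κ * ⌊y i⌋ : ℤ) : ℝ) * a) = (cc : ℝ) * a + ((κ : ℝ) * a) * ⌊y i⌋ := by
        push_cast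
        ring
      rw [this, ee_add, ee_eq_e (κ * a * ⌊y i⌋)]
      push_cast
      ring
    rw [hφ, norm_mul, norm_ee, one_mul, norm_mul, norm_div, norm_one, Complex.norm_natCast, one_div,
      lt_inv_mul_iff₀ hs0] at h3
    linarith
  have hcount := sep_count κ hκ N (by omega) ((N : ℝ) ^ (θ - 1)) (by positivity) S hnear hsep
  refine hcount.trans ?_
  have e1 : (N : ℝ) * (N : ℝ) ^ (θ - 1) = (N : ℝ) ^ θ := by
    rw [mul_comm, ← Real.rpow_add_one hN0.ne']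
    congr 1
    ring
  rw [e1]
  have h4 : 1 ≤ (N : ℝ) ^ θ := Real.one_le_rpow hN1 hθ0.le
  calc (2 * |(κ : ℝ)| + 3) * (2 * (N : ℝ) ^ θ + 3) ≤ (2 * |(κ : ℝ)| + 3) * (5 * (N : ℝ) ^ θ) := by
        apply mul_le_mul_of_nonneg_left _ (by positivity)
        linarith
    _ = ((2 * |(κ : ℝ)| + 3) * 5) * (N : ℝ) ^ θ := by ring
    _ ≤ (N : ℝ) ^ θ * (N : ℝ) ^ θ := mul_le_mul_of_nonneg_right (h2 N (by omega)) (by positivity)
    _ = (N : ℝ) ^ (θ + θ) := by rw [← Real.rpow_add hN0]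
    _ ≤ (N : ℝ) ^ θc := Real.rpow_le_rpow_of_exponent_le hN1 (by linarith)

lemma ph_size' (F : Finset ℝ) (c : ℝ) (hc : 0 < c) (hmax : ∀ x ∈ F, x ≤ c) (a : ℝ → ℝ) (X p : ℕ) (hX : 1 ≤ X)
    (hp : X < p) (hp2 : p ≤ 2 * X) (B : ℝ) (hB : 1 ≤ B) (z : ℝ) (hz : |z| ≤ B * (X : ℝ) ^ c) :
    |ph F a p + z| ≤ (Ac F c a + B) * (X : ℝ) ^ c := by
  have hX1 : (1 : ℝ) ≤ X := by exact_mod_cast hX
  have hp1 : (1 : ℝ) ≤ p := by exact_mod_cast (by omega : 1 ≤ p)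
  have hp2r : (p : ℝ) ≤ 2 * X := by exact_mod_cast hp2
  have hXc : 0 < (X : ℝ) ^ c := by positivity
  have h1 : |ph F a p| ≤ 2 ^ c * (∑ x ∈ F, |a x|) * (X : ℝ) ^ c := by
    unfold ph
    refine (abs_sum_le_sum_abs _ _).trans ?_
    have h2 : ∀ x ∈ F, |a x * (p : ℝ) ^ x| ≤ |a x| * (2 ^ c * (X : ℝ) ^ c) := by
      intro x hx
      rw [abs_mul, abs_of_pos (Real.rpow_pos_of_pos (by linarith) x)]
      apply mul_le_mul_of_nonneg_left _ (abs_nonneg _)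
      rw [← Real.mul_rpow (by norm_num) (by linarith)]
      calc (p : ℝ) ^ x ≤ (p : ℝ) ^ c := Real.rpow_le_rpow_of_exponent_le hp1 (hmax x hx)
        _ ≤ _ := Real.rpow_le_rpow (by linarith) hp2r hc.le
    refine (sum_le_sum h2).trans (le_of_eq ?_)
    rw [← sum_mul]
    ring
  calc |ph F a p + z| ≤ |ph F a p| + |z| := abs_add_le _ _
    _ ≤ 2 ^ c * (∑ x ∈ F, |a x|) * (X : ℝ) ^ c + B * (X : ℝ) ^ c := add_le_add h1 hz
    _ ≤ _ := by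
        unfold Ac
        nlinarith

end Pool.Agent.Run7.h844.RP
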