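import Pool.Agent.Run7.h844.RP.PwR
import Pool.Agent.Run7.h844.RP.PwPu
import Pool.Agent.Run7.h844.RP.PwN
import Pool.Agent.Run7.h844.RP.PwG

set_option autoImplicit false
set_option maxHeartbeats 4000000

/-!
From the laws of the class `PC` to the values of generalised polynomials at primes.
-/

namespace Pool.Agent.Run7.h844.RP

open Finset Filter
open Pool.Agent.H469R2.NK (e norm_e e_add)

/-- the change of the scale -/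
lemma PW_scale (B D : ℕ) (ρ ρ' : ℝ) (hρ0 : 0 < ρ) (hρ1 : ρ ≤ 1) (hρ'0 : 0 < ρ') (hρ' : ρ' ≤ ρ / 2) : ∃ k₀ : ℕ, ∀ k : ℕ, k₀ ≤ k →
    ∀ N : ℕ, N ≤ 2 ^ k → (2 : ℝ) ^ k ≤ N * (k : ℝ) ^ D → ∀ (ι : Type) (s : Finset ι) (y : ι → ℝ), PW B ρ N s y →
      PW (B + 2 * D) ρ' (2 ^ k) s y := by
  obtain ⟨k₁, h1⟩ := pow_le_two_rpow D (1 / 2) (by norm_num)
  refine ⟨k₁ + 6, fun k hk N hN1 hN2 ι s y hy => ?_⟩
  have hk6 : (6 : ℝ) ≤ k := by exact_mod_cast (by omega : 6 ≤ k)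
  have hk0 : (0 : ℝ) < k := by linarith
  obtain ⟨Y, hY⟩ : ∃ Y : ℝ, Y = 2 ^ k := ⟨_, rfl⟩
  have hY1 : 1 ≤ Y := by rw [hY]; exact one_le_pow₀ (by norm_num)
  have hY0 : 0 < Y := by linarith
  have hkD := h1 k (by omega)
  rw [← hY] at hkD hN2
  have hN1r : (N : ℝ) ≤ Y := by rw [hY]; exact_mod_cast hN1
  have hkD0 : (0 : ℝ) < (k : ℝ) ^ D := by positivity
  have hhalf : Y ^ (1 / 2 : ℝ) * Y ^ (1 / 2 : ℝ) = Y := by
    rw [← Real.rpow_add hY0]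
    norm_num
  have hNh : Y ^ (1 / 2 : ℝ) ≤ N := by
    have h2 : 0 < Y ^ (1 / 2 : ℝ) := by positivity
    have h3 : Y ^ (1 / 2 : ℝ) * Y ^ (1 / 2 : ℝ) ≤ N * Y ^ (1 / 2 : ℝ) := by
      rw [hhalf]
      exact hN2.trans (mul_le_mul_of_nonneg_left hkD (Nat.cast_nonneg _))
    exact le_of_mul_le_mul_right h3 h2
  have hNr : (1 : ℝ) ≤ N := (Real.one_le_rpow hY1 (by norm_num)).trans hNh
  have hN0 : (0 : ℝ) < N := by linarith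
  obtain ⟨ℓ, hℓ⟩ : ∃ ℓ : ℝ, ℓ = Real.log Y := ⟨_, rfl⟩
  have hℓk : (k : ℝ) ≤ ℓ ^ 2 ∧ 1 ≤ ℓ := by
    have e1 : ℓ = k * Real.log 2 := by rw [hℓ, hY, Real.log_pow]
    have e2 := Real.log_two_gt_d9
    have e3 : (0.69 : ℝ) * k ≤ ℓ := by rw [e1]; nlinarith
    constructor
    · nlinarith
    · linarith
  obtain ⟨hk2, hℓ1⟩ := hℓk
  have hlogN : Real.log N ≤ ℓ := by rw [hℓ]; exact Real.log_le_log hN0 hN1r
  have hlogN0 : 0 ≤ Real.log N := Real.log_nonneg hNr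
  intro t ht0 ht
  have htp := abs_pos.2 ht0
  push_cast at ht ⊢
  rw [← hY] at ht ⊢
  rw [← hℓ]
  have hcard0 : (0 : ℝ) ≤ s.card := Nat.cast_nonneg _
  have htriv : ‖∑ i ∈ s, e (t * y i)‖ ≤ s.card := by
    refine (norm_sum_le _ _).trans ?_
    simp only [norm_e, sum_const, nsmul_eq_mul, mul_one]
    exact le_rfl
  have hYneg : 0 < Y ^ (-ρ') := by positivity
  rcases lt_or_ge (|t| * Y) 1 with hc | hc
  · have h2 : 1 ≤ (|t| * Y) ^ (-ρ') := Real.one_le_rpow_of_pos_of_le_one_of_nonpos (by positivity) hc.le (by linarith)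
    have h3 : 1 ≤ ℓ ^ (B + 2 * D) := one_le_pow₀ hℓ1
    calc ‖∑ i ∈ s, e (t * y i)‖ ≤ s.card * 1 := by rw [mul_one]; exact htriv
      _ ≤ _ := by
          apply mul_le_mul_of_nonneg_left _ hcard0
          nlinarith
  · have h2 := hy t ht0 (by
      calc |t| ≤ Y ^ ρ' := ht
        _ ≤ Y ^ (1 / 2 * ρ) := Real.rpow_le_rpow_of_exponent_le hY1 (by linarith)
        _ = (Y ^ (1 / 2 : ℝ)) ^ ρ := Real.rpow_mul hY0.le _ _
        _ ≤ (N : ℝ) ^ ρ := Real.rpow_le_rpow (by positivity) hNh hρ0.le)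
    refine h2.trans ?_
    apply mul_le_mul_of_nonneg_left _ hcard0
    apply add_le_add
    · have h3 : (|t| * N) ^ (-ρ) ≤ (k : ℝ) ^ D * (|t| * Y) ^ (-ρ') := by
        have h4 : |t| * Y / (k : ℝ) ^ D ≤ |t| * N := by
          rw [div_le_iff₀ hkD0, mul_assoc]
          exact mul_le_mul_of_nonneg_left hN2 htp.le
        calc (|t| * N) ^ (-ρ) ≤ (|t| * Y / (k : ℝ) ^ D) ^ (-ρ) :=
              Real.rpow_le_rpow_of_nonpos (by positivity) h4 (by linarith)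
          _ = ((k : ℝ) ^ D) ^ ρ * (|t| * Y) ^ (-ρ) := by
              rw [Real.div_rpow (by positivity) hkD0.le, Real.rpow_neg hkD0.le, div_inv_eq_mul, mul_comm]
          _ ≤ (k : ℝ) ^ D * (|t| * Y) ^ (-ρ') := by
              apply mul_le_mul _ _ (by positivity) hkD0.le
              · calc ((k : ℝ) ^ D) ^ ρ ≤ ((k : ℝ) ^ D) ^ (1 : ℝ) :=
                      Real.rpow_le_rpow_of_exponent_le (one_le_pow₀ (by linarith)) hρ1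
                  _ = _ := Real.rpow_one _
              · exact Real.rpow_le_rpow_of_exponent_le hc (by linarith)
      calc Real.log N ^ B * (|t| * N) ^ (-ρ) ≤ ℓ ^ B * ((k : ℝ) ^ D * (|t| * Y) ^ (-ρ')) := by
            apply mul_le_mul (pow_le_pow_left₀ hlogN0 hlogN _) h3 (by positivity) (by positivity)
        _ ≤ ℓ ^ B * ((ℓ ^ 2) ^ D * (|t| * Y) ^ (-ρ')) := by gcongr
        _ = ℓ ^ (B + 2 * D) * (|t| * Y) ^ (-ρ') := by rw [pow_add, pow_mul]; ring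
    · rw [Real.rpow_neg hN0.le, Real.rpow_neg hY0.le]
      apply inv_anti₀ (by positivity)
      calc Y ^ ρ' ≤ Y ^ (1 / 2 * ρ) := Real.rpow_le_rpow_of_exponent_le hY1 (by linarith)
        _ = (Y ^ (1 / 2 : ℝ)) ^ ρ := Real.rpow_mul hY0.le _ _
        _ ≤ (N : ℝ) ^ ρ := Real.rpow_le_rpow (by positivity) hNh hρ0.le

/-- the values at primes, shifted to nonnegative numbers -/
noncomputable def yp (F : Finset ℝ) (a : ℝ → ℝ) (z : ℝ) (k q : ℕ) : ℝ := ph F a q + (Int.fract z + 2 ^ (k - 1))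

lemma yp_floor (F : Finset ℝ) (a : ℝ → ℝ) (z : ℝ) (k q : ℕ) (h : 0 ≤ yp F a z k q) :
    vz F a z q = ⌊z⌋ - 2 ^ (k - 1) + ((⌊yp F a z k q⌋₊ : ℕ) : ℤ) := by
  have h1 : ((⌊yp F a z k q⌋₊ : ℕ) : ℤ) = ⌊yp F a z k q⌋ := Int.natCast_floor_eq_floor h
  rw [h1]
  unfold vz yp
  have e1 : ph F a q + (Int.fract z + 2 ^ (k - 1)) = (ph F a q + z) + ((-⌊z⌋ + 2 ^ (k - 1) : ℤ) : ℝ) := by
    push_cast
    unfold Int.fract
    ring
  rw [e1, Int.floor_add_intCast]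
  ring

/-- the values at primes have laws in the class -/
theorem primes_PC (F : Finset ℝ) (c : ℝ) (hcF : c ∈ F) (hn : ∀ m : ℕ, c ≠ m) (hc : 0 < c) (hmax : ∀ x ∈ F, x ≤ c)
    (a : ℝ → ℝ) (ha : a c ≠ 0) : ∃ ρ : ℝ, 0 < ρ ∧ ρ ≤ 1 ∧ ∀ ρ' : ℝ, 0 < ρ' → ρ' ≤ ρ → ∀ W : ℕ, ∃ k₀ : ℕ, ∀ k : ℕ, k₀ ≤ k →
      ∀ X : ℕ, (X : ℝ) ^ c * k ≤ 2 ^ k → (2 : ℝ) ^ k ≤ (X : ℝ) ^ c * (k : ℝ) ^ W → ∀ z : ℝ,
      (PB X).Nonempty ∧ (∀ q ∈ PB X, 0 ≤ yp F a z k q ∧ yp F a z k q < 2 ^ k) ∧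
        PW (8 + 2 * W) ρ' (2 ^ k) (PB X) (yp F a z k) := by
  obtain ⟨ρ, hρ0, hρ1, hPW⟩ := primes_PWu F c hcF hn hc hmax a ha
  obtain ⟨X₁, h1⟩ := hPW 1 one_pos
  obtain ⟨X₂, hX₂, h2⟩ := card_pr
  refine ⟨ρ / 2, by positivity, by linarith, fun ρ' hρ'0 hρ' W => ?_⟩
  obtain ⟨k₁, hk₁⟩ := PW_scale 8 W ρ ρ' hρ0 hρ1 hρ'0 hρ'
  -- `X` is large
  obtain ⟨k₂, hk₂⟩ : ∃ k₂ : ℕ, ∀ k : ℕ, k₂ ≤ k → (((X₁ + X₂ + 3 : ℕ) : ℝ) ^ c) * (k : ℝ) ^ W < 2 ^ k := by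
    obtain ⟨k₂, h3⟩ := pow_le_two_rpow (W + 1) (1 / 2) (by norm_num)
    obtain ⟨k₃, h4⟩ := exists_nat_ge ((((X₁ + X₂ + 3 : ℕ) : ℝ) ^ c) + 1)
    refine ⟨k₂ + k₃ + 1, fun k hk => ?_⟩
    have hk1 : (1 : ℝ) ≤ k := by exact_mod_cast (by omega : 1 ≤ k)
    have h5 := h3 k (by omega)
    have h6 : (((X₁ + X₂ + 3 : ℕ) : ℝ) ^ c) < k := by
      have : (k₃ : ℝ) ≤ k := by exact_mod_cast (by omega : k₃ ≤ k)
      linarith
    have h7 : (0 : ℝ) < (k : ℝ) ^ W := by positivity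
    have h8 : (1 : ℝ) ≤ 2 ^ k := one_le_pow₀ (by norm_num)
    calc (((X₁ + X₂ + 3 : ℕ) : ℝ) ^ c) * (k : ℝ) ^ W < k * (k : ℝ) ^ W := mul_lt_mul_of_pos_right h6 h7
      _ = (k : ℝ) ^ (W + 1) := (pow_succ' _ _).symm
      _ ≤ ((2 : ℝ) ^ k) ^ (1 / 2 : ℝ) := h5
      _ ≤ ((2 : ℝ) ^ k) ^ (1 : ℝ) := Real.rpow_le_rpow_of_exponent_le h8 (by norm_num)
      _ = _ := Real.rpow_one _
  obtain ⟨k₃, hk₃⟩ := exists_nat_ge (8 * (Ac F c a + 1))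
  refine ⟨k₁ + k₂ + k₃ + 4, fun k hk X hX1 hX2 z => ?_⟩
  have hkr : (4 : ℝ) ≤ k := by exact_mod_cast (by omega : 4 ≤ k)
  have hk0 : (0 : ℝ) < k := by linarith
  have hXbig : X₁ + X₂ + 3 < X := by
    by_contra hcon
    push Not at hcon
    have h3 : (X : ℝ) ^ c ≤ ((X₁ + X₂ + 3 : ℕ) : ℝ) ^ c :=
      Real.rpow_le_rpow (Nat.cast_nonneg _) (by exact_mod_cast hcon) hc.le
    have h4 := hk₂ k (by omega)
    have h5 : (X : ℝ) ^ c * (k : ℝ) ^ W ≤ (((X₁ + X₂ + 3 : ℕ) : ℝ) ^ c) * (k : ℝ) ^ W :=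
      mul_le_mul_of_nonneg_right h3 (by positivity)
    linarith
  have hX1r : (1 : ℝ) ≤ X := by exact_mod_cast (by omega : 1 ≤ X)
  have hXc1 : 1 ≤ (X : ℝ) ^ c := Real.one_le_rpow hX1r hc.le
  have hXc0 : 0 < (X : ℝ) ^ c := by linarith
  have hA := Ac_pos F c a
  refine ⟨?_, fun q hq => ?_, ?_⟩
  · -- nonempty
    have h3 := h2 X (by omega)
    by_contra hne
    rw [not_nonempty_iff_eq_empty] at hne
    unfold PB at hne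
    rw [hne, card_empty, Nat.cast_zero, mul_zero] at h3
    linarith
  · unfold PB at hq
    rw [mem_filter, mem_Ioc] at hq
    have h3 := ph_size' F c hc hmax a X q (by omega) hq.1.1 hq.1.2 1 le_rfl (Int.fract z) (by
      rw [abs_of_nonneg (Int.fract_nonneg z), one_mul]
      exact (Int.fract_lt_one z).le.trans hXc1)
    have h4 : (Ac F c a + 1) * (X : ℝ) ^ c ≤ 2 ^ k / 8 := by
      rw [le_div_iff₀ (by norm_num)]
      have h5 : (k₃ : ℝ) ≤ k := by exact_mod_cast (by omega : k₃ ≤ k)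
      calc (Ac F c a + 1) * (X : ℝ) ^ c * 8 = (X : ℝ) ^ c * (8 * (Ac F c a + 1)) := by ring
        _ ≤ (X : ℝ) ^ c * k := mul_le_mul_of_nonneg_left (hk₃.trans h5) hXc0.le
        _ ≤ _ := hX1
    have h5 : (2 : ℝ) ^ k = 2 ^ (k - 1) * 2 := by rw [← pow_succ]; congr 1; omega
    have h6 : (0 : ℝ) < 2 ^ (k - 1) := by positivity
    rw [abs_le] at h3
    unfold yp
    rw [← add_assoc]
    constructor
    · linarith [h3.1]
    · linarith [h3.2]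
  · have h3 := (h1 X (by omega)).shift (Int.fract z + 2 ^ (k - 1))
    refine hk₁ k (by omega) (sc 1 c X) ?_ ?_ ℕ _ _ h3
    · have h4 := sc_le 1 c one_pos hc X (by omega)
      have h5 : (sc 1 c X : ℝ) ≤ 2 ^ k := by nlinarith
      exact_mod_cast h5
    · have h4 := sc_ge 1 c X
      rw [one_mul] at h4
      exact hX2.trans (mul_le_mul_of_nonneg_right h4 (by positivity))

open Classical in
/-- one polynomial -/
theorem pr_transfer (F : Finset ℝ) (c : ℝ) (hcF : c ∈ F) (hn : ∀ m : ℕ, c ≠ m) (hc : 0 < c) (hmax : ∀ x ∈ F, x ≤ c)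
    (a : ℝ → ℝ) (ha : a c ≠ 0) : ∃ ρ : ℝ, 0 < ρ ∧ ρ ≤ 1 ∧ ∀ W : ℕ, ∃ k₀ : ℕ, ∀ k : ℕ, k₀ ≤ k →
      ∀ X : ℕ, (X : ℝ) ^ c * k ≤ 2 ^ k → (2 : ℝ) ^ k ≤ (X : ℝ) ^ c * (k : ℝ) ^ W → ∀ z : ℝ,
      ∃ p : ℕ → ℝ, PC (8 + 2 * W) ρ k p ∧ ∀ (δ : ℝ) (Q : ℤ → Prop),
        ∑ v ∈ range (2 ^ k), (if Q (⌊z⌋ - 2 ^ (k - 1) + ((v : ℕ) : ℤ)) then 0 else p v) ≤ δ →
        (((PB X).filter (fun q => ¬ Q (vz F a z q))).card : ℝ) ≤ (PB X).card * δ := by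
  obtain ⟨ρ, hρ0, hρ1, h⟩ := primes_PC F c hcF hn hc hmax a ha
  refine ⟨ρ, hρ0, hρ1, fun W => ?_⟩
  obtain ⟨k₀, h0⟩ := h ρ hρ0 le_rfl W
  refine ⟨k₀, fun k hk X hX1 hX2 z => ?_⟩
  obtain ⟨h1, h2, h3⟩ := h0 k hk X hX1 hX2 z
  refine ⟨disR (PB X) (yp F a z k), ⟨ℕ, _, _, h1, h2, h3, rfl⟩, fun δ Q hQ => ?_⟩
  have h4 : ∑ v ∈ range (2 ^ k), (if Q (⌊z⌋ - 2 ^ (k - 1) + ((v : ℕ) : ℤ)) then 0 else disR (PB X) (yp F a z k) v) =
      ∑ v ∈ range (2 ^ k), disR (PB X) (yp F a z k) v * (if Q (⌊z⌋ - 2 ^ (k - 1) + ((v : ℕ) : ℤ)) then 0 else 1) := by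
    apply sum_congr rfl
    intro v _
    split_ifs <;> simp
  rw [h4, disR_sum_real (PB X) (yp F a z k) (2 ^ k) (by positivity) (fun i hi => by push_cast; exact (h2 i hi).2)
    (fun v => if Q (⌊z⌋ - 2 ^ (k - 1) + ((v : ℕ) : ℤ)) then 0 else 1)] at hQ
  have hs0 : (0 : ℝ) < (PB X).card := by exact_mod_cast h1.card_pos
  rw [div_le_iff₀ hs0, mul_comm δ] at hQ
  refine le_trans (le_of_eq ?_) hQ
  rw [card_filter]
  push_cast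
  apply sum_congr rfl
  intro q hq
  rw [yp_floor F a z k q (h2 q hq).1]
  split_ifs <;> simp_all

open Classical in
/-- several polynomials -/
theorem pr_transferV (r : ℕ) (F : Fin r → Finset ℝ) (c : Fin r → ℝ) (hcF : ∀ i, c i ∈ F i) (hn : ∀ i, ∀ m : ℕ, c i ≠ m)
    (hc : ∀ i, 0 < c i) (hmax : ∀ i, ∀ x ∈ F i, x ≤ c i) (a : Fin r → ℝ → ℝ) (ha : ∀ i, a i (c i) ≠ 0) :
    ∃ ρ : ℝ, 0 < ρ ∧ ρ ≤ 1 ∧ ∀ W : ℕ, ∃ k₀ : ℕ, ∀ k : ℕ, k₀ ≤ k →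
      ∀ X : Fin r → ℕ, (∀ i, (X i : ℝ) ^ c i * k ≤ 2 ^ k ∧ (2 : ℝ) ^ k ≤ (X i : ℝ) ^ c i * (k : ℝ) ^ W) → ∀ z : Fin r → ℝ,
      ∃ p : Fin r → ℕ → ℝ, (∀ i, PC (8 + 2 * W) ρ k (p i)) ∧ ∀ (δ : ℝ) (Q : (Fin r → ℤ) → Prop),
        ∑ v ∈ Fintype.piFinset (fun _ : Fin r => range (2 ^ k)),
          (if Q (fun i => ⌊z i⌋ - 2 ^ (k - 1) + ((v i : ℕ) : ℤ)) then 0 else ∏ i, p i (v i)) ≤ δ →
        (((Fintype.piFinset fun i => PB (X i)).filter (fun q => ¬ Q (fun i => vz (F i) (a i) (z i) (q i)))).card : ℝ) ≤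
          (∏ i, ((PB (X i)).card : ℝ)) * δ := by
  choose ρ hρ0 hρ1 h using fun i => primes_PC (F i) (c i) (hcF i) (hn i) (hc i) (hmax i) (a i) (ha i)
  obtain ⟨ρ', hρ'0, hρ'1, hρ'⟩ : ∃ ρ' : ℝ, 0 < ρ' ∧ ρ' ≤ 1 ∧ ∀ i, ρ' ≤ ρ i := by
    rcases isEmpty_or_nonempty (Fin r) with he | hne
    · exact ⟨1, one_pos, le_rfl, fun i => he.elim i⟩
    · obtain ⟨i₀, _, hi₀⟩ := exists_min_image univ ρ univ_nonempty
      exact ⟨ρ i₀, hρ0 i₀, hρ1 i₀, fun i => hi₀ i (mem_univ i)⟩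
  refine ⟨ρ', hρ'0, hρ'1, fun W => ?_⟩
  choose k₀ h0 using fun i => h i ρ' hρ'0 (hρ' i) W
  refine ⟨∑ i, k₀ i, fun k hk X hX z => ?_⟩
  have hki : ∀ i, k₀ i ≤ k := fun i => (single_le_sum (f := k₀) (fun _ _ => Nat.zero_le _) (mem_univ i)).trans hk
  have h1 := fun i => h0 i k (hki i) (X i) (hX i).1 (hX i).2 (z i)
  refine ⟨fun i => disR (PB (X i)) (yp (F i) (a i) (z i) k), fun i => ⟨ℕ, _, _, (h1 i).1, (h1 i).2.1, (h1 i).2.2, rfl⟩,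
    fun δ Q hQ => ?_⟩
  have h4 := count_disR_vec (fun i => PB (X i)) (fun i => (h1 i).1) (fun i => yp (F i) (a i) (z i) k) k
    (fun i j hj => ((h1 i).2.1 j hj).2) (fun v => Q (fun i => ⌊z i⌋ - 2 ^ (k - 1) + ((v i : ℕ) : ℤ))) δ (by
      refine le_trans (le_of_eq ?_) hQ
      apply sum_congr rfl
      intro v _
      split_ifs <;> simp_all)
  refine le_trans (le_of_eq ?_) h4
  congr 2
  apply filter_congr
  intro q hq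
  rw [Fintype.mem_piFinset] at hq
  have h5 : (fun i => vz (F i) (a i) (z i) (q i)) =
      fun i => ⌊z i⌋ - 2 ^ (k - 1) + ((⌊yp (F i) (a i) (z i) k (q i)⌋₊ : ℕ) : ℤ) := by
    funext i
    exact yp_floor (F i) (a i) (z i) k (q i) ((h1 i).2.1 _ (hq i)).1
  rw [h5]

/-- the scale -/
theorem scale_k (k₀ : ℕ) (ε : ℝ) (hε : 0 < ε) : ∃ M₀ : ℕ, ∀ M : ℕ, M₀ ≤ M → 3 ≤ Real.log M ∧ 1 ≤ Real.log (Real.log M) ∧
    ∃ k : ℕ, k₀ ≤ k ∧ 2 * M < 2 ^ k ∧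
    2 ^ k ≤ 4 * M ∧ Real.log M ≤ k ∧ (k : ℝ) ≤ 2 * Real.log M ∧ Real.log (Real.log M) ≤ Real.log k ∧
    Real.log k ≤ 2 * Real.log (Real.log M) ∧ Real.log M ≤ k * Real.log 2 ∧ k * Real.log 2 ≤ (1 + ε) * Real.log M := by
  have hlogT := Real.tendsto_log_atTop.comp (tendsto_natCast_atTop_atTop (R := ℝ))
  have hllT := Real.tendsto_log_atTop.comp hlogT
  obtain ⟨M₁, h1⟩ := eventually_atTop.mp ((hlogT.eventually_ge_atTop (10 + 2 / ε + 2 * k₀)).and (hllT.eventually_ge_atTop 2))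
  refine ⟨M₁ + 2, fun M hM => ?_⟩
  obtain ⟨f1, f2⟩ := h1 M (by omega)
  simp only [Function.comp] at f1 f2
  obtain ⟨ℓ, hℓ⟩ : ∃ ℓ : ℝ, ℓ = Real.log M := ⟨_, rfl⟩
  rw [← hℓ] at f1 f2 ⊢
  have hε2 : 0 < 2 / ε := by positivity
  have hk00 : (0 : ℝ) ≤ k₀ := Nat.cast_nonneg _
  refine ⟨by linarith, by linarith, ?_⟩
  have hM0 : (0 : ℝ) < M := by exact_mod_cast (by omega : 0 < M)
  obtain ⟨k, hk⟩ : ∃ k, k = Nat.log 2 M + 2 := ⟨_, rfl⟩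
  have g1 : 2 * M < 2 ^ k := by
    have h2 : M < 2 ^ (Nat.log 2 M + 1) := Nat.lt_pow_succ_log_self (by norm_num) M
    rw [hk, pow_succ]
    omega
  have g2 : 2 ^ k ≤ 4 * M := by
    have h2 : 2 ^ (Nat.log 2 M) ≤ M := Nat.pow_log_le_self 2 (by omega)
    rw [hk, pow_add]
    omega
  have l1 := Real.log_two_gt_d9
  have l2 := Real.log_two_lt_d9
  have e1 : ℓ ≤ k * Real.log 2 := by
    have h2 : (M : ℝ) ≤ 2 ^ k := by
      have : M ≤ 2 ^ k := by omega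
      exact_mod_cast this
    have h3 := Real.log_le_log hM0 h2
    rwa [Real.log_pow, ← hℓ] at h3
  have e2 : k * Real.log 2 ≤ ℓ + 2 * Real.log 2 := by
    have h2 : (2 : ℝ) ^ k ≤ 4 * M := by exact_mod_cast g2
    have h3 := Real.log_le_log (by positivity) h2
    rw [Real.log_pow, Real.log_mul (by norm_num) hM0.ne', ← hℓ] at h3
    have h4 : Real.log 4 = 2 * Real.log 2 := by
      rw [show (4 : ℝ) = 2 ^ 2 by norm_num, Real.log_pow]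
      norm_num
    linarith
  have hk0 : (0 : ℝ) ≤ k := Nat.cast_nonneg k
  have e3 : ℓ ≤ k := by nlinarith
  have e4 : (k : ℝ) ≤ 2 * ℓ := by nlinarith
  refine ⟨k, ?_, g1, g2, e3, e4, Real.log_le_log (by linarith) e3, ?_, e1, ?_⟩
  · have : (k₀ : ℝ) ≤ k := by linarith
    exact_mod_cast this
  · have h2 := Real.log_le_log (by linarith : (0 : ℝ) < k) e4
    rw [Real.log_mul (by norm_num) (by linarith)] at h2
    linarith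
  · have h2 : 2 * Real.log 2 ≤ ε * ℓ := by
      have h3 : 2 / ε ≤ ℓ := by linarith
      rw [div_le_iff₀ hε] at h3
      linarith
    linarith

/-- the change of the main term -/
lemma main_conv {G E E' η : ℝ} (h1 : E' ≤ E) (h2 : E ≤ (1 + η) * E') (hη : 0 ≤ η) (h0 : 0 ≤ E')
    (h : |G - E'| ≤ η * E') : |G - E| ≤ 2 * η * E := by
  have h3 : |G - E| ≤ |G - E'| + |E' - E| := abs_sub_le _ _ _
  have h4 : |E' - E| ≤ η * E' := by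
    rw [abs_sub_comm, abs_of_nonneg (by linarith)]
    linarith
  nlinarith

end Pool.Agent.Run7.h844.RP
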