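import Pool.Agent.Run7.h844.RP.Vec2
import Pool.Agent.N625.PT.I
import Pool.Agent.N469.TL.Pair1

set_option autoImplicit false

/-!
Prime pairs whose differences are near the members of real families, at the scale of the family.
-/

namespace Pool.Agent.Run7.h844.RP

open Finset Filter
open Pool.Agent.N384.MQ (ev_log_pow ev_log_ge scaleN)
open Pool.Agent.N193.PS (dg lt_dg dg_le log_le_dg dg_le_log dg_large log_pos4)
open Pool.Agent.N625.PT (TCls)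
open Pool.Agent.W93.TD (HLs)

open Classical in
/-- prime pairs at the scale of the values, one shift -/
theorem t_pair1 {C : ℕ → (ℕ → ℝ) → Prop} (hC : TCls 2 1 C) (B Bm U : ℕ) (ε : ℝ) (hε : 0 < ε) :
    ∃ k₀ : ℕ, ∀ k : ℕ, k₀ ≤ k → ∀ p, C k p → ∀ c : ℤ, |c| ≤ B * (2 : ℤ) ^ k → ∀ Y : ℕ, Y ≤ 2 ^ k → 2 ^ k ≤ Bm * Y →
      ∀ Q : ℕ → Prop, (∀ v, Q v → 0 < c + 1 * (v : ℕ) ∧ ¬ HLs ε U Y (fun _ : Fin 1 => (c + 1 * (v : ℕ)).toNat)) →
      ∑ v ∈ range (2 ^ k), (if Q v then p v else 0) ≤ 1 / (k : ℝ) ^ U := by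
  obtain ⟨F, hF, hlaw⟩ := hC.law
  obtain ⟨C₀, m₀, htl⟩ := hlaw 1 (2 * (2 * U + 5 + 1 + 2) + 6)
  obtain ⟨e, he⟩ : ∃ e, e = B + F + 3 := ⟨_, rfl⟩
  obtain ⟨K₀, h3⟩ := Pool.Agent.Y885.tl_tuples 1 2 15 C₀ (2 ^ e * Bm) U le_rfl le_rfl (by norm_num) ε hε
  refine ⟨m₀ + K₀ + 3 ^ e, fun m hm p hp c hc Y hY1 hY2 Q hQ => ?_⟩
  have h3e : 0 < 3 ^ e := by positivity
  have hm1 : 1 ≤ m := by omega
  have hm0 : (0 : ℝ) < m := by exact_mod_cast hm1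
  have hel : (e : ℝ) ≤ ((1 : ℕ) : ℝ) * Real.log m := by
    rw [Nat.cast_one, one_mul]
    have h4 : Real.exp e ≤ m := by
      rw [← Real.exp_one_pow]
      have h5 := Real.exp_one_lt_d9
      calc Real.exp 1 ^ e ≤ 3 ^ e := pow_le_pow_left₀ (Real.exp_pos 1).le (by linarith) e
        _ ≤ m := by exact_mod_cast (by omega : 3 ^ e ≤ m)
    have h5 := Real.log_le_log (Real.exp_pos _) h4
    rwa [Real.log_exp] at h5
  have hFe : Nat.log 2 (F * 1) ≤ e := by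
    rw [mul_one]
    exact (Nat.log_le_self 2 F).trans (by omega)
  have l1 := htl m (by omega) e hel 1 le_rfl hFe p hp c
  have hpos : (0 : ℤ) < (2 : ℤ) ^ m := by positivity
  have hsz : ∀ v ∈ range (2 ^ m), |((1 : ℕ) : ℤ) * (c + 1 * (v : ℕ))| ≤ (B + 1) * (2 : ℤ) ^ m := by
    intro v hv
    rw [mem_range] at hv
    rw [Nat.cast_one, one_mul, one_mul]
    calc |c + (v : ℕ)| ≤ |c| + |((v : ℕ) : ℤ)| := abs_add_le _ _
      _ ≤ B * (2 : ℤ) ^ m + (2 : ℤ) ^ m := by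
          apply add_le_add hc
          rw [Nat.abs_cast]
          exact_mod_cast hv.le
      _ = _ := by ring
  have hbig : ((B : ℤ) + 1) * (2 : ℤ) ^ m + 2 * (2 : ℤ) ^ m ≤ (2 : ℤ) ^ (m + e) := by
    have h5 : ((e : ℕ) : ℤ) ≤ (2 : ℤ) ^ e := by exact_mod_cast (Nat.lt_two_pow_self).le
    rw [pow_add, mul_comm ((2 : ℤ) ^ m)]
    have h6 : ((e : ℕ) : ℤ) * (2 : ℤ) ^ m ≤ (2 : ℤ) ^ e * (2 : ℤ) ^ m := mul_le_mul_of_nonneg_right h5 hpos.le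
    have h7 : ((e : ℕ) : ℤ) = (B : ℤ) + F + 3 := by rw [he]; push_cast; ring
    rw [h7] at h6
    have h8 : (0 : ℤ) ≤ (F : ℤ) * 2 ^ m := by positivity
    linarith
  have hYm : (Y : ℤ) ≤ (2 : ℤ) ^ m := by exact_mod_cast hY1
  have key := h3 (m + e) (by omega) ℕ inferInstance (fun _ => range (2 ^ m)) (fun _ => p)
    (fun _ v => ((1 : ℕ) : ℤ) * (c + 1 * (v : ℕ))) (fun _ => l1) (fun _ => hC.sum m p hp) Y
    (by
      calc 2 ^ (m + e) = 2 ^ m * 2 ^ e := pow_add _ _ _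
        _ ≤ (Bm * Y) * 2 ^ e := Nat.mul_le_mul_right _ hY2
        _ = 2 ^ e * Bm * Y := by ring)
    (by
      have : (Y : ℤ) ≤ (2 : ℤ) ^ (m + e) := by
        have h0 : (0 : ℤ) ≤ ((B : ℤ) + 1) * (2 : ℤ) ^ m := by positivity
        linarith
      exact_mod_cast this)
    (fun _ v hv => by
      have b1 := hsz v hv
      rw [abs_le] at b1
      push_cast at b1 hbig ⊢
      constructor
      · linarith [b1.1]
      · linarith [b1.2])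
    (fun ω => Q (ω 0)) (Classical.decPred _) (fun ω _ hω => by
      refine ⟨fun i => ?_, fun hcon => (hQ _ hω).2 ?_⟩
      · have : i = 0 := Subsingleton.elim _ _
        rw [this, Nat.cast_one, one_mul]
        exact (hQ _ hω).1.le
      · have e0 : (fun i : Fin 1 => (((1 : ℕ) : ℤ) * (c + 1 * (ω i : ℕ))).toNat) = (fun _ : Fin 1 => (c + 1 * (ω 0 : ℕ)).toNat) := by
          funext i
          have : i = 0 := Subsingleton.elim _ _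
          rw [this, Nat.cast_one, one_mul]
        rw [← e0]
        exact hcon)
  refine le_trans (le_of_eq ?_) (key.trans ?_)
  · rw [← Pool.Agent.N469.TL.pi_one (range (2 ^ m)) (fun v : ℕ => if Q v then p v else 0)]
    apply sum_congr rfl
    intro ω _
    rw [Fin.prod_univ_one]
  · apply one_div_le_one_div_of_le (by positivity)
    apply pow_le_pow_left₀ hm0.le
    push_cast
    have : (0 : ℝ) ≤ e := Nat.cast_nonneg _
    linarith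

open Classical in
/-- prime pairs at the scale of the values, all the integers near them -/
theorem t_pair {C : ℕ → (ℕ → ℝ) → Prop} (hC : TCls 2 1 C) (Bm W U : ℕ) (ε : ℝ) (hε : 0 < ε) :
    ∃ k₀ : ℕ, ∀ k : ℕ, k₀ ≤ k → ∀ p, C k p → ∀ c : ℤ, |c| ≤ (2 : ℤ) ^ k → ∀ Y : ℕ, Y ≤ 2 ^ k → 2 ^ k ≤ Bm * Y →
      ∑ v ∈ range (2 ^ k), (if ∀ q : ℤ, |q - (c + 1 * (v : ℕ))| ≤ ((k : ℕ) : ℤ) ^ W → 0 < q →
        HLs ε (U + 0 + W + 1) Y (fun _ : Fin 1 => q.toNat) then 0 else p v) ≤ 1 / (k : ℝ) ^ U := by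
  obtain ⟨k₀, h0⟩ := t_pair1 hC 2 Bm (U + 0 + W + 1) ε hε
  obtain ⟨k₁, h1⟩ : ∃ k₁ : ℕ, ∀ k : ℕ, k₁ ≤ k → k ^ W ≤ 2 ^ k := Pool.Agent.N469.TL.pow_two_ev' W
  refine ⟨k₀ + k₁ + 3, fun k hk p hp c hc Y hY1 hY2 => ?_⟩
  refine Pool.Agent.N625.PT.union 0 W U k (by omega) (2 ^ k) p (hC.nonneg k p hp)
    (fun _ s v => 0 < c + s + 1 * ((v : ℕ) : ℤ) ∧ ¬ HLs ε (U + 0 + W + 1) Y (fun _ : Fin 1 => (c + s + 1 * ((v : ℕ) : ℤ)).toNat))
    _ ?_ ?_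
  · intro v hv
    push Not at hv
    obtain ⟨q, hq, hq0, hbad⟩ := hv
    refine ⟨1, le_rfl, by simp, q - (c + 1 * (v : ℕ)), hq, ?_⟩
    have e1 : c + (q - (c + 1 * ((v : ℕ) : ℤ))) + 1 * ((v : ℕ) : ℤ) = q := by ring
    rw [e1]
    exact ⟨hq0, hbad⟩
  · intro h _ _ s hs
    have hW : (k : ℤ) ^ W ≤ (2 : ℤ) ^ k := by exact_mod_cast h1 k (by omega)
    refine h0 k (by omega) p hp (c + s) ?_ Y hY1 hY2 (fun v => 0 < c + s + 1 * ((v : ℕ) : ℤ) ∧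
      ¬ HLs ε (U + 0 + W + 1) Y (fun _ : Fin 1 => (c + s + 1 * ((v : ℕ) : ℤ)).toNat)) (fun v hv => hv)
    calc |c + s| ≤ |c| + |s| := abs_add_le _ _
      _ ≤ (2 : ℤ) ^ k + (2 : ℤ) ^ k := add_le_add hc (hs.trans hW)
      _ = ((2 : ℕ) : ℤ) * (2 : ℤ) ^ k := by push_cast; ring

/-- the scale for the pairs -/
lemma scaleP (a V k₀ B₁ : ℕ) (hB₁ : 1 ≤ B₁) : ∃ M₀ : ℕ, ∀ M : ℕ, M₀ ≤ M → 2 ≤ Real.log M ∧ ∃ k : ℕ, k₀ ≤ k ∧ Real.log M ≤ k ∧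
    2 * B₁ * M < 2 ^ k ∧ 2 ^ k ≤ 4 * B₁ * M ∧ ∀ N : ℕ, N ≤ B₁ * M → (M : ℝ) ≤ N * Real.log M ^ a →
      1 ≤ Real.log N ∧ Real.log N ≤ k ∧ (2 : ℝ) ^ k ≤ (k : ℝ) ^ (a + 1) * N ∧ (k : ℝ) ^ V ≤ Real.log N ^ (V + 1) := by
  obtain ⟨q₁, h2⟩ := eventually_atTop.mp ((ev_log_ge (2 * 12 ^ V + 4 * B₁ + 3 : ℝ)).and (ev_log_pow (2 * a) 1))
  have hp2 : 0 < 2 ^ k₀ := by positivity
  refine ⟨q₁ + 2 ^ k₀ + 4, fun M hM => ?_⟩
  obtain ⟨hL3, h4⟩ := h2 M (by omega)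
  have hB1r : (1 : ℝ) ≤ B₁ := by exact_mod_cast hB₁
  have h8 : (1 : ℝ) ≤ 12 ^ V := one_le_pow₀ (by norm_num)
  have hL0 : 0 < Real.log M := by linarith
  have hM0 : (0 : ℝ) < M := by exact_mod_cast (by omega : 0 < M)
  obtain ⟨M', hM'⟩ : ∃ M', M' = 2 * B₁ * M := ⟨_, rfl⟩
  have hMM : M ≤ M' := by
    rw [hM']
    exact Nat.le_mul_of_pos_left M (by omega)
  have hM'r : (M' : ℝ) = 2 * B₁ * M := by rw [hM']; push_cast; ring
  have hlog : Real.log M ≤ Real.log M' := Real.log_le_log hM0 (by exact_mod_cast hMM)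
  have hk1 : Real.log M' ≤ dg M' := log_le_dg M' (by omega)
  have hk2 : M' < 2 ^ dg M' := lt_dg M'
  have hk3 : 2 ^ dg M' ≤ 2 * M' := dg_le M' (by omega)
  have hk4 : (dg M' : ℝ) ≤ 3 * Real.log M' := dg_le_log M' (by omega)
  have hlog2 : Real.log M' ≤ 2 * Real.log M := by
    have h5 : (M' : ℝ) ≤ (M : ℝ) ^ 2 := by
      rw [hM'r, sq]
      apply mul_le_mul_of_nonneg_right _ hM0.le
      have h6 := Real.log_le_sub_one_of_pos hM0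
      linarith
    have h6 := Real.log_le_log (by exact_mod_cast (by omega : 0 < M')) h5
    rw [Real.log_pow] at h6
    push_cast at h6
    exact h6
  refine ⟨by linarith, dg M', dg_large k₀ M' (by omega), hlog.trans hk1, by rw [hM'] at hk2 ⊢; exact hk2, by
    rw [hM'] at hk3 ⊢
    refine hk3.trans (le_of_eq ?_)
    ring, fun N hN1 hN2 => ?_⟩
  have hk0 : (0 : ℝ) < dg M' := by linarith
  have hN0 : (0 : ℝ) < N := by
    rcases Nat.eq_zero_or_pos N with h0 | h0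
    · rw [h0, Nat.cast_zero, zero_mul] at hN2
      linarith
    · exact_mod_cast h0
  have hLa : 0 < Real.log M ^ a := by positivity
  have hMN : (M : ℝ) ≤ (N : ℝ) ^ 2 := by
    have h5 : Real.log M ^ a * Real.log M ^ a ≤ M := by
      rw [← pow_add, ← two_mul]
      linarith
    by_contra hcon
    push Not at hcon
    have h6 : (M : ℝ) * M ≤ (N * Real.log M ^ a) * (N * Real.log M ^ a) := mul_le_mul hN2 hN2 hM0.le (by positivity)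
    have h7 : (N * Real.log M ^ a) * (N * Real.log M ^ a) = (N : ℝ) ^ 2 * (Real.log M ^ a * Real.log M ^ a) := by ring
    have h9 : (N : ℝ) ^ 2 * (Real.log M ^ a * Real.log M ^ a) ≤ (N : ℝ) ^ 2 * M := by gcongr
    have h10 : (N : ℝ) ^ 2 * M < M * M := by
      apply mul_lt_mul_of_pos_right hcon hM0
    linarith
  have hlogN : Real.log M ≤ 2 * Real.log N := by
    have h5 := Real.log_le_log hM0 hMN
    rw [Real.log_pow] at h5
    push_cast at h5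
    exact h5
  have hlN : 12 ^ V + 1 ≤ Real.log N := by linarith
  refine ⟨by linarith, ?_, ?_, ?_⟩
  · refine le_trans (Real.log_le_log hN0 ?_) hk1
    have : N ≤ M' := by
      rw [hM']
      calc N ≤ B₁ * M := hN1
        _ ≤ 2 * B₁ * M := Nat.mul_le_mul_right _ (by omega)
    exact_mod_cast this
  · have h5 : (2 : ℝ) ^ dg M' ≤ 4 * B₁ * M := by
      have : ((2 ^ dg M' : ℕ) : ℝ) ≤ ((2 * M' : ℕ) : ℝ) := by exact_mod_cast hk3
      push_cast at this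
      rw [hM'r] at this
      linarith
    calc (2 : ℝ) ^ dg M' ≤ 4 * B₁ * M := h5
      _ ≤ dg M' * (N * Real.log M ^ a) := mul_le_mul (by linarith) hN2 hM0.le hk0.le
      _ ≤ dg M' * (N * (dg M' : ℝ) ^ a) := by
          have : Real.log M ≤ dg M' := hlog.trans hk1
          gcongr
      _ = _ := by rw [pow_succ]; ring
  · have h5 : (dg M' : ℝ) ≤ 12 * Real.log N := by linarith
    have hl0 : 0 < Real.log N := by linarith
    calc (dg M' : ℝ) ^ V ≤ (12 * Real.log N) ^ V := pow_le_pow_left₀ hk0.le h5 V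
      _ = 12 ^ V * Real.log N ^ V := mul_pow _ _ _
      _ ≤ Real.log N * Real.log N ^ V := mul_le_mul_of_nonneg_right (by linarith) (by positivity)
      _ = _ := (pow_succ' _ _).symm

open Classical in
/-- **prime pairs for families** -/
theorem pair_fam (B : ℕ) (δ : ℝ) (hδ : 0 < δ) (hδ1 : δ ≤ 1) (a B₁ W U : ℕ) (hB₁ : 1 ≤ B₁) (ε : ℝ) (hε : 0 < ε) :
    ∃ V M₀ : ℕ, ∀ M : ℕ, M₀ ≤ M → ∀ N : ℕ, N ≤ B₁ * M → (M : ℝ) ≤ N * Real.log M ^ a →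
    ∀ Y : ℕ, Y ≤ B₁ * M → M ≤ B₁ * Y → ∀ (ι : Type) (s : Finset ι) (y : ι → ℝ), (∀ i ∈ s, |y i| ≤ B₁ * M) → ES B δ V N s y →
    ((s.filter fun i => ¬ NearP (fun D => HLs ε (U + 0 + (W + 1) + 1) Y (fun _ : Fin 1 => D)) (Real.log M ^ W) (y i)).card : ℝ) ≤
      s.card / Real.log M ^ U := by
  obtain ⟨P, hP⟩ : ∃ P : ℕ → ℤ → Prop, P = fun Y q => 0 < q → HLs ε (U + 0 + (W + 1) + 1) Y (fun _ : Fin 1 => q.toNat) := ⟨_, rfl⟩
  obtain ⟨V, k₀, h0⟩ := fin_form2 (B + (a + 1)) δ hδ hδ1 (fun k p => ∃ c : ℤ, |c| ≤ (2 : ℤ) ^ k ∧ ∃ Y : ℕ, Y ≤ 2 ^ k ∧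
    2 ^ k ≤ (4 * B₁ * B₁) * Y ∧ 1 / (k : ℝ) ^ U < ∑ v ∈ range (2 ^ k), (if ∀ q : ℤ,
      |q - (c + 1 * (v : ℕ))| ≤ ((k : ℕ) : ℤ) ^ (W + 1) → P Y q then 0 else p v)) (fun C hC => by
      obtain ⟨k₀, h1⟩ := t_pair (hC 1 one_ne_zero).2 (4 * B₁ * B₁) (W + 1) U ε hε
      refine ⟨k₀, fun k hk p hp => ?_⟩
      rintro ⟨c, hc, Y, hY1, hY2, hlt⟩
      rw [hP] at hlt
      exact absurd (h1 k hk p hp c hc Y hY1 hY2) (not_le.2 hlt))
  obtain ⟨N₁, h1⟩ := scaleP a V k₀ B₁ hB₁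
  refine ⟨V + 1, N₁, fun M hM N hN1 hN2 Y hY1 hY2 ι s y hy hes => ?_⟩
  obtain ⟨hL2, k, hk0, g1, g2, g3, g4⟩ := h1 M hM
  obtain ⟨e1, e2, e3, e4⟩ := g4 N hN1 hN2
  have hL0 : 0 < Real.log M := by linarith
  rcases s.eq_empty_or_nonempty with hs | hs
  · rw [hs]
    simp
  have hZr : 2 * ((B₁ * M : ℕ) : ℝ) < 2 ^ k := by
    have : ((2 * B₁ * M : ℕ) : ℝ) < ((2 ^ k : ℕ) : ℝ) := by exact_mod_cast g2
    push_cast at this ⊢
    linarith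
  have hrange : ∀ i ∈ s, 0 ≤ y i + ((B₁ * M : ℕ) : ℝ) ∧ y i + ((B₁ * M : ℕ) : ℝ) < 2 ^ k := by
    intro i hi
    have h2 := abs_le.1 (hy i hi)
    push_cast at hZr ⊢
    constructor
    · linarith [h2.1]
    · linarith [h2.2]
  have hRS := RS_of_ES hδ hδ1 e1 e2 e3 e4 (hes.shift ((B₁ * M : ℕ) : ℝ))
  have h3 := h0 k hk0 (disR s (fun i => y i + ((B₁ * M : ℕ) : ℝ))) ⟨ι, s, _, hs, hrange, hRS, rfl⟩
  have h5 : ∑ v ∈ range (2 ^ k), (if ∀ q : ℤ, |q - (-((B₁ * M : ℕ) : ℤ) + 1 * (v : ℕ))| ≤ ((k : ℕ) : ℤ) ^ (W + 1) → P Y q then 0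
      else disR s (fun i => y i + ((B₁ * M : ℕ) : ℝ)) v) ≤ 1 / (k : ℝ) ^ U := by
    by_contra hcon
    refine h3 ⟨-((B₁ * M : ℕ) : ℤ), ?_, Y, ?_, ?_, not_le.1 hcon⟩
    · rw [abs_neg, abs_of_nonneg (Int.natCast_nonneg _)]
      have : B₁ * M ≤ 2 ^ k := by nlinarith [Nat.zero_le (B₁ * M)]
      exact_mod_cast this
    · nlinarith [Nat.zero_le (B₁ * M)]
    · calc 2 ^ k ≤ 4 * B₁ * M := g3
        _ ≤ 4 * B₁ * (B₁ * Y) := Nat.mul_le_mul_left _ hY2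
        _ = 4 * B₁ * B₁ * Y := by ring
  have h6 := count_disR s hs (fun i => y i + ((B₁ * M : ℕ) : ℝ)) k (fun i hi => (hrange i hi).2)
    (fun v => ∀ q : ℤ, |q - (-((B₁ * M : ℕ) : ℤ) + 1 * (v : ℕ))| ≤ ((k : ℕ) : ℤ) ^ (W + 1) → P Y q) _ h5
  refine le_trans ?_ (h6.trans ?_)
  · apply card_filter_mono'
    intro i hi hn hcon
    refine hn fun D hD0 hD => ?_
    have h8 : -((B₁ * M : ℕ) : ℤ) + 1 * ((⌊y i + ((B₁ * M : ℕ) : ℝ)⌋₊ : ℕ) : ℤ) = ⌊y i⌋ := by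
      rw [Int.natCast_floor_eq_floor (hrange i hi).1, Int.floor_add_natCast]
      ring
    rw [h8, hP] at hcon
    have h9 := hcon (D : ℤ) (near_fl W k _ (y i) hL2 g1 (D : ℤ) (by rw [Int.cast_natCast]; exact hD)) (by exact_mod_cast hD0)
    rwa [Int.toNat_natCast] at h9
  · rw [mul_one_div]
    apply div_le_div_of_nonneg_left (Nat.cast_nonneg _) (by positivity)
    exact pow_le_pow_left₀ hL0.le g1 U

open Classical in
/-- **prime pairs near values at primes** -/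
theorem pair_primes (F : Finset ℝ) (c : ℝ) (hcF : c ∈ F) (hn : ∀ m : ℕ, c ≠ m) (hc : 0 < c) (hmax : ∀ x ∈ F, x ≤ c)
    (a : ℝ → ℝ) (ha : a c ≠ 0) (r W U : ℕ) (ε : ℝ) (hε : 0 < ε) : ∃ X₀ : ℕ, ∀ X : ℕ, X₀ ≤ X → ∀ n : ℕ,
    (X : ℝ) ^ c ≤ n → (n : ℝ) ≤ (X : ℝ) ^ c * Real.log n ^ r → ∀ Y : ℕ, Y ≤ n → n ≤ 4 * Y →
    ∀ z : ℝ, |z| ≤ (X : ℝ) ^ c →
      (((Ioc X (2 * X)).filter fun p : ℕ => p.Prime ∧
        ¬ NearP (fun D => HLs ε (U + 0 + (W + 1) + 1) Y (fun _ : Fin 1 => D)) (Real.log n ^ W) (ph F a p + z)).card : ℝ) ≤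
        X / Real.log n ^ U := by
  obtain ⟨B₁, hB₁⟩ := exists_nat_ge (Ac F c a + 5)
  have hA1 : 1 ≤ Ac F c a := by
    unfold Ac
    have : 0 ≤ ∑ x ∈ F, |a x| := sum_nonneg fun _ _ => abs_nonneg _
    have : 0 ≤ (2 : ℝ) ^ c * ∑ x ∈ F, |a x| := by positivity
    linarith
  have hB1 : 6 ≤ B₁ := by
    have : (6 : ℝ) ≤ B₁ := by linarith
    exact_mod_cast this
  obtain ⟨V, M₀, h0⟩ := pair_fam 8 (1 / 2) (by norm_num) (by norm_num) r B₁ W U (by omega) ε hε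
  obtain ⟨X₁, h1⟩ := primes_ES F c hcF hn hc hmax a ha (Ac F c a) (Ac_pos F c a) V
  obtain ⟨X₂, h2⟩ := eventually_atTop.mp (((tendsto_rpow_atTop hc).comp
    (tendsto_natCast_atTop_atTop (R := ℝ))).eventually_ge_atTop ((M₀ + 3 : ℕ) : ℝ))
  refine ⟨X₁ + X₂ + 1, fun X hX n hn1 hn2 Y hY1 hY2 z hz => ?_⟩
  have h3 : ((M₀ + 3 : ℕ) : ℝ) ≤ (X : ℝ) ^ c := h2 X (by omega)
  have hnM : M₀ + 3 ≤ n := by exact_mod_cast h3.trans hn1
  have hXc : 0 < (X : ℝ) ^ c := by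
    have : (0 : ℝ) < X := by exact_mod_cast (by omega : 0 < X)
    positivity
  have hn0 : (0 : ℝ) ≤ n := Nat.cast_nonneg _
  have hsc1 : (sc (Ac F c a) c X : ℝ) ≤ B₁ * n := by
    refine (sc_le _ _ (Ac_pos _ _ _) hc X (by omega)).trans ?_
    calc (Ac F c a + 1) * (X : ℝ) ^ c ≤ (B₁ : ℝ) * (X : ℝ) ^ c := mul_le_mul_of_nonneg_right (by linarith) hXc.le
      _ ≤ B₁ * n := mul_le_mul_of_nonneg_left hn1 (Nat.cast_nonneg _)
  have hsc2 : (X : ℝ) ^ c ≤ sc (Ac F c a) c X := by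
    have := sc_ge (Ac F c a) c X
    nlinarith
  have hlogn : 0 ≤ Real.log n := Real.log_natCast_nonneg n
  have h4 := h0 n (by omega) (sc (Ac F c a) c X) (by exact_mod_cast hsc1)
    (hn2.trans (mul_le_mul_of_nonneg_right hsc2 (by positivity))) Y (hY1.trans (Nat.le_mul_of_pos_left n (by omega)))
    (by nlinarith) ℕ ((Ioc X (2 * X)).filter Nat.Prime) (fun p => ph F a p + z) (fun p hp => by
      rw [mem_filter, mem_Ioc] at hp
      exact (ph_size F c hc hmax a X p (by omega) hp.1.1 hp.1.2 z hz).trans hsc1) ((h1 X (by omega)).shift z)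
  rw [filter_filter] at h4
  refine h4.trans ?_
  exact div_le_div_of_nonneg_right (card_le_X X) (by positivity)

end Pool.Agent.Run7.h844.RP
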