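import Pool.Agent.Run7.h844.RP.PwT5

set_option autoImplicit false
set_option maxHeartbeats 4000000

/-!
The descents of the recursion `a(k) = |a(k-1) - gcd(a(k-1), k ^ p - 1)|` from a zero at `n` to the next zero, at the members of
families of integers with small exponential sums.
-/

namespace Pool.Agent.Run7.h844.RP

open Finset Filter
open Pool.Agent.H399R2
open Pool.Agent.H373R2.T7 (pz mem_pz)
open scoped Classical

/-- there is a descent from a zero at `n` which is shorter than the maximal possible one by less than `H` -/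
def Dft (p H n : ℕ) : Prop := ∃ b : ℕ → ℤ, ∃ n' : ℕ,
  (∀ k : ℕ, n < k → b k = |b (k - 1) - ((Int.gcd (b (k - 1)) ((k : ℤ) ^ p - 1) : ℕ) : ℤ)|) ∧
  b n = 0 ∧ n < n' ∧ b n' = 0 ∧ (∀ k : ℕ, n < k → k < n' → b k ≠ 0) ∧ (n + 1) ^ p + n < n' + H

lemma Dft_fac (p : ℕ) (hp : p.Prime) (H n : ℕ) (hn : 3 * H + 8 ≤ n) (h : Dft p H n) :
    ∃ e : ℕ, e < H ∧ ∀ r : ℕ, r.Prime → r ≤ n → ¬ QP p e r n := by
  obtain ⟨b, n', hrec, hbn, hnn', hbn', hne, hlong⟩ := h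
  obtain ⟨t, ht⟩ : ∃ t, n' = n + t := ⟨n' - n, by omega⟩
  subst ht
  have ht1 : 1 ≤ t := by omega
  obtain ⟨X, hX⟩ : ∃ X, X = (n + 1) ^ p - 1 := ⟨_, rfl⟩
  have hpow : (n + 1) ^ 2 ≤ (n + 1) ^ p := Nat.pow_le_pow_right (by omega) hp.two_le
  have hpow2 : (n + 1) ^ 2 = n * n + 2 * n + 1 := by ring
  have hXe : (n + 1) ^ p = X + 1 := by omega
  have hb1 : b (n + 1) = (X : ℤ) := by
    rw [hrec (n + 1) (by omega), Nat.add_sub_cancel, hbn]
    have e1 : (((n + 1 : ℕ) : ℤ) ^ p - 1) = (X : ℤ) := by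
      have : (((n + 1 : ℕ) : ℤ) ^ p) = (((n + 1) ^ p : ℕ) : ℤ) := by push_cast; ring
      rw [this, hXe]
      push_cast
      ring
    rw [e1, Int.gcd_zero_left, Int.natAbs_natCast, zero_sub, abs_neg, Nat.abs_cast]
  have hseg : Seg (fun j => (b (n + j)).natAbs) (fun j => ((n + j : ℕ) : ℤ) ^ p - 1) 1 t :=
    seg_of_zeros (a := fun j => b (n + j)) (V := fun j => ((n + j : ℕ) : ℤ) ^ p - 1)
      (by
        show 0 ≤ b (n + 1)
        rw [hb1]
        positivity)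
      (fun j hj => by
        have e1 := hrec (n + j) (by omega)
        have e2 : n + j - 1 = n + (j - 1) := by omega
        rw [e2] at e1
        exact e1) le_rfl ht1 (fun k h1 h2 => hne (n + k) (by omega) (by omega))
  have hx1 : (b (n + 1)).natAbs = X := by rw [hb1, Int.natAbs_natCast]
  have hdec := seg_dec' hseg t ht1 le_rfl
  try simp only at hdec
  rw [hx1] at hdec
  have htX : t ≤ X + 1 := by omega
  obtain ⟨l, hsl, hle, hrun, hineq⟩ := hseg.final (by show (b (n + t)).natAbs = 0; rw [hbn']; rfl) 1 le_rfl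
    (by
      intro r hr k hk h
      rw [one_mul] at h
      try simp only at h ⊢
      have h2 : (r : ℤ) ∣ (((n + (k + r) : ℕ) : ℤ) ^ p - 1) - (((n + k : ℕ) : ℤ) ^ p - 1) := by
        have e1 : (((n + (k + r) : ℕ) : ℤ) ^ p - 1) - (((n + k : ℕ) : ℤ) ^ p - 1) =
            ((n + (k + r) : ℕ) : ℤ) ^ p - ((n + k : ℕ) : ℤ) ^ p := by ring
        rw [e1]
        have h3 := sub_dvd_pow_sub_pow ((n + (k + r) : ℕ) : ℤ) ((n + k : ℕ) : ℤ) p
        refine dvd_trans ?_ h3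
        have : ((n + (k + r) : ℕ) : ℤ) - ((n + k : ℕ) : ℤ) = r := by push_cast; ring
        rw [this]
      have h4 := dvd_sub h h2
      rwa [sub_sub_cancel] at h4)
    (by
      right
      refine ⟨n + 1, ?_⟩
      intro k hk
      try simp only
      have hpar : (((n + k : ℕ) : ℤ) ^ p - 1) % 2 = (((n + k : ℕ) : ℤ) - 1) % 2 := by
        have h1 : (((n + k : ℕ) : ℤ) ^ p) % 2 = ((n + k : ℕ) : ℤ) % 2 := by
          rcases Int.emod_two_eq_zero_or_one ((n + k : ℕ) : ℤ) with h | h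
          · have h2 : (2 : ℤ) ∣ ((n + k : ℕ) : ℤ) ^ p :=
              dvd_pow (Int.dvd_of_emod_eq_zero h) hp.ne_zero
            omega
          · have h2 : Odd ((n + k : ℕ) : ℤ) := Int.odd_iff.mpr h
            have h3 : Odd (((n + k : ℕ) : ℤ) ^ p) := h2.pow
            rw [Int.odd_iff.mp h3, h]
        omega
      constructor
      · intro h
        omega
      · intro h
        omega)
  try simp only at hineq hrun
  rw [hx1] at hineq
  have hnn : n * (3 * H + 8) ≤ n * n := Nat.mul_le_mul_left n hn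
  have hnn2 : n * (3 * H + 8) = 3 * (n * H) + 8 * n := by ring
  have hnH : H ≤ n * H := Nat.le_mul_of_pos_left H (by omega)
  refine ⟨X + 1 - t, by omega, fun r hr hrn hQ => ?_⟩
  -- `(n' + 1) ^ p - 1` is divisible by `r`
  have hdvd : (r : ℤ) ∣ ((n + t + 1 : ℕ) : ℤ) ^ p - 1 := by
    unfold QP at hQ
    have e1 : ((n : ℤ) + 1) ^ p + n + 1 - ((X + 1 - t : ℕ) : ℤ) = ((n + t + 1 : ℕ) : ℤ) := by
      have e2 : ((n : ℤ) + 1) ^ p = ((X + 1 : ℕ) : ℤ) := by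
        rw [← hXe]
        push_cast
        ring
      rw [e2, Nat.cast_sub htX]
      push_cast
      ring
    rwa [e1] at hQ
  have hrt : r ≤ t - 1 := by omega
  have hr0 := hr.pos
  have hkey : t - l < r := by
    by_contra hcon
    push Not at hcon
    obtain ⟨h1, h2⟩ := hrun (t - r) (by omega) (by omega)
    have h3 : (b (n + (t - r))).natAbs = r := by omega
    rw [h3] at h1
    have h4 : (r : ℤ) ∣ ((n + (t - r + 1) : ℕ) : ℤ) ^ p - 1 := by
      have e1 : (r : ℤ) ∣ (((n + t + 1 : ℕ) : ℤ) ^ p - 1) - (((n + (t - r + 1) : ℕ) : ℤ) ^ p - 1) := by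
        have e2 : (((n + t + 1 : ℕ) : ℤ) ^ p - 1) - (((n + (t - r + 1) : ℕ) : ℤ) ^ p - 1) =
            ((n + t + 1 : ℕ) : ℤ) ^ p - ((n + (t - r + 1) : ℕ) : ℤ) ^ p := by ring
        rw [e2]
        refine dvd_trans ?_ (sub_dvd_pow_sub_pow _ _ p)
        have : ((n + t + 1 : ℕ) : ℤ) - ((n + (t - r + 1) : ℕ) : ℤ) = r := by omega
        rw [this]
      have e3 := dvd_sub hdvd e1
      rwa [sub_sub_cancel] at e3
    have h5 : (r : ℤ) ∣ (Int.gcd (r : ℤ) (((n + (t - r + 1) : ℕ) : ℤ) ^ p - 1) : ℤ) :=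
      Int.dvd_coe_gcd (dvd_refl _) h4
    rw [h1] at h5
    have h6 : r ∣ 1 := by exact_mod_cast h5
    exact hr.one_lt.ne' (Nat.dvd_one.mp h6)
  omega

/-- few small members -/
lemma IF_small8 : ∃ T₀ : ℝ, ∀ T : ℝ, T₀ ≤ T → ∀ (ι : Type) (s : Finset ι) (v : ι → ℤ), IF T s v →
    ((s.filter (fun i => (1 : ℤ) ≤ v i ∧ v i < 1 + (⌈T ^ (1 / 8 : ℝ)⌉₊ : ℕ))).card : ℝ) ≤ s.card / Real.log T ^ 2 := by
  have hlim : ∀ᶠ T : ℝ in atTop, 1 ≤ T ∧ 1 ≤ Real.log T ∧ 24 * Real.log T ^ 2 ≤ T ^ (3 / 8 : ℝ) := by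
    have h1 : (fun x : ℝ => Real.log x ^ 2) =o[atTop] (fun x : ℝ => x ^ (3 / 8 : ℝ)) := by
      have := isLittleO_log_rpow_rpow_atTop (s := 3 / 8) ((2 : ℕ) : ℝ) (by norm_num)
      refine this.congr' ?_ (Eventually.of_forall fun _ => rfl)
      filter_upwards [eventually_ge_atTop (1 : ℝ)] with x hx
      rw [Real.rpow_natCast]
    have h2 := h1.def (show (0 : ℝ) < 1 / 24 by norm_num)
    filter_upwards [eventually_ge_atTop (1 : ℝ), Real.tendsto_log_atTop.eventually_ge_atTop 1, h2] with T g1 g2 g3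
    refine ⟨g1, g2, ?_⟩
    rw [Real.norm_of_nonneg (by positivity), Real.norm_of_nonneg (by positivity)] at g3
    linarith
  obtain ⟨T₂, hT₂⟩ := eventually_atTop.1 hlim
  refine ⟨T₂, fun T hT ι s v hv => ?_⟩
  obtain ⟨g1, g2, g3⟩ := hT₂ T hT
  have hT0 : 0 < T := by linarith
  have hs0 : (0 : ℝ) ≤ s.card := Nat.cast_nonneg _
  have hl2 : 0 < Real.log T ^ 2 := by positivity
  obtain ⟨U, hU⟩ : ∃ U : ℕ, U = ⌈T ^ (1 / 8 : ℝ)⌉₊ := ⟨_, rfl⟩
  rw [← hU]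
  have hT8 : 1 ≤ T ^ (1 / 8 : ℝ) := Real.one_le_rpow g1 (by norm_num)
  have hU2 : (U : ℝ) ≤ 2 * T ^ (1 / 8 : ℝ) := by
    have : (U : ℝ) < T ^ (1 / 8 : ℝ) + 1 := by rw [hU]; exact Nat.ceil_lt_add_one (by positivity)
    linarith
  obtain ⟨m, hm⟩ : ∃ m : ℕ, m = ⌈T ^ (1 / 2 : ℝ)⌉₊ := ⟨_, rfl⟩
  have hT2 : 1 ≤ T ^ (1 / 2 : ℝ) := Real.one_le_rpow g1 (by norm_num)
  have hm1 : T ^ (1 / 2 : ℝ) ≤ m := by rw [hm]; exact Nat.le_ceil _
  have hm2 : (m : ℝ) ≤ 2 * T ^ (1 / 2 : ℝ) := by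
    have : (m : ℝ) < T ^ (1 / 2 : ℝ) + 1 := by rw [hm]; exact Nat.ceil_lt_add_one (by positivity)
    linarith
  have hm0 : 1 ≤ m := by exact_mod_cast hT2.trans hm1
  refine (IF_small hT0 hv m hm0 1 U).trans ?_
  have e1 : (T : ℝ) ^ (1 / 2 : ℝ) * T ^ (1 / 2 : ℝ) = T := by
    rw [← Real.rpow_add hT0]; norm_num
  have hT20 : 0 < T ^ (1 / 2 : ℝ) := by positivity
  have e2 : (s.card : ℝ) / m ≤ s.card / T ^ (1 / 2 : ℝ) := div_le_div_of_nonneg_left hs0 hT20 hm1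
  have e3 : (s.card : ℝ) * m / T ≤ 2 * (s.card / T ^ (1 / 2 : ℝ)) := by
    rw [mul_div_assoc', div_le_div_iff₀ hT0 hT20]
    calc (s.card : ℝ) * m * T ^ (1 / 2 : ℝ) ≤ s.card * (2 * T ^ (1 / 2 : ℝ)) * T ^ (1 / 2 : ℝ) := by
          apply mul_le_mul_of_nonneg_right _ hT20.le
          exact mul_le_mul_of_nonneg_left hm2 hs0
      _ = 2 * s.card * (T ^ (1 / 2 : ℝ) * T ^ (1 / 2 : ℝ)) := by ring
      _ = 2 * s.card * T := by rw [e1]
  have e5 : (T : ℝ) ^ (1 / 8 : ℝ) * T ^ (3 / 8 : ℝ) = T ^ (1 / 2 : ℝ) := by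
    rw [← Real.rpow_add hT0]; norm_num
  calc (U : ℝ) * (s.card / m + s.card * m / T) ≤
        (2 * T ^ (1 / 8 : ℝ)) * (s.card / T ^ (1 / 2 : ℝ) + 2 * (s.card / T ^ (1 / 2 : ℝ))) :=
        mul_le_mul hU2 (add_le_add e2 e3) (by positivity) (by positivity)
    _ = (s.card : ℝ) * (6 * T ^ (1 / 8 : ℝ)) / T ^ (1 / 2 : ℝ) := by ring
    _ ≤ s.card / Real.log T ^ 2 := by
        rw [div_le_div_iff₀ hT20 hl2, ← e5]
        calc (s.card : ℝ) * (6 * T ^ (1 / 8 : ℝ)) * Real.log T ^ 2 ≤ s.card * (T ^ (1 / 8 : ℝ) * (24 * Real.log T ^ 2)) := by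
              have : 0 ≤ (s.card : ℝ) * T ^ (1 / 8 : ℝ) * Real.log T ^ 2 := by positivity
              nlinarith
          _ ≤ s.card * (T ^ (1 / 8 : ℝ) * T ^ (3 / 8 : ℝ)) := by gcongr

/-- one value of the defect -/
lemma fam_h (p : ℕ) (hp : p.Prime) (h : ℕ) : ∃ C : ℝ, 0 ≤ C ∧ ∃ T₀ : ℝ, ∀ T : ℝ, T₀ ≤ T → ∀ (ι : Type) (s : Finset ι) (v : ι → ℤ),
    IF T s v → ((s.filter fun i => ∀ r : ℕ, r.Prime → (r : ℝ) ≤ T ^ (1 / 8 : ℝ) → ¬ QP p h r (v i)).card : ℝ) ≤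
      C * (s.card / Real.log T ^ 2) := by
  obtain ⟨k, hk2, hk⟩ := rq_QP_le p h hp
  obtain ⟨δ, hδ0, hδ8, T₁, H⟩ := up_sieve' k
  obtain ⟨C₁, hC₁, h1⟩ := QP_sum p h hp
  obtain ⟨T₂, hT₂⟩ := eventually_atTop.1 ((eventually_ge_atTop (1 : ℝ)).and (Real.tendsto_log_atTop.eventually_ge_atTop 1))
  refine ⟨2 * (Real.exp C₁ * (2 / δ) ^ 2) + 1, by positivity, max T₁ T₂, fun T hT ι s v hv => ?_⟩
  obtain ⟨g1, g2⟩ := hT₂ T ((le_max_right _ _).trans hT)
  obtain ⟨z4, hlz, hup⟩ := H T ((le_max_left _ _).trans hT)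
  have hs0 : (0 : ℝ) ≤ s.card := Nat.cast_nonneg _
  have hl2 : 0 < Real.log T ^ 2 := by positivity
  obtain ⟨z, hz⟩ : ∃ z : ℕ, z = ⌊T ^ δ⌋₊ := ⟨_, rfl⟩
  rw [← hz] at z4 hlz hup
  have h5 := hup ι s v hv (QP p h) (QP_per p h) hk
  have h6 := h1 z (by omega)
  have hlz0 : 0 < δ / 2 * Real.log T := by positivity
  have hlz1 : 0 < Real.log z := hlz0.trans_le hlz
  have h7 : Real.exp (-∑ r ∈ pz z, (rq (QP p h) r : ℝ) / r) ≤ Real.exp C₁ * (2 / δ) ^ 2 / Real.log T ^ 2 := by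
    have e1 : Real.exp (-∑ r ∈ pz z, (rq (QP p h) r : ℝ) / r) ≤ Real.exp (-(2 * Real.log (Real.log z)) + C₁) := by
      apply Real.exp_le_exp.2
      linarith
    refine e1.trans ?_
    have e2 : Real.exp (-(2 * Real.log (Real.log z)) + C₁) = (Real.log z ^ 2)⁻¹ * Real.exp C₁ := by
      rw [Real.exp_add, Real.exp_neg]
      congr 2
      have : 2 * Real.log (Real.log z) = Real.log (Real.log z ^ 2) := by
        rw [Real.log_pow]; norm_num
      rw [this, Real.exp_log (by positivity)]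
    rw [e2]
    have e3 : (Real.log z ^ 2)⁻¹ ≤ ((δ / 2 * Real.log T) ^ 2)⁻¹ := by
      apply inv_anti₀ (by positivity)
      exact pow_le_pow_left₀ hlz0.le hlz 2
    calc (Real.log z ^ 2)⁻¹ * Real.exp C₁ ≤ ((δ / 2 * Real.log T) ^ 2)⁻¹ * Real.exp C₁ :=
          mul_le_mul_of_nonneg_right e3 (by positivity)
      _ = _ := by
          rw [mul_pow, div_pow, div_pow]
          field_simp
  have hsub : (s.filter fun i => ∀ r : ℕ, r.Prime → (r : ℝ) ≤ T ^ (1 / 8 : ℝ) → ¬ QP p h r (v i)) ⊆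
      s.filter fun i => ∀ r : ℕ, r.Prime → (r : ℝ) ≤ T ^ δ → ¬ QP p h r (v i) := by
    intro i hi
    rw [mem_filter] at hi ⊢
    refine ⟨hi.1, fun r hr hrT => hi.2 r hr (hrT.trans ?_)⟩
    exact Real.rpow_le_rpow_of_exponent_le g1 hδ8
  have hcard : ((s.filter fun i => ∀ r : ℕ, r.Prime → (r : ℝ) ≤ T ^ (1 / 8 : ℝ) → ¬ QP p h r (v i)).card : ℝ) ≤
      ((s.filter fun i => ∀ r : ℕ, r.Prime → (r : ℝ) ≤ T ^ δ → ¬ QP p h r (v i)).card : ℝ) := by
    exact_mod_cast card_le_card hsub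
  have h9 : (s.card : ℝ) / Real.log T ^ k ≤ s.card / Real.log T ^ 2 :=
    div_le_div_of_nonneg_left hs0 hl2 (pow_le_pow_right₀ g2 hk2)
  calc _ ≤ 2 * (s.card * Real.exp (-∑ r ∈ pz z, (rq (QP p h) r : ℝ) / r)) + s.card / Real.log T ^ k := hcard.trans h5
    _ ≤ 2 * (s.card * (Real.exp C₁ * (2 / δ) ^ 2 / Real.log T ^ 2)) + s.card / Real.log T ^ 2 := by
        apply add_le_add _ h9
        apply mul_le_mul_of_nonneg_left _ (by norm_num)
        exact mul_le_mul_of_nonneg_left h7 hs0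
    _ = _ := by ring

/-- **every prime `p`** -/
theorem fam_p (p : ℕ) (hp : p.Prime) (H : ℕ) : ∃ C : ℝ, 0 < C ∧ ∃ T₀ : ℝ, ∀ T : ℝ, T₀ ≤ T → ∀ (ι : Type) (s : Finset ι) (v : ι → ℤ),
    IF T s v → ((s.filter fun i => 0 < v i ∧ Dft p H (v i).toNat).card : ℝ) ≤ C * (s.card / Real.log T ^ 2) := by
  obtain ⟨T₁, h1⟩ := IF_small8
  choose C hC T₂ h2 using fam_h p hp
  obtain ⟨T₃, h3⟩ := eventually_atTop.1 ((tendsto_rpow_atTop (show (0 : ℝ) < 1 / 8 by norm_num)).eventually_ge_atTop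
    ((3 * H + 8 : ℕ) : ℝ))
  obtain ⟨B, hB⟩ : ∃ B : ℝ, B = ∑ h ∈ range H, |T₂ h| := ⟨_, rfl⟩
  refine ⟨1 + ∑ h ∈ range H, C h, by
    have : 0 ≤ ∑ h ∈ range H, C h := sum_nonneg fun h _ => hC h
    linarith, max T₁ (max B T₃), fun T hT ι s v hv => ?_⟩
  have g1 := h1 T ((le_max_left _ _).trans hT) ι s v hv
  have hBT : B ≤ T := ((le_max_left _ _).trans (le_max_right _ _)).trans hT
  have g3 := h3 T (((le_max_right _ _).trans (le_max_right _ _)).trans hT)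
  have hsub : (s.filter fun i => 0 < v i ∧ Dft p H (v i).toNat) ⊆
      s.filter (fun i => (1 : ℤ) ≤ v i ∧ v i < 1 + (⌈T ^ (1 / 8 : ℝ)⌉₊ : ℕ)) ∪
      (range H).biUnion (fun h => s.filter fun i => ∀ r : ℕ, r.Prime → (r : ℝ) ≤ T ^ (1 / 8 : ℝ) → ¬ QP p h r (v i)) := by
    intro i hi
    rw [mem_filter] at hi
    obtain ⟨hi1, hi2, hi3⟩ := hi
    rw [mem_union, mem_filter, mem_biUnion]
    by_cases hs : v i < 1 + (⌈T ^ (1 / 8 : ℝ)⌉₊ : ℕ)
    · exact Or.inl ⟨hi1, by omega, hs⟩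
    · right
      push Not at hs
      obtain ⟨N, hN⟩ : ∃ N : ℕ, v i = N := ⟨(v i).toNat, by omega⟩
      rw [hN, Int.toNat_natCast] at hi3
      have hNT : T ^ (1 / 8 : ℝ) ≤ N := by
        have e1 : ⌈T ^ (1 / 8 : ℝ)⌉₊ ≤ N := by omega
        exact (Nat.le_ceil _).trans (by exact_mod_cast e1)
      have hN8 : 3 * H + 8 ≤ N := by
        have : ((3 * H + 8 : ℕ) : ℝ) ≤ N := g3.trans hNT
        exact_mod_cast this
      obtain ⟨e, he, hfac⟩ := Dft_fac p hp H N hN8 hi3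
      refine ⟨e, mem_range.2 he, ?_⟩
      rw [mem_filter, hN]
      refine ⟨hi1, fun r hr hrT => hfac r hr ?_⟩
      have : (r : ℝ) ≤ N := hrT.trans hNT
      exact_mod_cast this
  have hcard : ((s.filter fun i => 0 < v i ∧ Dft p H (v i).toNat).card : ℝ) ≤
      ((s.filter (fun i => (1 : ℤ) ≤ v i ∧ v i < 1 + (⌈T ^ (1 / 8 : ℝ)⌉₊ : ℕ))).card : ℝ) +
      ∑ h ∈ range H, ((s.filter fun i => ∀ r : ℕ, r.Prime → (r : ℝ) ≤ T ^ (1 / 8 : ℝ) → ¬ QP p h r (v i)).card : ℝ) := by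
    have e1 := (card_le_card hsub).trans ((card_union_le _ _).trans (Nat.add_le_add_left card_biUnion_le _))
    exact_mod_cast e1
  have hB' : ∀ h ∈ range H, ((s.filter fun i => ∀ r : ℕ, r.Prime → (r : ℝ) ≤ T ^ (1 / 8 : ℝ) → ¬ QP p h r (v i)).card : ℝ) ≤
      C h * (s.card / Real.log T ^ 2) := by
    intro h hh
    apply h2 h T _ ι s v hv
    refine (le_abs_self _).trans (le_trans ?_ hBT)
    rw [hB]
    exact single_le_sum (f := fun h => |T₂ h|) (fun _ _ => abs_nonneg _) hh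
  calc _ ≤ s.card / Real.log T ^ 2 + ∑ h ∈ range H, C h * (s.card / Real.log T ^ 2) :=
        hcard.trans (add_le_add g1 (sum_le_sum hB'))
    _ = _ := by
        rw [← sum_mul]
        ring

/-- for `p = 2` the descents are those of `tr` -/
lemma Dft_two (H n : ℕ) (h : Dft 2 H n) : (n + 1) ^ 2 < tr n + H := by
  obtain ⟨b, n', hrec, hbn, hnn', hbn', hne, hlong⟩ := h
  have hb : ∀ j : ℕ, b (n + j) = ar n j := by
    intro j
    induction j with
    | zero => rw [Nat.add_zero, hbn, ar]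
    | succ j ih =>
      rw [ar, ← ih]
      exact hrec (n + (j + 1)) (by omega)
  have htr : tr n = n' - n := by
    unfold tr
    apply le_antisymm
    · apply Nat.sInf_le
      refine ⟨by omega, ?_⟩
      rw [← hb]
      have : n + (n' - n) = n' := by omega
      rw [this]
      exact hbn'
    · apply le_csInf
      · refine ⟨n' - n, by omega, ?_⟩
        rw [← hb]
        have : n + (n' - n) = n' := by omega
        rw [this]
        exact hbn'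
      · intro j hj
        by_contra hcon
        push Not at hcon
        have h1 := hne (n + j) (by have := hj.1; omega) (by omega)
        rw [hb] at h1
        exact h1 hj.2
  omega

end Pool.Agent.Run7.h844.RP
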