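import Pool.Agent.Run7.h844.RP.App
import Pool.Agent.N384.MQ.Dec

set_option autoImplicit false
set_option maxHeartbeats 4000000

/-!
Finite families of reals whose exponential sums are small with a power saving; the exponential sums over their integer parts;
the values of a generalised polynomial at primes.
-/

namespace Pool.Agent.Run7.h844.RP

open Finset Filter
open Pool.Agent.H469R2.NK (e norm_e e_add)
open Pool.Agent.H807R2.Dav (ee norm_ee ee_add)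
open Pool.Agent.N193.PS (log_pow_ev ee_eq_e floor_sum e_int')

lemma rpow_large (C ε : ℝ) (hε : 0 < ε) : ∃ N₀ : ℕ, ∀ N : ℕ, N₀ ≤ N → C ≤ (N : ℝ) ^ ε := by
  have h1 := ((tendsto_rpow_atTop hε).comp tendsto_natCast_atTop_atTop).eventually_ge_atTop C
  obtain ⟨N₀, h2⟩ := eventually_atTop.1 h1
  exact ⟨N₀, h2⟩

/-- the exponential sums of the family are small with a power saving -/
def PW {ι : Type} (B : ℕ) (ρ : ℝ) (N : ℕ) (s : Finset ι) (y : ι → ℝ) : Prop :=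
  ∀ t : ℝ, t ≠ 0 → |t| ≤ (N : ℝ) ^ ρ →
    ‖∑ i ∈ s, e (t * y i)‖ ≤ s.card * (Real.log N ^ B * (|t| * N) ^ (-ρ) + (N : ℝ) ^ (-ρ))

lemma PW.shift {ι : Type} {B : ℕ} {ρ : ℝ} {N : ℕ} {s : Finset ι} {y : ι → ℝ} (h : PW B ρ N s y) (z : ℝ) :
    PW B ρ N s (fun i => y i + z) := by
  intro t ht0 ht
  refine le_trans (le_of_eq ?_) (h t ht0 ht)
  have h1 : ∑ i ∈ s, e (t * (y i + z)) = e (t * z) * ∑ i ∈ s, e (t * y i) := by
    rw [mul_sum]
    refine sum_congr rfl fun i _ => ?_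
    rw [← e_add]
    congr 1
    ring
  rw [h1, norm_mul, norm_e, one_mul]

/-- exponential sums over the integer parts -/
theorem floor_pw (B : ℕ) (ρ θ : ℝ) (hρ0 : 0 < ρ) (hρ1 : ρ ≤ 1) (hθ0 : 0 < θ) (hθ1 : θ ≤ 1) : ∃ N₀ : ℕ, ∀ N : ℕ, N₀ ≤ N →
    ∀ (ι : Type) (s : Finset ι) (y : ι → ℝ), PW B ρ N s y → ∀ α δ : ℝ, (N : ℝ) ^ (θ - 1) ≤ δ → (∀ m : ℤ, δ ≤ |α - m|) →
    ‖∑ i ∈ s, e (α * ⌊y i⌋)‖ ≤ s.card * (N : ℝ) ^ (-(θ * ρ / 16)) := by
  obtain ⟨u, hu⟩ : ∃ u : ℝ, u = θ * ρ := ⟨_, rfl⟩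
  have hu0 : 0 < u := by rw [hu]; positivity
  have huρ : u ≤ ρ := by rw [hu]; nlinarith
  obtain ⟨N₁, h1⟩ := rpow_large 1025 (ρ - 3 * (u / 8)) (by linarith)
  obtain ⟨N₂, h2⟩ := eventually_atTop.mp ((tendsto_natCast_atTop_atTop (R := ℝ)).eventually
    (log_pow_ev B (2 * (1032 * 8 * 2)) (u / 2) (by norm_num) (by positivity)))
  obtain ⟨N₃, h3⟩ := rpow_large 20 (u / 8 - u / 16) (by linarith)
  refine ⟨N₁ + N₂ + N₃ + 3, fun N hN ι s y hy α δ hδ hα => ?_⟩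
  have hN3 : (3 : ℝ) ≤ N := by exact_mod_cast (by omega : 3 ≤ N)
  have hN1 : (1 : ℝ) ≤ N := by linarith
  have hN0 : (0 : ℝ) < N := by linarith
  obtain ⟨Q, hQ⟩ : ∃ Q : ℕ, Q = ⌈(N : ℝ) ^ (u / 8)⌉₊ := ⟨_, rfl⟩
  have hp1 : 1 ≤ (N : ℝ) ^ (u / 8) := Real.one_le_rpow hN1 (by positivity)
  have hQge : (N : ℝ) ^ (u / 8) ≤ Q := by rw [hQ]; exact Nat.le_ceil _
  have hQle : (Q : ℝ) ≤ 2 * (N : ℝ) ^ (u / 8) := by
    have : (Q : ℝ) < (N : ℝ) ^ (u / 8) + 1 := by rw [hQ]; exact Nat.ceil_lt_add_one (by positivity)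
    linarith
  have hQ1r : (1 : ℝ) ≤ Q := hp1.trans hQge
  have hQ1 : 1 ≤ Q := by exact_mod_cast hQ1r
  have hQ3 : (Q : ℝ) ^ 3 ≤ 8 * (N : ℝ) ^ (3 * (u / 8)) := by
    calc (Q : ℝ) ^ 3 ≤ (2 * (N : ℝ) ^ (u / 8)) ^ 3 := pow_le_pow_left₀ (by positivity) hQle 3
      _ = 8 * ((N : ℝ) ^ (u / 8)) ^ 3 := by ring
      _ = _ := by
          rw [← Real.rpow_natCast, ← Real.rpow_mul hN0.le]
          congr 2
          push_cast
          ring
  have hp3 : 1 ≤ (N : ℝ) ^ (3 * (u / 8)) := Real.one_le_rpow hN1 (by positivity)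
  have hNρ : 128 * (Q : ℝ) ^ 3 + 1 ≤ (N : ℝ) ^ ρ := by
    calc 128 * (Q : ℝ) ^ 3 + 1 ≤ 1025 * (N : ℝ) ^ (3 * (u / 8)) := by linarith
      _ ≤ (N : ℝ) ^ (ρ - 3 * (u / 8)) * (N : ℝ) ^ (3 * (u / 8)) := mul_le_mul_of_nonneg_right (h1 N (by omega)) (by positivity)
      _ = (N : ℝ) ^ ρ := by
          rw [← Real.rpow_add hN0]
          congr 1
          ring
  have hlog0 : 0 ≤ Real.log (N : ℝ) := Real.log_nonneg hN1
  obtain ⟨E, hE⟩ : ∃ E : ℝ, E = s.card * ((Real.log N ^ B + 1) * (N : ℝ) ^ (-u)) := ⟨_, rfl⟩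
  have hE0 : 0 ≤ E := by rw [hE]; positivity
  have hcard0 : (0 : ℝ) ≤ s.card := Nat.cast_nonneg _
  have hNu : (N : ℝ) ^ (-ρ) ≤ (N : ℝ) ^ (-u) := Real.rpow_le_rpow_of_exponent_le hN1 (by linarith)
  have hδ0 : 0 < δ := lt_of_lt_of_le (by positivity) hδ
  have hfreq : ∀ t : ℝ, (N : ℝ) ^ (θ - 1) ≤ |t| → |t| ≤ (N : ℝ) ^ ρ → ‖∑ i ∈ s, e (t * y i)‖ ≤ E := by
    intro t ht1 ht2
    have htp : 0 < |t| := lt_of_lt_of_le (by positivity) ht1
    refine (hy t (abs_pos.1 htp) ht2).trans ?_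
    rw [hE]
    apply mul_le_mul_of_nonneg_left _ hcard0
    have h4 : (|t| * N) ^ (-ρ) ≤ (N : ℝ) ^ (-u) := by
      have h5 : (N : ℝ) ^ θ ≤ |t| * N := by
        calc (N : ℝ) ^ θ = (N : ℝ) ^ (θ - 1) * N := by
              rw [← Real.rpow_add_one hN0.ne']
              congr 1
              ring
          _ ≤ _ := mul_le_mul_of_nonneg_right ht1 hN0.le
      calc (|t| * N) ^ (-ρ) ≤ ((N : ℝ) ^ θ) ^ (-ρ) := Real.rpow_le_rpow_of_nonpos (by positivity) h5 (by linarith)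
        _ = (N : ℝ) ^ (-u) := by
            rw [← Real.rpow_mul hN0.le, hu]
            congr 1
            ring
    calc Real.log N ^ B * (|t| * N) ^ (-ρ) + (N : ℝ) ^ (-ρ) ≤ Real.log N ^ B * (N : ℝ) ^ (-u) + (N : ℝ) ^ (-u) :=
          add_le_add (mul_le_mul_of_nonneg_left h4 (by positivity)) hNu
      _ = _ := by ring
  obtain ⟨β, hβ⟩ : ∃ β : ℝ, β = α - round α := ⟨_, rfl⟩
  have hβ1 : |β| ≤ 1 := by
    rw [hβ]
    exact (abs_sub_round α).trans (by norm_num)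
  have hfl := floor_sum s y Q hQ1 β hβ1 E hE0 (by
    intro m hm
    apply hfreq
    · refine hδ.trans ?_
      have h4 := hα (round α - m)
      refine h4.trans (le_of_eq ?_)
      rw [hβ]
      congr 1
      push_cast
      ring
    · have h4 : |((m : ℤ) : ℝ)| ≤ 128 * (Q : ℝ) ^ 3 := by
        have : |((m : ℤ) : ℝ)| ≤ ((128 * Q ^ 3 : ℕ) : ℝ) := by exact_mod_cast hm.le
        refine this.trans (le_of_eq ?_)
        push_cast
        ring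
      calc |β + m| ≤ |β| + |(m : ℝ)| := abs_add_le _ _
        _ ≤ 1 + 128 * (Q : ℝ) ^ 3 := add_le_add hβ1 h4
        _ ≤ _ := by linarith) (by
    intro m hm0 hm
    have h4 : (1 : ℝ) ≤ |(m : ℝ)| := by
      have : 1 ≤ |m| := Int.one_le_abs hm0
      exact_mod_cast this
    apply hfreq
    · refine le_trans ?_ h4
      exact Real.rpow_le_one_of_one_le_of_nonpos hN1 (by linarith)
    · have h5 : |((m : ℤ) : ℝ)| ≤ Q := by exact_mod_cast hm.le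
      have h6 : (Q : ℝ) ≤ (Q : ℝ) ^ 3 := le_self_pow₀ hQ1r (by norm_num)
      linarith)
  have hsum : ∑ i ∈ s, e (α * ⌊y i⌋) = ∑ i ∈ s, e (β * ⌊y i⌋) := by
    refine sum_congr rfl fun i _ => ?_
    have h4 : α * ⌊y i⌋ = β * ⌊y i⌋ + ((round α * ⌊y i⌋ : ℤ) : ℝ) := by
      rw [hβ]
      push_cast
      ring
    rw [h4, e_add, e_int', mul_one]
  rw [hsum]
  refine hfl.trans ?_
  have hk2 := h2 N (by omega)
  have hlogB : Real.log (N : ℝ) ^ B + 1 ≤ 2 * (1 + Real.log (N : ℝ)) ^ B := by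
    have h4 : Real.log (N : ℝ) ^ B ≤ (1 + Real.log (N : ℝ)) ^ B := pow_le_pow_left₀ hlog0 (by linarith) B
    have h5 : 1 ≤ (1 + Real.log (N : ℝ)) ^ B := one_le_pow₀ (by linarith)
    linarith
  have hN16 : (N : ℝ) ^ (-(θ * ρ / 16)) = (N : ℝ) ^ (-(u / 16)) := by rw [hu]
  rw [hN16]
  have hpart1 : (128 * (Q : ℝ) ^ 3 + 8) * E ≤ s.card * ((N : ℝ) ^ (-(u / 16)) / 2) := by
    rw [hE]
    have h4 : 128 * (Q : ℝ) ^ 3 + 8 ≤ 1032 * 8 * (N : ℝ) ^ (3 * (u / 8)) := by linarith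
    have h5 : 1032 * 8 * (N : ℝ) ^ (3 * (u / 8)) * ((Real.log N ^ B + 1) * (N : ℝ) ^ (-u)) ≤ (N : ℝ) ^ (-(u / 16)) / 2 := by
      have h6 : 1032 * 8 * (Real.log N ^ B + 1) ≤ (N : ℝ) ^ (u / 2) / 2 := by linarith
      calc 1032 * 8 * (N : ℝ) ^ (3 * (u / 8)) * ((Real.log N ^ B + 1) * (N : ℝ) ^ (-u)) =
          (1032 * 8 * (Real.log N ^ B + 1)) * ((N : ℝ) ^ (3 * (u / 8)) * (N : ℝ) ^ (-u)) := by ring
        _ ≤ ((N : ℝ) ^ (u / 2) / 2) * ((N : ℝ) ^ (3 * (u / 8)) * (N : ℝ) ^ (-u)) :=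
            mul_le_mul_of_nonneg_right h6 (by positivity)
        _ = (N : ℝ) ^ (u / 2 + (3 * (u / 8) + -u)) / 2 := by
            rw [Real.rpow_add hN0, Real.rpow_add hN0]
            ring
        _ ≤ (N : ℝ) ^ (-(u / 16)) / 2 := by
            apply div_le_div_of_nonneg_right _ (by norm_num)
            apply Real.rpow_le_rpow_of_exponent_le hN1
            linarith
    calc (128 * (Q : ℝ) ^ 3 + 8) * (s.card * ((Real.log N ^ B + 1) * (N : ℝ) ^ (-u))) ≤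
        (1032 * 8 * (N : ℝ) ^ (3 * (u / 8))) * (s.card * ((Real.log N ^ B + 1) * (N : ℝ) ^ (-u))) :=
          mul_le_mul_of_nonneg_right h4 (by positivity)
      _ = s.card * (1032 * 8 * (N : ℝ) ^ (3 * (u / 8)) * ((Real.log N ^ B + 1) * (N : ℝ) ^ (-u))) := by ring
      _ ≤ _ := mul_le_mul_of_nonneg_left h5 hcard0
  have hpart2 : 10 * (s.card / (Q : ℝ)) ≤ s.card * ((N : ℝ) ^ (-(u / 16)) / 2) := by
    have h4 : 20 ≤ (N : ℝ) ^ (-(u / 16)) * Q := by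
      calc (20 : ℝ) ≤ (N : ℝ) ^ (u / 8 - u / 16) := h3 N (by omega)
        _ = (N : ℝ) ^ (-(u / 16)) * (N : ℝ) ^ (u / 8) := by
            rw [← Real.rpow_add hN0]
            congr 1
            ring
        _ ≤ _ := mul_le_mul_of_nonneg_left hQge (by positivity)
    have hQ0 : (0 : ℝ) < Q := by linarith
    rw [mul_div_assoc', div_le_iff₀ hQ0]
    nlinarith
  linarith

/-- the exponential sums of the family of integers at the frequencies far from the integers are small -/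
def IF {ι : Type} (T : ℝ) (s : Finset ι) (v : ι → ℤ) : Prop :=
  ∀ α δ : ℝ, 0 < δ → (∀ m : ℤ, δ ≤ |α - m|) → ‖∑ i ∈ s, ee (α * v i)‖ ≤ s.card / (δ * T)

theorem pw_IF (B : ℕ) (ρ : ℝ) (hρ0 : 0 < ρ) (hρ1 : ρ ≤ 1) : ∃ N₀ : ℕ, ∀ N : ℕ, N₀ ≤ N →
    ∀ (ι : Type) (s : Finset ι) (y : ι → ℝ), PW B ρ N s y → IF ((N : ℝ) ^ (ρ / 32)) s (fun i => ⌊y i⌋) := by
  obtain ⟨N₀, h0⟩ := floor_pw B ρ (1 / 2) hρ0 hρ1 (by norm_num) (by norm_num)
  refine ⟨N₀ + 1, fun N hN ι s y hy α δ hδ hα => ?_⟩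
  have hN1 : (1 : ℝ) ≤ N := by exact_mod_cast (by omega : 1 ≤ N)
  have hN0 : (0 : ℝ) < N := by linarith
  have hcard0 : (0 : ℝ) ≤ s.card := Nat.cast_nonneg _
  obtain ⟨T, hT⟩ : ∃ T : ℝ, T = (N : ℝ) ^ (ρ / 32) := ⟨_, rfl⟩
  rw [← hT]
  have hT0 : 0 < T := by rw [hT]; positivity
  have hδ1 : δ ≤ 1 := (hα (round α)).trans ((abs_sub_round α).trans (by norm_num))
  rcases le_or_gt (δ * T) 1 with h1 | h1
  · have h2 : ‖∑ i ∈ s, ee (α * ((⌊y i⌋ : ℤ) : ℝ))‖ ≤ s.card := by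
      refine (norm_sum_le _ _).trans ?_
      simp only [norm_ee, sum_const, nsmul_eq_mul, mul_one]
      exact le_rfl
    refine h2.trans ?_
    rw [le_div_iff₀ (by positivity)]
    nlinarith
  · have h2 := h0 N (by omega) ι s y hy α δ (by
      have h3 : T⁻¹ ≤ δ := by
        rw [inv_le_iff_one_le_mul₀ hT0]
        exact h1.le
      refine le_trans ?_ h3
      rw [hT, ← Real.rpow_neg hN0.le]
      apply Real.rpow_le_rpow_of_exponent_le hN1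
      linarith) hα
    have h3 : ∑ i ∈ s, ee (α * ((⌊y i⌋ : ℤ) : ℝ)) = ∑ i ∈ s, e (α * ((⌊y i⌋ : ℤ) : ℝ)) := by
      refine sum_congr rfl fun i _ => ?_
      rw [ee_eq_e]
    rw [h3]
    refine h2.trans ?_
    rw [le_div_iff₀ (by positivity)]
    have h4 : (N : ℝ) ^ (-(1 / 2 * ρ / 16)) * T = 1 := by
      rw [hT, ← Real.rpow_add hN0]
      have : -(1 / 2 * ρ / 16) + ρ / 32 = 0 := by ring
      rw [this, Real.rpow_zero]
    have h5 : 0 < (N : ℝ) ^ (-(1 / 2 * ρ / 16)) := by positivity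
    calc s.card * (N : ℝ) ^ (-(1 / 2 * ρ / 16)) * (δ * T) = s.card * (((N : ℝ) ^ (-(1 / 2 * ρ / 16)) * T) * δ) := by ring
      _ = s.card * δ := by rw [h4, one_mul]
      _ ≤ s.card * 1 := mul_le_mul_of_nonneg_left hδ1 hcard0
      _ = s.card := mul_one _

end Pool.Agent.Run7.h844.RP
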