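import Pool.Agent.Run7.h844.RP.PwPu
import Pool.Agent.Run7.h844.RP.Pw
import Pool.Agent.Run7.h582.FM.De4

set_option autoImplicit false
set_option maxHeartbeats 4000000

/-!
Families with a power saving in all exponential sums have a polynomial decay of the exponential sums of the integer parts in
the distance to the integers; the diagonal Moebius-twisted Elliott-Halberstam bound for the values of a generalised polynomial
at primes.
-/

namespace Pool.Agent.Run7.h844.RP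

open Finset Filter
open Pool.Agent.H469R2.NK (e norm_e e_add)
open Pool.Agent.H807R2.Dav (ee norm_ee ee_add)
open Pool.Agent.N193.PS (log_pow_ev ee_eq_e e_int')
open Pool.Agent.Run7.h582.FM (CH Pde de_scale)
open Pool.Agent.R311.DEH

lemma e_lip7 (a b : ℝ) : ‖e a - e b‖ ≤ 7 * |a - b| := Pool.Agent.N193.PS.e_lip a b

theorem pw_CH (B : ℕ) (ρ : ℝ) (hρ0 : 0 < ρ) (hρ1 : ρ ≤ 1) (A : ℕ) (hA : 32 / ρ ≤ A) : ∃ N₀ : ℕ, ∀ N : ℕ, N₀ ≤ N →
    ∀ (ι : Type) (s : Finset ι) (y : ι → ℝ), PW B ρ N s y → ∀ k : ℕ, (2 : ℝ) ^ k * (2 * Real.log N ^ B) ^ A ≤ N → ∀ r : ℤ,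
    CH A k ι s (fun i => ⌊y i⌋ + r) := by
  obtain ⟨N₁, h1⟩ := floor_pw B ρ (1 / 2) hρ0 hρ1 (by norm_num) (by norm_num)
  obtain ⟨N₂, h2⟩ := rpow_large 16 (ρ / 2 - ρ / 32) (by linarith)
  refine ⟨N₁ + N₂ + 3, fun N hN ι s y hy k hk r α => ?_⟩
  have hN3 : (3 : ℝ) ≤ N := by exact_mod_cast (by omega : 3 ≤ N)
  have hN1 : (1 : ℝ) ≤ N := by linarith
  have hN0 : (0 : ℝ) < N := by linarith
  have hl1 : 1 ≤ Real.log (N : ℝ) := by
    rw [Real.le_log_iff_exp_le hN0]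
    have := Real.exp_one_lt_d9
    linarith
  obtain ⟨β, hβ⟩ : ∃ β : ℝ, β = α - round α := ⟨_, rfl⟩
  have hβh : |β| ≤ 1 / 2 := by rw [hβ]; exact abs_sub_round α
  obtain ⟨n, hn⟩ : ∃ n : ℝ, n = s.card := ⟨_, rfl⟩
  have hn0 : 0 ≤ n := by rw [hn]; positivity
  obtain ⟨F, hF⟩ : ∃ F : ℝ, F = ‖∑ i ∈ s, e (β * ⌊y i⌋)‖ := ⟨_, rfl⟩
  have hF0 : 0 ≤ F := by rw [hF]; positivity
  have hFn : F ≤ n := by
    rw [hF, hn]
    refine (norm_sum_le _ _).trans (le_of_eq ?_)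
    simp only [norm_e, sum_const, nsmul_eq_mul, mul_one]
  have hshift : ‖∑ i ∈ s, ee (α * ((⌊y i⌋ + r : ℤ) : ℝ))‖ = F := by
    have h3 : ∀ i ∈ s, ee (α * ((⌊y i⌋ + r : ℤ) : ℝ)) = e (α * r) * e (β * ⌊y i⌋) := by
      intro i _
      rw [ee_eq_e]
      have h4 : α * ((⌊y i⌋ + r : ℤ) : ℝ) = α * r + β * ⌊y i⌋ + ((round α * ⌊y i⌋ : ℤ) : ℝ) := by
        rw [hβ]
        push_cast
        ring
      rw [h4, e_add, e_int', mul_one, e_add]
    rw [sum_congr rfl h3, ← mul_sum, norm_mul, norm_e, one_mul, hF]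
  rw [hshift, ← hn, ← hβ]
  have h2k : (0 : ℝ) < 2 ^ k := by positivity
  have hL1 : 1 ≤ (2 * Real.log (N : ℝ) ^ B) ^ A := by
    apply one_le_pow₀
    have : 1 ≤ Real.log (N : ℝ) ^ B := one_le_pow₀ hl1
    linarith
  have hkN : (2 : ℝ) ^ k ≤ N := by
    refine le_trans ?_ hk
    nlinarith
  have hAρ : 32 ≤ ρ * A := by
    rw [div_le_iff₀ hρ0] at hA
    linarith
  -- the target follows from a bound for F / n
  have hgoal : ∀ f : ℝ, 0 ≤ f → F ≤ n * f → f ^ A * (2 ^ k * |β|) ≤ 1 → F ^ A * (2 ^ k * |β|) ≤ (4 * n) ^ A := by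
    intro f hf0 hf hfb
    have h3 : (0 : ℝ) ≤ 2 ^ k * |β| := by positivity
    calc F ^ A * (2 ^ k * |β|) ≤ (n * f) ^ A * (2 ^ k * |β|) :=
          mul_le_mul_of_nonneg_right (pow_le_pow_left₀ hF0 hf A) h3
      _ = n ^ A * (f ^ A * (2 ^ k * |β|)) := by ring
      _ ≤ n ^ A * 1 := mul_le_mul_of_nonneg_left hfb (by positivity)
      _ ≤ (4 * n) ^ A := by
          rw [mul_one]
          exact pow_le_pow_left₀ hn0 (by linarith) A
  -- a power saving suffices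
  have hpow : F ≤ n * (N : ℝ) ^ (-(ρ / 32)) → F ^ A * (2 ^ k * |β|) ≤ (4 * n) ^ A := by
    intro h3
    apply hgoal _ (by positivity) h3
    have h4 : ((N : ℝ) ^ (-(ρ / 32))) ^ A ≤ (N : ℝ)⁻¹ := by
      rw [← Real.rpow_natCast, ← Real.rpow_mul hN0.le, ← Real.rpow_neg_one]
      apply Real.rpow_le_rpow_of_exponent_le hN1
      linarith
    calc ((N : ℝ) ^ (-(ρ / 32))) ^ A * (2 ^ k * |β|) ≤ (N : ℝ)⁻¹ * (N * 1) := by
          apply mul_le_mul h4 _ (by positivity) (by positivity)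
          exact mul_le_mul hkN (by linarith) (abs_nonneg _) hN0.le
      _ = 1 := by field_simp
  rcases le_or_gt (|β| * N) 1 with hc1 | hc1
  · apply hgoal 1 zero_le_one (by linarith)
    rw [one_pow, one_mul]
    calc (2 : ℝ) ^ k * |β| ≤ N * |β| := mul_le_mul_of_nonneg_right hkN (abs_nonneg _)
      _ ≤ 1 := by linarith
  · have hβ0 : 0 < |β| := by
      by_contra hcon
      have : |β| = 0 := le_antisymm (not_lt.1 hcon) (abs_nonneg _)
      rw [this] at hc1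
      linarith
    rcases le_or_gt ((N : ℝ) ^ ((1 : ℝ) / 2 - 1)) |β| with hc2 | hc2
    · -- far from the integers
      apply hpow
      have h3 := h1 N (by omega) ι s y hy β |β| hc2 (by
        intro m
        rcases eq_or_ne m 0 with rfl | hm
        · simp
        · have h4 : (1 : ℝ) ≤ |(m : ℝ)| := by
            have : 1 ≤ |m| := Int.one_le_abs hm
            exact_mod_cast this
          have h5 : |(m : ℝ)| - |β| ≤ |β - m| := by
            rw [abs_sub_comm]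
            exact abs_sub_abs_le_abs_sub _ _
          linarith)
      rw [← hF, ← hn] at h3
      refine h3.trans (le_of_eq ?_)
      congr 2
      ring
    · -- near the integers
      have h3 : F ≤ n * (Real.log N ^ B * (|β| * N) ^ (-ρ) + (N : ℝ) ^ (-ρ)) + n * (7 * |β|) := by
        have h4 : ‖∑ i ∈ s, e (β * ⌊y i⌋) - ∑ i ∈ s, e (β * y i)‖ ≤ n * (7 * |β|) := by
          rw [← sum_sub_distrib, hn, ← nsmul_eq_mul, ← sum_const]
          refine norm_sum_le_of_le _ fun i _ => ?_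
          refine (e_lip7 _ _).trans ?_
          have h5 : β * ⌊y i⌋ - β * y i = -(β * Int.fract (y i)) := by
            rw [← Int.self_sub_floor]
            ring
          rw [h5, abs_neg, abs_mul, abs_of_nonneg (Int.fract_nonneg (y i))]
          have h6 : |β| * Int.fract (y i) ≤ |β| * 1 := mul_le_mul_of_nonneg_left (Int.fract_lt_one _).le (abs_nonneg _)
          linarith
        have h5 := hy β (abs_pos.1 hβ0) (by
          refine hβh.trans (le_trans (by norm_num) (Real.one_le_rpow hN1 hρ0.le)))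
        rw [← hn] at h5
        have h6 : F ≤ ‖∑ i ∈ s, e (β * ⌊y i⌋) - ∑ i ∈ s, e (β * y i)‖ + ‖∑ i ∈ s, e (β * y i)‖ := by
          rw [hF]
          have := norm_add_le (∑ i ∈ s, e (β * ⌊y i⌋) - ∑ i ∈ s, e (β * y i)) (∑ i ∈ s, e (β * y i))
          rwa [sub_add_cancel] at this
        linarith
      obtain ⟨a, ha⟩ : ∃ a : ℝ, a = Real.log N ^ B * (|β| * N) ^ (-ρ) := ⟨_, rfl⟩
      have ha0 : 0 ≤ a := by rw [ha]; positivity
      rw [← ha] at h3
      have hb : (N : ℝ) ^ (-ρ) + 7 * |β| ≤ 8 * (N : ℝ) ^ (-(ρ / 2)) := by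
        have h4 : (N : ℝ) ^ (-ρ) ≤ (N : ℝ) ^ (-(ρ / 2)) := Real.rpow_le_rpow_of_exponent_le hN1 (by linarith)
        have h5 : |β| ≤ (N : ℝ) ^ (-(ρ / 2)) :=
          hc2.le.trans (Real.rpow_le_rpow_of_exponent_le hN1 (by linarith))
        linarith
      have h4 : F ≤ n * (a + 8 * (N : ℝ) ^ (-(ρ / 2))) := by
        have := mul_le_mul_of_nonneg_left hb hn0
        linarith
      rcases le_or_gt a (8 * (N : ℝ) ^ (-(ρ / 2))) with hc3 | hc3
      · apply hpow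
        refine h4.trans (mul_le_mul_of_nonneg_left ?_ hn0)
        have h5 := h2 N (by omega)
        calc a + 8 * (N : ℝ) ^ (-(ρ / 2)) ≤ 16 * (N : ℝ) ^ (-(ρ / 2)) := by linarith
          _ ≤ (N : ℝ) ^ (ρ / 2 - ρ / 32) * (N : ℝ) ^ (-(ρ / 2)) := mul_le_mul_of_nonneg_right h5 (by positivity)
          _ = (N : ℝ) ^ (-(ρ / 32)) := by
              rw [← Real.rpow_add hN0]
              congr 1
              ring
      · apply hgoal (2 * a) (by positivity) (h4.trans (mul_le_mul_of_nonneg_left (by linarith) hn0))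
        have h5 : ((|β| * N) ^ (-ρ)) ^ A ≤ (|β| * N)⁻¹ := by
          rw [← Real.rpow_natCast, ← Real.rpow_mul (by positivity), ← Real.rpow_neg_one]
          apply Real.rpow_le_rpow_of_exponent_le hc1.le
          linarith
        calc (2 * a) ^ A * (2 ^ k * |β|) = (2 * Real.log N ^ B) ^ A * ((|β| * N) ^ (-ρ)) ^ A * (2 ^ k * |β|) := by
              rw [ha]
              ring
          _ ≤ (2 * Real.log N ^ B) ^ A * (|β| * N)⁻¹ * (2 ^ k * |β|) := by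
              apply mul_le_mul_of_nonneg_right _ (by positivity)
              exact mul_le_mul_of_nonneg_left h5 (by positivity)
          _ = (2 ^ k * (2 * Real.log N ^ B) ^ A) / N := by
              field_simp
          _ ≤ 1 := by
              rw [div_le_one hN0]
              exact hk

open Classical in
/-- the bounds for all the integers near almost all members of the family -/
theorem fam_de (B : ℕ) (ρ : ℝ) (hρ0 : 0 < ρ) (hρ1 : ρ ≤ 1) : ∃ θ : ℝ, 0 < θ ∧ ∀ V A' W U : ℕ, ∃ N₀ : ℕ, ∀ N : ℕ, N₀ ≤ N →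
    ∀ (ι : Type) (s : Finset ι) (y : ι → ℝ), PW B ρ N s y →
    ((s.filter fun i => ¬ ∀ M : ℤ, |(M : ℝ) - y i| ≤ Real.log N ^ W → ∀ g : ℕ → ℝ, (g = g1 ∨ g = g2) →
      Pde θ A' V N g M).card : ℝ) ≤ s.card / Real.log N ^ U := by
  obtain ⟨A, hA⟩ : ∃ A : ℕ, 32 / ρ ≤ A := exists_nat_ge _
  have hA1 : 1 ≤ A := by
    have h1 : (0 : ℝ) < 32 / ρ := by positivity
    have h2 : (0 : ℝ) < A := by linarith
    exact_mod_cast h2
  refine ⟨1 / (2 * A + 2), by positivity, fun V A' W U => ?_⟩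
  obtain ⟨N₁, h1⟩ := pw_CH B ρ hρ0 hρ1 A hA
  obtain ⟨N₂, h2⟩ := de_scale A hA1 (B * A + 1) V A' (U + W + 2)
  obtain ⟨N₃, h3⟩ := eventually_atTop.mp ((tendsto_natCast_atTop_atTop (R := ℝ)).eventually
    (log_pow_ev (B * A) (2 ^ A) 1 (by positivity) one_pos))
  obtain ⟨N₄, h4⟩ := eventually_atTop.mp ((Real.tendsto_log_atTop.comp (tendsto_natCast_atTop_atTop (R := ℝ))).eventually_ge_atTop
    ((2 : ℝ) ^ (A + 1) + 14))
  refine ⟨N₁ + N₂ + N₃ + N₄ + 3, fun N hN ι s y hy => ?_⟩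
  have hN3 : (3 : ℝ) ≤ N := by exact_mod_cast (by omega : 3 ≤ N)
  have hN0 : (0 : ℝ) < N := by linarith
  have g3 := h3 N (by omega)
  have g4 : (2 : ℝ) ^ (A + 1) + 14 ≤ Real.log N := h4 N (by omega)
  have hp : (0 : ℝ) < 2 ^ (A + 1) := by positivity
  obtain ⟨L, hL⟩ : ∃ L : ℝ, L = Real.log N := ⟨_, rfl⟩
  rw [← hL] at g3 g4 ⊢
  have hL1 : 1 ≤ L := by linarith
  -- the number of digits
  obtain ⟨R, hR⟩ : ∃ R : ℝ, R = (2 * L ^ B) ^ A := ⟨_, rfl⟩
  have hRe : R = 2 ^ A * L ^ (B * A) := by rw [hR, mul_pow, ← pow_mul]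
  have hR0 : 0 < R := by rw [hR]; positivity
  have hRN : R ≤ N := by
    rw [Real.rpow_one] at g3
    rw [hRe]
    refine le_trans ?_ g3
    apply mul_le_mul_of_nonneg_left _ (by positivity)
    exact pow_le_pow_left₀ (by linarith) (by linarith) _
  obtain ⟨k, hk1, hk2⟩ : ∃ k : ℕ, (2 : ℝ) ^ k ≤ N / R ∧ N / R < 2 ^ (k + 1) := by
    have h5 : 1 ≤ N / R := by rw [one_le_div hR0]; exact hRN
    exact exists_nat_pow_near h5 (by norm_num)
  have hkN : (2 : ℝ) ^ k * (2 * Real.log N ^ B) ^ A ≤ N := by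
    rw [← hL, ← hR]
    rwa [le_div_iff₀ hR0] at hk1
  have hkN2 : (N : ℝ) ≤ 2 ^ k * Real.log N ^ (B * A + 1) := by
    rw [← hL]
    rw [div_lt_iff₀ hR0, hRe] at hk2
    calc (N : ℝ) ≤ 2 ^ (k + 1) * (2 ^ A * L ^ (B * A)) := hk2.le
      _ = 2 ^ k * (2 ^ (A + 1) * L ^ (B * A)) := by ring
      _ ≤ 2 ^ k * (L * L ^ (B * A)) := by
          apply mul_le_mul_of_nonneg_left _ (by positivity)
          apply mul_le_mul_of_nonneg_right _ (by positivity)
          linarith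
      _ = _ := by ring
  have hkN3 : (2 : ℝ) ^ k ≤ N * Real.log N := by
    rw [← hL]
    have h5 : 1 ≤ R := by
      rw [hR]
      apply one_le_pow₀
      have : 1 ≤ L ^ B := one_le_pow₀ hL1
      linarith
    calc (2 : ℝ) ^ k ≤ N / R := hk1
      _ ≤ N := div_le_self hN0.le h5
      _ ≤ N * L := by nlinarith
  -- the shifts
  obtain ⟨K, hK⟩ : ∃ K : ℕ, K = ⌈L ^ W⌉₊ + 1 := ⟨_, rfl⟩
  have hKr : (K : ℝ) ≤ L ^ W + 2 := by
    have : (⌈L ^ W⌉₊ : ℝ) < L ^ W + 1 := Nat.ceil_lt_add_one (by positivity)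
    rw [hK]
    push_cast
    linarith
  have hKg : L ^ W + 1 ≤ (K : ℝ) := by
    have := Nat.le_ceil (L ^ W)
    rw [hK]
    push_cast
    linarith
  obtain ⟨Bd, hBd⟩ : ∃ Bd : ℤ → (ℕ → ℝ) → Finset ι, Bd = fun r g => s.filter fun i => ¬ Pde (1 / (2 * A + 2)) A' V N g (⌊y i⌋ + r) :=
    ⟨_, rfl⟩
  have hone : ∀ r : ℤ, ∀ g : ℕ → ℝ, (g = g1 ∨ g = g2) → ((Bd r g).card : ℝ) ≤ s.card / L ^ (U + W + 2) := by
    intro r g hg
    have h5 := h2 N (by omega) k hkN2 hkN3 g hg ι s (fun i => ⌊y i⌋ + r) (h1 N (by omega) ι s y hy k hkN r)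
    rw [hBd, hL]
    exact h5
  have hsub : (s.filter fun i => ¬ ∀ M : ℤ, |(M : ℝ) - y i| ≤ L ^ W → ∀ g : ℕ → ℝ, (g = g1 ∨ g = g2) →
      Pde (1 / (2 * A + 2)) A' V N g M) ⊆ (Icc (-(K : ℤ)) K).biUnion (fun r => Bd r g1 ∪ Bd r g2) := by
    intro i hi
    rw [mem_filter] at hi
    obtain ⟨his, hi2⟩ := hi
    push Not at hi2
    obtain ⟨M, hM, g, hg, hP⟩ := hi2
    rw [mem_biUnion]
    refine ⟨M - ⌊y i⌋, ?_, ?_⟩
    · have e1 := Int.floor_le (y i)
      have e2 := Int.lt_floor_add_one (y i)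
      have e3 := abs_le.1 hM
      rw [mem_Icc]
      constructor
      · have : ((-(K : ℤ) : ℤ) : ℝ) ≤ ((M - ⌊y i⌋ : ℤ) : ℝ) := by
          push_cast
          linarith [e3.1]
        exact_mod_cast this
      · have : ((M - ⌊y i⌋ : ℤ) : ℝ) ≤ ((K : ℤ) : ℝ) := by
          push_cast
          linarith [e3.2]
        exact_mod_cast this
    · have e4 : ⌊y i⌋ + (M - ⌊y i⌋) = M := by ring
      rw [mem_union]
      rcases hg with rfl | rfl
      · left
        rw [hBd, mem_filter]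
        refine ⟨his, ?_⟩
        rw [e4]
        exact hP
      · right
        rw [hBd, mem_filter]
        refine ⟨his, ?_⟩
        rw [e4]
        exact hP
  have hcard : ((s.filter fun i => ¬ ∀ M : ℤ, |(M : ℝ) - y i| ≤ L ^ W → ∀ g : ℕ → ℝ, (g = g1 ∨ g = g2) →
      Pde (1 / (2 * A + 2)) A' V N g M).card : ℝ) ≤ ∑ r ∈ Icc (-(K : ℤ)) K, 2 * (s.card / L ^ (U + W + 2)) := by
    have e1 := (card_le_card hsub).trans card_biUnion_le
    have e2 : (((s.filter fun i => ¬ ∀ M : ℤ, |(M : ℝ) - y i| ≤ L ^ W → ∀ g : ℕ → ℝ, (g = g1 ∨ g = g2) →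
      Pde (1 / (2 * A + 2)) A' V N g M).card : ℕ) : ℝ) ≤ ((∑ r ∈ Icc (-(K : ℤ)) K, (Bd r g1 ∪ Bd r g2).card : ℕ) : ℝ) := by
      exact_mod_cast e1
    refine e2.trans ?_
    push_cast
    apply sum_le_sum
    intro r _
    have e3 : ((Bd r g1 ∪ Bd r g2).card : ℝ) ≤ (Bd r g1).card + (Bd r g2).card := by exact_mod_cast card_union_le _ _
    have e4 := hone r g1 (Or.inl rfl)
    have e5 := hone r g2 (Or.inr rfl)
    linarith
  refine hcard.trans ?_
  have hcnt : ((Icc (-(K : ℤ)) K).card : ℝ) = 2 * K + 1 := by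
    rw [Int.card_Icc]
    have : ((K : ℤ) + 1 - -(K : ℤ)).toNat = 2 * K + 1 := by omega
    rw [this]
    push_cast
    ring
  rw [sum_const, nsmul_eq_mul, hcnt]
  have hLW : 1 ≤ L ^ W := one_le_pow₀ hL1
  have hn0 : (0 : ℝ) ≤ s.card := Nat.cast_nonneg _
  have e1 : (s.card : ℝ) / L ^ (U + W + 2) = s.card / L ^ U * (1 / (L ^ W * L ^ 2)) := by
    rw [pow_add, pow_add]
    field_simp
  rw [e1]
  have e2 : (2 * (K : ℝ) + 1) * (2 * (1 / (L ^ W * L ^ 2))) ≤ 1 := by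
    rw [mul_one_div, mul_div_assoc', div_le_one (by positivity)]
    have e3 : 14 ≤ L ^ 2 := by nlinarith
    nlinarith
  calc (2 * (K : ℝ) + 1) * (2 * (s.card / L ^ U * (1 / (L ^ W * L ^ 2)))) =
      s.card / L ^ U * ((2 * (K : ℝ) + 1) * (2 * (1 / (L ^ W * L ^ 2)))) := by ring
    _ ≤ s.card / L ^ U * 1 := mul_le_mul_of_nonneg_left e2 (by positivity)
    _ = _ := mul_one _

open Classical in
/-- the values of a generalised polynomial at primes -/
theorem primes_de (F : Finset ℝ) (c : ℝ) (hcF : c ∈ F) (hn : ∀ m : ℕ, c ≠ m) (hc : 0 < c) (hmax : ∀ x ∈ F, x ≤ c)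
    (a : ℝ → ℝ) (ha : a c ≠ 0) : ∃ θ : ℝ, 0 < θ ∧ ∀ V A' W U : ℕ, ∃ X₀ : ℕ, ∀ X : ℕ, X₀ ≤ X → ∀ z : ℝ, |z| ≤ (X : ℝ) ^ c →
    ((((Ioc X (2 * X)).filter Nat.Prime).filter fun q : ℕ => ¬ ∀ M : ℕ, |(M : ℝ) - (ph F a q + z)| ≤ Real.log X ^ W →
      (X : ℝ) ^ c ≤ M * Real.log X ^ V → ∀ g : ℕ → ℝ, (g = g1 ∨ g = g2) →
      D g M ((M : ℝ) ^ θ) ≤ M / Real.log M ^ A' ∧ |Tq g 1 M| ≤ M / Real.log M ^ A').card : ℝ) ≤
      X / Real.log X ^ U := by
  obtain ⟨ρ, hρ0, hρ1, h1⟩ := primes_PWu F c hcF hn hc hmax a ha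
  obtain ⟨θ, hθ, h2⟩ := fam_de 8 ρ hρ0 hρ1
  have hAc := Ac_pos F c a
  obtain ⟨X₁, h1⟩ := h1 (Ac F c a) hAc
  refine ⟨θ, hθ, fun V A' W U => ?_⟩
  obtain ⟨N₂, h2⟩ := h2 (V + 2) A' (W + 1) (U + 1)
  obtain ⟨X₃, h3⟩ := log_cmp (Ac F c a) c hAc hc W
  obtain ⟨X₄, h4⟩ := log_cmp (Ac F c a) c hAc hc V
  obtain ⟨X₅, h5⟩ := log_cmp (Ac F c a) c hAc hc U
  obtain ⟨X₆, h6⟩ := eventually_atTop.mp ((tendsto_natCast_atTop_atTop (R := ℝ)).eventually
    (log_pow_ev W 1 c (by norm_num) hc))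
  obtain ⟨X₇, h7⟩ := eventually_atTop.mp (((tendsto_rpow_atTop hc).comp (tendsto_natCast_atTop_atTop (R := ℝ))).eventually_ge_atTop
    ((N₂ : ℝ) / Ac F c a))
  obtain ⟨X₈, h8⟩ := eventually_atTop.mp ((Real.tendsto_log_atTop.comp (tendsto_natCast_atTop_atTop (R := ℝ))).eventually_ge_atTop
    ((2 / c) * (Ac F c a + 3)))
  obtain ⟨X₉, h9⟩ := sc_log (Ac F c a) c hAc hc
  refine ⟨X₁ + X₃ + X₄ + X₅ + X₆ + X₇ + X₈ + X₉ + 2, fun X hX z hz => ?_⟩
  have hX2 : (2 : ℝ) ≤ X := by exact_mod_cast (by omega : 2 ≤ X)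
  have hX0 : (0 : ℝ) < X := by linarith
  obtain ⟨N, hN⟩ : ∃ N : ℕ, N = sc (Ac F c a) c X := ⟨_, rfl⟩
  have hNge : Ac F c a * (X : ℝ) ^ c ≤ N := by rw [hN]; exact sc_ge _ _ _
  have hNle : (N : ℝ) ≤ (Ac F c a + 1) * (X : ℝ) ^ c := by rw [hN]; exact sc_le _ c hAc hc X (by omega)
  have hNN₂ : N₂ ≤ N := by
    have e1 : (N₂ : ℝ) / Ac F c a ≤ (X : ℝ) ^ c := h7 X (by omega)
    rw [div_le_iff₀ hAc] at e1
    have e2 : (N₂ : ℝ) ≤ N := by linarith
    exact_mod_cast e2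
  have g1' := h1 X (by omega)
  rw [← hN] at g1'
  have g2' := h2 N hNN₂ ℕ _ _ (g1'.shift z)
  obtain ⟨a1, a2, a3, a4⟩ := h3 X (by omega)
  obtain ⟨-, -, b3, b4⟩ := h4 X (by omega)
  obtain ⟨-, -, c3, c4⟩ := h5 X (by omega)
  rw [← hN] at a2 a3 a4 b3 b4 c3 c4
  obtain ⟨d1, d2⟩ := h9 X (by omega)
  rw [← hN] at d1 d2
  have hlN : Ac F c a + 3 ≤ Real.log N := by
    have e1 : (2 / c) * (Ac F c a + 3) ≤ Real.log X := h8 X (by omega)
    have e2 : c / 2 * ((2 / c) * (Ac F c a + 3)) ≤ c / 2 * Real.log X := mul_le_mul_of_nonneg_left e1 (by positivity)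
    have e3 : c / 2 * ((2 / c) * (Ac F c a + 3)) = Ac F c a + 3 := by field_simp
    linarith
  have hlN0 : 0 < Real.log N := by linarith
  have hXc : 0 < (X : ℝ) ^ c := by positivity
  have hN0 : (0 : ℝ) < N := lt_of_lt_of_le (by positivity) hNge
  have hWN : Real.log (X : ℝ) ^ W ≤ (X : ℝ) ^ c := by
    have e1 := h6 X (by omega)
    rw [one_mul] at e1
    refine le_trans (pow_le_pow_left₀ (by linarith) (by linarith) _) e1
  have hcardle : ((((Ioc X (2 * X)).filter Nat.Prime).filter fun q : ℕ => ¬ ∀ M : ℕ, |(M : ℝ) - (ph F a q + z)| ≤ Real.log X ^ W →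
      (X : ℝ) ^ c ≤ M * Real.log X ^ V → ∀ g : ℕ → ℝ, (g = g1 ∨ g = g2) →
      D g M ((M : ℝ) ^ θ) ≤ M / Real.log M ^ A' ∧ |Tq g 1 M| ≤ M / Real.log M ^ A').card : ℝ) ≤
      ((((Ioc X (2 * X)).filter Nat.Prime).filter fun i : ℕ => ¬ ∀ M : ℤ, |(M : ℝ) - (ph F a i + z)| ≤ Real.log N ^ (W + 1) →
        ∀ g : ℕ → ℝ, (g = g1 ∨ g = g2) → Pde θ A' (V + 2) N g M).card : ℝ) := by
    apply Nat.cast_le.2
    apply card_le_card
    intro q hq
    rw [mem_filter] at hq ⊢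
    refine ⟨hq.1, fun hall => hq.2 ?_⟩
    intro M hM hlow g hg
    have hqr := hq.1
    rw [mem_filter, mem_Ioc] at hqr
    have e1 := hall (M : ℤ) (by
      rw [Int.cast_natCast]
      exact hM.trans a3) g hg (by
      rw [Int.cast_natCast]
      calc (N : ℝ) ≤ (Ac F c a + 1) * (X : ℝ) ^ c := hNle
        _ ≤ Real.log N * (M * Real.log X ^ V) := mul_le_mul (by linarith) hlow hXc.le hlN0.le
        _ ≤ Real.log N * (M * Real.log N ^ (V + 1)) := by
            apply mul_le_mul_of_nonneg_left _ hlN0.le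
            exact mul_le_mul_of_nonneg_left b3 (Nat.cast_nonneg _)
        _ = M * Real.log N ^ (V + 2) := by ring) (by
      rw [Int.cast_natCast]
      have e2 := ph_size F c hc hmax a X q (by omega) hqr.1.1 hqr.1.2 z hz
      rw [← hN] at e2
      have e3 := (abs_le.1 hM).2
      have e4 := (abs_le.1 e2).2
      have e5 : (X : ℝ) ^ c ≤ N := by
        refine le_trans ?_ hNge
        have : 1 ≤ Ac F c a := by
          unfold Ac
          have : 0 ≤ 2 ^ c * ∑ x ∈ F, |a x| := mul_nonneg (by positivity) (sum_nonneg fun _ _ => abs_nonneg _)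
          linarith
        nlinarith
      have e6 : (M : ℝ) ≤ 2 * N := by linarith
      refine e6.trans ?_
      have : 2 ≤ Real.log N := by linarith
      nlinarith)
    rw [Int.toNat_natCast] at e1
    exact e1
  refine hcardle.trans (g2'.trans ?_)
  have hcd : ((((Ioc X (2 * X)).filter Nat.Prime).card : ℕ) : ℝ) ≤ X := by
    have : ((Ioc X (2 * X)).filter Nat.Prime).card ≤ X := (card_filter_le _ _).trans (by rw [Nat.card_Ioc]; omega)
    exact_mod_cast this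
  apply div_le_div₀ hX0.le hcd (by positivity) c3

end Pool.Agent.Run7.h844.RP
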