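import Pool.Agent.Run7.h844.RP.Poly
import Pool.Agent.N625.DY.J

set_option autoImplicit false

/-!
Averages of primes in residue classes over real families and over values at primes: absolute values over all moduli.
-/

namespace Pool.Agent.Run7.h844.RP

open Finset Filter
open Pool.Agent.N384.MQ (ev_log_pow ev_log_ge scaleq)
open Pool.Agent.N625.DY (Err)

/-- the average error -/
noncomputable def avgE {ι : Type} (s : Finset ι) (y : ι → ℝ) (w : ι → ℝ) (x q : ℕ) : ℝ :=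
  ∑ i ∈ s.filter (fun i => 0 < ⌊y i⌋ ∧ ⌊y i⌋.toNat.Coprime q), w i * Err x q ⌊y i⌋.toNat

open Classical in
/-- the passage from the family to the distribution -/
lemma avg_fib {ι : Type} (s : Finset ι) (y : ι → ℝ) (w : ι → ℝ) (N k : ℕ)
    (hr : ∀ i ∈ s, 0 ≤ y i + N ∧ y i + N < 2 ^ k) (W : ℝ) (hW : 0 ≤ W) (hw : ∀ i, |w i| ≤ W) :
    ∃ w' : ℕ → ℝ, (∀ v, |w' v| ≤ W) ∧ ∀ x q : ℕ,
      ∑ v ∈ (range (2 ^ k)).filter (fun v => 0 < -(N : ℤ) + 1 * (v : ℕ) ∧ (-(N : ℤ) + 1 * (v : ℕ)).toNat.Coprime q),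
        disR s (fun i => y i + N) v * (w' v * Err x q (-(N : ℤ) + 1 * (v : ℕ)).toNat) = 1 / (s.card : ℝ) * avgE s y w x q := by
  obtain ⟨fib, hfib⟩ : ∃ fib : ℕ → Finset ι, fib = fun v => s.filter (fun i => ⌊y i + N⌋₊ = v) := ⟨_, rfl⟩
  refine ⟨fun v => (∑ i ∈ fib v, w i) / (fib v).card, fun v => ?_, fun x q => ?_⟩
  · rw [abs_div, abs_of_nonneg (show (0 : ℝ) ≤ ((fib v).card : ℝ) from Nat.cast_nonneg _)]
    rcases Nat.eq_zero_or_pos (fib v).card with h0 | h0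
    · rw [h0, Nat.cast_zero, div_zero]
      exact hW
    · have h1 : (0 : ℝ) < (fib v).card := by exact_mod_cast h0
      rw [div_le_iff₀ h1]
      refine (abs_sum_le_sum_abs _ _).trans ?_
      refine (sum_le_sum fun i _ => hw i).trans ?_
      rw [sum_const, nsmul_eq_mul, mul_comm]
  · have hmaps : ∀ i ∈ s, ⌊y i + N⌋₊ ∈ range (2 ^ k) := by
      intro i hi
      rw [mem_range]
      apply (Nat.floor_lt' (by positivity)).2
      push_cast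
      exact (hr i hi).2
    have hfl : ∀ i ∈ s, -(N : ℤ) + 1 * ((⌊y i + N⌋₊ : ℕ) : ℤ) = ⌊y i⌋ := by
      intro i hi
      rw [Int.natCast_floor_eq_floor (hr i hi).1, Int.floor_add_natCast]
      ring
    obtain ⟨g, hg⟩ : ∃ g : ι → ℝ, g = fun i => if 0 < ⌊y i⌋ ∧ ⌊y i⌋.toNat.Coprime q then w i * Err x q ⌊y i⌋.toNat else 0 :=
      ⟨_, rfl⟩
    have h1 : avgE s y w x q = ∑ i ∈ s, g i := by
      unfold avgE
      rw [sum_filter, hg]
    rw [h1, ← sum_fiberwise_of_maps_to hmaps, mul_sum, sum_filter]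
    refine sum_congr rfl fun v _ => ?_
    have h2 : ∀ i ∈ s.filter (fun i => ⌊y i + N⌋₊ = v), g i =
        if 0 < -(N : ℤ) + 1 * (v : ℕ) ∧ (-(N : ℤ) + 1 * (v : ℕ)).toNat.Coprime q then
          w i * Err x q (-(N : ℤ) + 1 * (v : ℕ)).toNat else 0 := by
      intro i hi
      rw [mem_filter] at hi
      rw [hg, ← hi.2, hfl i hi.1]
    rw [sum_congr rfl h2]
    have h3 : disR s (fun i => y i + N) v = (fib v).card / s.card := by
      rw [hfib]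
      rfl
    have h4 : s.filter (fun i => ⌊y i + N⌋₊ = v) = fib v := by rw [hfib]
    rw [h3, h4]
    split_ifs
    · rw [← sum_mul]
      rcases Nat.eq_zero_or_pos (fib v).card with h0 | h0
      · rw [card_eq_zero.1 h0]
        simp
      · have h5 : ((fib v).card : ℝ) ≠ 0 := by exact_mod_cast h0.ne'
        have key : ∀ a b c e : ℝ, a ≠ 0 → a / b * (c / a * e) = 1 / b * (c * e) := by
          intro a b c e ha
          calc a / b * (c / a * e) = (a * a⁻¹) * (1 / b * (c * e)) := by ring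
            _ = _ := by rw [mul_inv_cancel₀ ha, one_mul]
        exact key _ _ _ _ h5
    · rw [sum_const_zero, mul_zero]

open Classical in
theorem avg_fam (B : ℕ) (δ : ℝ) (hδ : 0 < δ) (hδ1 : δ ≤ 1) (B' T U : ℕ) (ε : ℝ) (hε : 0 < ε) :
    ∃ V N₀ : ℕ, ∀ N : ℕ, N₀ ≤ N → ∀ (ι : Type) (s : Finset ι) (y : ι → ℝ), (∀ i ∈ s, |y i| ≤ N) → ES B δ V N s y →
    ∀ w : ι → ℝ, (∀ i, |w i| ≤ Real.log N ^ T) → ∀ x : ℕ → ℕ, (∀ q, (x q : ℝ) ≤ B' * N) → ∀ Q : ℕ, (Q : ℝ) ≤ (N : ℝ) ^ (1 - ε) →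
      ∑ q ∈ Icc 1 Q, |avgE s y w (x q) q| ≤ s.card * (N / Real.log N ^ U) := by
  obtain ⟨ε', hε'⟩ : ∃ ε' : ℝ, ε' = min ε 1 := ⟨_, rfl⟩
  have hε'0 : 0 < ε' := by rw [hε']; exact lt_min hε one_pos
  have hε'1 : ε' ≤ 1 := by rw [hε']; exact min_le_right _ _
  have hε'2 : ε' ≤ ε := by rw [hε']; exact min_le_left _ _
  obtain ⟨V, k₀, h0⟩ := fin_form2 (B + 2) δ hδ hδ1 (fun k p => ∃ c : ℤ, |c| ≤ (2 : ℤ) ^ k ∧ ∃ w : ℕ → ℝ,
    (∀ v, |w v| ≤ (k : ℝ) ^ T) ∧ ∃ x : ℕ → ℕ, (∀ q, x q ≤ (B' + 1) * 2 ^ k) ∧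
      ((2 ^ k : ℕ) : ℝ) / (k : ℝ) ^ (U + 2) < ∑ q ∈ Icc 1 ⌊((2 ^ k : ℕ) : ℝ) ^ (1 - ε')⌋₊,
        |∑ v ∈ (range (2 ^ k)).filter (fun v => 0 < c + 1 * (v : ℕ) ∧ (c + 1 * (v : ℕ)).toNat.Coprime q),
          p v * (w v * Err (x q) q (c + 1 * (v : ℕ)).toNat)|) (fun C hC => by
      obtain ⟨k₀, h1⟩ := Pool.Agent.N625.DY.cls_avg ((hC 1 one_ne_zero).1).toCls (B' + 1) T (U + 2) ε' hε'0
      refine ⟨k₀, fun k hk p hp => ?_⟩
      rintro ⟨c, hc, w, hw, x, hx, hlt⟩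
      refine absurd (h1 k hk p hp c (hc.trans ?_) w hw x hx) (not_le.2 hlt)
      push_cast
      have h2 : (0 : ℤ) ≤ 2 ^ k := by positivity
      exact le_mul_of_one_le_left h2 (by omega))
  obtain ⟨q₀, h1⟩ := scaleq 1 V k₀
  obtain ⟨q₁, h2⟩ := eventually_atTop.mp (ev_log_ge 3)
  refine ⟨V + 1, q₀ + q₁ + 1, fun N hN ι s y hy hES w hw x hx Q hQ => ?_⟩
  obtain ⟨hL1, k, hk, g1, g2, g3, g4, g5, g6⟩ := h1 N (by omega)
  have hL3 := h2 N (by omega)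
  have hL0 : 0 < Real.log N := by linarith
  have hN1 : (1 : ℝ) ≤ N := by exact_mod_cast (by omega : 1 ≤ N)
  have hN0 : (0 : ℝ) < N := by linarith
  have hk0 : (0 : ℝ) < k := by linarith
  rcases s.eq_empty_or_nonempty with hs | hs
  · rw [hs]
    simp [avgE]
  have hs0 : (0 : ℝ) < s.card := by exact_mod_cast hs.card_pos
  have hkV : (k : ℝ) ^ V ≤ Real.log N ^ (V + 1) := by
    have h3 : (0 : ℝ) < Real.log N ^ (V + 1) := by positivity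
    have h4 : (0 : ℝ) < (k : ℝ) ^ V := by positivity
    rwa [one_div_le_one_div h3 h4] at g6
  rw [pow_one] at g2
  have hRS := RS_of_ES hδ hδ1 hL1 g4 g3 hkV (hES.shift (N : ℝ))
  have h2N : 2 * (N : ℝ) < 2 ^ k := by nlinarith
  have hrange : ∀ i ∈ s, 0 ≤ y i + N ∧ y i + N < 2 ^ k := by
    intro i hi
    have := abs_le.1 (hy i hi)
    constructor
    · linarith
    · linarith
  have hNk : (N : ℝ) ≤ ((2 ^ k : ℕ) : ℝ) := by exact_mod_cast g1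
  have hQQ : Q ≤ ⌊((2 ^ k : ℕ) : ℝ) ^ (1 - ε')⌋₊ := by
    apply Nat.le_floor
    refine hQ.trans ?_
    calc (N : ℝ) ^ (1 - ε) ≤ (N : ℝ) ^ (1 - ε') := Real.rpow_le_rpow_of_exponent_le hN1 (by linarith)
      _ ≤ ((2 ^ k : ℕ) : ℝ) ^ (1 - ε') := Real.rpow_le_rpow hN0.le hNk (by linarith)
  obtain ⟨w', hw', hfib⟩ := avg_fib s y w N k hrange ((k : ℝ) ^ T) (by positivity)
    (fun i => (hw i).trans (pow_le_pow_left₀ hL0.le g4 T))
  have h3 := h0 k hk (disR s (fun i => y i + N)) ⟨ι, s, _, hs, hrange, hRS, rfl⟩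
  have h4 : ∑ q ∈ Icc 1 ⌊((2 ^ k : ℕ) : ℝ) ^ (1 - ε')⌋₊, |1 / (s.card : ℝ) * avgE s y w (x q) q| ≤
      ((2 ^ k : ℕ) : ℝ) / (k : ℝ) ^ (U + 2) := by
    by_contra hcon
    refine h3 ⟨-(N : ℤ), ?_, w', hw', x, fun q => ?_, ?_⟩
    · rw [abs_neg, abs_of_nonneg (Int.natCast_nonneg _)]
      exact_mod_cast g1
    · have : (x q : ℝ) ≤ (((B' + 1) * 2 ^ k : ℕ) : ℝ) := by
        push_cast at hNk ⊢
        refine (hx q).trans ?_
        gcongr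
        linarith
      exact_mod_cast this
    · simp only [hfib]
      exact not_le.1 hcon
  have h5 : ∑ q ∈ Icc 1 Q, |1 / (s.card : ℝ) * avgE s y w (x q) q| ≤ ((2 ^ k : ℕ) : ℝ) / (k : ℝ) ^ (U + 2) :=
    (sum_le_sum_of_subset_of_nonneg (Icc_subset_Icc le_rfl hQQ) fun _ _ _ => abs_nonneg _).trans h4
  simp only [abs_mul] at h5
  rw [← mul_sum, abs_of_pos (by positivity), one_div, inv_mul_le_iff₀ hs0] at h5
  refine h5.trans ?_
  apply mul_le_mul_of_nonneg_left _ hs0.le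
  push_cast
  rw [div_le_div_iff₀ (by positivity) (by positivity)]
  calc (2 : ℝ) ^ k * Real.log N ^ U ≤ ((k : ℝ) ^ 2 * N) * (k : ℝ) ^ U := by gcongr
    _ = N * (k : ℝ) ^ (U + 2) := by rw [pow_add]; ring

open Classical in
theorem avg_primes (F : Finset ℝ) (c : ℝ) (hcF : c ∈ F) (hn : ∀ m : ℕ, c ≠ m) (hc : 0 < c)
    (hmax : ∀ x ∈ F, x ≤ c) (a : ℝ → ℝ) (ha : a c ≠ 0) (B T U : ℕ) (ε : ℝ) (hε : 0 < ε) (hε1 : ε ≤ 1) :
    ∃ X₀ : ℕ, ∀ X : ℕ, X₀ ≤ X → ∀ z : ℝ, |z| ≤ (X : ℝ) ^ c → ∀ w : ℕ → ℝ, (∀ p, |w p| ≤ Real.log X ^ T) →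
      ∀ x : ℕ → ℕ, (∀ q, (x q : ℝ) ≤ B * (X : ℝ) ^ c) → ∀ Q : ℕ, (Q : ℝ) ≤ ((X : ℝ) ^ c) ^ (1 - ε) →
      ∑ q ∈ Icc 1 Q, |avgE ((Ioc X (2 * X)).filter Nat.Prime) (fun p => ph F a p + z) w (x q) q| ≤
        X * ((X : ℝ) ^ c / Real.log X ^ U) := by
  obtain ⟨V, N₀, h0⟩ := avg_fam 8 (1 / 2) (by norm_num) (by norm_num) B (T + 1) (U + 2) ε hε
  obtain ⟨X₁, h1⟩ := log_cmp (Ac F c a) c (Ac_pos F c a) hc T
  obtain ⟨X₃, h3⟩ := sc_bound F c hc a U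
  obtain ⟨X₂, h2⟩ := primes_ES F c hcF hn hc hmax a ha (Ac F c a) (Ac_pos F c a) V
  obtain ⟨X₄, h4⟩ := eventually_atTop.mp (((tendsto_rpow_atTop hc).comp
    (tendsto_natCast_atTop_atTop (R := ℝ))).eventually_ge_atTop (N₀ : ℝ))
  refine ⟨X₁ + X₂ + X₃ + X₄ + 1, fun X hX z hz w hw x hx Q hQ => ?_⟩
  obtain ⟨g0, g0', g1, _⟩ := h1 X (by omega)
  obtain ⟨g3, g4⟩ := h3 X (by omega)
  have hX0 : (0 : ℝ) < X := by exact_mod_cast (by omega : 0 < X)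
  have hXc : 0 < (X : ℝ) ^ c := by positivity
  have hN : N₀ ≤ sc (Ac F c a) c X := by
    have : (N₀ : ℝ) ≤ sc (Ac F c a) c X := (h4 X (by omega)).trans g3
    exact_mod_cast this
  have h5 := h0 (sc (Ac F c a) c X) hN ℕ ((Ioc X (2 * X)).filter Nat.Prime) (fun p => ph F a p + z) (fun p hp => by
    rw [mem_filter, mem_Ioc] at hp
    exact ph_size F c hc hmax a X p (by omega) hp.1.1 hp.1.2 z hz) ((h2 X (by omega)).shift z) w
    (fun p => (hw p).trans g1) x (fun q => (hx q).trans (mul_le_mul_of_nonneg_left g3 (Nat.cast_nonneg _))) Q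
    (hQ.trans (Real.rpow_le_rpow hXc.le g3 (by linarith)))
  refine h5.trans ?_
  apply mul_le_mul (card_le_X X) g4 _ hX0.le
  have : 0 < Real.log (sc (Ac F c a) c X) := by linarith
  positivity

end Pool.Agent.Run7.h844.RP
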