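import Pool.Agent.Run7.h844.RP.Vec2
import Pool.Agent.N625.DY.N

set_option autoImplicit false

/-!
Correlations of the Liouville function with different slopes, for the vectors of integers near the members of several
families of reals.
-/

namespace Pool.Agent.Run7.h844.RP

open Finset Filter
open Pool.Agent.N384.MQ (ev_log_pow ev_log_ge)
open Pool.Agent.R459.Shift (lam)

/-- small correlations -/
def ChP {s : ℕ} (S E : ℝ) {L : ℕ} (α : Fin s → ℕ) (g : Fin L → ℕ → ℂ) (q : Fin s → ℤ) : Prop :=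
  ∀ I : Finset (Fin s), I.Nonempty → ∀ l, ∀ x : ℕ, (∀ i ∈ I, (α i : ℝ) * x ≤ S) →
    ‖∑ n ∈ Icc 1 x, g l n * ∏ i ∈ I, (lam (α i * n + q i) : ℂ)‖ ≤ E

/-- the parameters of the correlations -/
def ParC (s : ℕ) : Type := (L : ℕ) × (Fin s → ℕ) × (Fin L → ℕ → ℂ)

/-- at most `A` weights, bounded by `1` -/
def ParCOK {s : ℕ} (A : ℝ) (θ : ParC s) : Prop := (θ.1 : ℝ) ≤ A ∧ (∀ l, 1 ≤ θ.2.1 l) ∧ ∀ l n, ‖θ.2.2 l n‖ ≤ 1

open Classical in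
theorem ch_near (s : ℕ) (B : ℕ) (δ : ℝ) (hδ : 0 < δ) (hδ1 : δ ≤ 1)
    (a B' A W U : ℕ) : ∃ V M₀ : ℕ, ∀ M : ℕ, M₀ ≤ M → ∀ θ : ParC s, ParCOK (Real.log M ^ A) θ → ∀ N : Fin s → ℕ,
      (∀ i, (N i : ℝ) ≤ M * Real.log M ∧ (M : ℝ) ≤ N i * Real.log M ^ a) →
      ∀ (ι : Fin s → Type) (S : ∀ i, Finset (ι i)) (y : ∀ i, ι i → ℝ), (∀ i, ∀ j ∈ S i, |y i j| ≤ M * Real.log M) →
      (∀ i, ES B δ V (N i) (S i) (y i)) →
      (((Fintype.piFinset S).filter fun n => ¬ NearV (ChP (B' * M) (M / Real.log M ^ U)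
        θ.2.1 θ.2.2) (Real.log M ^ W) (fun i => y i (n i))).card : ℝ) ≤ (∏ i, ((S i).card : ℝ)) / Real.log M ^ U := by
  obtain ⟨V, M₀, h0⟩ := near2V (Θ := ParC s) s B δ hδ hδ1 a W (U + 4)
    (fun k θ => ParCOK ((k : ℝ) ^ A) θ)
    (fun k θ q => Pool.Agent.N625.DY.SmallT (B' + 1) (U + 4) (2 ^ k) k θ.2.1 θ.2.2 q)
    (fun C hC => by
      obtain ⟨k₀, h1⟩ := Pool.Agent.N625.DY.cls_chowla s 2 (fun _ => 1) (fun _ => C)
        (fun _ => ((hC 1 one_ne_zero).1).toCls) (B' + 1) A (W + 1) (U + 4)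
      refine ⟨k₀, fun k hk θ hθ p hp c hc => ?_⟩
      exact h1 k hk p hp c (fun i => (hc i).trans (by
        push_cast
        have h2 : (0 : ℤ) ≤ 2 ^ k := by positivity
        exact le_mul_of_one_le_left h2 (by omega))) θ.1 hθ.1 θ.2.1 θ.2.2 hθ.2.1 hθ.2.2)
  obtain ⟨M₁, h1⟩ := eventually_atTop.mp (ev_log_ge 2)
  refine ⟨V, M₀ + M₁ + 1, fun M hM θ hθ N hN ι S y hy hes => ?_⟩
  obtain ⟨k, g1, g2, g3, g4, h2⟩ := h0 M (by omega)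
  have hL := h1 M (by omega)
  have hL0 : 0 < Real.log M := by linarith
  have hM0 : (0 : ℝ) < M := by exact_mod_cast (by omega : 0 < M)
  have hk0 : (0 : ℝ) < k := by linarith
  have hM2 : (M : ℝ) ≤ 2 ^ k := by
    refine le_trans ?_ g3
    exact le_mul_of_one_le_right hM0.le (one_le_pow₀ (by linarith))
  have hE : ((2 ^ k : ℕ) : ℝ) / (k : ℝ) ^ (U + 4) ≤ M / Real.log M ^ U := by
    push_cast
    rw [div_le_div_iff₀ (by positivity) (by positivity)]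
    calc (2 : ℝ) ^ k * Real.log M ^ U ≤ ((k : ℝ) ^ 4 * M) * (k : ℝ) ^ U := by gcongr
      _ = M * (k : ℝ) ^ (U + 4) := by rw [pow_add]; ring
  have h3 := h2 θ ⟨hθ.1.trans (pow_le_pow_left₀ hL0.le g1 A), hθ.2⟩ N hN ι S y hy hes
  refine le_trans ?_ (h3.trans ?_)
  · apply Nat.cast_le.2
    apply card_le_card
    intro n hn
    rw [mem_filter] at hn ⊢
    refine ⟨hn.1, fun hcon => hn.2 (nearV_mono hcon le_rfl fun q hq I hI l x hx => ?_)⟩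
    refine (hq I hI l x fun i hi => ?_).trans hE
    have : ((θ.2.1 i * x : ℕ) : ℝ) ≤ (((B' + 1) * 2 ^ k : ℕ) : ℝ) := by
      push_cast
      refine (hx i hi).trans ?_
      gcongr
      linarith
    exact_mod_cast this
  · apply div_le_div_of_nonneg_left (prod_nonneg fun i _ => Nat.cast_nonneg _) (by positivity)
    exact pow_le_pow_right₀ (by linarith) (by omega)

open Classical in
theorem ch_primes (s : ℕ) (F : Fin s → Finset ℝ) (c : Fin s → ℝ)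
    (hcF : ∀ i, c i ∈ F i) (hn : ∀ i, ∀ m : ℕ, c i ≠ m) (hc : ∀ i, 0 < c i) (hmax : ∀ i, ∀ x ∈ F i, x ≤ c i)
    (a : Fin s → ℝ → ℝ) (ha : ∀ i, a i (c i) ≠ 0) (B' A W U : ℕ) :
    ∃ M₀ : ℕ, ∀ M : ℕ, M₀ ≤ M → ∀ X : Fin s → ℕ,
      (∀ i, (X i : ℝ) ^ (c i) ≤ M ∧ (M : ℝ) ≤ (X i : ℝ) ^ (c i) * Real.log M ^ A) →
      ∀ z : Fin s → ℝ, (∀ i, |z i| ≤ M) → ∀ L : ℕ, (L : ℝ) ≤ Real.log M ^ A → ∀ (α : Fin s → ℕ) (g : Fin L → ℕ → ℂ),
      (∀ l, 1 ≤ α l) → (∀ l n, ‖g l n‖ ≤ 1) →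
      (((Fintype.piFinset fun i => (Ioc (X i) (2 * X i)).filter Nat.Prime).filter fun p =>
        ¬ NearV (ChP (B' * M) (M / Real.log M ^ U) α g)
          (Real.log M ^ W) (fun i => ph (F i) (a i) (p i) + z i)).card : ℝ) ≤ (∏ i, (X i : ℝ)) / Real.log M ^ U := by
  obtain ⟨V, N₀, h1⟩ := ch_near s 8 (1 / 2) (by norm_num) (by norm_num) A B' A W U
  obtain ⟨M₀, h0⟩ := primes_nearV (Θ := ParC s) s F c hcF hn hc hmax a ha A W U (fun M θ => ParCOK (Real.log M ^ A) θ)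
    (fun M θ => ChP (B' * M) (M / Real.log M ^ U) θ.2.1 θ.2.2)
    ⟨V, N₀, fun M hM θ hθ N hN S y hy hes => h1 M hM θ hθ N hN (fun _ => ℕ) S y hy hes⟩
  exact ⟨M₀, fun M hM X hX z hz L hL α g hα hg => h0 M hM ⟨L, α, g⟩ ⟨hL, hα, hg⟩ X hX z hz⟩

end Pool.Agent.Run7.h844.RP
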