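import Pool.Agent.Run7.h844.RP.Poly
import Pool.Agent.N213.GF.I

set_option autoImplicit false

/-!
The level of distribution with divisor-bounded weights for the residues near the members of real families, and near values
at primes.
-/

namespace Pool.Agent.Run7.h844.RP

open Finset Filter
open Pool.Agent.N384.MQ (ev_log_pow ev_log_ge)
open Pool.Agent.N625.DY (Err)

/-- small weighted errors for the moduli up to `Q`, heights up to `S` -/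
def HeavyP (S : ℝ) (Q : ℕ) (E : ℝ) (lam : ℕ → ℝ) (x : ℕ → ℕ) (r : ℕ) : Prop :=
  (∀ y : ℕ, (y : ℝ) ≤ S → |∑ d ∈ (Icc 1 Q).filter (fun d => r.Coprime d), lam d * Err y d r| ≤ E) ∧
    |∑ d ∈ (Icc 1 Q).filter (fun d => r.Coprime d), lam d * Err (x d) d r| ≤ E

lemma heavyP_mono {S S' E E' : ℝ} {Q : ℕ} {lam : ℕ → ℝ} {x : ℕ → ℕ} {r : ℕ} (h : HeavyP S' Q E' lam x r) (hS : S ≤ S')
    (hE : E' ≤ E) : HeavyP S Q E lam x r :=
  ⟨fun y hy => (h.1 y (hy.trans hS)).trans hE, h.2.trans hE⟩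

/-- the weights and the heights -/
def ParW : Type := (L : ℕ) × (Fin L → ℕ → ℝ) × (Fin L → ℕ → ℕ)

/-- the conditions for the weights and the heights -/
def ParWOK (A S : ℝ) (T : ℕ) (Z : ℝ) (θ : ℕ × ParW) : Prop :=
  (θ.1 : ℝ) ≤ Z ∧ (θ.2.1 : ℝ) ≤ A ^ T ∧
    (∀ l, ∀ d : ℕ, 1 ≤ d → |θ.2.2.1 l d| ≤ (A * d.divisors.card) ^ T) ∧ ∀ l d, (θ.2.2.2 l d : ℝ) ≤ S

lemma heavy_cut (lam : ℕ → ℝ) (x : ℕ → ℕ) (Q Q' r : ℕ) (h : Q ≤ Q') :
    ∑ d ∈ (Icc 1 Q).filter (fun d => r.Coprime d), lam d * Err (x d) d r =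
      ∑ d ∈ (Icc 1 Q').filter (fun d => r.Coprime d), (if 1 ≤ d ∧ d ≤ Q then lam d else 0) * Err (x d) d r := by
  rw [← sum_filter_add_sum_filter_not ((Icc 1 Q').filter (fun d => r.Coprime d)) (fun d => d ≤ Q)]
  have h1 : ∑ d ∈ ((Icc 1 Q').filter (fun d => r.Coprime d)).filter (fun d => ¬ d ≤ Q),
      (if 1 ≤ d ∧ d ≤ Q then lam d else 0) * Err (x d) d r = 0 := by
    apply sum_eq_zero
    intro d hd
    rw [mem_filter] at hd
    rw [if_neg (fun hcon => hd.2 hcon.2), zero_mul]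
  rw [h1, add_zero]
  have h2 : ((Icc 1 Q').filter (fun d => r.Coprime d)).filter (fun d => d ≤ Q) = (Icc 1 Q).filter (fun d => r.Coprime d) := by
    ext d
    simp only [mem_filter, mem_Icc]
    constructor
    · rintro ⟨⟨⟨h3, _⟩, h4⟩, h5⟩
      exact ⟨⟨h3, h5⟩, h4⟩
    · rintro ⟨⟨h3, h4⟩, h5⟩
      exact ⟨⟨⟨h3, h4.trans h⟩, h5⟩, h4⟩
  rw [h2]
  apply sum_congr rfl
  intro d hd
  rw [mem_filter, mem_Icc] at hd
  rw [if_pos hd.1]

open Classical in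
theorem heavy_near (B : ℕ) (δ : ℝ) (hδ : 0 < δ) (hδ1 : δ ≤ 1) (B' T W U : ℕ) (ε : ℝ) (hε : 0 < ε) :
    ∃ V N₀ : ℕ, ∀ N : ℕ, N₀ ≤ N →
    ∀ θ : ℕ × ParW, ParWOK (Real.log N) (B' * N) T ((N : ℝ) ^ (1 - ε)) θ →
    ∀ (ι : Type) (s : Finset ι) (y : ι → ℝ), (∀ i ∈ s, |y i| ≤ N) → ES B δ V N s y →
    ((s.filter fun i => ¬ NearZ (fun r => 0 < r → ∀ l, HeavyP (B' * N) θ.1 (N / Real.log N ^ U) (θ.2.2.1 l) (θ.2.2.2 l) r.toNat)
      (Real.log N ^ W) (y i)).card : ℝ) ≤ s.card / Real.log N ^ U := by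
  obtain ⟨ε', hε'⟩ : ∃ ε' : ℝ, ε' = min ε 1 := ⟨_, rfl⟩
  have hε'0 : 0 < ε' := by rw [hε']; exact lt_min hε one_pos
  have hε'1 : ε' ≤ 1 := by rw [hε']; exact min_le_right _ _
  have hε'2 : ε' ≤ ε := by rw [hε']; exact min_le_left _ _
  obtain ⟨V, N₀, h0⟩ := near2 (Θ := ParW) B δ hδ hδ1 W (U + 3)
    (fun k θ => (θ.1 : ℝ) ≤ (k : ℝ) ^ T ∧ (∀ l q, |θ.2.1 l q| ≤ (k : ℝ) ^ T * (q.divisors.card : ℝ) ^ T) ∧
      ∀ l q, θ.2.2 l q ≤ (B' + 1) * 2 ^ k)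
    (fun k θ y => 0 < y → ∀ l, Pool.Agent.N213.GF.Heavy 2 (B' + 1) (U + 3) k ε' (θ.2.1 l) (θ.2.2 l) y.toNat)
    (fun C hC => by
      obtain ⟨k₀, h1⟩ := Pool.Agent.N213.GF.cls_heavy_near ((hC 1 one_ne_zero).1).toCls (B' + 1) T (W + 1) (U + 3) ε' hε'0
      refine ⟨k₀, fun k hk θ hθ p hp c hc => ?_⟩
      exact h1 k hk p hp c (hc.trans (by
        push_cast
        have h2 : (0 : ℤ) ≤ 2 ^ k := by positivity
        exact le_mul_of_one_le_left h2 (by omega))) θ.1 hθ.1 θ.2.1 hθ.2.1 θ.2.2 hθ.2.2)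
  obtain ⟨N₁, h1⟩ := eventually_atTop.mp (ev_log_ge 1)
  refine ⟨V, N₀ + N₁ + 1, fun N hN θ hθ ι s y hy hes => ?_⟩
  obtain ⟨Q, L, lam, x⟩ := θ
  obtain ⟨hQ, hL, hlam, hx⟩ := hθ
  simp only at hQ hL hlam hx ⊢
  obtain ⟨k, g1, g2, g3, g4, h2⟩ := h0 N (by omega)
  have hLg := h1 N (by omega)
  have hL0 : 0 < Real.log N := by linarith
  have hN1 : (1 : ℝ) ≤ N := by exact_mod_cast (by omega : 1 ≤ N)
  have hN0 : (0 : ℝ) < N := by linarith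
  have hk0 : (0 : ℝ) < k := by linarith
  have hNk : (N : ℝ) ≤ ((2 ^ k : ℕ) : ℝ) := by exact_mod_cast g3
  have hQQ : Q ≤ ⌊((2 ^ k : ℕ) : ℝ) ^ (1 - ε')⌋₊ := by
    apply Nat.le_floor
    refine hQ.trans ?_
    calc (N : ℝ) ^ (1 - ε) ≤ (N : ℝ) ^ (1 - ε') := Real.rpow_le_rpow_of_exponent_le hN1 (by linarith)
      _ ≤ ((2 ^ k : ℕ) : ℝ) ^ (1 - ε') := Real.rpow_le_rpow hN0.le hNk (by linarith)
  have hE : ((2 ^ k : ℕ) : ℝ) / (k : ℝ) ^ (U + 3) ≤ N / Real.log N ^ U := by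
    push_cast
    rw [div_le_div_iff₀ (by positivity) (by positivity)]
    calc (2 : ℝ) ^ k * Real.log N ^ U ≤ ((k : ℝ) ^ 2 * N) * (k : ℝ) ^ U := by gcongr
      _ = N * (k : ℝ) ^ (U + 2) := by rw [pow_add]; ring
      _ ≤ N * (k : ℝ) ^ (U + 3) := by
          apply mul_le_mul_of_nonneg_left _ hN0.le
          exact pow_le_pow_right₀ (by linarith) (by omega)
  have h3 := h2 ⟨L, fun l d => if 1 ≤ d ∧ d ≤ Q then lam l d else 0, x⟩ ⟨?_, ?_, ?_⟩ ι s y hy hes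
  · refine le_trans ?_ (h3.trans ?_)
    · apply card_filter_mono'
      intro i _ hi hcon
      refine hi (nearZ_mono hcon le_rfl fun r hr hr0 l => ?_)
      obtain ⟨e1, e2⟩ := hr hr0 l
      simp only at e1 e2
      refine ⟨fun y' hy' => ?_, ?_⟩
      · rw [heavy_cut (lam l) (fun _ => y') Q _ r.toNat hQQ]
        refine (e1 y' ?_).trans hE
        have : (y' : ℝ) ≤ (((B' + 1) * 2 ^ k : ℕ) : ℝ) := by
          push_cast at hNk ⊢
          refine hy'.trans ?_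
          gcongr
          linarith
        exact_mod_cast this
      · rw [heavy_cut (lam l) (x l) Q _ r.toNat hQQ]
        exact e2.trans hE
    · apply div_le_div_of_nonneg_left (Nat.cast_nonneg _) (by positivity)
      exact pow_le_pow_right₀ hLg (by omega)
  · exact hL.trans (pow_le_pow_left₀ hL0.le g1 T)
  · intro l d
    have hτ : (0 : ℝ) ≤ (d.divisors.card : ℝ) := Nat.cast_nonneg _
    simp only
    split_ifs with hd
    · refine (hlam l d hd.1).trans ?_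
      rw [← mul_pow]
      exact pow_le_pow_left₀ (by positivity) (mul_le_mul_of_nonneg_right g1 hτ) T
    · rw [abs_zero]
      positivity
  · intro l d
    have : (x l d : ℝ) ≤ (((B' + 1) * 2 ^ k : ℕ) : ℝ) := by
      push_cast at hNk ⊢
      refine (hx l d).trans ?_
      gcongr
      linarith
    exact_mod_cast this

open Classical in
theorem heavy_primes (F : Finset ℝ) (c : ℝ) (hcF : c ∈ F) (hn : ∀ m : ℕ, c ≠ m) (hc : 0 < c)
    (hmax : ∀ x ∈ F, x ≤ c) (a : ℝ → ℝ) (ha : a c ≠ 0) (B T W U : ℕ) (ε : ℝ) (hε : 0 < ε) (hε1 : ε ≤ 1) :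
    ∃ X₀ : ℕ, ∀ X : ℕ, X₀ ≤ X → ∀ θ : ℕ × ParW,
      ParWOK (Real.log X) (B * (X : ℝ) ^ c) T (((X : ℝ) ^ c) ^ (1 - ε)) θ → ∀ z : ℝ, |z| ≤ (X : ℝ) ^ c →
      (((Ioc X (2 * X)).filter fun p : ℕ => p.Prime ∧ ¬ NearZ (fun r => 0 < r → ∀ l,
        HeavyP (B * (X : ℝ) ^ c) θ.1 ((X : ℝ) ^ c / Real.log X ^ U) (θ.2.2.1 l) (θ.2.2.2 l) r.toNat) (Real.log X ^ W)
          (ph F a p + z)).card : ℝ) ≤ X / Real.log X ^ U := by
  obtain ⟨X₁, h1⟩ := log_cmp (Ac F c a) c (Ac_pos F c a) hc T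
  obtain ⟨X₃, h3⟩ := sc_bound F c hc a U
  exact primes_nearZ (Θ := ℕ × ParW) F c hcF hn hc hmax a ha U W
    (fun N θ => ParWOK (Real.log N) (B * N) (T + 1) ((N : ℝ) ^ (1 - ε)) θ)
    (fun X θ => ParWOK (Real.log X) (B * (X : ℝ) ^ c) T (((X : ℝ) ^ c) ^ (1 - ε)) θ)
    (fun N θ r => 0 < r → ∀ l, HeavyP (B * N) θ.1 (N / Real.log N ^ (U + 2)) (θ.2.2.1 l) (θ.2.2.2 l) r.toNat)
    (fun X θ r => 0 < r → ∀ l, HeavyP (B * (X : ℝ) ^ c) θ.1 ((X : ℝ) ^ c / Real.log X ^ U) (θ.2.2.1 l) (θ.2.2.2 l) r.toNat)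
    ⟨X₁ + X₃ + 1, fun X hX θ hθ => by
      obtain ⟨g0, g0', g1, _⟩ := h1 X (by omega)
      obtain ⟨g3, g4⟩ := h3 X (by omega)
      obtain ⟨e1, e2, e3, e4⟩ := hθ
      have hX0 : (0 : ℝ) < X := by exact_mod_cast (by omega : 0 < X)
      have hXc : 0 < (X : ℝ) ^ c := by positivity
      refine ⟨⟨e1.trans (Real.rpow_le_rpow hXc.le g3 (by linarith)), e2.trans g1, fun l d hd => ?_,
        fun l d => (e4 l d).trans (mul_le_mul_of_nonneg_left g3 (Nat.cast_nonneg _))⟩, fun m hm hm0 l => ?_⟩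
      · have hτ : (1 : ℝ) ≤ (d.divisors.card : ℝ) := by
          exact_mod_cast Finset.card_pos.2 (Nat.nonempty_divisors.2 (by omega))
        refine (e3 l d hd).trans ?_
        rw [mul_pow, mul_pow]
        have h5 : (d.divisors.card : ℝ) ^ T ≤ (d.divisors.card : ℝ) ^ (T + 1) := pow_le_pow_right₀ hτ (by omega)
        exact mul_le_mul g1 h5 (by positivity) (by positivity)
      · exact heavyP_mono (hm hm0 l) (mul_le_mul_of_nonneg_left g3 (Nat.cast_nonneg _)) g4⟩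
    (by
      obtain ⟨V, N₀, h4⟩ := heavy_near 8 (1 / 2) (by norm_num) (by norm_num) B (T + 1) (W + 1) (U + 2) ε hε
      obtain ⟨N₁, h5⟩ := eventually_atTop.mp (ev_log_ge 1)
      refine ⟨V, N₀ + N₁, fun N hN θ hθ ι s y hy hes => (h4 N (by omega) θ hθ ι s y hy hes).trans ?_⟩
      have hL := h5 N (by omega)
      have : 0 < Real.log N := by linarith
      apply div_le_div_of_nonneg_left (Nat.cast_nonneg _) (by positivity)
      exact pow_le_pow_right₀ hL (by omega))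

end Pool.Agent.Run7.h844.RP
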