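import Pool.Agent.Run7.h844.RP.PairsN

set_option autoImplicit false

/-!
Prime pairs whose differences are near multiples of values of generalised polynomials at primes.
-/

namespace Pool.Agent.Run7.h844.RP

open Finset Filter
open Pool.Agent.N384.MQ (ev_log_ge ev_log_pow)
open Pool.Agent.W93.PP (GoodD)

/-- the property of all the differences near a point -/
def PNear (A₁ A₂ C X : ℕ) (R y : ℝ) : Prop := ∀ D : ℕ, 0 < D → |(D : ℝ) - y| ≤ R → GoodD A₁ A₂ C X D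

open Classical in
theorem primes_pairs (F : Finset ℝ) (c : ℝ) (hcF : c ∈ F) (hn : ∀ m : ℕ, c ≠ m) (hc : 0 < c) (hmax : ∀ x ∈ F, x ≤ c)
    (a : ℝ → ℝ) (ha : a c ≠ 0) (q : ℕ) (hq : 1 ≤ q) (A₁ A₂ C U W E : ℕ) :
    ∃ X₀ : ℕ, ∀ X : ℕ, X₀ ≤ X → ∀ Z : ℕ, (X : ℝ) ^ c ≤ Z → (X : ℝ) ^ c * Real.log Z ^ (C + 12) ≤ Z →
      (Z : ℝ) ≤ (X : ℝ) ^ c * Real.log Z ^ W → ∀ z : ℝ, |z| ≤ (X : ℝ) ^ c →
      (((Ioc X (2 * X)).filter fun p : ℕ => p.Prime ∧ ¬ PNear A₁ A₂ C Z (Real.log X ^ E) (q * (ph F a p + z))).card : ℝ) ≤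
        X / Real.log X ^ U := by
  obtain ⟨V, M₀, h0⟩ := rp_pairs_near 8 (1 / 2) (by norm_num) (by norm_num) A₁ A₂ C (U + 1) W (E + 1)
  obtain ⟨N₁, h1⟩ := ES.scale 8 (1 / 2) V q hq
  obtain ⟨N₂, h2⟩ := eventually_atTop.mp (ev_log_ge (q : ℝ))
  obtain ⟨N₃, h3⟩ := eventually_atTop.mp (ev_log_ge 1)
  have hq0 : (0 : ℝ) < q := by exact_mod_cast hq
  have hq1 : (1 : ℝ) ≤ q := by exact_mod_cast hq
  obtain ⟨X₀, h4⟩ := primes_applyX F c hcF hn hc hmax a ha U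
    (fun N (Z : ℕ) => q * N ≤ Z ∧ ((q * N : ℕ) : ℝ) * Real.log Z ^ (C + 10) ≤ Z ∧ (Z : ℝ) ≤ ((q * N : ℕ) : ℝ) * Real.log Z ^ W)
    (fun N Z y => PNear A₁ A₂ C Z (Real.log N ^ (E + 1)) (q * y))
    ⟨V + 1, M₀ + N₁ + N₂ + N₃ + 1, fun N hN Z hZ s y hy hes => by
      have hNq : N ≤ q * N := Nat.le_mul_of_pos_left N hq
      have hL1 := h3 N (by omega)
      have hN0 : (0 : ℝ) < N := by exact_mod_cast (by omega : 0 < N)
      have hlog : Real.log N ≤ Real.log ((q * N : ℕ) : ℝ) := Real.log_le_log hN0 (by exact_mod_cast hNq)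
      have h5 := h0 (q * N) (by omega) Z hZ.1 hZ.2.1 hZ.2.2 ℕ s (fun i => q * y i) (fun i hi => by
        rw [abs_mul, abs_of_pos hq0]
        push_cast
        exact mul_le_mul_of_nonneg_left (hy i hi) hq0.le) (h1 N (by omega) ℕ s y hes)
      have hL0 : 0 < Real.log N := by linarith
      refine le_trans ?_ (h5.trans ?_)
      · apply card_filter_mono'
        intro i _ h h'
        exact h fun D hD0 hD => h' D hD0 (hD.trans (pow_le_pow_left₀ hL0.le hlog _))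
      · apply div_le_div_of_nonneg_left (Nat.cast_nonneg _) (by positivity)
        exact pow_le_pow_left₀ hL0.le hlog _⟩
  obtain ⟨X₁, h5⟩ := size_cond F c hc a (C + 11) W
  obtain ⟨X₂, h6⟩ := log_cmp (Ac F c a) c (Ac_pos F c a) hc E
  have h7 : ∃ X₃ : ℕ, ∀ X : ℕ, X₃ ≤ X → N₂ + N₃ ≤ sc (Ac F c a) c X := by
    have h4 : Tendsto (fun X : ℕ => Ac F c a * (X : ℝ) ^ c) atTop atTop :=
      ((tendsto_rpow_atTop hc).comp (tendsto_natCast_atTop_atTop (R := ℝ))).const_mul_atTop (Ac_pos F c a)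
    obtain ⟨X₃, h5⟩ := eventually_atTop.mp (h4.eventually_ge_atTop ((N₂ + N₃ : ℕ) : ℝ))
    refine ⟨X₃, fun X hX => ?_⟩
    have h6 := (h5 X hX).trans (sc_ge (Ac F c a) c X)
    exact_mod_cast h6
  obtain ⟨X₃, h7⟩ := h7
  refine ⟨X₀ + X₁ + X₂ + X₃, fun X hX Z hZ0 hZ1 hZ2 z hz => ?_⟩
  obtain ⟨g1, g2, g3, g4⟩ := h5 X (by omega) Z hZ0 (by rw [show C + 11 + 1 = C + 12 by ring]; exact hZ1) hZ2
  have g5 := h7 X (by omega)
  obtain ⟨g6, g7, g8, g9⟩ := h6 X (by omega)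
  obtain ⟨N, hN⟩ : ∃ N, N = sc (Ac F c a) c X := ⟨_, rfl⟩
  rw [← hN] at g2 g3 g4 g5 g7 g8 g9
  have hlq : (q : ℝ) ≤ Real.log Z := by
    have k1 := h2 Z (by omega)
    exact k1
  have hLZ : 1 ≤ Real.log Z := hq1.trans hlq
  have hN0 : (0 : ℝ) ≤ N := Nat.cast_nonneg _
  have k2 : ((q * N : ℕ) : ℝ) * Real.log Z ^ (C + 10) ≤ Z := by
    refine le_trans ?_ g3
    push_cast
    calc (q : ℝ) * N * Real.log Z ^ (C + 10) = q * (N * Real.log Z ^ (C + 10)) := by ring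
      _ ≤ Real.log Z * (N * Real.log Z ^ (C + 10)) := mul_le_mul_of_nonneg_right hlq (by positivity)
      _ = N * Real.log Z ^ (C + 11) := by rw [show C + 11 = C + 10 + 1 by ring, pow_succ]; ring
  have k1 : q * N ≤ Z := by
    have : ((q * N : ℕ) : ℝ) ≤ Z := (le_mul_of_one_le_right (Nat.cast_nonneg _) (one_le_pow₀ hLZ)).trans k2
    exact_mod_cast this
  have k3 : (Z : ℝ) ≤ ((q * N : ℕ) : ℝ) * Real.log Z ^ W := by
    refine g4.trans ?_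
    apply mul_le_mul_of_nonneg_right _ (by positivity)
    push_cast
    nlinarith
  refine le_trans ?_ (h4 X (by omega) Z (by rw [← hN]; exact ⟨k1, k2, k3⟩) z hz)
  apply card_filter_mono'
  intro p _ hp
  refine ⟨hp.1, fun hcon => hp.2 fun D hD0 hD => hcon D hD0 (hD.trans ?_)⟩
  rw [← hN]
  exact g8

end Pool.Agent.Run7.h844.RP
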