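import Pool.Agent.Run7.h844.RP.PwG
import Pool.Agent.N794.CG.Pairs

set_option autoImplicit false
set_option maxHeartbeats 4000000

/-!
The theorems on dominated families (`Pool.Agent.N794.CG`) for families of integers with small exponential sums.
-/

namespace Pool.Agent.Run7.h844.RP

open Finset Filter
open Pool.Agent.N794.CG

/-- families of integers with small exponential sums -/
theorem eng_if {S : Type} {τ : ℕ → ℝ} {Q : S → ℕ → ℤ → Prop} (hτ : ∀ X, 0 ≤ τ X) (H : Eng τ Q) : ∃ W : ℕ, 1 ≤ W ∧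
      ∀ κ : ℤ, κ ≠ 0 → ∃ X₀ : ℕ, ∀ X : ℕ, X₀ ≤ X →
      ∀ (ι : Type) (u : Finset ι) (y : ι → ℤ) (Z : ℝ), IFam u y Z → ∀ (c₀ : ℤ) (s : S),
      Mostly u (fun _ => 1 / (u.card : ℝ)) (fun i => c₀ + κ * y i) (τ X)
        (fun n => ∀ x : ℕ, X ≤ x → (x : ℝ) ^ W ≤ Z → Q s x n) := by
  obtain ⟨W, hW, J⟩ := H 2 le_rfl 5 (1 / 2) (by norm_num) (by norm_num)
  refine ⟨2 * W, by omega, fun κ hκ => ?_⟩
  obtain ⟨X₀, K⟩ := J 1 κ le_rfl hκ
  refine ⟨X₀ + 2, fun X hX ι u y Z hF c₀ s => ?_⟩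
  rcases lt_or_ge Z 2 with h0 | h0
  · refine Mostly.of_all (hτ X) fun n x hXx hxW => ?_
    have h1 := vac (2 * W) X x (by omega) (by omega) hXx
    have h2 : (2 : ℝ) ≤ (x : ℝ) ^ (2 * W) := by exact_mod_cast (by omega : 2 ≤ x ^ (2 * W))
    linarith
  rcases u.eq_empty_or_nonempty with hu | hu
  · intro E hE _
    rw [hu, subset_empty] at hE
    rw [hE, sum_empty]
    exact hτ X
  obtain ⟨k, hk⟩ : ∃ k, k = Nat.log 2 ⌊Z⌋₊ := ⟨_, rfl⟩
  have hsc : Scale k Z := by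
    rw [hk]
    exact scale_of Z (by linarith)
  have hk1 : 1 ≤ k := by
    by_contra hcon
    have h1 : k = 0 := by omega
    have h2 := hsc.high
    rw [h1] at h2
    norm_num at h2
    linarith
  have hdec := decays_int u hu y Z hF.pos hF.small k hsc.low c₀ κ
  have h1 := K X (by omega) k 1 ι u (fun _ => 1 / (u.card : ℝ)) (fun i => c₀ + κ * y i) (dom_of_decays hdec) s
  rw [one_mul] at h1
  exact h1.mono fun n hn x hXx hxW => hn x hXx (scale_change W x k Z hk1 hsc.high hxW)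

/-- the one-dimensional statement for the values at primes -/
theorem primes_fine (F : Finset ℝ) (c : ℝ) (hcF : c ∈ F) (hn : ∀ m : ℕ, c ≠ m) (hc : 0 < c) (hmax : ∀ x ∈ F, x ≤ c)
    (a : ℝ → ℝ) (ha : a c ≠ 0) (δ : ℝ) (hδ : 0 < δ) (hδ1 : δ ≤ 1 / 2) : ∃ θ : ℝ, 0 < θ ∧ ∀ κ : ℤ, κ ≠ 0 →
      ∃ X₀ : ℕ, ∀ X N : ℕ, X₀ ≤ X → X₀ ≤ N → ∀ (z : ℝ) (e : ℤ),
      FineAt δ X (fun x => (x : ℝ) ≤ (N : ℝ) ^ θ) (2 * (X : ℝ) ^ (-(δ / 2))) (PB N) (fun _ => 1 / ((PB N).card : ℝ))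
        (fun q => e + κ * vz F a z q) := by
  obtain ⟨β, hβ, _, N₀, hfam⟩ := primes_fam F c hcF hn hc hmax a ha
  obtain ⟨W, hW, H⟩ := eng_if (fun X => by positivity) (eng_fine δ hδ hδ1)
  have hW0 : (0 : ℝ) < W := by exact_mod_cast hW
  refine ⟨β / W, by positivity, fun κ hκ => ?_⟩
  obtain ⟨X₀, J⟩ := H κ hκ
  refine ⟨X₀ + N₀, fun X N hX hN z e s => ?_⟩
  exact (J X (by omega) ℕ _ _ _ (hfam N (by omega) z) e s).mono fun n hn x hXx hx => hn x hXx (le_pow_of hW hx)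

end Pool.Agent.Run7.h844.RP
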