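import Pool.Agent.Run7.h844.RP.PwP

set_option autoImplicit false
set_option maxHeartbeats 4000000

/-!
The decay of the characteristic function of a family of integers with small exponential sums.
-/

namespace Pool.Agent.Run7.h844.RP

open Finset Filter
open Pool.Agent.H807R2.Dav (ee norm_ee ee_add)
open Pool.Agent.TH872.Mir (Far farCount)
open Pool.Agent.R459.Eq (Decays)
open Pool.Agent.N384.MQ (far_dist card_or)

/-- the decay of the characteristic function -/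
theorem decays_int {ι : Type} (s : Finset ι) (hs : s.Nonempty) (v : ι → ℤ) (T : ℝ) (hT0 : 0 < T) (hf : IF T s v)
    (k : ℕ) (hk : (2 : ℝ) ^ k ≤ T) (c₀ κ : ℤ) :
    Decays 2 1 5 k (1 / 2) κ s (fun _ => 1 / (s.card : ℝ)) (fun i => c₀ + κ * v i) := by
  have hs0 : (0 : ℝ) < s.card := by exact_mod_cast hs.card_pos
  refine ⟨fun _ _ => by positivity, ?_, fun θ N hfar hAN => ?_⟩
  · rw [sum_const, nsmul_eq_mul, mul_one_div, div_self hs0.ne']
  obtain ⟨α, hα⟩ : ∃ α : ℝ, α = κ * θ := ⟨_, rfl⟩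
  rw [← hα] at hfar
  have hnorm : ‖∑ i ∈ s, ((1 / (s.card : ℝ) : ℝ) : ℂ) * ee (((c₀ + κ * v i : ℤ) : ℝ) * θ)‖ =
      1 / s.card * ‖∑ i ∈ s, ee (α * v i)‖ := by
    have h1 : ∀ i ∈ s, ((1 / (s.card : ℝ) : ℝ) : ℂ) * ee (((c₀ + κ * v i : ℤ) : ℝ) * θ) =
        (((1 / (s.card : ℝ) : ℝ) : ℂ) * ee (c₀ * θ)) * ee (α * v i) := by
      intro i _
      have e1 : ee (((c₀ + κ * v i : ℤ) : ℝ) * θ) = ee (c₀ * θ) * ee (α * v i) := by
        rw [← ee_add]
        congr 1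
        rw [hα]
        push_cast
        ring
      rw [e1]
      ring
    rw [sum_congr rfl h1, ← mul_sum, norm_mul, norm_mul, norm_ee, mul_one, Complex.norm_real, Real.norm_of_nonneg (by positivity)]
  rw [hnorm]
  have htriv : 1 / (s.card : ℝ) * ‖∑ i ∈ s, ee (α * v i)‖ ≤ 1 := by
    rw [one_div, inv_mul_le_iff₀ hs0, mul_one]
    refine (norm_sum_le _ _).trans ?_
    simp only [norm_ee, sum_const, nsmul_eq_mul, mul_one]
    exact le_rfl
  rcases Nat.eq_zero_or_pos N with hN0 | hN0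
  · rw [hN0, pow_zero]
    exact htriv
  obtain ⟨hMk, hdist⟩ := far_dist k (5 * (N + 1)) (by omega) α hfar
  obtain ⟨δ, hδ⟩ : ∃ δ, δ = |α - round α| := ⟨_, rfl⟩
  rw [← hδ] at hdist
  have hδ0 : 0 < δ := by
    rcases (abs_nonneg (α - round α)).lt_or_eq with h1 | h1
    · rw [hδ]; exact h1
    · rw [hδ, ← h1, zero_mul, mul_zero] at hdist
      have : (0 : ℝ) < 2 ^ (5 * (N + 1)) := by positivity
      linarith
  have hchar := hf α δ hδ0 (fun m => by rw [hδ]; exact round_le α m)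
  have hk0 : (0 : ℝ) < 2 ^ k := by positivity
  have h2N : (0 : ℝ) < 2 ^ N := by positivity
  have e1 : 1 / (δ * T) ≤ 1 / (2 : ℝ) ^ N := by
    apply one_div_le_one_div_of_le (by positivity)
    have h1 : δ * 2 ^ k ≤ δ * T := mul_le_mul_of_nonneg_left hk hδ0.le
    have h2 : (2 : ℝ) ^ (5 * (N + 1)) = 2 ^ (5 * N) * 32 := by
      rw [show 5 * (N + 1) = 5 * N + 5 by ring, pow_add]
      norm_num
    have h3 : (2 : ℝ) ^ N ≤ 2 ^ (5 * N) := pow_le_pow_right₀ (by norm_num) (by omega)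
    rw [h2] at hdist
    linarith
  calc 1 / (s.card : ℝ) * ‖∑ i ∈ s, ee (α * v i)‖ ≤ 1 / (s.card : ℝ) * (s.card / (δ * T)) :=
        mul_le_mul_of_nonneg_left hchar (by positivity)
    _ = 1 / (δ * T) := by field_simp
    _ ≤ 1 / (2 : ℝ) ^ N := e1
    _ = (1 / 2) ^ N := by rw [one_div_pow]

/-- the property `P` of `c₀ + κ v_i` holds for all `i ∈ s` up to a proportion of at most `τ` -/
def AlmostI {ι : Type} (s : Finset ι) (v : ι → ℤ) (κ c₀ : ℤ) (τ : ℝ) (P : ℤ → Prop) : Prop :=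
  open Classical in ((s.filter (fun i => ¬ P (c₀ + κ * v i))).card : ℝ) ≤ τ * s.card

lemma AlmostI.mono {ι : Type} {s : Finset ι} {v : ι → ℤ} {κ c₀ : ℤ} {τ : ℝ} {P Q : ℤ → Prop}
    (h : AlmostI s v κ c₀ τ P) (hPQ : ∀ n, P n → Q n) : AlmostI s v κ c₀ τ Q := by
  classical
  unfold AlmostI at h ⊢
  refine le_trans (Nat.cast_le.2 (card_le_card fun n hn => ?_)) h
  rw [mem_filter] at hn ⊢
  exact ⟨hn.1, fun hcon => hn.2 (hPQ _ hcon)⟩

lemma AlmostI.mono_right {ι : Type} {s : Finset ι} {v : ι → ℤ} {κ c₀ : ℤ} {τ τ' : ℝ} {P : ℤ → Prop}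
    (h : AlmostI s v κ c₀ τ P) (hτ : τ ≤ τ') : AlmostI s v κ c₀ τ' P := by
  unfold AlmostI at h ⊢
  exact h.trans (mul_le_mul_of_nonneg_right hτ (Nat.cast_nonneg _))

lemma AlmostI.and {ι : Type} {s : Finset ι} {v : ι → ℤ} {κ c₀ : ℤ} {τ τ' : ℝ} {P Q : ℤ → Prop}
    (h : AlmostI s v κ c₀ τ P) (h' : AlmostI s v κ c₀ τ' Q) : AlmostI s v κ c₀ (τ + τ') (fun n => P n ∧ Q n) := by
  unfold AlmostI at h h' ⊢
  rw [add_mul]
  refine (@card_or _ _ _ _ _ (fun _ => @instDecidableNot _ (Classical.propDecidable _))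
    (fun _ => @instDecidableNot _ (Classical.propDecidable _))
    (fun _ => @instDecidableNot _ (Classical.propDecidable _)) fun n _ hn => ?_).trans (add_le_add h h')
  by_cases h1 : P (c₀ + κ * v n)
  · exact Or.inr fun h2 => hn ⟨h1, h2⟩
  · exact Or.inl h1

/-- a family of integers with small exponential sums at the scale `T > 0` -/
structure IFam {ι : Type} (s : Finset ι) (v : ι → ℤ) (T : ℝ) : Prop where
  pos : 0 < T
  small : IF T s v

/-- from the decay of the characteristic function to almost all the members -/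
theorem ip_pass (W X : ℕ) (hX : 2 ≤ X) {ι : Type} (s : Finset ι) (v : ι → ℤ) (T : ℝ)
    (hF : IFam s v T) (κ c₀ : ℤ) (Q : ℕ → ℤ → Prop) (τ : ℝ) (hτ : 0 ≤ τ)
    (H : ∀ (k : ℕ) (ι : Type) (Ω : Finset ι) (w : ι → ℝ) (v : ι → ℤ), Decays 2 1 5 k (1 / 2) κ Ω w v →
      ∀ E : Finset ι, E ⊆ Ω → (∀ i ∈ E, ¬ ∀ x : ℕ, X ≤ x → x ^ W ≤ 2 ^ k → Q x (v i)) → ∑ i ∈ E, w i ≤ τ) :
    AlmostI s v κ c₀ τ (fun n => ∀ x : ℕ, X ≤ x → (x : ℝ) ^ (W + 1) ≤ T → Q x n) := by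
  classical
  obtain ⟨hT0, hf⟩ := hF
  unfold AlmostI
  have hM0 : (0 : ℝ) ≤ s.card := Nat.cast_nonneg _
  rcases s.eq_empty_or_nonempty with hse | hs
  · rw [hse]
    simp
  by_cases hne : ∃ x : ℕ, X ≤ x ∧ (x : ℝ) ^ (W + 1) ≤ T
  swap
  · have : s.filter (fun i => ¬ ∀ x : ℕ, X ≤ x → (x : ℝ) ^ (W + 1) ≤ T → Q x (c₀ + κ * v i)) = ∅ := by
      apply filter_false_of_mem
      intro n _ hcon
      exact hcon fun x hx hxW => absurd ⟨x, hx, hxW⟩ hne
    rw [this, card_empty, Nat.cast_zero]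
    positivity
  obtain ⟨x₀, hx₀, hx₀W⟩ := hne
  have hx₀1 : (1 : ℝ) ≤ x₀ := by exact_mod_cast (by omega : 1 ≤ x₀)
  have hT1 : (1 : ℝ) ≤ T := (one_le_pow₀ hx₀1).trans hx₀W
  obtain ⟨k, hk⟩ : ∃ k, k = Nat.log 2 ⌊T⌋₊ := ⟨_, rfl⟩
  have hfl : 1 ≤ ⌊T⌋₊ := by
    rw [Nat.one_le_floor_iff]
    linarith
  have hf0 : 0 ≤ T := by linarith
  have hk1 : (2 : ℝ) ^ k ≤ T := by
    have h1 : 2 ^ k ≤ ⌊T⌋₊ := by
      rw [hk]
      exact Nat.pow_log_le_self 2 (by omega)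
    calc (2 : ℝ) ^ k ≤ (⌊T⌋₊ : ℝ) := by exact_mod_cast h1
      _ ≤ T := Nat.floor_le hf0
  have hk2 : T < 2 ^ (k + 1) := by
    have h1 : ⌊T⌋₊ < 2 ^ (k + 1) := by
      rw [hk]
      exact Nat.lt_pow_succ_log_self (by norm_num) _
    have h2 : T < (⌊T⌋₊ : ℝ) + 1 := Nat.lt_floor_add_one _
    have h3 : (⌊T⌋₊ : ℝ) + 1 ≤ 2 ^ (k + 1) := by exact_mod_cast h1
    linarith
  have hd := decays_int s hs v T hT0 hf k hk1 c₀ κ
  have hM1' : (0 : ℝ) < s.card := by exact_mod_cast hs.card_pos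
  have h1 := H k ι s (fun _ => 1 / (s.card : ℝ)) _ hd
    (s.filter (fun i => ¬ ∀ x : ℕ, X ≤ x → (x : ℝ) ^ (W + 1) ≤ T → Q x (c₀ + κ * v i)))
    (filter_subset _ _) (fun n hn hcon => by
      rw [mem_filter] at hn
      apply hn.2
      intro x hx hxW
      exact hcon x hx (by
        have hx2 : (2 : ℝ) ≤ x := by exact_mod_cast (by omega : 2 ≤ x)
        have h3 : (x : ℝ) ^ W * 2 < 2 ^ k * 2 := by
          calc (x : ℝ) ^ W * 2 ≤ (x : ℝ) ^ W * x := mul_le_mul_of_nonneg_left hx2 (by positivity)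
            _ = (x : ℝ) ^ (W + 1) := (pow_succ _ _).symm
            _ ≤ T := hxW
            _ < 2 ^ (k + 1) := hk2
            _ = 2 ^ k * 2 := pow_succ _ _
        have h4 : (x : ℝ) ^ W ≤ 2 ^ k := by linarith
        exact_mod_cast h4))
  rw [sum_const, nsmul_eq_mul, mul_one_div, div_le_iff₀ hM1'] at h1
  exact h1

end Pool.Agent.Run7.h844.RP
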