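import Pool.Agent.Run7.h844.RP.PwD
import Pool.Agent.R459.Eq7
import Pool.Agent.R459.Bsd4

set_option autoImplicit false

/-!
The data of Artin type, the product of Birch and Swinnerton-Dyer and the sums of the traces of Frobenius for almost all the
members of `c₀ + κ y_i` (from `Pool.Agent.R459.Eq7`, `Bsd3`, `Bsd4` and `Pool.Agent.N193.PS.Eqs3`).
-/

namespace Pool.Agent.Run7.h844.RP

open Finset Filter Topology
open Pool.Agent.R459.Eq (Decays pri mean)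
open Pool.Agent.R459.Bsd (GG TT)
open Pool.Agent.R459.EqD (cntZ dat_all)
open Pool.Agent.H771R4.SE (Dat)

/-- the product of Birch and Swinnerton-Dyer -/
theorem ip_log : ∃ W : ℕ, 1 ≤ W ∧
    ∀ κ : ℤ, κ ≠ 0 → ∀ a : ℤ, a ≠ 0 → ∃ (C : ℝ) (X₀ : ℕ), 0 < C ∧ ∀ (ι : Type) (s : Finset ι) (y : ι → ℤ) (Zf : ℝ), IFam s y Zf → ∀ (c₀ : ℤ) (x : ℕ), X₀ ≤ x → (x : ℝ) ^ W ≤ Zf →
      ∀ l : ℝ, 0 < l → AlmostI s y κ c₀ (C / l ^ 2) (fun n =>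
        |∑ p ∈ pri x, GG a p n - Real.log (Real.log x) / 2| ≤ l * √(Real.log (Real.log x))) := by
  classical
  obtain ⟨W, hW, HK⟩ := Pool.Agent.R459.Bsd.log_ms 2 le_rfl 5 (1 / 2) (by norm_num) (by norm_num)
  refine ⟨W + 1, by omega, fun κ hκ a ha => ?_⟩
  obtain ⟨C, hC, J⟩ := HK 1 κ le_rfl hκ a ha
  refine ⟨C, 2 + 16, hC, fun ι s y Zf hF c₀ x hx hxW l hl => ?_⟩
  have h0 := ip_pass W x (by omega) s y Zf hF κ c₀ (fun y n => y = x →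
    |∑ p ∈ pri x, GG a p n - Real.log (Real.log x) / 2| ≤ l * √(Real.log (Real.log x))) (C / l ^ 2) (by positivity)
    fun k ι Ω w v hdec E hE hbad => ?_
  · refine h0.mono fun n hn => hn x le_rfl hxW rfl
  · by_cases hE0 : E = ∅
    · rw [hE0, sum_empty]
      positivity
    obtain ⟨i₀, hi₀⟩ := Finset.nonempty_of_ne_empty hE0
    have hxk : x ^ W ≤ 2 ^ k := by
      by_contra hcon
      apply hbad i₀ hi₀
      intro y _ hyk hyx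
      rw [hyx] at hyk
      exact absurd hyk hcon
    have hms := J k x (by omega) (by omega) hxk ι Ω w v hdec
    obtain ⟨ℓ, hℓ⟩ : ∃ ℓ, ℓ = Real.log (Real.log x) := ⟨_, rfl⟩
    have hℓ0 : 0 < ℓ := by
      rw [hℓ]
      apply Real.log_pos
      have hxr : (16 : ℝ) ≤ x := by exact_mod_cast (by omega : 16 ≤ x)
      rw [Real.lt_log_iff_exp_lt (by linarith)]
      have h5 := Real.exp_one_lt_d9
      linarith
    rw [← hℓ] at hms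
    have h5 : ∀ i ∈ E, l ^ 2 * ℓ ≤ (∑ p ∈ pri x, GG a p (v i) - ℓ / 2) ^ 2 := by
      intro i hi
      have h6 := hbad i hi
      rw [← hℓ] at h6
      push Not at h6
      obtain ⟨y, _, _, _, h6⟩ := h6
      have h7 : (l * √ℓ) ^ 2 ≤ |∑ p ∈ pri x, GG a p (v i) - ℓ / 2| ^ 2 := pow_le_pow_left₀ (by positivity) h6.le 2
      rw [mul_pow, Real.sq_sqrt hℓ0.le, sq_abs] at h7
      exact h7
    have h6 : (∑ i ∈ E, w i) * (l ^ 2 * ℓ) ≤ C * ℓ := by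
      rw [sum_mul]
      calc ∑ i ∈ E, w i * (l ^ 2 * ℓ) ≤ ∑ i ∈ E, w i * (∑ p ∈ pri x, GG a p (v i) - ℓ / 2) ^ 2 :=
            sum_le_sum fun i hi => mul_le_mul_of_nonneg_left (h5 i hi) (hdec.nonneg i (hE hi))
        _ ≤ ∑ i ∈ Ω, w i * (∑ p ∈ pri x, GG a p (v i) - ℓ / 2) ^ 2 :=
            sum_le_sum_of_subset_of_nonneg hE fun i hi _ => mul_nonneg (hdec.nonneg i hi) (sq_nonneg _)
        _ ≤ C * ℓ := hms
    rw [le_div_iff₀ (by positivity)]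
    rw [← mul_assoc] at h6
    exact le_of_mul_le_mul_right h6 hℓ0

/-- the sums of the traces -/
theorem ip_tr : ∃ W : ℕ, 1 ≤ W ∧
    ∀ κ : ℤ, κ ≠ 0 → ∀ δ : ℝ, 0 < δ → δ ≤ 1 / 2 → ∃ X₀ : ℕ, ∀ X : ℕ, X₀ ≤ X → ∀ (ι : Type) (s : Finset ι) (y : ι → ℤ) (Zf : ℝ), IFam s y Zf → ∀ (c₀ a : ℤ),
      AlmostI s y κ c₀ ((X : ℝ) ^ (-δ)) (fun n => ∀ x : ℕ, X ≤ x → (x : ℝ) ^ W ≤ Zf →
        |∑ p ∈ pri x, TT a p n * Real.log p| ≤ (x : ℝ) ^ (1 + δ)) := by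
  classical
  obtain ⟨W, hW, HK⟩ := Pool.Agent.R459.Bsd.tr_all 2 le_rfl 5 (1 / 2) (by norm_num) (by norm_num)
  refine ⟨W + 1, by omega, fun κ hκ δ hδ hδ1 => ?_⟩
  obtain ⟨X₀, J⟩ := HK 1 κ le_rfl hκ δ hδ hδ1
  refine ⟨2 + X₀, fun X hX ι s y Zf hF c₀ a => ?_⟩
  refine ip_pass W X (by omega) s y Zf hF κ c₀ (fun x n => |∑ p ∈ pri x, TT a p n * Real.log p| ≤ (x : ℝ) ^ (1 + δ)) _
    (by positivity) fun k ι Ω w v hdec E hE hbad => ?_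
  refine J X (by omega) k ι Ω w v hdec a E hE fun i hi => ?_
  have h1 := hbad i hi
  push Not at h1
  exact h1

/-- data of Artin type -/
theorem ip_dat : ∃ W : ℕ, 1 ≤ W ∧
    ∀ κ : ℤ, κ ≠ 0 → ∀ (d : Dat) (ε : ℝ), 0 < ε → ∃ (C : ℝ) (X₀ : ℕ), 0 < C ∧ 1 ≤ X₀ ∧ ∀ X : ℕ, X₀ ≤ X → ∀ (ι : Type) (s : Finset ι) (y : ι → ℤ) (Zf : ℝ), IFam s y Zf → ∀ (c₀ : ℤ),
      AlmostI s y κ c₀ (C * (Real.log X / X)) (fun n => ∀ x : ℕ, X ≤ x → (x : ℝ) ^ W ≤ Zf →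
        |(cntZ d n x : ℝ) - d.A * (Nat.primeCounting x : ℝ)| ≤ ε * (Nat.primeCounting x : ℝ)) := by
  classical
  obtain ⟨W, hW, HK⟩ := dat_all 2 le_rfl 5 (1 / 2) (by norm_num) (by norm_num)
  refine ⟨W + 1, by omega, fun κ hκ d ε hε => ?_⟩
  obtain ⟨C, X₀, hC, hX₀, J⟩ := HK 1 κ le_rfl hκ d ε hε
  refine ⟨C, 2 + X₀, hC, by omega, fun X hX ι s y Zf hF c₀ => ?_⟩
  refine ip_pass W X (by omega) s y Zf hF κ c₀ (fun x n => |(cntZ d n x : ℝ) - d.A * (Nat.primeCounting x : ℝ)| ≤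
    ε * (Nat.primeCounting x : ℝ)) _ ?_ fun k ι Ω w v hdec E hE hbad => ?_
  · apply mul_nonneg hC.le
    apply div_nonneg (Real.log_nonneg _) (Nat.cast_nonneg _)
    exact_mod_cast (by omega : 1 ≤ X)
  refine J k X (by omega) ι Ω w v hdec E hE fun i hi => ?_
  have h1 := hbad i hi
  push Not at h1
  exact h1

end Pool.Agent.Run7.h844.RP
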