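import Pool.Agent.Run7.h844.RP.PwD
import Pool.Agent.N384.MQ.Fed
import Pool.Agent.N193.PS.Pe3

set_option autoImplicit false
set_option maxHeartbeats 4000000

/-!
Families of integers with small exponential sums are uniformly distributed in residue classes with a power saving;
functions of residues at consecutive primes (adapted from `Pool.Agent.N384.MQ.Fped`).
-/

namespace Pool.Agent.Run7.h844.RP

open Finset Filter Topology
open Pool.Agent.H807R2.Dav (ee norm_ee ee_add)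
open Pool.Agent.TH869.EVF (Per)
open Pool.Agent.TH869.SQ (per_mod ind ind1 mean pr lam)
open Pool.Agent.N193.PS (frac_dist)
open Pool.Agent.N384.MQ (FED om consecutive3)

/-- power-saving uniform distribution of a family in residue classes -/
theorem ifam_fed {ι : Type} {s : Finset ι} {v : ι → ℕ} {Z : ℝ} (hF : IFam s (fun i => (v i : ℤ)) Z) (hZ1 : 1 ≤ Z)
    (hs : s.Nonempty) : FED s v ⌊Z⌋₊ (1 / 2) (1 / 2) 4 := by
  classical
  obtain ⟨hZ0, hf⟩ := hF
  refine ⟨by norm_num, ?_⟩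
  intro M hM hMN F hF hF1 hsum
  obtain ⟨N, hN⟩ : ∃ N, N = ⌊Z⌋₊ := ⟨_, rfl⟩
  rw [← hN] at hMN ⊢
  have hNle : 1 ≤ N := by
    rw [hN, Nat.one_le_floor_iff]
    exact hZ1
  have hNZ : (N : ℝ) ≤ Z := by
    rw [hN]
    exact Nat.floor_le (by linarith)
  have hN1 : (1 : ℝ) ≤ N := by exact_mod_cast hNle
  have hN0 : (0 : ℝ) < N := by linarith
  have hM1 : (1 : ℝ) ≤ M := by exact_mod_cast hM
  have hM0 : (0 : ℝ) < M := by linarith
  have hs0 : (0 : ℝ) < s.card := by exact_mod_cast hs.card_pos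
  -- the function on the integers
  obtain ⟨g, hg⟩ : ∃ g : ℤ → ℝ, g = fun z => F (z % (M : ℤ)).toNat := ⟨_, rfl⟩
  have hgper : Pool.Agent.R459.Eq.Per M g := by
    intro m n hmn
    rw [hg]
    simp only
    have : m % (M : ℤ) = n % (M : ℤ) := (Int.emod_emod_of_dvd m (dvd_refl _)).symm.trans (by
      rw [Int.emod_emod_of_dvd m (dvd_refl _)]
      exact Int.emod_eq_emod_iff_emod_sub_eq_zero.2 (Int.emod_eq_zero_of_dvd hmn))
    rw [this]
  have hgF : ∀ v : ℕ, g (v : ℤ) = F v := by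
    intro v
    rw [hg]
    simp only
    rw [← Int.natCast_mod, Int.toNat_natCast]
    exact per_mod hF v
  have hg1 : ∀ n, |g n| ≤ 1 := by
    intro n
    rw [hg]
    exact hF1 _
  have hmean : Pool.Agent.R459.Eq.mean M g = 0 := by
    unfold Pool.Agent.R459.Eq.mean
    have : ∑ t ∈ range M, g (t : ℤ) = 0 := by
      rw [← hsum]
      exact sum_congr rfl fun t _ => hgF t
    rw [this, zero_div]
  -- the exponential sums
  have hexp : ∀ a ∈ Ico 1 M, ‖∑ i ∈ s, ee ((a : ℝ) * (((v i : ℕ) : ℤ) : ℝ) / M)‖ ≤ s.card * (2 * M / Z) := by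
    intro a ha
    have hd := frac_dist a M ha
    have hchar := hf ((a : ℝ) / M) (1 / (M : ℝ)) (by positivity) (fun m => hd.trans (round_le _ m))
    have e : ∑ i ∈ s, ee ((a : ℝ) * (((v i : ℕ) : ℤ) : ℝ) / M) = ∑ i ∈ s, ee ((a : ℝ) / M * (((v i : ℕ) : ℤ) : ℝ)) := by
      apply sum_congr rfl
      intro i _
      congr 1
      ring
    rw [e]
    refine hchar.trans ?_
    have h1 : (s.card : ℝ) / (1 / (M : ℝ) * Z) = s.card * (M / Z) := by field_simp
    rw [h1]
    apply mul_le_mul_of_nonneg_left _ hs0.le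
    apply div_le_div_of_nonneg_right _ hZ0.le
    linarith
  have hbody : |∑ i ∈ s, F (v i)| ≤ M * (s.card * (2 * M / Z)) := by
    have e1 : ((∑ i ∈ s, F (v i) : ℝ) : ℂ) =
        ∑ a ∈ Ico 1 M, Pool.Agent.R459.Eq.co M g a * ∑ i ∈ s, ee ((a : ℝ) * (((v i : ℕ) : ℤ) : ℝ) / M) := by
      rw [Complex.ofReal_sum]
      have h1 : ∀ i ∈ s, ((F (v i) : ℝ) : ℂ) =
          ∑ a ∈ Ico 1 M, Pool.Agent.R459.Eq.co M g a * ee ((a : ℝ) * (((v i : ℕ) : ℤ) : ℝ) / M) := by
        intro i _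
        have h2 := Pool.Agent.R459.Eq.centered M hM g hgper ((v i : ℕ) : ℤ)
        rw [hmean, sub_zero, hgF] at h2
        rw [h2]
        apply sum_congr rfl
        intro a _
        congr 2
        ring
      rw [sum_congr rfl h1, sum_comm]
      apply sum_congr rfl
      intro a _
      rw [mul_sum]
    rw [← Real.norm_eq_abs, ← Complex.norm_real, e1]
    refine (norm_sum_le _ _).trans ?_
    calc ∑ a ∈ Ico 1 M, ‖Pool.Agent.R459.Eq.co M g a * ∑ i ∈ s, ee ((a : ℝ) * (((v i : ℕ) : ℤ) : ℝ) / M)‖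
        ≤ ∑ a ∈ Ico 1 M, s.card * (2 * M / Z) := by
          apply sum_le_sum
          intro a ha
          rw [norm_mul]
          calc _ ≤ 1 * (s.card * (2 * M / Z)) :=
                mul_le_mul (Pool.Agent.R459.Eq.norm_co M hM g hg1 a) (hexp a ha) (norm_nonneg _) zero_le_one
            _ = _ := one_mul _
      _ = ((M - 1 : ℕ) : ℝ) * (s.card * (2 * M / Z)) := by rw [sum_const, Nat.card_Ico, nsmul_eq_mul]
      _ ≤ _ := by
          apply mul_le_mul_of_nonneg_right _ (by positivity)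
          exact_mod_cast Nat.sub_le _ _
  have e2 : (1 : ℝ) - 1 / 2 = 1 / 2 := by norm_num
  rw [e2]
  unfold om
  calc ((N : ℝ) + 1) / s.card * |∑ i ∈ s, F (v i)| ≤ ((N : ℝ) + 1) / s.card * (M * (s.card * (2 * M / Z))) :=
        mul_le_mul_of_nonneg_left hbody (by positivity)
    _ = M * (2 * M * (((N : ℝ) + 1) / Z)) := by field_simp
    _ ≤ M * (2 * M * 2) := by
        apply mul_le_mul_of_nonneg_left _ hM0.le
        apply mul_le_mul_of_nonneg_left _ (by positivity)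
        rw [div_le_iff₀ hZ0]
        linarith
    _ = M * (4 * M) := by ring
    _ ≤ M * (4 * (N : ℝ) ^ (1 / 2 : ℝ)) := by
        apply mul_le_mul_of_nonneg_left _ hM0.le
        exact mul_le_mul_of_nonneg_left hMN (by norm_num)

lemma per_mul (x : ℕ → ℤ → ℝ) (hx : ∀ p n, x p (n + p) = x p n) (p : ℕ) (n : ℤ) (c : ℕ) : x p (n + p * c) = x p n := by
  induction c with
  | zero => simp
  | succ c ih =>
    have : n + (p : ℤ) * ((c + 1 : ℕ) : ℤ) = (n + p * c) + p := by
      push_cast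
      ring
    rw [this, hx, ih]

open Classical in
/-- functions of the members of a family of integers at consecutive primes -/
theorem ip_consec (m : ℕ) (hm : 1 ≤ m) (δ : ℝ) (hδ : 0 < δ) :
    ∃ θ C : ℝ, 0 < θ ∧ θ ≤ 1 ∧ 1 ≤ C ∧ ∀ x : ℕ → ℤ → ℝ, (∀ p n, x p (n + p) = x p n) →
      ∀ (ι : Type) (s : Finset ι) (y : ι → ℤ) (Z : ℝ), IFam s y Z →
        ((s.filter (fun i => ¬ ∀ K : ℕ, (K : ℝ) ≤ Z ^ θ →
          ∀ I : Fin m → Set ℝ, (∀ i, (I i).OrdConnected) →
          |∑ k ∈ range K, (ind I (fun i' => x (pr (k + i')) (y i)) -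
            ∏ i' : Fin m, mean (pr (k + i')) (fun t => ind1 (I i') (x (pr (k + i')) (t : ℕ))))| ≤
            C * ((K : ℝ) ^ (1 / 2 + δ) * √(1 + Real.log Z)))).card : ℝ) ≤ C * Z ^ (-θ) * s.card := by
  obtain ⟨κ, C, h1, h2, h3, H⟩ := consecutive3 (1 / 2) (1 / 2) 4 (by norm_num) (by norm_num) (by norm_num) (by norm_num)
    (by norm_num) m hm δ hδ
  refine ⟨κ / 2, 4 * C, by positivity, by linarith, by linarith, fun x hx ι s y Z hF => ?_⟩
  have hZ0 := hF.pos
  have hs0 : (0 : ℝ) ≤ s.card := Nat.cast_nonneg _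
  rcases s.eq_empty_or_nonempty with hse | hs
  · rw [hse]
    simp
  by_cases hZ2 : Z < 2
  · have ht : 1 ≤ 4 * C * Z ^ (-(κ / 2)) := by
      have h4 : (1 : ℝ) / 2 ≤ Z ^ (-(κ / 2)) := by
        rcases le_total Z 1 with h5 | h5
        · have := Real.one_le_rpow_of_pos_of_le_one_of_nonpos hZ0 h5 (by linarith : -(κ / 2) ≤ 0)
          linarith
        · rw [Real.rpow_neg hZ0.le, ← one_div]
          apply one_div_le_one_div_of_le (by positivity)
          calc Z ^ (κ / 2) ≤ Z ^ (1 : ℝ) := Real.rpow_le_rpow_of_exponent_le h5 (by linarith)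
            _ ≤ 2 := by rw [Real.rpow_one]; exact hZ2.le
      nlinarith
    refine le_trans (Nat.cast_le.2 (card_le_card (filter_subset _ _))) ?_
    exact le_mul_of_one_le_left hs0 ht
  push Not at hZ2
  have hZ1 : 1 ≤ Z := by linarith
  -- the shift
  obtain ⟨K₁, hK₁⟩ : ∃ K₁ : ℕ, K₁ = ⌊Z ^ (κ / 2)⌋₊ := ⟨_, rfl⟩
  obtain ⟨P, hP⟩ : ∃ P : ℕ, P = ∏ k ∈ range (K₁ + m), pr k := ⟨_, rfl⟩
  have hprime : ∀ k, (pr k).Prime := fun k => Nat.prime_nth_prime k
  have hP1 : 1 ≤ P := by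
    rw [hP]
    exact Nat.one_le_iff_ne_zero.2 (prod_ne_zero_iff.2 fun k _ => (hprime k).ne_zero)
  obtain ⟨S, hS⟩ : ∃ S : ℕ, S = ∑ i ∈ s, (y i).natAbs := ⟨_, rfl⟩
  obtain ⟨v, hv⟩ : ∃ v : ι → ℕ, v = fun i => (y i + P * S).toNat := ⟨_, rfl⟩
  have hvi : ∀ i ∈ s, ((v i : ℕ) : ℤ) = y i + P * S := by
    intro i hi
    rw [hv]
    simp only
    apply Int.toNat_of_nonneg
    have h5 : (y i).natAbs ≤ S := by
      rw [hS]
      exact single_le_sum (f := fun i => (y i).natAbs) (fun _ _ => Nat.zero_le _) hi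
    have h6 : S ≤ P * S := Nat.le_mul_of_pos_left _ hP1
    have h7 : ((y i).natAbs : ℤ) ≤ (P : ℤ) * S := by exact_mod_cast h5.trans h6
    have h8 : -((y i).natAbs : ℤ) ≤ y i := by
      rw [Int.natCast_natAbs]
      exact neg_abs_le _
    linarith
  have hFv : IFam s (fun i => (v i : ℤ)) Z := by
    refine ⟨hZ0, fun α δ' hδ' hα => ?_⟩
    refine le_trans (le_of_eq ?_) (hF.small α δ' hδ' hα)
    have h5 : ∑ i ∈ s, ee (α * (((v i : ℕ) : ℤ) : ℝ)) = ee (α * ((P * S : ℤ) : ℝ)) * ∑ i ∈ s, ee (α * y i) := by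
      rw [mul_sum]
      apply sum_congr rfl
      intro i hi
      rw [hvi i hi, ← ee_add]
      congr 1
      push_cast
      ring
    rw [h5, norm_mul, norm_ee, one_mul]
  have hfed := ifam_fed hFv hZ1 hs
  obtain ⟨N, hN⟩ : ∃ N, N = ⌊Z⌋₊ := ⟨_, rfl⟩
  rw [← hN] at hfed
  have hN2 : 2 ≤ N := by
    rw [hN]
    exact Nat.le_floor (by exact_mod_cast hZ2)
  have hNZ : (N : ℝ) ≤ Z := by
    rw [hN]
    exact Nat.floor_le (by linarith)
  have hZN : Z < (N : ℝ) + 1 := by
    rw [hN]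
    exact Nat.lt_floor_add_one _
  have hN2r : (2 : ℝ) ≤ N := by exact_mod_cast hN2
  have hN0 : (0 : ℝ) < N := by linarith
  obtain ⟨E, hE1, hE2⟩ := H ι s _ N hfed (fun p n => x p (n : ℤ)) (by
    intro p n
    have : (((n + p : ℕ)) : ℤ) = (n : ℤ) + p := by push_cast; ring
    rw [this, hx]) (by omega)
  have hs1 : (0 : ℝ) < s.card := by exact_mod_cast hs.card_pos
  have hEc : (E.card : ℝ) ≤ 4 * C * Z ^ (-(κ / 2)) * s.card := by
    unfold om at hE1
    rw [div_mul_eq_mul_div, div_le_iff₀ hs1] at hE1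
    have h4 : (N : ℝ) ^ (1 - κ) ≤ ((N : ℝ) + 1) * (2 * Z ^ (-(κ / 2))) := by
      have h5 : (N : ℝ) ^ (1 - κ) = N * (N : ℝ) ^ (-κ) := by
        rw [show (1 : ℝ) - κ = 1 + -κ by ring, Real.rpow_add hN0, Real.rpow_one]
      have h6 : (N : ℝ) ^ (-κ) ≤ 2 * Z ^ (-(κ / 2)) := by
        calc (N : ℝ) ^ (-κ) ≤ (Z / 2) ^ (-κ) := Real.rpow_le_rpow_of_nonpos (by positivity) (by linarith) (by linarith)
          _ = 2 ^ κ * Z ^ (-κ) := by
              rw [Real.div_rpow hZ0.le (by norm_num), Real.rpow_neg (by norm_num : (0 : ℝ) ≤ 2)]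
              field_simp
          _ ≤ 2 * Z ^ (-(κ / 2)) := by
              apply mul_le_mul _ (Real.rpow_le_rpow_of_exponent_le hZ1 (by linarith)) (by positivity) (by norm_num)
              calc (2 : ℝ) ^ κ ≤ 2 ^ (1 : ℝ) := Real.rpow_le_rpow_of_exponent_le (by norm_num) h2
                _ = 2 := by norm_num
      rw [h5]
      exact mul_le_mul (by linarith) h6 (by positivity) (by positivity)
    have h7 : C * (N : ℝ) ^ (1 - κ) * s.card ≤ C * (((N : ℝ) + 1) * (2 * Z ^ (-(κ / 2)))) * s.card := by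
      apply mul_le_mul_of_nonneg_right _ hs0
      exact mul_le_mul_of_nonneg_left h4 (by linarith)
    have h8 : ((N : ℝ) + 1) * E.card ≤ ((N : ℝ) + 1) * (2 * C * Z ^ (-(κ / 2)) * s.card) := by
      refine (hE1.trans h7).trans (le_of_eq ?_)
      ring
    have h9 := le_of_mul_le_mul_left h8 (by positivity)
    have h10 : 0 ≤ 2 * C * Z ^ (-(κ / 2)) * s.card := by positivity
    linarith
  refine le_trans (Nat.cast_le.2 (card_le_card fun i hi => ?_)) hEc
  rw [mem_filter] at hi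
  by_contra hnE
  apply hi.2
  intro K hK I hI
  have hKK : K ≤ K₁ := by
    rw [hK₁]
    exact Nat.le_floor hK
  have hKN : (K : ℝ) ≤ (N : ℝ) ^ κ := by
    refine hK.trans ?_
    calc Z ^ (κ / 2) ≤ ((N : ℝ) ^ (2 : ℝ)) ^ (κ / 2) := by
          apply Real.rpow_le_rpow hZ0.le _ (by positivity)
          rw [Real.rpow_two]
          nlinarith
      _ = (N : ℝ) ^ κ := by
          rw [← Real.rpow_mul hN0.le]
          congr 1
          ring
  have h4 := hE2 i hi.1 hnE K hKN I hI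
  have hxe : ∀ k ∈ range K, ∀ i' : Fin m, x (pr (k + i')) ((v i : ℕ) : ℤ) = x (pr (k + i')) (y i) := by
    intro k hk i'
    rw [mem_range] at hk
    have hdv : pr (k + i') ∣ P := by
      rw [hP]
      apply dvd_prod_of_mem
      rw [mem_range]
      have := i'.2
      omega
    obtain ⟨c, hc⟩ := hdv
    rw [hvi i hi.1]
    have h5 : y i + (P : ℤ) * S = y i + (pr (k + i') : ℤ) * ((c * S : ℕ) : ℤ) := by
      rw [hc]
      push_cast
      ring
    rw [h5, per_mul x hx]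
  have hsumeq : ∑ k ∈ range K, (ind I (fun i' => x (pr (k + i')) (y i)) -
            ∏ i' : Fin m, mean (pr (k + i')) (fun t => ind1 (I i') (x (pr (k + i')) (t : ℕ)))) =
      ∑ k ∈ range K, (ind I (fun i' => x (pr (k + i')) ((v i : ℕ) : ℤ)) -
            ∏ i' : Fin m, mean (pr (k + i')) (fun t => ind1 (I i') (x (pr (k + i')) (t : ℕ)))) := by
    apply sum_congr rfl
    intro k hk
    congr 2
    funext i'
    exact (hxe k hk i').symm
  rw [hsumeq]
  refine h4.trans ?_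
  unfold lam
  have h5 : √(1 + Real.log N) ≤ √(1 + Real.log Z) := by
    apply Real.sqrt_le_sqrt
    have := Real.log_le_log hN0 hNZ
    linarith
  have h6 : C * ((K : ℝ) ^ (1 / 2 + δ) * √(1 + Real.log N)) ≤ C * ((K : ℝ) ^ (1 / 2 + δ) * √(1 + Real.log Z)) := by
    apply mul_le_mul_of_nonneg_left _ (by linarith)
    exact mul_le_mul_of_nonneg_left h5 (by positivity)
  have h7 : 0 ≤ C * ((K : ℝ) ^ (1 / 2 + δ) * √(1 + Real.log Z)) := by positivity
  linarith

end Pool.Agent.Run7.h844.RP
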