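import Pool.Agent.Run7.h844.RP.PwG
import Pool.Agent.Run7.h844.RP.PwF

set_option autoImplicit false
set_option maxHeartbeats 4000000

/-!
Functions of the residues, modulo consecutive primes, of the values of a generalised polynomial at primes.
-/

namespace Pool.Agent.Run7.h844.RP

open Finset Filter
open Pool.Agent.TH869.SQ (ind ind1 mean pr)

open Classical in
theorem primes_consec (F : Finset ℝ) (c : ℝ) (hcF : c ∈ F) (hn : ∀ m : ℕ, c ≠ m) (hc : 0 < c) (hmax : ∀ x ∈ F, x ≤ c)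
    (a : ℝ → ℝ) (ha : a c ≠ 0) (m : ℕ) (hm : 1 ≤ m) (δ : ℝ) (hδ : 0 < δ) :
    ∃ θ C : ℝ, 0 < θ ∧ 0 < C ∧ ∃ N₀ : ℕ, ∀ N : ℕ, N₀ ≤ N → ∀ x : ℕ → ℤ → ℝ, (∀ p n, x p (n + p) = x p n) → ∀ z : ℝ,
        (((PB N).filter (fun i => ¬ ∀ K : ℕ, (K : ℝ) ≤ (N : ℝ) ^ θ →
          ∀ I : Fin m → Set ℝ, (∀ i, (I i).OrdConnected) →
          |∑ k ∈ range K, (ind I (fun i' => x (pr (k + i')) (vz F a z i)) -
            ∏ i' : Fin m, mean (pr (k + i')) (fun t => ind1 (I i') (x (pr (k + i')) (t : ℕ))))| ≤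
            C * ((K : ℝ) ^ (1 / 2 + δ) * √(1 + Real.log N)))).card : ℝ) ≤ (N : ℝ) ^ (-θ) * (PB N).card := by
  obtain ⟨β, hβ, hβ1, N₀, hfam⟩ := primes_fam F c hcF hn hc hmax a ha
  obtain ⟨θ, C, h1, h2, h3, H⟩ := ip_consec m hm δ hδ
  obtain ⟨N₁, hN₁⟩ := rpow_large C (β * θ / 2) (by positivity)
  refine ⟨β * θ / 2, C, by positivity, by linarith, N₀ + N₁ + 1, fun N hN x hx z => ?_⟩
  have hN1 : (1 : ℝ) ≤ N := by exact_mod_cast (by omega : 1 ≤ N)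
  have hN0 : (0 : ℝ) < N := by linarith
  have h4 := H x hx ℕ _ _ _ (hfam N (by omega) z)
  have hZθ : ((N : ℝ) ^ β) ^ θ = (N : ℝ) ^ (β * θ) := by rw [← Real.rpow_mul hN0.le]
  have hZθ' : ((N : ℝ) ^ β) ^ (-θ) = (N : ℝ) ^ (-(β * θ)) := by
    rw [← Real.rpow_mul hN0.le]
    congr 1
    ring
  have hlog : Real.log ((N : ℝ) ^ β) ≤ Real.log N := by
    rw [Real.log_rpow hN0]
    have := Real.log_nonneg hN1
    nlinarith
  have e1 : C * ((N : ℝ) ^ β) ^ (-θ) ≤ (N : ℝ) ^ (-(β * θ / 2)) := by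
    rw [hZθ']
    calc C * (N : ℝ) ^ (-(β * θ)) ≤ (N : ℝ) ^ (β * θ / 2) * (N : ℝ) ^ (-(β * θ)) :=
          mul_le_mul_of_nonneg_right (hN₁ N (by omega)) (by positivity)
      _ = _ := by
          rw [← Real.rpow_add hN0]
          congr 1
          ring
  refine le_trans (Nat.cast_le.2 (card_le_card fun i hi => ?_)) (h4.trans (mul_le_mul_of_nonneg_right e1 (Nat.cast_nonneg _)))
  rw [mem_filter] at hi ⊢
  refine ⟨hi.1, fun hcon => hi.2 fun K hK I hI => ?_⟩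
  have h5 : (K : ℝ) ≤ ((N : ℝ) ^ β) ^ θ := by
    rw [hZθ]
    refine hK.trans (Real.rpow_le_rpow_of_exponent_le hN1 ?_)
    have : 0 < β * θ := by positivity
    linarith
  refine (hcon K h5 I hI).trans ?_
  apply mul_le_mul_of_nonneg_left _ (by linarith)
  apply mul_le_mul_of_nonneg_left _ (by positivity)
  apply Real.sqrt_le_sqrt
  linarith

end Pool.Agent.Run7.h844.RP
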