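import Pool.Agent.Run7.h844.RP.PwD
import Pool.Agent.Run7.h844.RP.TLaw
import Pool.Agent.Run7.h672.XC.D

set_option autoImplicit false
set_option maxHeartbeats 4000000

/-!
The distributions of the integer parts of the families of reals whose exponential sums are small with a power saving form a
class in the sense of `Pool.Agent.Run7.h672.XC`.
-/

namespace Pool.Agent.Run7.h844.RP

open Finset Filter
open Pool.Agent.H469R2.NK (e norm_e e_add)
open Pool.Agent.H807R2.Dav (ee norm_ee ee_add)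
open Pool.Agent.Y885 (TLaw Thin Spec)
open Pool.Agent.N625.PT (Mf Mf_pos)
open Pool.Agent.Run7.h672.XC (RCls)

/-- the distributions of the integer parts of the finite families of reals in `[0, 2 ^ k)` whose exponential sums are small
with a power saving -/
def PC (B : ℕ) (ρ : ℝ) (k : ℕ) (p : ℕ → ℝ) : Prop :=
  ∃ (ι : Type) (s : Finset ι) (y : ι → ℝ), s.Nonempty ∧ (∀ i ∈ s, 0 ≤ y i ∧ y i < 2 ^ k) ∧ PW B ρ (2 ^ k) s y ∧ p = disR s y

lemma PC.nonneg {B : ℕ} {ρ : ℝ} {k : ℕ} {p : ℕ → ℝ} (h : PC B ρ k p) (v : ℕ) : 0 ≤ p v := by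
  obtain ⟨ι, s, y, h1, h2, h3, rfl⟩ := h
  exact disR_nonneg s y v

lemma PC.sum {B : ℕ} {ρ : ℝ} {k : ℕ} {p : ℕ → ℝ} (h : PC B ρ k p) : ∑ v ∈ range (2 ^ k), p v = 1 := by
  obtain ⟨ι, s, y, h1, h2, h3, rfl⟩ := h
  have hs0 : (0 : ℝ) < s.card := by exact_mod_cast h1.card_pos
  have h5 := disR_sum_real s y (2 ^ k) (by positivity) (fun i hi => by push_cast; exact (h2 i hi).2) (fun _ => 1)
  simp only [mul_one, sum_const, nsmul_eq_mul] at h5
  rw [h5, div_self hs0.ne']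

lemma pow_le_two_rpow (V : ℕ) (ρ : ℝ) (hρ : 0 < ρ) : ∃ k₀ : ℕ, ∀ k : ℕ, k₀ ≤ k → (k : ℝ) ^ V ≤ ((2 : ℝ) ^ k) ^ ρ := by
  have h1 : (1 : ℝ) < 2 ^ ρ := Real.one_lt_rpow (by norm_num) hρ
  have h2 := (isLittleO_pow_const_const_pow_of_one_lt (R := ℝ) V h1).bound (show (0 : ℝ) < 1 by norm_num)
  obtain ⟨k₀, h3⟩ := eventually_atTop.mp h2
  refine ⟨k₀, fun k hk => ?_⟩
  have h4 := h3 k hk
  rw [Real.norm_of_nonneg (by positivity), Real.norm_of_nonneg (by positivity), one_mul] at h4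
  refine h4.trans (le_of_eq ?_)
  rw [← Real.rpow_natCast (2 ^ ρ), ← Real.rpow_natCast 2, ← Real.rpow_mul (by norm_num), ← Real.rpow_mul (by norm_num)]
  congr 1
  ring

theorem PC_RC (B : ℕ) (ρ : ℝ) (hρ0 : 0 < ρ) (V : ℕ) : ∃ k₀ : ℕ, ∀ k : ℕ, k₀ ≤ k → ∀ p, PC B ρ k p → RC B ρ V k p := by
  obtain ⟨k₀, h0⟩ := pow_le_two_rpow V ρ hρ0
  refine ⟨k₀ + 1, fun k hk p hp => ?_⟩
  obtain ⟨ι, s, y, h1, h2, h3, rfl⟩ := hp
  have hk1 : (1 : ℝ) ≤ k := by exact_mod_cast (by omega : 1 ≤ k)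
  have hp0 : (0 : ℝ) < 2 ^ k := by positivity
  have hV := h0 k (by omega)
  refine ⟨ι, s, y, h1, h2, fun t ht0 ht => ?_, rfl⟩
  have htp := abs_pos.2 ht0
  have h4 := h3 t ht0 (by
    push_cast
    exact ht.trans hV)
  push_cast at h4
  refine h4.trans ?_
  apply mul_le_mul_of_nonneg_left _ (Nat.cast_nonneg _)
  apply add_le_add
  · apply mul_le_mul_of_nonneg_right _ (by positivity)
    apply pow_le_pow_left₀ (Real.log_nonneg (one_le_pow₀ (by norm_num)))
    rw [Real.log_pow]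
    have := Real.log_two_lt_d9
    have h5 : (0 : ℝ) ≤ k := by linarith
    nlinarith
  · rw [Real.rpow_neg hp0.le, ← one_div]
    exact one_div_le_one_div_of_le (by positivity) hV

/-- **the families with a power saving form a class with small exponential sums** -/
theorem pw_rcls (B : ℕ) (ρ : ℝ) (hρ0 : 0 < ρ) (hρ1 : ρ ≤ 1) : ∃ L : ℕ, RCls 2 L 0 (PC B ρ) := by
  obtain ⟨N₀, hIF⟩ := pw_IF B ρ hρ0 hρ1
  obtain ⟨β, hβ⟩ : ∃ β : ℝ, β = ρ / 32 := ⟨_, rfl⟩
  have hβ0 : 0 < β := by rw [hβ]; positivity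
  obtain ⟨L₁, hL₁⟩ := exists_nat_ge (2 / β)
  obtain ⟨L, hL⟩ : ∃ L : ℕ, L = L₁ + N₀ + 1 := ⟨_, rfl⟩
  refine ⟨L, le_rfl, by omega, fun k p hp => hp.nonneg, fun k p hp => hp.sum, fun κ hκ W V => ?_, ?_⟩
  · -- the thin spectrum
    obtain ⟨V', C₀, m₀, hlaw⟩ := RC_tlaw15 B ρ hρ0 κ hκ (W + 1) V
    obtain ⟨k₀, h2⟩ := PC_RC B ρ hρ0 V'
    refine ⟨C₀, m₀ + k₀ + 3, fun m hm e he h' hh1 hh2 p hp cc => ?_⟩
    have hm1 : (1 : ℝ) ≤ m := by exact_mod_cast (by omega : 1 ≤ m)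
    have hm0 : (0 : ℝ) < m := by linarith
    have h2e : (2 : ℝ) ^ e ≤ (m : ℝ) ^ W := by
      have h1 : (2 : ℝ) ^ e ≤ Real.exp e := by
        rw [← Real.exp_one_pow]
        have h3 := Real.exp_one_gt_d9
        exact pow_le_pow_left₀ (by norm_num) (by linarith) e
      have h2 : Real.exp e ≤ Real.exp (W * Real.log m) := Real.exp_le_exp.2 he
      have h4 : Real.exp (W * Real.log m) = (m : ℝ) ^ W := by
        rw [mul_comm, Real.exp_mul, Real.exp_log hm0, Real.rpow_natCast]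
      linarith
    have h2e' : 2 ^ e ≤ m ^ W := by exact_mod_cast h2e
    refine hlaw m (by omega) p (h2 m (by omega) p hp) e h' (h2e'.trans (Nat.pow_le_pow_right (by omega) (by omega))) hh1 ?_ cc
      (m + e) rfl
    have hM := Mf_pos 2 L κ hκ
    obtain ⟨x, hx⟩ : ∃ x, x = Mf 2 L κ * h' := ⟨_, rfl⟩
    rw [← hx] at hh2
    have hxh : h' ≤ x := by rw [hx]; exact Nat.le_mul_of_pos_left _ hM
    have h5 : x < 2 ^ (Nat.log 2 x + 1) := Nat.lt_pow_succ_log_self (by norm_num) x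
    calc h' ≤ x := hxh
      _ ≤ 2 ^ (Nat.log 2 x + 1) := h5.le
      _ ≤ 2 ^ (e + 1) := Nat.pow_le_pow_right (by norm_num) (by omega)
      _ = 2 ^ e * 2 := pow_succ _ _
      _ ≤ m ^ W * m := Nat.mul_le_mul h2e' (by omega)
      _ = m ^ (W + 1) := (pow_succ _ _).symm
  · -- the exponential sums
    obtain ⟨μ, hμ⟩ : ∃ μ : ℝ, μ = 2 ^ (-(β / 2)) := ⟨_, rfl⟩
    have hμ0 : 0 < μ := by rw [hμ]; positivity
    have hμ1 : μ < 1 := by rw [hμ]; exact Real.rpow_lt_one_of_one_lt_of_neg (by norm_num) (by linarith)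
    refine ⟨μ, hμ0, hμ1, fun k p hp S hS m hm hd hLk a ha1 ha2 => ?_⟩
    rw [pow_zero, one_mul]
    have htriv : ‖∑ v ∈ range (2 ^ k), (p v : ℂ) * ee (v * ((a : ℝ) / ((∏ q ∈ S, q : ℕ) : ℝ)))‖ ≤ 1 := by
      rw [← hp.sum]
      refine (norm_sum_le _ _).trans (le_of_eq ?_)
      apply sum_congr rfl
      intro v _
      rw [norm_mul, norm_ee, mul_one, Complex.norm_real, Real.norm_eq_abs, abs_of_nonneg (hp.nonneg v)]
    have hLk' : L ≤ k := hLk.trans (Nat.div_le_self k m)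
    have hm0 : (0 : ℝ) < m := by exact_mod_cast hm
    have hk0 : (0 : ℝ) ≤ k := Nat.cast_nonneg k
    rcases lt_or_ge ((k : ℝ) * β / 2) m with hcase | hcase
    · -- trivial
      have h1 : k / m ≤ L := by
        have h2 : ((k / m : ℕ) : ℝ) ≤ (k : ℝ) / m := Nat.cast_div_le
        have h3 : (k : ℝ) / m ≤ 2 / β := by
          rw [div_le_div_iff₀ hm0 hβ0]
          linarith
        have h4 : ((k / m : ℕ) : ℝ) ≤ L₁ := h2.trans (h3.trans hL₁)
        have h5 : k / m ≤ L₁ := by exact_mod_cast h4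
        omega
      rw [Nat.sub_eq_zero_of_le h1, pow_zero]
      exact htriv
    · obtain ⟨ι, s, y, h1, h2, h3, rfl⟩ := hp
      have hs0 : (0 : ℝ) < s.card := by exact_mod_cast h1.card_pos
      obtain ⟨d, hdd⟩ : ∃ d, d = ∏ q ∈ S, q := ⟨_, rfl⟩
      rw [← hdd] at hd ha2 ⊢
      have hd1 : 1 ≤ d := by omega
      have hd0 : (0 : ℝ) < d := by exact_mod_cast hd1
      have h4 := hIF (2 ^ k) (by
        have : k < 2 ^ k := Nat.lt_two_pow_self
        omega) ι s y h3 ((a : ℝ) / d) (1 / d) (by positivity) (by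
        intro q
        have e1 : (a : ℝ) / d - q = ((a - q * d : ℤ) : ℝ) / d := by
          push_cast
          field_simp
        rw [e1, abs_div, abs_of_pos hd0]
        apply div_le_div_of_nonneg_right _ hd0.le
        have e2 : (a - q * d : ℤ) ≠ 0 := by
          intro h0
          have h5 : (a : ℤ) = q * d := by linarith
          have h6 : (d : ℤ) ∣ a := ⟨q, by rw [h5]; ring⟩
          have h7 : d ∣ a := by exact_mod_cast h6
          have h8 := Nat.le_of_dvd (by omega) h7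
          omega
        have e3 : (1 : ℤ) ≤ |(a - q * d : ℤ)| := Int.one_le_abs e2
        have e4 : ((1 : ℤ) : ℝ) ≤ ((|(a - q * d : ℤ)| : ℤ) : ℝ) := by exact_mod_cast e3
        rw [Int.cast_abs] at e4
        exact_mod_cast e4)
      have h5 : ∑ v ∈ range (2 ^ k), (disR s y v : ℂ) * ee (v * ((a : ℝ) / (d : ℝ))) =
          (1 / (s.card : ℂ)) * ∑ i ∈ s, ee ((a : ℝ) / d * ((⌊y i⌋ : ℤ) : ℝ)) := by
        rw [disR_sum s y (2 ^ k) (by positivity) (fun i hi => by push_cast; exact (h2 i hi).2)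
          (fun v : ℕ => ee (v * ((a : ℝ) / (d : ℝ))))]
        congr 1
        apply sum_congr rfl
        intro i hi
        have e1 : ((⌊y i⌋₊ : ℕ) : ℝ) = ((⌊y i⌋ : ℤ) : ℝ) := by
          rw [← Int.natCast_floor_eq_floor (h2 i hi).1]
          simp
        rw [e1, mul_comm]
      rw [h5, norm_mul, norm_div, norm_one, Complex.norm_natCast]
      push_cast at h4
      have h6 : 1 / (s.card : ℝ) * ‖∑ i ∈ s, ee ((a : ℝ) / d * ((⌊y i⌋ : ℤ) : ℝ))‖ ≤ d / ((2 : ℝ) ^ k) ^ β := by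
        rw [hβ]
        calc 1 / (s.card : ℝ) * ‖∑ i ∈ s, ee ((a : ℝ) / d * ((⌊y i⌋ : ℤ) : ℝ))‖ ≤
            1 / (s.card : ℝ) * (s.card / (1 / d * ((2 : ℝ) ^ k) ^ (ρ / 32))) :=
              mul_le_mul_of_nonneg_left h4 (by positivity)
          _ = d / ((2 : ℝ) ^ k) ^ (ρ / 32) := by field_simp
      refine h6.trans ?_
      have h7 : (d : ℝ) ≤ 2 ^ ((k : ℝ) * β / 2) := by
        have g1 : (d : ℝ) ≤ 2 ^ m := by exact_mod_cast hd.le
        refine g1.trans ?_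
        rw [← Real.rpow_natCast]
        exact Real.rpow_le_rpow_of_exponent_le (by norm_num) hcase
      have h8 : ((2 : ℝ) ^ k) ^ β = 2 ^ ((k : ℝ) * β) := by
        rw [← Real.rpow_natCast, ← Real.rpow_mul (by norm_num)]
      calc (d : ℝ) / ((2 : ℝ) ^ k) ^ β ≤ 2 ^ ((k : ℝ) * β / 2) / 2 ^ ((k : ℝ) * β) := by
            rw [h8]
            exact div_le_div_of_nonneg_right h7 (by positivity)
        _ = 2 ^ (-((k : ℝ) * (β / 2))) := by
            rw [← Real.rpow_sub (by norm_num)]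
            congr 1
            ring
        _ = μ ^ k := by
            rw [hμ, ← Real.rpow_natCast, ← Real.rpow_mul (by norm_num)]
            congr 1
            ring
        _ ≤ μ ^ (k / m - L) := by
            apply pow_le_pow_of_le_one hμ0.le hμ1.le
            have := Nat.div_le_self k m
            omega

end Pool.Agent.Run7.h844.RP
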