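import Pool.Agent.Run7.h844.RP.PwR2
import Pool.Agent.Run7.h672.XC.X12

set_option autoImplicit false
set_option maxHeartbeats 4000000

/-!
Tuples of values at primes: the numbers of the indices `i` of an arbitrary set for which all `N_j ± f_j(i)` are prime.
-/

namespace Pool.Agent.Run7.h844.RP

open Finset Filter
open Pool.Agent.H373R2.T7 (Vz)
open Pool.Agent.N625.PT (Nm)

/-- the multiple of the product of the primes `≤ y` given by the integers `h` and `w` -/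
def NmW (y h : ℕ) (w : ℤ) : ℤ := ((primorial y * h : ℕ) : ℤ) * w

/-- the number of the indices for which the first `t` numbers are prime -/
noncomputable def cntT {r : ℕ} (I : Finset ℕ) (f : Fin r → ℕ → ℕ) (σ N : Fin r → ℤ) (t : ℕ) : ℕ :=
  open Classical in (I.filter (fun i => ∀ j : Fin r, (j : ℕ) < t → (N j + σ j * (f j i : ℕ)).toNat.Prime)).card

/-- the conclusion for a tuple of shifts -/
def TupG {r : ℕ} (ε : ℝ) (I : Finset ℕ) (f : Fin r → ℕ → ℕ) (σ N : Fin r → ℤ) (D : ℝ) : Prop :=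
  (∀ j, ∀ i ∈ I, 0 < N j + σ j * (f j i : ℕ)) → ∀ t : ℕ, t ≤ r →
    |(cntT I f σ N t : ℝ) - I.card / D ^ t| ≤ ε * (I.card / D ^ t)

open Classical in
theorem tup_pr (r : ℕ) (F : Fin r → Finset ℝ) (b : Fin r → ℝ → ℝ) (e : Fin r → ℝ) (hcF : ∀ i, e i ∈ F i)
    (hn : ∀ i, ∀ m : ℕ, e i ≠ m) (hc : ∀ i, 0 < e i) (hmax : ∀ i, ∀ x ∈ F i, x ≤ e i) (hb : ∀ i, b i (e i) ≠ 0)
    (κ : Fin r → ℤ) (hκ : ∀ j, κ j ≠ 0) (B J A C K₁ W : ℕ) (θ : ℝ) (hθ : 0 < θ) (ε : ℝ) (hε : 0 < ε) (hε1 : ε ≤ 1) :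
    ∃ M₀ : ℕ, ∀ M : ℕ, M₀ ≤ M →
    ∀ X : Fin r → ℕ, (∀ j, (X j : ℝ) ^ (e j) * Real.log M ≤ M ∧ (M : ℝ) ≤ (X j : ℝ) ^ (e j) * Real.log M ^ W) →
    ∀ (z : Fin r → ℝ) (c : Fin r → ℤ), (∀ j, |z j| ≤ B * M ∧ |c j| ≤ B * M) →
    ∀ y : ℕ, θ * Real.log (Real.log M) ≤ y → y ≤ K₁ * Real.log (Real.log M) →
    ∀ h : Fin r → ℕ, (∀ j, 1 ≤ h j ∧ (h j : ℝ) ≤ Real.log M ^ J) →
    ∀ x : ℕ, (M : ℝ) ≤ x * Real.log M ^ C → (x : ℝ) ≤ M * Real.log M ^ C →
    ∀ (I : Finset ℕ) (f : Fin r → ℕ → ℕ), (∀ j, Set.InjOn (f j) I) →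
    (∀ j, ∀ i ∈ I, 1 ≤ f j i ∧ f j i ≤ x ∧ (f j i).Coprime (primorial y * h j)) → (x : ℝ) ≤ I.card * Real.log M ^ A →
    ∀ σ : Fin r → ℤ, (∀ j, σ j = 1 ∨ σ j = -1) →
      (((Fintype.piFinset fun j => PB (X j)).filter fun q : Fin r → ℕ =>
          ¬ TupG ε I f σ (fun j => NmW y (h j) (c j + κ j * vz (F j) (b j) (z j) (q j))) (Vz y * Real.log M)).card : ℝ) ≤
        ε * ∏ j, ((PB (X j)).card : ℝ) := by
  obtain ⟨ρ, hρ0, hρ1, htr⟩ := pr_transferV r F e hcF hn hc hmax b hb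
  obtain ⟨k₁, htr⟩ := htr (W + 2)
  obtain ⟨L, hcls⟩ := pw_rcls (8 + 2 * (W + 2)) ρ hρ0 hρ1
  obtain ⟨K, hK⟩ : ∃ K : ℕ, K = ∑ j, (κ j).natAbs := ⟨_, rfl⟩
  have hKj : ∀ j, |κ j| ≤ K := by
    intro j
    rw [← Int.natCast_natAbs, hK]
    exact_mod_cast single_le_sum (f := fun j => (κ j).natAbs) (fun _ _ => Nat.zero_le _) (mem_univ j)
  obtain ⟨k₂, hcore⟩ := Pool.Agent.Run7.h672.XC.tuple_law hcls r κ hκ (2 * (B + K * (B + 2))) J A (C + 1) K₁ (θ / 2)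
    (by positivity) (ε / 2) (by positivity) (by linarith)
  obtain ⟨ε', hε'⟩ : ∃ ε' : ℝ, ε' = ε / (4 * (r + 1)) := ⟨_, rfl⟩
  have hr0 : (0 : ℝ) ≤ r := Nat.cast_nonneg r
  have hε'0 : 0 < ε' := by rw [hε']; positivity
  have hrε : r * ε' ≤ ε / 4 := by
    rw [hε', mul_div_assoc', div_le_div_iff₀ (by positivity) (by norm_num)]
    nlinarith
  obtain ⟨M₁, hM₁⟩ := scale_k (k₁ + k₂ + 4) ε' hε'0
  refine ⟨M₁ + 1, fun M hM X hX z c hzc y hy1 hy2 h hh x hx1 hx2 I f hinj hf hI σ hσ => ?_⟩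
  obtain ⟨hl3, hll1, k, hk, q1, q2, q3, q4, q5, q6, q7, q8⟩ := hM₁ M (by omega)
  obtain ⟨ℓ, hℓ⟩ : ∃ ℓ : ℝ, ℓ = Real.log M := ⟨_, rfl⟩
  rw [← hℓ] at hl3 hll1 q3 q4 q5 q6 q7 q8 hy1 hy2 hx1 hx2 hI ⊢
  simp only [← hℓ] at hX hh
  have hM0 : (0 : ℝ) < M := by exact_mod_cast (by omega : 0 < M)
  have hk4 : (4 : ℝ) ≤ k := by exact_mod_cast (by omega : 4 ≤ k)
  have hk0 : (0 : ℝ) < k := by linarith
  have hℓ0 : 0 < ℓ := by linarith
  have q1r : 2 * (M : ℝ) < 2 ^ k := by exact_mod_cast q1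
  have q2r : (2 : ℝ) ^ k ≤ 4 * M := by exact_mod_cast q2
  -- the laws
  obtain ⟨p, hp, hcount⟩ := htr k (by omega) X (fun j => by
    obtain ⟨hN1, hN2⟩ := hX j
    have hNc0 : 0 ≤ (X j : ℝ) ^ e j := by positivity
    refine ⟨by nlinarith, ?_⟩
    calc (2 : ℝ) ^ k ≤ 4 * M := q2r
      _ ≤ 4 * ((X j : ℝ) ^ e j * ℓ ^ W) := by linarith
      _ ≤ k ^ 2 * ((X j : ℝ) ^ e j * (k : ℝ) ^ W) := by
          apply mul_le_mul (by nlinarith) _ (by positivity) (by positivity)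
          exact mul_le_mul_of_nonneg_left (pow_le_pow_left₀ hℓ0.le q3 W) hNc0
      _ = (X j : ℝ) ^ e j * (k : ℝ) ^ (W + 2) := by ring) z
  -- the constants
  obtain ⟨cc, hcc⟩ : ∃ cc : Fin r → ℤ, ∀ j, cc j = c j + κ j * (⌊z j⌋ - 2 ^ (k - 1)) := ⟨_, fun _ => rfl⟩
  have hMz : (M : ℤ) ≤ 2 ^ k := by exact_mod_cast (by omega : M ≤ 2 ^ k)
  have hpz : (2 : ℤ) ^ (k - 1) ≤ 2 ^ k := pow_le_pow_right₀ (by norm_num) (by omega)
  have hp0 : (0 : ℤ) < 2 ^ (k - 1) := by positivity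
  have hp1 : (0 : ℤ) < 2 ^ k := by positivity
  have hfz : ∀ j, |⌊z j⌋| ≤ B * M + 1 := by
    intro j
    have e1 : |z j| ≤ ((B * M : ℕ) : ℝ) := by push_cast; exact (hzc j).1
    rw [abs_le] at e1 ⊢
    have e2 : ⌊z j⌋ ≤ (B * M : ℕ) := by
      have := (Int.floor_le (z j)).trans e1.2
      exact_mod_cast this
    have e3 : -((B * M : ℕ) : ℤ) ≤ ⌊z j⌋ := by
      rw [Int.le_floor]
      push_cast
      push_cast at e1
      exact e1.1
    push_cast at e2 e3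
    constructor <;> linarith
  have hcb : ∀ j, |cc j| ≤ ((2 * (B + K * (B + 2)) : ℕ) : ℤ) * ((2 : ℕ) : ℤ) ^ k := by
    intro j
    have e1 : |(⌊z j⌋ - 2 ^ (k - 1) : ℤ)| ≤ (B + 2) * 2 ^ k := by
      calc |(⌊z j⌋ - 2 ^ (k - 1) : ℤ)| ≤ |⌊z j⌋| + |(2 : ℤ) ^ (k - 1)| := abs_sub _ _
        _ ≤ (B * M + 1) + 2 ^ k := by
            rw [abs_of_pos hp0]
            exact add_le_add (hfz j) hpz
        _ ≤ (B * 2 ^ k + 2 ^ k) + 2 ^ k := by
            have : (B : ℤ) * M ≤ B * 2 ^ k := mul_le_mul_of_nonneg_left hMz (by positivity)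
            linarith
        _ = _ := by ring
    have e2 : |c j| ≤ B * 2 ^ k := (hzc j).2.trans (mul_le_mul_of_nonneg_left hMz (by positivity))
    have e3 : |cc j| ≤ B * 2 ^ k + K * ((B + 2) * 2 ^ k) := by
      rw [hcc]
      refine (abs_add_le _ _).trans (add_le_add e2 ?_)
      rw [abs_mul]
      exact mul_le_mul (hKj j) e1 (abs_nonneg _) (by positivity)
    push_cast
    have e4 : 0 ≤ K * ((B + 2) * 2 ^ k : ℤ) := by positivity
    have e5 : (0 : ℤ) ≤ B * 2 ^ k := by positivity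
    linarith
  -- the ranges
  have hk2 : ℓ ^ J ≤ (k : ℝ) ^ J := pow_le_pow_left₀ hℓ0.le q3 J
  have hhk : ∀ j, 1 ≤ h j ∧ h j ≤ k ^ J := by
    intro j
    refine ⟨(hh j).1, ?_⟩
    have := (hh j).2.trans hk2
    exact_mod_cast this
  have hkC : ℓ ^ C ≤ (k : ℝ) ^ C := pow_le_pow_left₀ hℓ0.le q3 C
  have hx0 : (0 : ℝ) ≤ x := Nat.cast_nonneg x
  have hxa : 2 ^ k ≤ x * k ^ (C + 1) := by
    have : (2 : ℝ) ^ k ≤ x * (k : ℝ) ^ (C + 1) := by
      calc (2 : ℝ) ^ k ≤ 4 * M := q2r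
        _ ≤ 4 * (x * ℓ ^ C) := by linarith
        _ ≤ k * (x * (k : ℝ) ^ C) := by gcongr
        _ = _ := by ring
    exact_mod_cast this
  have hxb : x ≤ 2 ^ k * k ^ (C + 1) := by
    have : (x : ℝ) ≤ 2 ^ k * (k : ℝ) ^ (C + 1) := by
      calc (x : ℝ) ≤ M * ℓ ^ C := hx2
        _ ≤ 2 ^ k * (k : ℝ) ^ C := by
            apply mul_le_mul (by linarith) hkC (by positivity) (by positivity)
        _ ≤ 2 ^ k * (k : ℝ) ^ (C + 1) := by
            apply mul_le_mul_of_nonneg_left _ (by positivity)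
            exact pow_le_pow_right₀ (by linarith) (by omega)
    exact_mod_cast this
  have h5 := hcore k (by omega) p hp y (by
      have : θ / 2 * Real.log k ≤ θ / 2 * (2 * Real.log ℓ) := mul_le_mul_of_nonneg_left q6 (by positivity)
      linarith) (by
      have : (K₁ : ℝ) * Real.log ℓ ≤ K₁ * Real.log k := mul_le_mul_of_nonneg_left q5 (Nat.cast_nonneg _)
      linarith) cc hcb h hhk x hxa hxb I f hinj hf (hI.trans (by
        apply mul_le_mul_of_nonneg_left _ (Nat.cast_nonneg _)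
        exact pow_le_pow_left₀ hℓ0.le q3 A)) σ hσ
  have h6 := hcount (ε / 2) (fun v => TupG ε I f σ (fun j => NmW y (h j) (c j + κ j * v j)) (Vz y * ℓ)) (by
    refine le_trans (sum_le_sum fun v _ => ?_) h5
    have hv0 : 0 ≤ ∏ j, p j (v j) := prod_nonneg fun j _ => (hp j).nonneg _
    have hw : (fun j => NmW y (h j) (c j + κ j * (⌊z j⌋ - 2 ^ (k - 1) + ((v j : ℕ) : ℤ)))) =
        fun j => Nm y (h j) (cc j) (κ j) (v j) := by
      funext j
      unfold NmW Nm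
      rw [hcc]
      congr 1
      ring
    rw [hw]
    by_cases hg : TupG ε I f σ (fun j => Nm y (h j) (cc j) (κ j) (v j)) (Vz y * ℓ)
    · rw [if_pos hg]
      split_ifs
      · exact le_rfl
      · exact hv0
    · rw [if_neg hg, if_neg]
      intro hcon
      apply hg
      intro hpos t ht
      have h7 := hcon hpos t ht
      have hVy : 0 < Vz y := Pool.Agent.H373R2.T7.Vz_pos y
      obtain ⟨S, hS⟩ : ∃ S : ℝ, S = I.card := ⟨_, rfl⟩
      have hS0 : 0 ≤ S := by rw [hS]; exact Nat.cast_nonneg _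
      unfold cntT
      rw [← hS] at h7 ⊢
      push_cast at h7
      have hkl : 0 < k * Real.log 2 := by linarith
      have h8 := main_conv (E := S / (Vz y * ℓ) ^ t)
        (E' := S / (Vz y * (k * Real.log 2)) ^ t) (η := ε / 2) (by
          apply div_le_div_of_nonneg_left hS0 (by positivity)
          exact pow_le_pow_left₀ (by positivity) (mul_le_mul_of_nonneg_left q7 hVy.le) t) (by
          rw [mul_div_assoc', div_le_div_iff₀ (by positivity) (by positivity)]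
          have e1 : (Vz y * (k * Real.log 2)) ^ t ≤ (Vz y * ((1 + ε') * ℓ)) ^ t :=
            pow_le_pow_left₀ (by positivity) (mul_le_mul_of_nonneg_left q8 hVy.le) t
          have e2 : (1 + ε') ^ t ≤ 1 + ε / 2 := by
            have g1 : (1 + ε') ^ t ≤ (1 + ε') ^ r := pow_le_pow_right₀ (by linarith) ht
            have g2 := Pool.Agent.N625.PT.pow_up r ε' hε'0.le (by linarith)
            linarith
          calc S * (Vz y * (k * Real.log 2)) ^ t ≤ S * (Vz y * ((1 + ε') * ℓ)) ^ t := mul_le_mul_of_nonneg_left e1 hS0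
            _ = (1 + ε') ^ t * S * (Vz y * ℓ) ^ t := by rw [mul_pow, mul_pow, mul_pow]; ring
            _ ≤ (1 + ε / 2) * S * (Vz y * ℓ) ^ t := by
                apply mul_le_mul_of_nonneg_right _ (by positivity)
                exact mul_le_mul_of_nonneg_right e2 hS0) (by positivity) (by positivity) h7
      refine h8.trans (le_of_eq ?_)
      ring)
  have hfin : (∏ j, ((PB (X j)).card : ℝ)) * (ε / 2) ≤ ε * ∏ j, ((PB (X j)).card : ℝ) := by
    have : (0 : ℝ) ≤ ∏ j, ((PB (X j)).card : ℝ) := prod_nonneg fun j _ => Nat.cast_nonneg _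
    nlinarith
  exact h6.trans hfin

end Pool.Agent.Run7.h844.RP
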