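import Pool.Agent.Run7.h844.RP.PwR3
import Pool.Agent.Y877.SxI
import Pool.Agent.N625.PT.X20
import Pool.Agent.H141R2.FS.Main1

set_option autoImplicit false
set_option maxHeartbeats 4000000

/-!
Tuples of values at primes: the numbers of the indices `i` of an arbitrary set for which all `N_j + f_j(i)` are prime, in terms of
a parameter `n`.
-/

namespace Pool.Agent.Run7.h844.RP

open Finset Filter
open Pool.Agent.H373R2.T7 (Vz)
open Pool.Agent.N625.PT (Nm)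

lemma logM_ge (R : ℝ) : ∃ M₀ : ℕ, ∀ M : ℕ, M₀ ≤ M → R ≤ Real.log M := by
  have h := (Real.tendsto_log_atTop.comp tendsto_natCast_atTop_atTop).eventually_ge_atTop R
  obtain ⟨M₀, hM₀⟩ := eventually_atTop.1 h
  exact ⟨M₀, fun M hM => hM₀ M hM⟩

/-- powers of the logarithm are small -/
lemma logpow_le (G : ℕ) (η : ℝ) (hη : 0 < η) : ∃ M₀ : ℕ, ∀ M : ℕ, M₀ ≤ M → Real.log M ^ G ≤ η * M := by
  have h1 : (fun x : ℝ => Real.log x ^ G) =o[atTop] (fun x : ℝ => x) := by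
    have := isLittleO_log_rpow_rpow_atTop (s := 1) (G : ℝ) one_pos
    refine (this.congr' ?_ ?_)
    · filter_upwards [eventually_ge_atTop (1 : ℝ)] with x hx
      rw [Real.rpow_natCast]
    · filter_upwards with x
      rw [Real.rpow_one]
  have h2 := h1.def hη
  have h3 := tendsto_natCast_atTop_atTop (R := ℝ) |>.eventually h2
  obtain ⟨M₀, hM₀⟩ := eventually_atTop.1 h3
  refine ⟨M₀, fun M hM => ?_⟩
  have := hM₀ M hM
  simp only [Real.norm_eq_abs] at this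
  rw [abs_of_nonneg (pow_nonneg (Real.log_natCast_nonneg M) G), abs_of_nonneg (Nat.cast_nonneg M)] at this
  exact this

/-- comparison of the scale `M` with a parameter `n` of the same size up to powers of the logarithm -/
lemma scale_n (C R : ℕ) : ∃ M₀ : ℕ, ∀ M : ℕ, M₀ ≤ M → (R : ℝ) ≤ Real.log M ∧ ∀ n : ℕ, (M : ℝ) ≤ n * Real.log M ^ C →
    (n : ℝ) ≤ M * Real.log M ^ C → R ≤ n ∧ Real.log M ≤ 2 * Real.log n ∧ Real.log n ≤ 2 * Real.log M ∧
    Real.log M ^ R ≤ n := by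
  obtain ⟨M₁, h1⟩ := logM_ge (R + 4)
  obtain ⟨M₂, h2⟩ := logpow_le (2 * (C + R + 1)) 1 one_pos
  refine ⟨max M₁ M₂, fun M hM => ?_⟩
  have hl := h1 M (by omega)
  have hp := h2 M (by omega)
  obtain ⟨ℓ, hℓ⟩ : ∃ ℓ : ℝ, ℓ = Real.log M := ⟨_, rfl⟩
  rw [← hℓ] at hl hp ⊢
  rw [one_mul] at hp
  have hR0 : (0 : ℝ) ≤ R := Nat.cast_nonneg R
  have hℓ4 : 4 ≤ ℓ := by linarith
  refine ⟨by linarith, fun n hn1 hn2 => ?_⟩
  have hM0 : (0 : ℝ) < M := by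
    have : (0 : ℝ) < ℓ ^ (2 * (C + R + 1)) := by positivity
    linarith
  have hn0 : (0 : ℝ) < n := by
    by_contra hcon
    have : (n : ℝ) = 0 := le_antisymm (not_lt.1 hcon) (Nat.cast_nonneg n)
    rw [this, zero_mul] at hn1
    linarith
  -- M ≤ n ℓ^C and ℓ^(2(C+R+1)) ≤ M
  have e1 : ℓ ^ (C + R + 1) * ℓ ^ (C + R + 1) ≤ M := by
    refine le_trans (le_of_eq ?_) hp
    rw [← pow_add]
    congr 1
    ring
  have e2 : ℓ ^ (C + R + 1) ≤ √(M : ℝ) := by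
    rw [Real.le_sqrt (by positivity) hM0.le, sq]
    exact e1
  have hs0 : 0 < √(M : ℝ) := Real.sqrt_pos.2 hM0
  have hss : √(M : ℝ) * √(M : ℝ) = M := Real.mul_self_sqrt hM0.le
  have e3 : ℓ ^ C ≤ √(M : ℝ) := (pow_le_pow_right₀ (by linarith) (by omega)).trans e2
  have e4 : √(M : ℝ) ≤ n := by
    have : √(M : ℝ) * √(M : ℝ) ≤ n * √(M : ℝ) := by
      rw [hss]
      exact hn1.trans (mul_le_mul_of_nonneg_left e3 hn0.le)
    exact le_of_mul_le_mul_right this hs0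
  have e5 : (n : ℝ) ≤ M * M := by
    refine hn2.trans (mul_le_mul_of_nonneg_left ?_ hM0.le)
    have : √(M : ℝ) ≤ M := by
      have h1M : 1 ≤ (M : ℝ) := by
        have : (1 : ℝ) ≤ ℓ ^ (2 * (C + R + 1)) := one_le_pow₀ (by linarith)
        linarith
      calc √(M : ℝ) ≤ √(M : ℝ) * √(M : ℝ) := by
            apply le_mul_of_one_le_right hs0.le
            rw [Real.one_le_sqrt]
            exact h1M
        _ = M := hss
    exact e3.trans this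
  have e6 : ℓ ^ R ≤ n := (pow_le_pow_right₀ (by linarith) (by omega)).trans (e2.trans e4)
  refine ⟨?_, ?_, ?_, e6⟩
  · have g1 : ℓ ^ 1 ≤ ℓ ^ (C + R + 1) := pow_le_pow_right₀ (by linarith) (by omega)
    rw [pow_one] at g1
    have g2 : (R : ℝ) ≤ n := by linarith
    exact_mod_cast g2
  · have g1 : Real.log (√(M : ℝ)) ≤ Real.log n := Real.log_le_log hs0 e4
    rw [Real.log_sqrt hM0.le, ← hℓ] at g1
    linarith
  · have g1 : Real.log n ≤ Real.log (M * M) := Real.log_le_log hn0 e5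
    rw [Real.log_mul hM0.ne' hM0.ne', ← hℓ] at g1
    linarith

/-- the primorial is small -/
lemma prim_le (K₁ : ℕ) : ∃ M₀ : ℕ, ∀ M : ℕ, M₀ ≤ M → ∀ y : ℕ, (y : ℝ) ≤ K₁ * Real.log (Real.log M) →
    ((primorial y : ℕ) : ℝ) ≤ Real.log M ^ (2 * K₁) := by
  obtain ⟨M₁, h1⟩ := logM_ge (Real.exp 1)
  exact ⟨M₁, fun M hM y hy => Pool.Agent.Y877.SX.primorial_le_log K₁ y (Real.log M) (h1 M hM) hy⟩

/-- the multipliers are small -/
lemma mult_le (K₁ J : ℕ) : ∃ M₀ : ℕ, ∀ M : ℕ, M₀ ≤ M → ∀ y : ℕ, (y : ℝ) ≤ K₁ * Real.log (Real.log M) →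
    ∀ h : ℕ, (h : ℝ) ≤ Real.log M ^ J → ((primorial y * h : ℕ) : ℝ) ≤ Real.log M ^ (2 * K₁ + J) := by
  obtain ⟨M₁, h1⟩ := prim_le K₁
  obtain ⟨M₂, h2⟩ := logM_ge 1
  refine ⟨max M₁ M₂, fun M hM y hy h hh => ?_⟩
  have := h1 M (by omega) y hy
  have hl := h2 M (by omega)
  push_cast
  rw [pow_add]
  exact mul_le_mul this hh (Nat.cast_nonneg _) (by positivity)

open Classical in
/-- **the tuple theorem for values at primes, in terms of `n`** -/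
theorem tup_prK (r : ℕ) (F : Fin r → Finset ℝ) (b : Fin r → ℝ → ℝ) (e : Fin r → ℝ) (hcF : ∀ i, e i ∈ F i)
    (hn : ∀ i, ∀ m : ℕ, e i ≠ m) (hc : ∀ i, 0 < e i) (hmax : ∀ i, ∀ x ∈ F i, x ≤ e i) (hb : ∀ i, b i (e i) ≠ 0)
    (κ : Fin r → ℤ) (hκ : ∀ j, κ j ≠ 0) (B J A C G K₁ W : ℕ) (θ : ℝ) (hθ : 0 < θ) (ε : ℝ) (hε : 0 < ε) (hε1 : ε ≤ 1) :
    ∃ M₀ : ℕ, ∀ M : ℕ, M₀ ≤ M →
    ∀ X : Fin r → ℕ, (∀ j, (X j : ℝ) ^ (e j) * Real.log M ≤ M ∧ (M : ℝ) ≤ (X j : ℝ) ^ (e j) * Real.log M ^ W) →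
    ∀ (z : Fin r → ℝ) (c : Fin r → ℤ), (∀ j, |z j| ≤ B * M ∧ |c j| ≤ B * M) →
    ∀ y : ℕ, θ * Real.log (Real.log M) ≤ y → y ≤ K₁ * Real.log (Real.log M) →
    ∀ h : Fin r → ℕ, (∀ j, 1 ≤ h j ∧ (h j : ℝ) ≤ Real.log M ^ J) →
    ∀ n : ℕ, (M : ℝ) ≤ n * Real.log M ^ C → (n : ℝ) ≤ M * Real.log M ^ C →
    ∀ (I : Finset ℕ) (f : Fin r → ℕ → ℕ), (∀ j, Set.InjOn (f j) I) →
    (∀ j, ∀ i ∈ I, 1 ≤ f j i ∧ (f j i : ℝ) ≤ n * Real.log M ^ G ∧ (f j i).Coprime (primorial y * h j)) →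
    (n : ℝ) ≤ I.card * Real.log M ^ A →
      (((Fintype.piFinset fun j => PB (X j)).filter fun q : Fin r → ℕ =>
          ¬ ((∀ j, 0 < NmW y (h j) (c j + κ j * vz (F j) (b j) (z j) (q j))) →
            |((I.filter (fun i => ∀ j : Fin r,
              (NmW y (h j) (c j + κ j * vz (F j) (b j) (z j) (q j)) + (f j i : ℕ)).toNat.Prime)).card : ℝ) -
              I.card / (Vz y * Real.log M) ^ r| ≤ ε * (I.card / (Vz y * Real.log M) ^ r))).card : ℝ) ≤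
        ε * ∏ j, ((PB (X j)).card : ℝ) := by
  obtain ⟨M₁, h1⟩ := tup_pr r F b e hcF hn hc hmax hb κ hκ B J (A + G + 1) (C + G + 1) K₁ W θ hθ ε hε hε1
  obtain ⟨M₂, h2⟩ := logM_ge 2
  refine ⟨max (max M₁ M₂) 1, fun M hM X hX z c hzc y hy1 hy2 h hh n hx1 hx2 I f hinj hf hI => ?_⟩
  have hl2 := h2 M (by omega)
  have hmain := h1 M (by omega) X hX z c hzc y hy1 hy2 h hh
  obtain ⟨ℓ, hℓ⟩ : ∃ ℓ : ℝ, ℓ = Real.log M := ⟨_, rfl⟩
  rw [← hℓ] at hl2 hx1 hx2 hI ⊢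
  simp only [← hℓ] at hf hmain
  have hℓG : (1 : ℝ) ≤ ℓ ^ G := one_le_pow₀ (by linarith)
  obtain ⟨m, hm⟩ : ∃ m : ℕ, m = ⌈ℓ ^ G⌉₊ := ⟨_, rfl⟩
  have hm1 : ℓ ^ G ≤ m := by rw [hm]; exact Nat.le_ceil _
  have hm2 : (m : ℝ) ≤ ℓ ^ (G + 1) := by
    have e1 : (m : ℝ) < ℓ ^ G + 1 := by rw [hm]; exact Nat.ceil_lt_add_one (by positivity)
    rw [pow_succ]
    nlinarith
  have hn0 : (0 : ℝ) ≤ n := Nat.cast_nonneg n
  have hm0 : (1 : ℝ) ≤ m := hℓG.trans hm1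
  have hM0 : (0 : ℝ) ≤ M := Nat.cast_nonneg M
  have h3 := hmain (n * m) (by
      push_cast
      calc (M : ℝ) ≤ n * ℓ ^ C := hx1
        _ ≤ (n * m) * ℓ ^ (C + G + 1) := by
            apply mul_le_mul _ _ (by positivity) (by positivity)
            · nlinarith
            · exact pow_le_pow_right₀ (by linarith) (by omega)) (by
      push_cast
      calc (n : ℝ) * m ≤ (M * ℓ ^ C) * ℓ ^ (G + 1) := mul_le_mul hx2 hm2 (by positivity) (by positivity)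
        _ = M * ℓ ^ (C + G + 1) := by ring) I f hinj (fun j i hi => by
      obtain ⟨g1, g2, g3⟩ := hf j i hi
      refine ⟨g1, ?_, g3⟩
      have : (f j i : ℝ) ≤ ((n * m : ℕ) : ℝ) := by
        push_cast
        exact g2.trans (mul_le_mul_of_nonneg_left hm1 hn0)
      exact_mod_cast this) (by
      push_cast
      calc (n : ℝ) * m ≤ (I.card * ℓ ^ A) * ℓ ^ (G + 1) := mul_le_mul hI hm2 (by positivity) (by positivity)
        _ = I.card * ℓ ^ (A + G + 1) := by ring) (fun _ => 1) (fun _ => Or.inl rfl)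
  refine le_trans ?_ h3
  apply Nat.cast_le.2
  apply card_le_card
  intro q hq
  rw [mem_filter] at hq ⊢
  refine ⟨hq.1, fun hT => hq.2 fun hpos => ?_⟩
  have h4 := hT (fun j i hi => by
    have := hpos j
    have h0 : (0 : ℤ) ≤ ((f j i : ℕ) : ℤ) := Int.natCast_nonneg _
    linarith) r le_rfl
  unfold cntT at h4
  have hset : (I.filter (fun i => ∀ j : Fin r, (j : ℕ) < r →
      (NmW y (h j) (c j + κ j * vz (F j) (b j) (z j) (q j)) + 1 * (f j i : ℕ)).toNat.Prime)) =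
      I.filter (fun i => ∀ j : Fin r, (NmW y (h j) (c j + κ j * vz (F j) (b j) (z j) (q j)) + (f j i : ℕ)).toNat.Prime) := by
    apply filter_congr
    intro i _
    constructor
    · intro g j
      have := g j j.2
      rwa [one_mul] at this
    · intro g j _
      rw [one_mul]
      exact g j
  rw [hset] at h4
  exact h4

end Pool.Agent.Run7.h844.RP
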