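import Pool.Agent.Run7.h844.RP.PwR4

set_option autoImplicit false
set_option maxHeartbeats 4000000

/-!
Auxiliary facts for the applications of the tuple theorem: coprimality, primes in progressions with small moduli.
-/

namespace Pool.Agent.Run7.h844.RP

open Finset Filter

lemma cop_of {a D : ℕ} {N : ℤ} (ha : 1 ≤ a) (hD : 1 ≤ D) (hN : 0 < N) (hDN : (D : ℤ) ∣ N) (hp : (N + (a : ℤ)).toNat.Prime) :
    a.Coprime D := by
  by_contra hcop
  obtain ⟨q, hqp, hqa, hqb⟩ := Nat.Prime.not_coprime_iff_dvd.1 hcop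
  have f1 : (q : ℤ) ∣ N + (a : ℤ) := dvd_add ((by exact_mod_cast hqb : (q : ℤ) ∣ (D : ℤ)).trans hDN) (by exact_mod_cast hqa)
  have f0 : (1 : ℤ) ≤ a := by exact_mod_cast ha
  have f2 : (0 : ℤ) ≤ N + (a : ℤ) := by linarith
  have f3 : q ∣ (N + (a : ℤ)).toNat := by
    rw [← Int.natCast_dvd_natCast, Int.toNat_of_nonneg f2]
    exact f1
  have f4 := (Nat.prime_dvd_prime_iff_eq hqp hp).1 f3
  have f5 : (q : ℤ) ≤ D := by exact_mod_cast Nat.le_of_dvd (by omega) hqb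
  have f6 : (D : ℤ) ≤ N := Int.le_of_dvd hN hDN
  have f7 : (q : ℤ) = N + (a : ℤ) := by rw [f4, Int.toNat_of_nonneg f2]
  linarith

/-- primes in a progression with a small modulus -/
lemma ap_n (C E m R : ℕ) (hm : 1 ≤ m) : ∃ M₀ : ℕ, ∀ M : ℕ, M₀ ≤ M → ∀ n : ℕ, (M : ℝ) ≤ n * Real.log M ^ C →
    (n : ℝ) ≤ M * Real.log M ^ C → ∀ q : ℕ, 1 ≤ q → (q : ℝ) ≤ Real.log M ^ E → ∀ c : ℕ, c.Coprime q →
    ∀ Y X : ℕ, Y ≤ X → X ≤ m * (X - Y) → n ≤ X → X ≤ R * n →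
    (n : ℝ) ≤ (((Ioc Y X).filter (fun p : ℕ => p.Prime ∧ p ≡ c [MOD q])).card : ℝ) * Real.log M ^ (E + 2) := by
  obtain ⟨X₀, h0⟩ := Pool.Agent.N625.PT.ap_window (E + 1) m hm
  obtain ⟨M₁, h1⟩ := scale_n C (X₀ + 2 * 2 ^ E + 12 * m + R + 2)
  refine ⟨M₁, fun M hM n hn1 hn2 q hq hqE c hc Y X hYX hXm hnX hXR => ?_⟩
  obtain ⟨g1, g2⟩ := h1 M hM
  obtain ⟨g3, g4, g5, g6⟩ := g2 n hn1 hn2
  obtain ⟨ℓ, hℓ⟩ : ∃ ℓ : ℝ, ℓ = Real.log M := ⟨_, rfl⟩
  rw [← hℓ] at g1 g4 g5 g6 hn1 hn2 hqE ⊢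
  push_cast at g1
  have hX₀0 : (0 : ℝ) ≤ X₀ := Nat.cast_nonneg _
  have hm0 : (1 : ℝ) ≤ m := by exact_mod_cast hm
  have hR0 : (0 : ℝ) ≤ R := Nat.cast_nonneg _
  have h2E : (1 : ℝ) ≤ 2 ^ E := one_le_pow₀ (by norm_num)
  have hℓ0 : 0 < ℓ := by nlinarith
  have hn0 : (0 : ℝ) < n := by exact_mod_cast (by omega : 0 < n)
  have hX0 : (0 : ℝ) < X := by exact_mod_cast (by omega : 0 < X)
  have hlX : Real.log n ≤ Real.log X := Real.log_le_log hn0 (by exact_mod_cast hnX)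
  have hlX2 : ℓ ≤ 2 * Real.log X := by linarith
  have hRn : Real.log X ≤ 3 * ℓ := by
    have e1 : (X : ℝ) ≤ R * n := by exact_mod_cast hXR
    have e2 : Real.log X ≤ Real.log (R * n) := Real.log_le_log hX0 e1
    rcases Nat.eq_zero_or_pos R with hR | hR
    · subst hR
      push_cast at e1
      linarith
    · have hRr : (1 : ℝ) ≤ R := by exact_mod_cast hR
      rw [Real.log_mul (by linarith) hn0.ne'] at e2
      have e3 : Real.log R ≤ R := (Real.log_le_sub_one_of_pos (by linarith)).trans (by linarith)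
      nlinarith
  have hlX0 : 0 < Real.log X := by linarith
  have hqX : (q : ℝ) ≤ Real.log X ^ (E + 1) := by
    have e1 : ℓ ^ E ≤ (2 * Real.log X) ^ E := pow_le_pow_left₀ hℓ0.le hlX2 E
    rw [mul_pow] at e1
    have e2 : (2 : ℝ) ^ E ≤ Real.log X := by nlinarith
    calc (q : ℝ) ≤ ℓ ^ E := hqE
      _ ≤ 2 ^ E * Real.log X ^ E := e1
      _ ≤ Real.log X * Real.log X ^ E := mul_le_mul_of_nonneg_right e2 (by positivity)
      _ = _ := by ring
  have h3 := h0 X (by omega) q hq hqX c hc Y hYX hXm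
  have hq0 : (0 : ℝ) < q := by exact_mod_cast (by omega : 0 < q)
  rw [div_le_iff₀ (by positivity)] at h3
  obtain ⟨S, hS⟩ : ∃ S : ℝ, S = (((Ioc Y X).filter (fun p : ℕ => p.Prime ∧ p ≡ c [MOD q])).card : ℝ) := ⟨_, rfl⟩
  have hS0 : 0 ≤ S := by rw [hS]; exact Nat.cast_nonneg _
  rw [← hS] at h3 ⊢
  calc (n : ℝ) ≤ X := by exact_mod_cast hnX
    _ ≤ S * (4 * m * q * Real.log X) := h3
    _ ≤ S * (4 * m * ℓ ^ E * (3 * ℓ)) := by gcongr
    _ = S * ((12 * m) * ℓ ^ (E + 1)) := by ring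
    _ ≤ S * (ℓ * ℓ ^ (E + 1)) := by
        apply mul_le_mul_of_nonneg_left _ hS0
        apply mul_le_mul_of_nonneg_right _ (by positivity)
        nlinarith
    _ = _ := by ring

/-- the indices `k < n` with `p_{n-k}` (or another injective family of primes) not prime to `D` are at most `D` -/
lemma few_bad {ι : Type} (S : Finset ι) (f : ι → ℕ) (hf : Set.InjOn f S) (hp : ∀ i ∈ S, (f i).Prime) (D : ℕ) (hD : 1 ≤ D) :
    (S.filter (fun i => ¬ (f i).Coprime D)).card ≤ D := by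
  classical
  have h1 : (S.filter (fun i => ¬ (f i).Coprime D)).card = ((S.filter (fun i => ¬ (f i).Coprime D)).image f).card := by
    rw [card_image_of_injOn]
    intro a ha b hb hab
    exact hf (by have := (mem_filter.1 ha).1; exact_mod_cast this) (by have := (mem_filter.1 hb).1; exact_mod_cast this) hab
  rw [h1]
  have h2 : (S.filter (fun i => ¬ (f i).Coprime D)).image f ⊆ Icc 1 D := by
    intro a ha
    obtain ⟨i, hi, rfl⟩ := mem_image.1 ha
    rw [mem_filter] at hi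
    have hdvd : f i ∣ D := by
      by_contra hcon
      exact hi.2 (((hp i hi.1).coprime_iff_not_dvd).2 hcon)
    rw [mem_Icc]
    exact ⟨(hp i hi.1).one_le, Nat.le_of_dvd (by omega) hdvd⟩
  refine (card_le_card h2).trans ?_
  rw [Nat.card_Icc]
  omega

end Pool.Agent.Run7.h844.RP
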