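import Pool.Agent.Run7.h844.RP.PwR5

set_option autoImplicit false
set_option maxHeartbeats 4000000

/-!
The tuple theorem for values at primes, for families of primes: the coprimality conditions are not needed.
-/

namespace Pool.Agent.Run7.h844.RP

open Finset Filter
open Pool.Agent.H373R2.T7 (Vz)

open Classical in
/-- **the tuple theorem for values at primes, for families of primes** -/
theorem tup_prP (r : ℕ) (F : Fin r → Finset ℝ) (b : Fin r → ℝ → ℝ) (e : Fin r → ℝ) (hcF : ∀ i, e i ∈ F i)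
    (hn : ∀ i, ∀ m : ℕ, e i ≠ m) (hc : ∀ i, 0 < e i) (hmax : ∀ i, ∀ x ∈ F i, x ≤ e i) (hb : ∀ i, b i (e i) ≠ 0)
    (κ : Fin r → ℤ) (hκ : ∀ j, κ j ≠ 0) (B J A C G K₁ W : ℕ) (θ : ℝ) (hθ : 0 < θ) (ε : ℝ) (hε : 0 < ε) (hε1 : ε ≤ 1) :
    ∃ M₀ : ℕ, ∀ M : ℕ, M₀ ≤ M →
    ∀ X : Fin r → ℕ, (∀ j, (X j : ℝ) ^ (e j) * Real.log M ≤ M ∧ (M : ℝ) ≤ (X j : ℝ) ^ (e j) * Real.log M ^ W) →
    ∀ (z : Fin r → ℝ) (c : Fin r → ℤ), (∀ j, |z j| ≤ B * M ∧ |c j| ≤ B * M) →
    ∀ y : ℕ, θ * Real.log (Real.log M) ≤ y → y ≤ K₁ * Real.log (Real.log M) →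
    ∀ h : Fin r → ℕ, (∀ j, 1 ≤ h j ∧ (h j : ℝ) ≤ Real.log M ^ J) →
    ∀ n : ℕ, (M : ℝ) ≤ n * Real.log M ^ C → (n : ℝ) ≤ M * Real.log M ^ C →
    ∀ (I : Finset ℕ) (f : Fin r → ℕ → ℕ), (∀ j, Set.InjOn (f j) I) →
    (∀ j, ∀ i ∈ I, (f j i).Prime ∧ (f j i : ℝ) ≤ n * Real.log M ^ G) →
    (n : ℝ) ≤ I.card * Real.log M ^ A →
      (((Fintype.piFinset fun j => PB (X j)).filter fun q : Fin r → ℕ =>
          ¬ ((∀ j, 0 < NmW y (h j) (c j + κ j * vz (F j) (b j) (z j) (q j))) →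
            |((I.filter (fun i => ∀ j : Fin r,
              (NmW y (h j) (c j + κ j * vz (F j) (b j) (z j) (q j)) + (f j i : ℕ)).toNat.Prime)).card : ℝ) -
              I.card / (Vz y * Real.log M) ^ r| ≤ ε * (I.card / (Vz y * Real.log M) ^ r))).card : ℝ) ≤
        ε * ∏ j, ((PB (X j)).card : ℝ) := by
  obtain ⟨M₁, h1⟩ := tup_prK r F b e hcF hn hc hmax hb κ hκ B J (A + 1) C G K₁ W θ hθ (ε / 2) (by positivity) (by linarith)
  obtain ⟨M₂, h2⟩ := mult_le K₁ J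
  obtain ⟨M₃, h3⟩ := scale_n C (r + 2 * K₁ + J + A + 4 + ⌈2 * r / ε⌉₊)
  refine ⟨max (max M₁ M₂) M₃, fun M hM X hX z c hzc y hy1 hy2 h hh n hx1 hx2 I f hinj hf hI => ?_⟩
  have hmain := h1 M (by omega) X hX z c hzc y hy1 hy2 h hh n hx1 hx2
  have hD := fun j => h2 M (by omega) y hy2 (h j) (hh j).2
  obtain ⟨g1, g2⟩ := h3 M (by omega)
  obtain ⟨-, -, -, g6⟩ := g2 n hx1 hx2
  obtain ⟨ℓ, hℓ⟩ : ∃ ℓ : ℝ, ℓ = Real.log M := ⟨_, rfl⟩
  rw [← hℓ] at g1 g6 hI ⊢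
  simp only [← hℓ] at hf hmain hD
  push_cast at g1
  have hceil : 2 * r / ε ≤ ⌈2 * r / ε⌉₊ := Nat.le_ceil _
  have hr0 : (0 : ℝ) ≤ r := Nat.cast_nonneg r
  have hK0 : (0 : ℝ) ≤ K₁ := Nat.cast_nonneg _
  have hJ0 : (0 : ℝ) ≤ J := Nat.cast_nonneg _
  have hA0 : (0 : ℝ) ≤ A := Nat.cast_nonneg _
  have hre : 0 ≤ 2 * r / ε := by positivity
  have hℓ4 : 4 ≤ ℓ := by linarith
  have hℓ0 : 0 < ℓ := by linarith
  have hℓr : 2 * r / ε ≤ ℓ := by linarith
  have hDpos : ∀ j, 1 ≤ primorial y * h j := fun j => Nat.mul_pos (primorial_pos y) (hh j).1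
  -- the indices which are not coprime
  obtain ⟨I', hI'⟩ : ∃ I' : Finset ℕ, I' = I.filter (fun i => ∀ j, (f j i).Coprime (primorial y * h j)) := ⟨_, rfl⟩
  have hI'I : I' ⊆ I := by rw [hI']; exact filter_subset _ _
  have hsub : I ⊆ I' ∪ univ.biUnion (fun j : Fin r => I.filter (fun i => ¬ (f j i).Coprime (primorial y * h j))) := by
    intro i hi
    by_cases hcop : ∀ j, (f j i).Coprime (primorial y * h j)
    · exact mem_union_left _ (by rw [hI', mem_filter]; exact ⟨hi, hcop⟩)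
    · push Not at hcop
      obtain ⟨j, hj⟩ := hcop
      exact mem_union_right _ (mem_biUnion.2 ⟨j, mem_univ j, mem_filter.2 ⟨hi, hj⟩⟩)
  have hcard : (I.card : ℝ) ≤ I'.card + r * ℓ ^ (2 * K₁ + J) := by
    have e1 : I.card ≤ I'.card + ∑ j : Fin r, (I.filter (fun i => ¬ (f j i).Coprime (primorial y * h j))).card :=
      (card_le_card hsub).trans ((card_union_le _ _).trans (Nat.add_le_add_left card_biUnion_le _))
    have e2 : (I.card : ℝ) ≤ I'.card + ∑ j : Fin r, ((I.filter (fun i => ¬ (f j i).Coprime (primorial y * h j))).card : ℝ) := by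
      exact_mod_cast e1
    refine e2.trans ?_
    have e3 : ∑ j : Fin r, ((I.filter (fun i => ¬ (f j i).Coprime (primorial y * h j))).card : ℝ) ≤
        ∑ _j : Fin r, ℓ ^ (2 * K₁ + J) := by
      apply sum_le_sum
      intro j _
      have := few_bad I (f j) (hinj j) (fun i hi => (hf j i hi).1) (primorial y * h j) (hDpos j)
      have e4 : ((I.filter (fun i => ¬ (f j i).Coprime (primorial y * h j))).card : ℝ) ≤ ((primorial y * h j : ℕ) : ℝ) := by
        exact_mod_cast this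
      exact e4.trans (hD j)
    rw [sum_const, card_univ, Fintype.card_fin, nsmul_eq_mul] at e3
    linarith
  -- `r ℓ ^ (2 K₁ + J) ≤ (ε / 2) #I`
  have hI0 : (0 : ℝ) ≤ I.card := Nat.cast_nonneg _
  have hsmall : r * ℓ ^ (2 * K₁ + J) ≤ (ε / 2) * I.card := by
    have e1 : ℓ ^ (2 * K₁ + J + 1) * ℓ ^ A ≤ I.card * ℓ ^ A := by
      rw [← pow_add]
      refine le_trans ?_ (g6.trans hI)
      exact pow_le_pow_right₀ (by linarith) (by omega)
    have e2 : ℓ ^ (2 * K₁ + J + 1) ≤ I.card := le_of_mul_le_mul_right e1 (by positivity)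
    have e3 : r * ℓ ^ (2 * K₁ + J) = (ε / 2) * ((2 * r / ε) * ℓ ^ (2 * K₁ + J)) := by
      field_simp
    rw [e3]
    apply mul_le_mul_of_nonneg_left _ (by positivity)
    refine le_trans (mul_le_mul_of_nonneg_right hℓr (by positivity)) ?_
    rw [pow_succ, mul_comm] at e2
    exact e2
  have hI'0 : (0 : ℝ) ≤ I'.card := Nat.cast_nonneg _
  have hI'c : (1 - ε / 2) * I.card ≤ I'.card := by linarith
  have hI'le : (I'.card : ℝ) ≤ I.card := by exact_mod_cast card_le_card hI'I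
  have h5 := hmain I' f (fun j => (hinj j).mono (by exact_mod_cast hI'I)) (fun j i hi => by
      have hi' := hi
      rw [hI', mem_filter] at hi'
      obtain ⟨q1, q2⟩ := hf j i hi'.1
      exact ⟨q1.one_le, q2, hi'.2 j⟩) (by
      have e1 : (I.card : ℝ) ≤ 2 * I'.card := by nlinarith
      calc (n : ℝ) ≤ I.card * ℓ ^ A := hI
        _ ≤ (2 * I'.card) * ℓ ^ A := mul_le_mul_of_nonneg_right e1 (by positivity)
        _ ≤ I'.card * (ℓ * ℓ ^ A) := by
            have : 0 ≤ (I'.card : ℝ) * ℓ ^ A := by positivity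
            nlinarith
        _ = I'.card * ℓ ^ (A + 1) := by ring)
  have hprod : (0 : ℝ) ≤ ∏ j, ((PB (X j)).card : ℝ) := prod_nonneg fun j _ => Nat.cast_nonneg _
  refine le_trans ?_ (h5.trans (mul_le_mul_of_nonneg_right (by linarith) hprod))
  apply Nat.cast_le.2
  apply card_le_card
  intro q hq
  rw [mem_filter] at hq ⊢
  refine ⟨hq.1, fun hT => hq.2 fun hpos => ?_⟩
  have h6 := hT hpos
  have hset : (I.filter (fun i => ∀ j : Fin r, (NmW y (h j) (c j + κ j * vz (F j) (b j) (z j) (q j)) + (f j i : ℕ)).toNat.Prime)) =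
      I'.filter (fun i => ∀ j : Fin r, (NmW y (h j) (c j + κ j * vz (F j) (b j) (z j) (q j)) + (f j i : ℕ)).toNat.Prime) := by
    ext i
    rw [mem_filter, mem_filter, hI', mem_filter]
    constructor
    · rintro ⟨q1, q2⟩
      exact ⟨⟨q1, fun j => cop_of (hf j i q1).1.one_le (hDpos j) (hpos j) (by unfold NmW; exact dvd_mul_right _ _) (q2 j)⟩, q2⟩
    · rintro ⟨⟨q1, -⟩, q2⟩
      exact ⟨q1, q2⟩
  rw [hset]
  obtain ⟨D, hDd⟩ : ∃ D : ℝ, D = (Vz y * ℓ) ^ r := ⟨_, rfl⟩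
  have hD0 : 0 < D := by
    rw [hDd]
    have := Pool.Agent.H373R2.T7.Vz_pos y
    positivity
  rw [← hDd] at h6 ⊢
  have k1 : (I'.card : ℝ) / D ≤ I.card / D := div_le_div_of_nonneg_right hI'le hD0.le
  have k2 : (1 - ε / 2) * (I.card / D) ≤ I'.card / D := by
    rw [mul_div_assoc']
    exact div_le_div_of_nonneg_right hI'c hD0.le
  have k3 : 0 ≤ (I.card : ℝ) / D := by positivity
  rw [abs_le] at h6 ⊢
  constructor <;> nlinarith [h6.1, h6.2]

end Pool.Agent.Run7.h844.RP
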