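import Pool.Agent.Run7.h844.RP.PwR6

set_option autoImplicit false
set_option maxHeartbeats 4000000

/-! Bounds for the `i`-th prime in terms of the scale `M`. -/

namespace Pool.Agent.Run7.h844.RP

open Finset Filter

lemma nth_M (C : ℕ) : ∃ M₀ : ℕ, ∀ M : ℕ, M₀ ≤ M → ∀ n : ℕ, (M : ℝ) ≤ n * Real.log M ^ C → (n : ℝ) ≤ M * Real.log M ^ C →
    ∀ i : ℕ, i ≤ 4 * n → (Nat.nth Nat.Prime i : ℝ) ≤ n * Real.log M ^ 3 ∧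
      (Nat.nth Nat.Prime (Nat.nth Nat.Prime i - 1) : ℝ) ≤ n * Real.log M ^ 6 := by
  obtain ⟨n0, h0⟩ := Pool.Agent.Y877.SX.nth_le_log
  obtain ⟨n1, h1⟩ := Pool.Agent.Y877.SX.nth_nth_le_log
  obtain ⟨M₁, h2⟩ := scale_n C (n0 + n1 + 32)
  refine ⟨M₁, fun M hM n hn1 hn2 i hi => ?_⟩
  obtain ⟨g1, g2⟩ := h2 M hM
  obtain ⟨g3, g4, g5, g6⟩ := g2 n hn1 hn2
  have k0 := h0 n (by omega) i hi
  have k1 := h1 n (by omega) i hi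
  obtain ⟨ℓ, hℓ⟩ : ∃ ℓ : ℝ, ℓ = Real.log M := ⟨_, rfl⟩
  obtain ⟨L, hL⟩ : ∃ L : ℝ, L = Real.log n := ⟨_, rfl⟩
  rw [← hℓ] at g1 g4 g5 ⊢
  rw [← hL] at g4 g5 k0 k1
  push_cast at g1
  have hn0 : (0 : ℝ) ≤ n := Nat.cast_nonneg n
  have e0 : (0 : ℝ) ≤ n0 := Nat.cast_nonneg _
  have e1 : (0 : ℝ) ≤ n1 := Nat.cast_nonneg _
  have hℓ32 : 32 ≤ ℓ := by linarith
  have hL0 : 0 ≤ L := by linarith
  constructor
  · refine k0.trans (mul_le_mul_of_nonneg_left ?_ hn0)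
    calc L ^ 2 ≤ (2 * ℓ) ^ 2 := pow_le_pow_left₀ hL0 g5 2
      _ = 4 * ℓ ^ 2 := by ring
      _ ≤ ℓ * ℓ ^ 2 := mul_le_mul_of_nonneg_right (by linarith) (by positivity)
      _ = ℓ ^ 3 := by ring
  · refine k1.trans (mul_le_mul_of_nonneg_left ?_ hn0)
    calc L ^ 5 ≤ (2 * ℓ) ^ 5 := pow_le_pow_left₀ hL0 g5 5
      _ = 32 * ℓ ^ 5 := by ring
      _ ≤ ℓ * ℓ ^ 5 := mul_le_mul_of_nonneg_right hℓ32 (by positivity)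
      _ = ℓ ^ 6 := by ring

end Pool.Agent.Run7.h844.RP
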