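import Pool.Agent.Run7.h844.RP.PwR7

set_option autoImplicit false
set_option maxHeartbeats 4000000

/-!
Constellations of primes displaced by multiples of values at primes: `p` and `p + a_j + N_j`.
-/

namespace Pool.Agent.Run7.h844.RP

open Finset Filter
open Pool.Agent.H373R2.T7 (Vz)

/-- the primes `p ∈ K`, `p ≤ n`, such that the `p + a_j` are prime to the `D_j` -/
def AdmC {r : ℕ} (a : Fin r → ℕ) (K : Finset ℕ) (D : Fin r → ℕ) (n : ℕ) : Finset ℕ :=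
  open Classical in K.filter (fun p => p ≤ n ∧ p.Prime ∧ ∀ j, (p + a j).Coprime (D j))

/-- the primes `p ∈ K`, `p ≤ n`, such that the `p + a_j + N_j` are prime -/
def GoodC {r : ℕ} (a : Fin r → ℕ) (K : Finset ℕ) (n : ℕ) (N : Fin r → ℤ) : Finset ℕ :=
  open Classical in K.filter (fun p => p ≤ n ∧ p.Prime ∧ ∀ j, ((p : ℤ) + a j + N j).toNat.Prime)

lemma class_ex {r : ℕ} (a : Fin r → ℕ) (hadm : ∀ l : ℕ, l.Prime → ∃ c : ℕ, ¬ l ∣ c ∧ ∀ j, ¬ l ∣ c + a j) (q : ℕ) (hq : 1 ≤ q) :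
    ∃ c : ℕ, c.Coprime q ∧ ∀ j, ∀ p : ℕ, p ≡ c [MOD q] → (p + a j).Coprime q := by
  classical
  choose! g hg1 hg2 using hadm
  obtain ⟨c, hc⟩ := Nat.chineseRemainderOfFinset (fun l => g l) (fun l => l) q.primeFactors
    (fun l hl => (Nat.prime_of_mem_primeFactors hl).ne_zero) (by
      intro l hl l' hl' hne
      exact (Nat.coprime_primes (Nat.prime_of_mem_primeFactors hl) (Nat.prime_of_mem_primeFactors hl')).2 hne)
  have hcl : ∀ l : ℕ, l.Prime → l ∣ q → c ≡ g l [MOD l] := fun l hl hlq => hc l (Nat.mem_primeFactors.2 ⟨hl, hlq, by omega⟩)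
  refine ⟨c, ?_, fun j p hp => ?_⟩
  · by_contra hcop
    obtain ⟨l, hl, h1, h2⟩ := Nat.Prime.not_coprime_iff_dvd.1 hcop
    exact hg1 l hl ((Nat.modEq_zero_iff_dvd).1 ((hcl l hl h2).symm.trans ((Nat.modEq_zero_iff_dvd).2 h1)))
  · by_contra hcop
    obtain ⟨l, hl, h1, h2⟩ := Nat.Prime.not_coprime_iff_dvd.1 hcop
    have e1 : p ≡ g l [MOD l] := (hp.of_dvd h2).trans (hcl l hl h2)
    exact hg2 l hl j ((Nat.modEq_zero_iff_dvd).1 ((e1.symm.add_right (a j)).trans ((Nat.modEq_zero_iff_dvd).2 h1)))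

/-- there are many admissible primes in every window which is not short -/
theorem cons_low {r : ℕ} (a : Fin r → ℕ) (hadm : ∀ l : ℕ, l.Prime → ∃ c : ℕ, ¬ l ∣ c ∧ ∀ j, ¬ l ∣ c + a j) (C K₁ J m : ℕ)
    (hm : 1 ≤ m) : ∃ M₀ : ℕ, ∀ M : ℕ, M₀ ≤ M → ∀ y : ℕ, (y : ℝ) ≤ K₁ * Real.log (Real.log M) →
    ∀ h : Fin r → ℕ, (∀ j, 1 ≤ h j ∧ (h j : ℝ) ≤ Real.log M ^ J) →
    ∀ n : ℕ, (M : ℝ) ≤ n * Real.log M ^ C → (n : ℝ) ≤ M * Real.log M ^ C → ∀ Y : ℕ, Y ≤ n → n ≤ m * (n - Y) →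
    (n : ℝ) ≤ ((AdmC a (Ioc Y n) (fun j => primorial y * h j) n).card : ℝ) * Real.log M ^ (r * (2 * K₁ + J) + 2) := by
  classical
  obtain ⟨M₁, h1⟩ := ap_n C (r * (2 * K₁ + J)) m 1 hm
  obtain ⟨M₂, h2⟩ := mult_le K₁ J
  refine ⟨max M₁ M₂, fun M hM y hy h hh n hx1 hx2 Y hY hYm => ?_⟩
  have hD := fun j => h2 M (by omega) y hy (h j) (hh j).2
  have hap := h1 M (by omega) n hx1 hx2
  obtain ⟨ℓ, hℓ⟩ : ∃ ℓ : ℝ, ℓ = Real.log M := ⟨_, rfl⟩
  rw [← hℓ] at hap ⊢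
  simp only [← hℓ] at hD
  have hℓ0 : 0 ≤ ℓ := by rw [hℓ]; exact Real.log_natCast_nonneg M
  have hDpos : ∀ j, 1 ≤ primorial y * h j := fun j => Nat.mul_pos (primorial_pos y) (hh j).1
  obtain ⟨q, hq⟩ : ∃ q, q = ∏ j, (primorial y * h j) := ⟨_, rfl⟩
  have hq1 : 1 ≤ q := by
    rw [hq]
    exact Nat.one_le_iff_ne_zero.2 (Finset.prod_ne_zero_iff.2 fun j _ => by have := hDpos j; omega)
  have hqd : ∀ j, primorial y * h j ∣ q := fun j => by rw [hq]; exact dvd_prod_of_mem _ (mem_univ j)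
  have hqE : (q : ℝ) ≤ ℓ ^ (r * (2 * K₁ + J)) := by
    rw [hq, Nat.cast_prod]
    calc ∏ j : Fin r, ((primorial y * h j : ℕ) : ℝ) ≤ ∏ _j : Fin r, ℓ ^ (2 * K₁ + J) :=
          prod_le_prod (fun _ _ => Nat.cast_nonneg _) (fun j _ => hD j)
      _ = _ := by rw [prod_const, card_univ, Fintype.card_fin, ← pow_mul, mul_comm]
  obtain ⟨c, hc1, hc2⟩ := class_ex a hadm q hq1
  have h4 := hap q hq1 hqE c hc1 Y n hY hYm le_rfl (by omega)
  refine h4.trans (mul_le_mul_of_nonneg_right ?_ (by positivity))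
  apply Nat.cast_le.2
  apply card_le_card
  intro p hp
  rw [mem_filter, mem_Ioc] at hp
  unfold AdmC
  rw [mem_filter, mem_Ioc]
  exact ⟨hp.1, hp.1.2, hp.2.1, fun j => Nat.Coprime.coprime_dvd_right (hqd j) (hc2 j p hp.2.2)⟩

open Classical in
/-- **constellations displaced by multiples of values at primes** -/
theorem cons_pr (r : ℕ) (a : Fin r → ℕ) (F : Fin r → Finset ℝ) (b : Fin r → ℝ → ℝ) (e : Fin r → ℝ) (hcF : ∀ i, e i ∈ F i)
    (hn : ∀ i, ∀ m : ℕ, e i ≠ m) (hc : ∀ i, 0 < e i) (hmax : ∀ i, ∀ x ∈ F i, x ≤ e i) (hb : ∀ i, b i (e i) ≠ 0)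
    (κ : Fin r → ℤ) (hκ : ∀ j, κ j ≠ 0) (B J A C K₁ W : ℕ) (θ : ℝ) (hθ : 0 < θ) (ε : ℝ) (hε : 0 < ε) (hε1 : ε ≤ 1) :
    ∃ M₀ : ℕ, ∀ M : ℕ, M₀ ≤ M →
    ∀ X : Fin r → ℕ, (∀ j, (X j : ℝ) ^ (e j) * Real.log M ≤ M ∧ (M : ℝ) ≤ (X j : ℝ) ^ (e j) * Real.log M ^ W) →
    ∀ (z : Fin r → ℝ) (c : Fin r → ℤ), (∀ j, |z j| ≤ B * M ∧ |c j| ≤ B * M) →
    ∀ y : ℕ, θ * Real.log (Real.log M) ≤ y → y ≤ K₁ * Real.log (Real.log M) →
    ∀ h : Fin r → ℕ, (∀ j, 1 ≤ h j ∧ (h j : ℝ) ≤ Real.log M ^ J) →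
    ∀ n : ℕ, (M : ℝ) ≤ n * Real.log M ^ C → (n : ℝ) ≤ M * Real.log M ^ C →
    ∀ K : Finset ℕ, (n : ℝ) ≤ (AdmC a K (fun j => primorial y * h j) n).card * Real.log M ^ A →
      (((Fintype.piFinset fun j => PB (X j)).filter fun q : Fin r → ℕ =>
          ¬ ((∀ j, 0 < NmW y (h j) (c j + κ j * vz (F j) (b j) (z j) (q j))) →
            |((GoodC a K n (fun j => NmW y (h j) (c j + κ j * vz (F j) (b j) (z j) (q j)))).card : ℝ) -
              (AdmC a K (fun j => primorial y * h j) n).card / (Vz y * Real.log M) ^ r| ≤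
              ε * ((AdmC a K (fun j => primorial y * h j) n).card / (Vz y * Real.log M) ^ r))).card : ℝ) ≤
        ε * ∏ j, ((PB (X j)).card : ℝ) := by
  obtain ⟨M₁, h1⟩ := tup_prK r F b e hcF hn hc hmax hb κ hκ B J A C 1 K₁ W θ hθ ε hε hε1
  obtain ⟨M₂, h2⟩ := scale_n C (∑ j, a j + 2)
  refine ⟨max M₁ M₂, fun M hM X hX z c hzc y hy1 hy2 h hh n hx1 hx2 K hKc => ?_⟩
  obtain ⟨g1, g2⟩ := h2 M (by omega)
  obtain ⟨g3, -, -, -⟩ := g2 n hx1 hx2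
  have hDpos : ∀ j, 1 ≤ primorial y * h j := fun j => Nat.mul_pos (primorial_pos y) (hh j).1
  obtain ⟨I, hI⟩ : ∃ I, I = AdmC a K (fun j => primorial y * h j) n := ⟨_, rfl⟩
  rw [← hI] at hKc ⊢
  have hmemI : ∀ p ∈ I, p ≤ n ∧ p.Prime ∧ ∀ j, (p + a j).Coprime (primorial y * h j) := by
    intro p hp
    rw [hI] at hp
    exact (mem_filter.1 hp).2
  have hn0 : (0 : ℝ) ≤ n := Nat.cast_nonneg n
  have h5 := h1 M (by omega) X hX z c hzc y hy1 hy2 h hh n hx1 hx2 I (fun j p => p + a j) (by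
      intro j p _ p' _ hpp
      simp only at hpp
      omega) (by
      intro j p hp
      obtain ⟨a1, a2, a3⟩ := hmemI p hp
      refine ⟨by have := a2.one_le; omega, ?_, a3 j⟩
      have ha : a j ≤ ∑ j, a j := single_le_sum (f := a) (fun _ _ => Nat.zero_le _) (mem_univ j)
      have e1 : ((p + a j : ℕ) : ℝ) ≤ n * ((∑ j, a j + 2 : ℕ) : ℝ) := by
        have : p + a j ≤ n * (∑ j, a j + 2) := by
          calc p + a j ≤ n + ∑ j, a j := by omega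
            _ ≤ n * (∑ j, a j + 2) := by nlinarith
        exact_mod_cast this
      rw [pow_one]
      exact e1.trans (mul_le_mul_of_nonneg_left g1 hn0)) hKc
  refine le_trans ?_ h5
  apply Nat.cast_le.2
  apply card_le_card
  intro q hq
  rw [mem_filter] at hq ⊢
  refine ⟨hq.1, fun hT => hq.2 fun hpos => ?_⟩
  have h6 := hT hpos
  have hset : GoodC a K n (fun j => NmW y (h j) (c j + κ j * vz (F j) (b j) (z j) (q j))) =
      I.filter (fun i => ∀ j : Fin r, (NmW y (h j) (c j + κ j * vz (F j) (b j) (z j) (q j)) + ((i + a j : ℕ) : ℕ)).toNat.Prime) := by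
    ext p
    unfold GoodC
    rw [mem_filter, mem_filter, hI]
    unfold AdmC
    rw [mem_filter]
    have e1 : ∀ j, ((p : ℤ) + a j + NmW y (h j) (c j + κ j * vz (F j) (b j) (z j) (q j))) =
        NmW y (h j) (c j + κ j * vz (F j) (b j) (z j) (q j)) + ((p + a j : ℕ) : ℤ) := by
      intro j
      push_cast
      rw [add_comm]
    constructor
    · rintro ⟨q1, q2, q3, q4⟩
      simp only [e1] at q4
      exact ⟨⟨q1, q2, q3, fun j => cop_of (by have := q3.one_le; omega) (hDpos j) (hpos j) (by unfold NmW; exact dvd_mul_right _ _)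
        (q4 j)⟩, q4⟩
    · rintro ⟨⟨q1, q2, q3, -⟩, q4⟩
      refine ⟨q1, q2, q3, fun j => ?_⟩
      rw [e1]
      exact q4 j
  rw [hset]
  exact h6

end Pool.Agent.Run7.h844.RP
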