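import Pool.Agent.Run7.h844.RP.PwR3
import Pool.Agent.Run7.h414.HL.A3
import Pool.Agent.Run7.h414.HL.A4

set_option autoImplicit false
set_option maxHeartbeats 4000000

/-!
The asymptotic formula of Hardy and Littlewood, with the exact constant, for constellations whose members are displaced by
multiples of values at primes (after `Pool.Agent.Run7.h414.HL.hl_cls`).
-/

namespace Pool.Agent.Run7.h844.RP

open Finset Filter
open scoped Topology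
open Pool.Agent.H373R2.T7 (Vz pz)
open Pool.Agent.N625.PT (Nm)
open Pool.Agent.Run7.h414.HL (Tup Good dens)

/-- the asymptotic formula for the tuples displaced by `N` -/
def HLG {r : ℕ} (a : Fin r → ℕ) (S ε : ℝ) (x : ℕ) (N : Fin r → ℤ) : Prop :=
  (∀ j, 0 < N j) → |((Tup a N x).card : ℝ) * (Real.log x ^ (r + 1) / x) - S| ≤ ε

open Classical in
theorem hl_pr (r : ℕ) (F : Fin r → Finset ℝ) (b : Fin r → ℝ → ℝ) (e : Fin r → ℝ) (hcF : ∀ i, e i ∈ F i)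
    (hn : ∀ i, ∀ m : ℕ, e i ≠ m) (hc : ∀ i, 0 < e i) (hmax : ∀ i, ∀ x ∈ F i, x ≤ e i) (hb : ∀ i, b i (e i) ≠ 0)
    (κ : Fin r → ℤ) (hκ : ∀ j, κ j ≠ 0) (a : Fin r → ℕ) (ha1 : ∀ j, 1 ≤ a j)
    (hadm : ∀ l : ℕ, l.Prime → ∃ x : ℕ, x < l ∧ Good a l x) (S : ℝ) (hS : 0 < S)
    (hlim : Tendsto (fun y : ℕ => dens (Good a) (pz y) / Vz y ^ r) atTop (𝓝 S))
    (B J C K₁ W : ℕ) (θ : ℝ) (hθ : 0 < θ) (ε : ℝ) (hε : 0 < ε) (hε1 : ε ≤ 1) :
    ∃ M₀ : ℕ, ∀ M : ℕ, M₀ ≤ M →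
    ∀ X : Fin r → ℕ, (∀ j, (X j : ℝ) ^ (e j) * Real.log M ≤ M ∧ (M : ℝ) ≤ (X j : ℝ) ^ (e j) * Real.log M ^ W) →
    ∀ (z : Fin r → ℝ) (c : Fin r → ℤ), (∀ j, |z j| ≤ B * M ∧ |c j| ≤ B * M) →
    ∀ y : ℕ, θ * Real.log (Real.log M) ≤ y → y ≤ K₁ * Real.log (Real.log M) →
    ∀ h : Fin r → ℕ, (∀ j, 1 ≤ h j ∧ (h j : ℝ) ≤ Real.log M ^ J) →
    ∀ x : ℕ, (M : ℝ) ≤ x * Real.log M ^ C → (x : ℝ) ≤ M * Real.log M ^ C →
      (((Fintype.piFinset fun j => PB (X j)).filter fun q : Fin r → ℕ =>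
          ¬ HLG a S ε x (fun j => NmW y (h j) (c j + κ j * vz (F j) (b j) (z j) (q j)))).card : ℝ) ≤
        ε * ∏ j, ((PB (X j)).card : ℝ) := by
  obtain ⟨ρ, hρ0, hρ1, htr⟩ := pr_transferV r F e hcF hn hc hmax b hb
  obtain ⟨k₁, htr⟩ := htr (W + 2)
  obtain ⟨L, hcls⟩ := pw_rcls (8 + 2 * (W + 2)) ρ hρ0 hρ1
  obtain ⟨K, hK⟩ : ∃ K : ℕ, K = ∑ j, (κ j).natAbs := ⟨_, rfl⟩
  have hKj : ∀ j, |κ j| ≤ K := by
    intro j
    rw [← Int.natCast_natAbs, hK]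
    exact_mod_cast single_le_sum (f := fun j => (κ j).natAbs) (fun _ _ => Nat.zero_le _) (mem_univ j)
  obtain ⟨k₂, hcore⟩ := Pool.Agent.Run7.h414.HL.hl_cls hcls r κ hκ a ha1 hadm S hS hlim (2 * (B + K * (B + 2))) J (C + 1) K₁
    (θ / 2) (by positivity) (ε / 2) (by positivity) (by linarith)
  obtain ⟨M₁, hM₁⟩ := scale_k (k₁ + k₂ + 4) 1 one_pos
  refine ⟨M₁ + 1, fun M hM X hX z c hzc y hy1 hy2 h hh x hx1 hx2 => ?_⟩
  obtain ⟨hl3, hll1, k, hk, q1, q2, q3, q4, q5, q6, -, -⟩ := hM₁ M (by omega)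
  obtain ⟨ℓ, hℓ⟩ : ∃ ℓ : ℝ, ℓ = Real.log M := ⟨_, rfl⟩
  rw [← hℓ] at hl3 hll1 q3 q4 q5 q6 hy1 hy2 hx1 hx2
  simp only [← hℓ] at hX hh
  have hM0 : (0 : ℝ) < M := by exact_mod_cast (by omega : 0 < M)
  have hk4 : (4 : ℝ) ≤ k := by exact_mod_cast (by omega : 4 ≤ k)
  have hk0 : (0 : ℝ) < k := by linarith
  have hℓ0 : 0 < ℓ := by linarith
  have q1r : 2 * (M : ℝ) < 2 ^ k := by exact_mod_cast q1
  have q2r : (2 : ℝ) ^ k ≤ 4 * M := by exact_mod_cast q2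
  -- the laws
  obtain ⟨p, hp, hcount⟩ := htr k (by omega) X (fun j => by
    obtain ⟨hN1, hN2⟩ := hX j
    have hNc0 : 0 ≤ (X j : ℝ) ^ e j := by positivity
    refine ⟨by nlinarith, ?_⟩
    calc (2 : ℝ) ^ k ≤ 4 * M := q2r
      _ ≤ 4 * ((X j : ℝ) ^ e j * ℓ ^ W) := by linarith
      _ ≤ k ^ 2 * ((X j : ℝ) ^ e j * (k : ℝ) ^ W) := by
          apply mul_le_mul (by nlinarith) _ (by positivity) (by positivity)
          exact mul_le_mul_of_nonneg_left (pow_le_pow_left₀ hℓ0.le q3 W) hNc0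
      _ = (X j : ℝ) ^ e j * (k : ℝ) ^ (W + 2) := by ring) z
  -- the constants
  obtain ⟨cc, hcc⟩ : ∃ cc : Fin r → ℤ, ∀ j, cc j = c j + κ j * (⌊z j⌋ - 2 ^ (k - 1)) := ⟨_, fun _ => rfl⟩
  have hMz : (M : ℤ) ≤ 2 ^ k := by exact_mod_cast (by omega : M ≤ 2 ^ k)
  have hpz : (2 : ℤ) ^ (k - 1) ≤ 2 ^ k := pow_le_pow_right₀ (by norm_num) (by omega)
  have hp0 : (0 : ℤ) < 2 ^ (k - 1) := by positivity
  have hp1 : (0 : ℤ) < 2 ^ k := by positivity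
  have hfz : ∀ j, |⌊z j⌋| ≤ B * M + 1 := by
    intro j
    have e1 : |z j| ≤ ((B * M : ℕ) : ℝ) := by push_cast; exact (hzc j).1
    rw [abs_le] at e1 ⊢
    have e2 : ⌊z j⌋ ≤ (B * M : ℕ) := by
      have := (Int.floor_le (z j)).trans e1.2
      exact_mod_cast this
    have e3 : -((B * M : ℕ) : ℤ) ≤ ⌊z j⌋ := by
      rw [Int.le_floor]
      push_cast
      push_cast at e1
      exact e1.1
    push_cast at e2 e3
    constructor <;> linarith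
  have hcb : ∀ j, |cc j| ≤ ((2 * (B + K * (B + 2)) : ℕ) : ℤ) * ((2 : ℕ) : ℤ) ^ k := by
    intro j
    have e1 : |(⌊z j⌋ - 2 ^ (k - 1) : ℤ)| ≤ (B + 2) * 2 ^ k := by
      calc |(⌊z j⌋ - 2 ^ (k - 1) : ℤ)| ≤ |⌊z j⌋| + |(2 : ℤ) ^ (k - 1)| := abs_sub _ _
        _ ≤ (B * M + 1) + 2 ^ k := by
            rw [abs_of_pos hp0]
            exact add_le_add (hfz j) hpz
        _ ≤ (B * 2 ^ k + 2 ^ k) + 2 ^ k := by
            have : (B : ℤ) * M ≤ B * 2 ^ k := mul_le_mul_of_nonneg_left hMz (by positivity)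
            linarith
        _ = _ := by ring
    have e2 : |c j| ≤ B * 2 ^ k := (hzc j).2.trans (mul_le_mul_of_nonneg_left hMz (by positivity))
    have e3 : |cc j| ≤ B * 2 ^ k + K * ((B + 2) * 2 ^ k) := by
      rw [hcc]
      refine (abs_add_le _ _).trans (add_le_add e2 ?_)
      rw [abs_mul]
      exact mul_le_mul (hKj j) e1 (abs_nonneg _) (by positivity)
    push_cast
    have e4 : 0 ≤ K * ((B + 2) * 2 ^ k : ℤ) := by positivity
    have e5 : (0 : ℤ) ≤ B * 2 ^ k := by positivity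
    linarith
  -- the ranges
  have hk2 : ℓ ^ J ≤ (k : ℝ) ^ J := pow_le_pow_left₀ hℓ0.le q3 J
  have hhk : ∀ j, 1 ≤ h j ∧ h j ≤ k ^ J := by
    intro j
    refine ⟨(hh j).1, ?_⟩
    have := (hh j).2.trans hk2
    exact_mod_cast this
  have hkC : ℓ ^ C ≤ (k : ℝ) ^ C := pow_le_pow_left₀ hℓ0.le q3 C
  have hx0 : (0 : ℝ) ≤ x := Nat.cast_nonneg x
  have hxa : 2 ^ k ≤ x * k ^ (C + 1) := by
    have : (2 : ℝ) ^ k ≤ x * (k : ℝ) ^ (C + 1) := by
      calc (2 : ℝ) ^ k ≤ 4 * M := q2r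
        _ ≤ 4 * (x * ℓ ^ C) := by linarith
        _ ≤ k * (x * (k : ℝ) ^ C) := by gcongr
        _ = _ := by ring
    exact_mod_cast this
  have hxb : x ≤ 2 ^ k * k ^ (C + 1) := by
    have : (x : ℝ) ≤ 2 ^ k * (k : ℝ) ^ (C + 1) := by
      calc (x : ℝ) ≤ M * ℓ ^ C := hx2
        _ ≤ 2 ^ k * (k : ℝ) ^ C := by
            apply mul_le_mul (by linarith) hkC (by positivity) (by positivity)
        _ ≤ 2 ^ k * (k : ℝ) ^ (C + 1) := by
            apply mul_le_mul_of_nonneg_left _ (by positivity)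
            exact pow_le_pow_right₀ (by linarith) (by omega)
    exact_mod_cast this
  have h5 := hcore k (by omega) p hp y (by
      have : θ / 2 * Real.log k ≤ θ / 2 * (2 * Real.log ℓ) := mul_le_mul_of_nonneg_left q6 (by positivity)
      linarith) (by
      have : (K₁ : ℝ) * Real.log ℓ ≤ K₁ * Real.log k := mul_le_mul_of_nonneg_left q5 (Nat.cast_nonneg _)
      linarith) cc hcb h hhk x hxa hxb
  have h6 := hcount (ε / 2) (fun v => HLG a S ε x (fun j => NmW y (h j) (c j + κ j * v j))) (by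
    refine le_trans (sum_le_sum fun v _ => ?_) h5
    have hv0 : 0 ≤ ∏ j, p j (v j) := prod_nonneg fun j _ => (hp j).nonneg _
    have hw : ∀ j, NmW y (h j) (c j + κ j * (⌊z j⌋ - 2 ^ (k - 1) + ((v j : ℕ) : ℤ))) = Nm y (h j) (cc j) (κ j) (v j) := by
      intro j
      unfold NmW Nm
      rw [hcc]
      congr 1
      ring
    simp only [hw]
    by_cases hg : HLG a S ε x (fun j => Nm y (h j) (cc j) (κ j) (v j))
    · rw [if_pos hg]
      split_ifs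
      · exact le_rfl
      · exact hv0
    · rw [if_neg hg, if_neg]
      intro hcon
      exact hg fun hpos => (hcon hpos).trans (by linarith))
  have hfin : (∏ j, ((PB (X j)).card : ℝ)) * (ε / 2) ≤ ε * ∏ j, ((PB (X j)).card : ℝ) := by
    have : (0 : ℝ) ≤ ∏ j, ((PB (X j)).card : ℝ) := prod_nonneg fun j _ => Nat.cast_nonneg _
    nlinarith
  exact h6.trans hfin

end Pool.Agent.Run7.h844.RP
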