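import Pool.Agent.Run7.h844.RP.PwG
import Pool.Agent.Run7.h90.AP.Fund
import Pool.Agent.W93.HD4

set_option autoImplicit false
set_option maxHeartbeats 4000000

/-!
The fundamental lemma of the sieve for families of integers with small exponential sums.
-/

namespace Pool.Agent.Run7.h844.RP

open Finset Filter
open Pool.Agent.H807R2.Dav
open Run7.h870.LI (Per rr)
open scoped Classical

/-- residue classes -/
theorem IF_class {ι : Type} {T : ℝ} {s : Finset ι} {v : ι → ℤ} (hT : 0 < T) (h : IF T s v) (m : ℕ) (hm : 1 ≤ m) (a : ℤ) :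
    |((s.filter (fun i => (m : ℤ) ∣ v i - a)).card : ℝ) - s.card / m| ≤ s.card * m / T := by
  have hm0 : (0 : ℝ) < m := by exact_mod_cast hm
  have hs0 : (0 : ℝ) ≤ s.card := Nat.cast_nonneg _
  have e1 : ((m : ℂ) * ((s.filter (fun i => (m : ℤ) ∣ v i - a)).card : ℂ)) =
      ∑ t ∈ range m, ∑ i ∈ s, ee ((t : ℝ) * (((v i - a : ℤ) : ℝ) / m)) := by
    rw [sum_comm]
    rw [sum_congr rfl fun i _ => Pool.Agent.H373R2.T7.orth m hm (v i - a)]
    rw [← sum_filter, sum_const, nsmul_eq_mul, mul_comm]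
  obtain ⟨m', rfl⟩ : ∃ m', m = m' + 1 := ⟨m - 1, by omega⟩
  rw [sum_range_succ'] at e1
  have e2 : ∑ i ∈ s, ee (((0 : ℕ) : ℝ) * (((v i - a : ℤ) : ℝ) / ((m' + 1 : ℕ) : ℝ))) = (s.card : ℂ) := by
    rw [sum_congr rfl fun i _ => show ee (((0 : ℕ) : ℝ) * (((v i - a : ℤ) : ℝ) / ((m' + 1 : ℕ) : ℝ))) = 1 by
      rw [Nat.cast_zero, zero_mul]
      exact_mod_cast ee_int 0]
    rw [sum_const, nsmul_eq_mul, mul_one]
  rw [e2] at e1
  have e3 : ∀ t ∈ range m', ‖∑ i ∈ s, ee (((t + 1 : ℕ) : ℝ) * (((v i - a : ℤ) : ℝ) / ((m' + 1 : ℕ) : ℝ)))‖ ≤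
      s.card * ((m' + 1 : ℕ) : ℝ) / T := by
    intro t ht
    rw [mem_range] at ht
    have f1 : ∀ i ∈ s, ee (((t + 1 : ℕ) : ℝ) * (((v i - a : ℤ) : ℝ) / ((m' + 1 : ℕ) : ℝ))) =
        ee (-(((t + 1 : ℕ) : ℝ) * ((a : ℝ) / ((m' + 1 : ℕ) : ℝ)))) * ee ((((t + 1 : ℕ) : ℝ) / ((m' + 1 : ℕ) : ℝ)) * v i) := by
      intro i _
      rw [← ee_add]
      congr 1
      push_cast
      ring
    rw [sum_congr rfl f1, ← mul_sum, norm_mul, norm_ee, one_mul]
    refine (h (((t + 1 : ℕ) : ℝ) / ((m' + 1 : ℕ) : ℝ)) (1 / ((m' + 1 : ℕ) : ℝ)) (by positivity) (fun j => ?_)).trans (le_of_eq ?_)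
    · have g1 : ((t + 1 : ℕ) : ℝ) / ((m' + 1 : ℕ) : ℝ) - j = (((t + 1 : ℕ) : ℤ) - j * ((m' + 1 : ℕ) : ℤ) : ℤ) / ((m' + 1 : ℕ) : ℝ) := by
        push_cast
        field_simp
      rw [g1, abs_div, abs_of_pos hm0]
      apply div_le_div_of_nonneg_right _ hm0.le
      have g2 : ((t + 1 : ℕ) : ℤ) - j * ((m' + 1 : ℕ) : ℤ) ≠ 0 := by
        intro h0
        have g3 : ((m' + 1 : ℕ) : ℤ) ∣ ((t + 1 : ℕ) : ℤ) := ⟨j, by linarith⟩
        have g4 : m' + 1 ∣ t + 1 := by exact_mod_cast g3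
        have := Nat.le_of_dvd (by omega) g4
        omega
      exact_mod_cast Int.one_le_abs g2
    · field_simp
  have e4 : ‖((((m' + 1 : ℕ) : ℝ) * ((s.filter (fun i => ((m' + 1 : ℕ) : ℤ) ∣ v i - a)).card : ℝ) - s.card : ℝ) : ℂ)‖ ≤
      m' * (s.card * ((m' + 1 : ℕ) : ℝ) / T) := by
    have f1 : ((((m' + 1 : ℕ) : ℝ) * ((s.filter (fun i => ((m' + 1 : ℕ) : ℤ) ∣ v i - a)).card : ℝ) - s.card : ℝ) : ℂ) =
        ∑ t ∈ range m', ∑ i ∈ s, ee (((t + 1 : ℕ) : ℝ) * (((v i - a : ℤ) : ℝ) / ((m' + 1 : ℕ) : ℝ))) := by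
      rw [Complex.ofReal_sub, Complex.ofReal_mul, Complex.ofReal_natCast, Complex.ofReal_natCast, Complex.ofReal_natCast, e1]
      ring
    rw [f1]
    refine (norm_sum_le _ _).trans ((sum_le_sum e3).trans (le_of_eq ?_))
    rw [sum_const, card_range, nsmul_eq_mul]
  rw [Complex.norm_real, Real.norm_eq_abs] at e4
  obtain ⟨N, hN⟩ : ∃ N : ℝ, N = ((s.filter (fun i => ((m' + 1 : ℕ) : ℤ) ∣ v i - a)).card : ℝ) := ⟨_, rfl⟩
  rw [← hN] at e4 ⊢
  have e5 : N - s.card / ((m' + 1 : ℕ) : ℝ) = (((m' + 1 : ℕ) : ℝ) * N - s.card) / ((m' + 1 : ℕ) : ℝ) := by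
    field_simp
  rw [e5, abs_div, abs_of_pos hm0, div_le_iff₀ hm0]
  refine e4.trans ?_
  have e6 : (m' : ℝ) ≤ ((m' + 1 : ℕ) : ℝ) := by push_cast; linarith
  have e7 : 0 ≤ s.card * ((m' + 1 : ℕ) : ℝ) / T := by positivity
  nlinarith

/-- the integers of a family which are small in absolute value -/
theorem IF_small {ι : Type} {T : ℝ} {s : Finset ι} {v : ι → ℤ} (hT : 0 < T) (h : IF T s v) (m : ℕ) (hm : 1 ≤ m) (a : ℤ) (U : ℕ) :
    ((s.filter (fun i => a ≤ v i ∧ v i < a + U)).card : ℝ) ≤ U * (s.card / m + s.card * m / T) := by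
  have h1 : s.filter (fun i => a ≤ v i ∧ v i < a + U) ⊆ (range U).biUnion (fun j => s.filter (fun i => (m : ℤ) ∣ v i - (a + j))) := by
    intro i hi
    rw [mem_filter] at hi
    rw [mem_biUnion]
    refine ⟨(v i - a).toNat, ?_, ?_⟩
    · rw [mem_range]
      omega
    · rw [mem_filter]
      refine ⟨hi.1, ?_⟩
      have : v i - (a + (((v i - a).toNat : ℕ) : ℤ)) = 0 := by omega
      rw [this]
      exact dvd_zero _
  have h2 : ((s.filter (fun i => a ≤ v i ∧ v i < a + U)).card : ℝ) ≤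
      ∑ j ∈ range U, ((s.filter (fun i => (m : ℤ) ∣ v i - (a + j))).card : ℝ) := by
    exact_mod_cast (card_le_card h1).trans card_biUnion_le
  refine h2.trans ?_
  have h3 : ∀ j ∈ range U, ((s.filter (fun i => (m : ℤ) ∣ v i - (a + j))).card : ℝ) ≤ s.card / m + s.card * m / T := by
    intro j _
    have := (abs_le.1 (IF_class hT h m hm (a + j))).2
    linarith
  refine (sum_le_sum h3).trans (le_of_eq ?_)
  rw [sum_const, card_range, nsmul_eq_mul]

/-- **the fundamental lemma of the sieve for families of integers with small exponential sums** -/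
theorem fll_IF : ∃ C : ℕ, 1 ≤ C ∧ ∀ (κ b J D : ℕ) (P : Finset ℕ), C * (κ + 1) ≤ b →
    (∀ p ∈ P, p.Prime ∧ p ≤ 2 ^ 2 ^ J) →
    (∏ p ∈ Icc 1 (C * (κ + 1)), p) * (2 ^ 2 ^ J) ^ (C * b) ≤ D →
    ∀ Q : ℕ → ℤ → Prop, (∀ (p : ℕ) (n : ℤ), Q p (n + p) ↔ Q p n) → (∀ p ∈ P, ((range p).filter fun n : ℕ => Q p n).card ≤ κ) →
      ∀ (ι : Type) (s : Finset ι) (v : ι → ℤ) (T : ℝ), 0 < T → IF T s v →
      |((s.filter fun i => ∀ p ∈ P, ¬ Q p (v i)).card : ℝ) -
        s.card * ∏ p ∈ P, (1 - (((range p).filter fun n : ℕ => Q p n).card : ℝ) / p)| ≤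
      (1 / 2) ^ b * (s.card * ∏ p ∈ P, (1 - (((range p).filter fun n : ℕ => Q p n).card : ℝ) / p)) +
        (J + 1) * D ^ 2 * (s.card * D / T) := by
  obtain ⟨C, hC, H⟩ := Pool.Agent.Run7.h90.AP.fllF
  refine ⟨C, hC, fun κ b J D P hb hP hD Q hQ hκ ι s v T hT hv => ?_⟩
  obtain ⟨Q', hQ'⟩ : ∃ Q' : ℕ → ℕ → Prop, ∀ p n, Q' p n ↔ Q p (n : ℤ) := ⟨fun p n => Q p (n : ℤ), fun _ _ => Iff.rfl⟩
  have hper : Per Q' := by
    intro p n
    rw [hQ', hQ']
    push_cast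
    exact hQ p n
  have hrr : ∀ p, rr Q' p = ((range p).filter fun n : ℕ => Q p n).card := by
    intro p
    unfold rr
    simp only [hQ']
  have hmulper : ∀ (p : ℕ) (n : ℤ) (t : ℕ), Q p (n + p * t) ↔ Q p n := by
    intro p n t
    induction t with
    | zero => simp
    | succ t ih =>
      have : n + (p : ℤ) * ((t + 1 : ℕ) : ℤ) = (n + p * t) + p := by push_cast; ring
      rw [this, hQ, ih]
  have hcong : ∀ (p : ℕ) (x y : ℤ), (p : ℤ) ∣ x - y → (Q p x ↔ Q p y) := by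
    intro p x y hd
    obtain ⟨t, ht⟩ := hd
    rcases Int.eq_nat_or_neg t with ⟨u, hu | hu⟩
    · have : x = y + p * u := by rw [hu] at ht; linarith
      rw [this, hmulper]
    · have : y = x + p * u := by rw [hu] at ht; linarith
      rw [this, hmulper]
  -- the natural numbers
  obtain ⟨F, hF⟩ : ∃ F : ℕ, F = D.factorial := ⟨_, rfl⟩
  have hF0 : (0 : ℤ) < F := by rw [hF]; exact_mod_cast Nat.factorial_pos D
  obtain ⟨n, hn⟩ : ∃ n : ι → ℕ, ∀ i, ((n i : ℕ) : ℤ) = v i % F :=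
    ⟨fun i => (v i % F).toNat, fun i => Int.toNat_of_nonneg (Int.emod_nonneg _ hF0.ne')⟩
  have hnd : ∀ i, ∀ q : ℕ, 1 ≤ q → q ≤ D → (q : ℤ) ∣ ((n i : ℕ) : ℤ) - v i := by
    intro i q hq1 hqD
    have h1 : (F : ℤ) ∣ ((n i : ℕ) : ℤ) - v i := by
      rw [hn, Int.emod_def]
      exact ⟨-(v i / F), by ring⟩
    exact (Int.natCast_dvd_natCast.2 (hF ▸ Nat.dvd_factorial (by omega) hqD)).trans h1
  have hPD : ∀ p ∈ P, p ≤ D := by
    intro p hp
    obtain ⟨h1, h2⟩ := hP p hp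
    have hP1 : 1 ≤ ∏ p ∈ Icc 1 (C * (κ + 1)), p := Nat.one_le_iff_ne_zero.2 (Finset.prod_ne_zero_iff.2 fun q hq => by
      have := (mem_Icc.1 hq).1
      omega)
    have hb1 : 1 ≤ C * b := Nat.mul_pos (by omega) (by
      have : 1 ≤ C * (κ + 1) := Nat.mul_pos (by omega) (by omega)
      omega)
    calc p ≤ 2 ^ 2 ^ J := h2
      _ ≤ (2 ^ 2 ^ J) ^ (C * b) := Nat.le_self_pow (by omega) _
      _ ≤ (∏ p ∈ Icc 1 (C * (κ + 1)), p) * (2 ^ 2 ^ J) ^ (C * b) := Nat.le_mul_of_pos_left _ hP1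
      _ ≤ D := hD
  have h5 := H κ b J D P hb hP hD Q' hper (fun p hp => by rw [hrr]; exact hκ p hp) ι s n s.card (s.card * D / T)
    (Nat.cast_nonneg _) (by positivity) (fun q hq1 hqD a ha => by
      have g1 := IF_class hT hv q hq1 a
      have g2 : s.filter (fun i => n i % q = a) = s.filter (fun i => (q : ℤ) ∣ v i - a) := by
        apply filter_congr
        intro i _
        have g3 := hnd i q hq1 hqD
        constructor
        · intro g4
          have g5 : (q : ℤ) ∣ ((n i : ℕ) : ℤ) - a := by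
            refine (Nat.modEq_iff_dvd).1 ?_
            unfold Nat.ModEq
            rw [Nat.mod_eq_of_lt ha, g4]
          have := dvd_sub g5 g3
          have e : ((n i : ℕ) : ℤ) - a - (((n i : ℕ) : ℤ) - v i) = v i - a := by ring
          rwa [e] at this
        · intro g4
          have g5 : (q : ℤ) ∣ ((n i : ℕ) : ℤ) - a := by
            have := dvd_add g3 g4
            have e : ((n i : ℕ) : ℤ) - v i + (v i - a) = ((n i : ℕ) : ℤ) - a := by ring
            rwa [e] at this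
          have g6 : a ≡ n i [MOD q] := (Nat.modEq_iff_dvd).2 g5
          have g7 : n i % q = a % q := g6.symm
          rw [g7, Nat.mod_eq_of_lt ha]
      rw [g2]
      refine g1.trans ?_
      apply div_le_div_of_nonneg_right _ hT.le
      exact mul_le_mul_of_nonneg_left (by exact_mod_cast hqD) (Nat.cast_nonneg _))
  simp only [hrr] at h5
  have h6 : s.filter (fun i => ∀ p ∈ P, ¬ Q' p (n i)) = s.filter (fun i => ∀ p ∈ P, ¬ Q p (v i)) := by
    apply filter_congr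
    intro i _
    refine forall₂_congr fun p hp => not_congr ?_
    rw [hQ']
    exact hcong p _ _ (hnd i p (hP p hp).1.one_le (hPD p hp))
  rw [h6] at h5
  exact h5

end Pool.Agent.Run7.h844.RP
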