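import Pool.Agent.Run7.h844.RP.PwS9

set_option autoImplicit false
set_option maxHeartbeats 4000000

/-!
The typical size of the first zero of the recursion `a(n) = |a(n-1) - gcd(a(n-1), n(n+2m))|`, `a(1) = 4m²`.
-/

namespace Pool.Agent.Run7.h844.RP

open Finset Filter
open Pool.Agent.H807R2.Dav (ee dd dd_add_int dd_ge KK KK_le' geo_bound)
open scoped Classical

/-- the family of all natural numbers up to `X` -/
lemma IF_id (X : ℕ) (hX : 1 ≤ X) : IF (X : ℝ) (Icc 1 X) (fun n : ℕ => (n : ℤ)) := by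
  intro α δ hδ hα
  have hX0 : (0 : ℝ) < X := by exact_mod_cast hX
  have h1 : dd α = dd (Int.fract α) := by
    conv_lhs => rw [← Int.fract_add_floor α]
    rw [dd_add_int]
  have h2 : δ ≤ Int.fract α := by
    have h3 := hα ⌊α⌋
    have h4 : α - ⌊α⌋ = Int.fract α := rfl
    rw [h4, abs_of_nonneg (Int.fract_nonneg α)] at h3
    exact h3
  have h3 : δ ≤ 1 - Int.fract α := by
    have h4 := hα (⌊α⌋ + 1)
    have h5 : α - ((⌊α⌋ + 1 : ℤ) : ℝ) = -(1 - Int.fract α) := by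
      push_cast
      unfold Int.fract
      ring
    rw [h5, abs_neg, abs_of_nonneg (by linarith [Int.fract_lt_one α])] at h4
    exact h4
  have h4 := dd_ge (Int.fract_nonneg α) (Int.fract_lt_one α).le
  have h5 : 4 * δ ≤ dd α := by
    rw [h1]
    refine le_trans ?_ h4
    apply mul_le_mul_of_nonneg_left _ (by norm_num)
    exact le_min h2 h3
  have h6 := geo_bound 1 (X + 1) (by omega) (M := X) (by push_cast; linarith) α
  have h7 := KK_le' (M := (X : ℝ)) (x := α) hX0.le (by positivity : 0 < 4 * δ) h5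
  have h8 : ∑ i ∈ Icc 1 X, ee (α * ((i : ℤ) : ℝ)) = ∑ m ∈ Ico 1 (X + 1), ee (m * α) := by
    have e1 : Icc 1 X = Ico 1 (X + 1) := by
      ext n
      rw [mem_Icc, mem_Ico]
      omega
    rw [e1]
    refine sum_congr rfl fun m _ => ?_
    congr 1
    push_cast
    ring
  rw [h8]
  refine (h6.trans h7).trans ?_
  rw [Nat.card_Icc, Nat.add_sub_cancel, div_le_div_iff₀ (by positivity) (by positivity)]
  nlinarith

/-- **families of integers with small exponential sums** -/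
theorem fam9 (ε : ℝ) (hε : 0 < ε) : ∃ C : ℝ, 1 ≤ C ∧ ∃ T₀ : ℝ, ∀ T : ℝ, T₀ ≤ T → ∀ (ι : Type) (s : Finset ι) (v : ι → ℤ),
    IF T s v → ∀ H : ℕ, 1 ≤ H →
    ((s.filter fun i => 0 < v i ∧ 4 * (v i).toNat ^ 2 ≤ zm (v i).toNat + H).card : ℝ) ≤
      C * (H : ℝ) ^ (1 + ε) * (s.card / Real.log T ^ 2) := by
  obtain ⟨C, hC, T₁, h1⟩ := quad_up ε hε
  have hlim : ∀ᶠ T : ℝ in atTop, 1 ≤ T ∧ 1 ≤ Real.log T ∧ 27 * Real.log T ^ 2 ≤ T ^ (1 / 16 : ℝ) := by
    have e1 : (fun x : ℝ => Real.log x ^ 2) =o[atTop] (fun x : ℝ => x ^ (1 / 16 : ℝ)) := by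
      have := isLittleO_log_rpow_rpow_atTop (s := 1 / 16) ((2 : ℕ) : ℝ) (by norm_num)
      refine this.congr' ?_ (Eventually.of_forall fun _ => rfl)
      filter_upwards [eventually_ge_atTop (1 : ℝ)] with x hx
      rw [Real.rpow_natCast]
    have e2 := e1.def (show (0 : ℝ) < 1 / 27 by norm_num)
    filter_upwards [eventually_ge_atTop (1 : ℝ), Real.tendsto_log_atTop.eventually_ge_atTop 1, e2] with T g1 g2 g3
    refine ⟨g1, g2, ?_⟩
    rw [Real.norm_of_nonneg (by positivity), Real.norm_of_nonneg (by positivity)] at g3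
    linarith
  obtain ⟨T₂, hT₂⟩ := eventually_atTop.1 hlim
  refine ⟨C + 1, by linarith, max T₁ T₂, fun T hT ι s v hv H hH => ?_⟩
  obtain ⟨g1, g2, g3⟩ := hT₂ T ((le_max_right _ _).trans hT)
  have hT0 : 0 < T := by linarith
  have hs0 : (0 : ℝ) ≤ s.card := Nat.cast_nonneg _
  have hH1 : (1 : ℝ) ≤ H := by exact_mod_cast hH
  have hHε : (H : ℝ) ^ (1 + ε) = H * (H : ℝ) ^ ε := by
    rw [Real.rpow_add (by linarith), Real.rpow_one]
  have hHε1 : 1 ≤ (H : ℝ) ^ ε := Real.one_le_rpow hH1 hε.le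
  have hHε2 : (H : ℝ) ≤ (H : ℝ) ^ (1 + ε) := by rw [hHε]; nlinarith
  have hl : 0 < Real.log T ^ 2 := by positivity
  have hsl : 0 ≤ (s.card : ℝ) / Real.log T ^ 2 := by positivity
  by_cases hbig : Real.log T ^ 2 ≤ H
  · -- the trivial bound
    have e1 : ((s.filter fun i => 0 < v i ∧ 4 * (v i).toNat ^ 2 ≤ zm (v i).toNat + H).card : ℝ) ≤ s.card := by
      exact_mod_cast card_filter_le _ _
    refine e1.trans ?_
    have e2 : (s.card : ℝ) ≤ H * (s.card / Real.log T ^ 2) := by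
      rw [mul_div_assoc', le_div_iff₀ hl, mul_comm]
      exact mul_le_mul_of_nonneg_right hbig hs0
    refine e2.trans (mul_le_mul_of_nonneg_right ?_ hsl)
    nlinarith
  push Not at hbig
  have hT16 : (H : ℝ) ≤ T ^ (1 / 16 : ℝ) := by nlinarith
  -- the small members
  obtain ⟨m, hm⟩ : ∃ m : ℕ, m = ⌈T ^ (1 / 2 : ℝ)⌉₊ := ⟨_, rfl⟩
  have hT2 : 1 ≤ T ^ (1 / 2 : ℝ) := Real.one_le_rpow g1 (by norm_num)
  have hm1 : T ^ (1 / 2 : ℝ) ≤ m := by rw [hm]; exact Nat.le_ceil _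
  have hm2 : (m : ℝ) ≤ 2 * T ^ (1 / 2 : ℝ) := by
    have : (m : ℝ) < T ^ (1 / 2 : ℝ) + 1 := by rw [hm]; exact Nat.ceil_lt_add_one (by positivity)
    linarith
  have hm0 : 1 ≤ m := by exact_mod_cast hT2.trans hm1
  have h2 := IF_small hT0 hv m hm0 1 (H + 8)
  have hsub : s.filter (fun i => 0 < v i ∧ 4 * (v i).toNat ^ 2 ≤ zm (v i).toNat + H) ⊆
      s.filter (fun i => (1 : ℤ) ≤ v i ∧ v i < 1 + (H + 8 : ℕ)) ∪ (Icc 1 H).biUnion (fun e => BP s v e) := by
    intro i hi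
    rw [mem_filter] at hi
    obtain ⟨hi1, hi2, hi3⟩ := hi
    rw [mem_union, mem_filter, mem_biUnion]
    by_cases hs : v i < 1 + (H + 8 : ℕ)
    · exact Or.inl ⟨hi1, by omega, hs⟩
    · right
      push Not at hs
      obtain ⟨N, hN⟩ : ∃ N : ℕ, v i = N := ⟨(v i).toNat, by omega⟩
      rw [hN, Int.toNat_natCast] at hi3
      obtain ⟨e, he1, he2, he3, he4⟩ := zm_pair N H (by omega) hi3
      refine ⟨e, by rw [mem_Icc]; exact ⟨he1, he2⟩, ?_⟩
      unfold BP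
      rw [mem_filter, hN]
      exact ⟨hi1, by omega, he3, he4⟩
  have hcard : ((s.filter fun i => 0 < v i ∧ 4 * (v i).toNat ^ 2 ≤ zm (v i).toNat + H).card : ℝ) ≤
      ((s.filter (fun i => (1 : ℤ) ≤ v i ∧ v i < 1 + (H + 8 : ℕ))).card : ℝ) + ∑ e ∈ Icc 1 H, ((BP s v e).card : ℝ) := by
    have e1 := (card_le_card hsub).trans ((card_union_le _ _).trans (Nat.add_le_add_left card_biUnion_le _))
    exact_mod_cast e1
  have hA : ((s.filter (fun i => (1 : ℤ) ≤ v i ∧ v i < 1 + (H + 8 : ℕ))).card : ℝ) ≤ H * (s.card / Real.log T ^ 2) := by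
    refine h2.trans ?_
    have e1 : (T : ℝ) ^ (1 / 2 : ℝ) * T ^ (1 / 2 : ℝ) = T := by
      rw [← Real.rpow_add hT0]; norm_num
    have hT20 : 0 < T ^ (1 / 2 : ℝ) := by positivity
    have e2 : (s.card : ℝ) / m ≤ s.card / T ^ (1 / 2 : ℝ) := div_le_div_of_nonneg_left hs0 hT20 hm1
    have e3 : (s.card : ℝ) * m / T ≤ 2 * (s.card / T ^ (1 / 2 : ℝ)) := by
      rw [mul_div_assoc', div_le_div_iff₀ hT0 hT20]
      calc (s.card : ℝ) * m * T ^ (1 / 2 : ℝ) ≤ s.card * (2 * T ^ (1 / 2 : ℝ)) * T ^ (1 / 2 : ℝ) := by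
            apply mul_le_mul_of_nonneg_right _ hT20.le
            exact mul_le_mul_of_nonneg_left hm2 hs0
        _ = 2 * s.card * (T ^ (1 / 2 : ℝ) * T ^ (1 / 2 : ℝ)) := by ring
        _ = 2 * s.card * T := by rw [e1]
    have e4 : ((H + 8 : ℕ) : ℝ) ≤ 9 * H := by
      push_cast
      linarith
    have e5 : T ^ (1 / 16 : ℝ) ≤ T ^ (1 / 2 : ℝ) := Real.rpow_le_rpow_of_exponent_le g1 (by norm_num)
    calc ((H + 8 : ℕ) : ℝ) * (s.card / m + s.card * m / T) ≤
          (9 * H) * (s.card / T ^ (1 / 2 : ℝ) + 2 * (s.card / T ^ (1 / 2 : ℝ))) :=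
          mul_le_mul e4 (add_le_add e2 e3) (by positivity) (by positivity)
      _ = H * ((s.card * 27) / T ^ (1 / 2 : ℝ)) := by ring
      _ ≤ H * (s.card / Real.log T ^ 2) := by
          apply mul_le_mul_of_nonneg_left _ (by linarith)
          rw [div_le_div_iff₀ hT20 hl]
          calc (s.card : ℝ) * 27 * Real.log T ^ 2 = s.card * (27 * Real.log T ^ 2) := by ring
            _ ≤ s.card * T ^ (1 / 2 : ℝ) := mul_le_mul_of_nonneg_left (g3.trans e5) hs0
  have hB : ∀ e ∈ Icc 1 H, ((BP s v e).card : ℝ) ≤ C * (H : ℝ) ^ ε * (s.card / Real.log T ^ 2) := by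
    intro e he
    rw [mem_Icc] at he
    have her : (e : ℝ) ≤ H := by exact_mod_cast he.2
    have e1 := h1 T ((le_max_left _ _).trans hT) ι s v hv e he.1 (her.trans hT16)
    refine e1.trans ?_
    apply mul_le_mul_of_nonneg_right _ hsl
    apply mul_le_mul_of_nonneg_left _ (by linarith)
    exact Real.rpow_le_rpow (Nat.cast_nonneg _) her hε.le
  have hsum : ∑ e ∈ Icc 1 H, ((BP s v e).card : ℝ) ≤ H * (C * (H : ℝ) ^ ε * (s.card / Real.log T ^ 2)) := by
    refine (sum_le_sum hB).trans ?_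
    rw [sum_const, Nat.card_Icc, Nat.add_sub_cancel, nsmul_eq_mul]
  calc _ ≤ H * (s.card / Real.log T ^ 2) + H * (C * (H : ℝ) ^ ε * (s.card / Real.log T ^ 2)) := hcard.trans (add_le_add hA hsum)
    _ ≤ (H : ℝ) ^ (1 + ε) * (s.card / Real.log T ^ 2) + H * (C * (H : ℝ) ^ ε * (s.card / Real.log T ^ 2)) := by
        apply add_le_add _ le_rfl
        exact mul_le_mul_of_nonneg_right hHε2 hsl
    _ = (C + 1) * (H : ℝ) ^ (1 + ε) * (s.card / Real.log T ^ 2) := by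
        rw [hHε]
        ring

end Pool.Agent.Run7.h844.RP
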