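import Pool.Agent.Run7.h844.RP.PwS2

set_option autoImplicit false
set_option maxHeartbeats 4000000

/-!
The upper bound sieve for families of integers with small exponential sums, with the product over the primes.
-/

namespace Pool.Agent.Run7.h844.RP

open Finset Filter
open Pool.Agent.H373R2.T7 (Vz pz mem_pz Vz_pos)
open scoped Classical

/-- **an upper bound sieve for families of integers with small exponential sums** -/
theorem up_sieve' (k : ℕ) : ∃ δ : ℝ, 0 < δ ∧ δ ≤ 1 / 8 ∧ ∃ T₀ : ℝ, ∀ T : ℝ, T₀ ≤ T →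
    4 ≤ ⌊T ^ δ⌋₊ ∧ δ / 2 * Real.log T ≤ Real.log ⌊T ^ δ⌋₊ ∧ ∀ (ι : Type) (s : Finset ι) (v : ι → ℤ),
    IF T s v → ∀ (Q : ℕ → ℤ → Prop), (∀ (p : ℕ) (n : ℤ), Q p (n + p) ↔ Q p n) → (∀ p : ℕ, p.Prime → rq Q p ≤ k) →
    ((s.filter fun i => ∀ p : ℕ, p.Prime → (p : ℝ) ≤ T ^ δ → ¬ Q p (v i)).card : ℝ) ≤
      2 * (s.card * Real.exp (-∑ p ∈ pz ⌊T ^ δ⌋₊, (rq Q p : ℝ) / p)) + s.card / Real.log T ^ k := by
  obtain ⟨C₀, hC₀, HF⟩ := fll_IF
  obtain ⟨b, hb⟩ : ∃ b, b = C₀ * (k + 1) := ⟨_, rfl⟩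
  obtain ⟨W, hW⟩ : ∃ W, W = ∏ p ∈ Icc 1 (C₀ * (k + 1)), p := ⟨_, rfl⟩
  obtain ⟨E, hE⟩ : ∃ E, E = C₀ * b := ⟨_, rfl⟩
  -- `δ (6 E + 2) ≤ 1 / 2`
  obtain ⟨δ, hδ⟩ : ∃ δ : ℝ, δ = 1 / (12 * E + 8) := ⟨_, rfl⟩
  have hE0 : (0 : ℝ) ≤ E := Nat.cast_nonneg _
  have hδ0 : 0 < δ := by rw [hδ]; positivity
  have hδ8 : δ ≤ 1 / 8 := by
    rw [hδ]
    apply one_div_le_one_div_of_le (by norm_num)
    linarith
  have hδE : δ * (6 * E + 4) = 1 / 2 := by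
    rw [hδ]
    field_simp
    ring
  have hlim : ∀ᶠ T : ℝ in atTop, 4 ≤ T ^ δ ∧ 1 ≤ T ∧ 1 ≤ Real.log T ∧
      (W : ℝ) ^ 3 * 2 ^ (3 * E + 1) * Real.log T ^ k ≤ T ^ (1 / 2 : ℝ) := by
    have h1 : (fun x : ℝ => Real.log x ^ k) =o[atTop] (fun x : ℝ => x ^ (1 / 2 : ℝ)) := by
      have := isLittleO_log_rpow_rpow_atTop (s := 1 / 2) (k : ℝ) (by norm_num)
      refine this.congr' ?_ (Eventually.of_forall fun _ => rfl)
      filter_upwards [eventually_ge_atTop (1 : ℝ)] with x hx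
      rw [Real.rpow_natCast]
    have hc0 : (0 : ℝ) < (W : ℝ) ^ 3 * 2 ^ (3 * E + 1) + 1 := by positivity
    have h2 := h1.def (show (0 : ℝ) < 1 / ((W : ℝ) ^ 3 * 2 ^ (3 * E + 1) + 1) by positivity)
    filter_upwards [(tendsto_rpow_atTop hδ0).eventually_ge_atTop 4, eventually_ge_atTop (1 : ℝ),
      Real.tendsto_log_atTop.eventually_ge_atTop 1, h2] with T g1 g2 g3 g4
    refine ⟨g1, g2, g3, ?_⟩
    rw [Real.norm_of_nonneg (by positivity), Real.norm_of_nonneg (by positivity), one_div, inv_mul_eq_div,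
      le_div_iff₀ hc0] at g4
    have : 0 ≤ Real.log T ^ k := by positivity
    nlinarith
  obtain ⟨T₀, hT₀⟩ := eventually_atTop.1 hlim
  refine ⟨δ, hδ0, hδ8, T₀, ?_⟩
  intro T hT
  obtain ⟨g1, g2, g3, g4⟩ := hT₀ T hT
  have hT0 : 0 < T := by linarith
  -- the level
  obtain ⟨z, hz⟩ : ∃ z : ℕ, z = ⌊T ^ δ⌋₊ := ⟨_, rfl⟩
  have hz1 : (z : ℝ) ≤ T ^ δ := by rw [hz]; exact Nat.floor_le (by positivity)
  have hz2 : T ^ δ < z + 1 := by rw [hz]; exact Nat.lt_floor_add_one _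
  have hz4 : 4 ≤ z := by rw [hz]; exact Nat.le_floor (by exact_mod_cast g1)
  have hz0 : (0 : ℝ) < z := by exact_mod_cast (by omega : 0 < z)
  -- the logarithm of `z`
  have hlz : δ / 2 * Real.log T ≤ Real.log z := by
    have e1 : T ^ (δ / 2) ≤ z := by
      have e2 : T ^ (δ / 2) * T ^ (δ / 2) = T ^ δ := by
        rw [← Real.rpow_add hT0]
        congr 1
        ring
      have e3 : 0 < T ^ (δ / 2) := by positivity
      have e4 : 2 ≤ T ^ (δ / 2) := by nlinarith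
      nlinarith
    have e5 := Real.log_le_log (by positivity) e1
    rwa [Real.log_rpow hT0] at e5
  rw [← hz]
  refine ⟨hz4, hlz, fun ι s v hv Q hQ hQk => ?_⟩
  have hs0 : (0 : ℝ) ≤ s.card := Nat.cast_nonneg _
  obtain ⟨J, j1, j2, j3⟩ := Pool.Agent.Run7.h90.AP.exJ z (by omega)
  obtain ⟨D, hD⟩ : ∃ D, D = W * (2 ^ 2 ^ J) ^ E := ⟨_, rfl⟩
  have hDz : (D : ℝ) ≤ W * (2 * z ^ 2) ^ E := by
    rw [hD]
    have : W * (2 ^ 2 ^ J) ^ E ≤ W * (2 * z ^ 2) ^ E := Nat.mul_le_mul_left _ (Nat.pow_le_pow_left j2 _)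
    exact_mod_cast this
  have h5 := HF k b J D (pz z) (by rw [hb]) (fun p hp => ⟨(mem_pz.1 hp).2, (mem_pz.1 hp).1.trans j1⟩)
    (by rw [hD, hW, hE]) Q hQ (fun p hp => hQk p (mem_pz.1 hp).2) ι s v T hT0 hv
  obtain ⟨Pr, hPr⟩ : ∃ Pr : ℝ, Pr = ∏ p ∈ pz z, (1 - (rq Q p : ℝ) / p) := ⟨_, rfl⟩
  have hPr0 : 0 ≤ Pr := by
    rw [hPr]
    apply prod_nonneg
    intro p hp
    have hpp := (mem_pz.1 hp).2
    have hp0 : (0 : ℝ) < p := by exact_mod_cast hpp.pos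
    have e1 : (rq Q p : ℝ) ≤ p := by
      unfold rq
      have := (card_filter_le (range p) (fun n : ℕ => Q p n))
      rw [card_range] at this
      exact_mod_cast this
    have : (rq Q p : ℝ) / p ≤ 1 := by rw [div_le_one hp0]; exact e1
    linarith
  have h5' : ((s.filter fun i => ∀ p ∈ pz z, ¬ Q p (v i)).card : ℝ) ≤ 2 * (s.card * Pr) + (J + 1) * (D : ℝ) ^ 2 * (s.card * D / T) := by
    have e1 := (abs_le.1 h5).2
    have e2 : ∏ p ∈ pz z, (1 - (((range p).filter fun n : ℕ => Q p n).card : ℝ) / p) = Pr := by rw [hPr]; rfl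
    rw [e2] at e1
    have e3 : ((1 : ℝ) / 2) ^ b ≤ 1 := pow_le_one₀ (by norm_num) (by norm_num)
    have e4 : 0 ≤ (s.card : ℝ) * Pr := by positivity
    nlinarith
  have h7 : Pr ≤ Real.exp (-∑ p ∈ pz z, (rq Q p : ℝ) / p) := by
    rw [hPr, ← sum_neg_distrib, Real.exp_sum]
    apply Finset.prod_le_prod
    · intro p hp
      have hpp := (mem_pz.1 hp).2
      have hp0 : (0 : ℝ) < p := by exact_mod_cast hpp.pos
      have e1 : (rq Q p : ℝ) ≤ p := by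
        unfold rq
        have := (card_filter_le (range p) (fun n : ℕ => Q p n))
        rw [card_range] at this
        exact_mod_cast this
      have : (rq Q p : ℝ) / p ≤ 1 := by rw [div_le_one hp0]; exact e1
      linarith
    · intro p _
      have := Real.add_one_le_exp (-((rq Q p : ℝ) / p))
      linarith
  -- the error term
  have h8 : (J + 1) * (D : ℝ) ^ 2 * (s.card * D / T) ≤ s.card / Real.log T ^ k := by
    have e1 : ((J + 1 : ℕ) : ℝ) ≤ 2 * (z : ℝ) ^ 2 := by exact_mod_cast j3.trans j2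
    push_cast at e1
    have e2 : (D : ℝ) ^ 3 ≤ (W * (2 * z ^ 2) ^ E) ^ 3 := pow_le_pow_left₀ (Nat.cast_nonneg _) hDz 3
    have e3 : (J + 1) * (D : ℝ) ^ 2 * (s.card * D / T) = s.card * (((J + 1) * (D : ℝ) ^ 3) / T) := by ring
    rw [e3, div_eq_mul_one_div (s.card : ℝ) (Real.log T ^ k)]
    apply mul_le_mul_of_nonneg_left _ hs0
    rw [div_le_div_iff₀ hT0 (by positivity), one_mul]
    have e4 : (J + 1) * (D : ℝ) ^ 3 ≤ (2 * (z : ℝ) ^ 2) * (W * (2 * z ^ 2) ^ E) ^ 3 :=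
      mul_le_mul e1 e2 (by positivity) (by positivity)
    have e5 : (2 * (z : ℝ) ^ 2) * (W * (2 * z ^ 2) ^ E) ^ 3 = ((W : ℝ) ^ 3 * 2 ^ (3 * E + 1)) * (z : ℝ) ^ (6 * E + 2) := by
      ring
    have e6 : (z : ℝ) ^ (6 * E + 2) ≤ T ^ (1 / 2 : ℝ) := by
      calc (z : ℝ) ^ (6 * E + 2) ≤ (T ^ δ) ^ (6 * E + 2) := pow_le_pow_left₀ hz0.le hz1 _
        _ = T ^ (δ * (6 * E + 2)) := by
            rw [← Real.rpow_natCast, ← Real.rpow_mul hT0.le]
            push_cast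
            rfl
        _ ≤ T ^ (1 / 2 : ℝ) := by
            apply Real.rpow_le_rpow_of_exponent_le g2
            rw [← hδE]
            nlinarith
    have e7 : T ^ (1 / 2 : ℝ) * T ^ (1 / 2 : ℝ) = T := by
      rw [← Real.rpow_add hT0]
      norm_num
    have hc0 : (0 : ℝ) ≤ (W : ℝ) ^ 3 * 2 ^ (3 * E + 1) := by positivity
    calc (J + 1) * (D : ℝ) ^ 3 * Real.log T ^ k ≤ ((2 * (z : ℝ) ^ 2) * (W * (2 * z ^ 2) ^ E) ^ 3) * Real.log T ^ k :=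
          mul_le_mul_of_nonneg_right e4 (by positivity)
      _ = ((W : ℝ) ^ 3 * 2 ^ (3 * E + 1) * Real.log T ^ k) * (z : ℝ) ^ (6 * E + 2) := by rw [e5]; ring
      _ ≤ T ^ (1 / 2 : ℝ) * T ^ (1 / 2 : ℝ) := mul_le_mul g4 e6 (by positivity) (by positivity)
      _ = T := e7
  -- conclusion
  have h9 : (s.filter fun i => ∀ p : ℕ, p.Prime → (p : ℝ) ≤ T ^ δ → ¬ Q p (v i)).card ≤
      (s.filter fun i => ∀ p ∈ pz z, ¬ Q p (v i)).card := by
    apply card_le_card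
    intro i hi
    rw [mem_filter] at hi ⊢
    exact ⟨hi.1, fun p hp => hi.2 p (mem_pz.1 hp).2 ((by exact_mod_cast (mem_pz.1 hp).1 : (p : ℝ) ≤ z).trans hz1)⟩
  have h9r : ((s.filter fun i => ∀ p : ℕ, p.Prime → (p : ℝ) ≤ T ^ δ → ¬ Q p (v i)).card : ℝ) ≤
      ((s.filter fun i => ∀ p ∈ pz z, ¬ Q p (v i)).card : ℝ) := by exact_mod_cast h9
  calc ((s.filter fun i => ∀ p : ℕ, p.Prime → (p : ℝ) ≤ T ^ δ → ¬ Q p (v i)).card : ℝ) ≤
        2 * (s.card * Pr) + (J + 1) * (D : ℝ) ^ 2 * (s.card * D / T) := h9r.trans h5'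
    _ ≤ 2 * (s.card * Real.exp (-∑ p ∈ pz z, (rq Q p : ℝ) / p)) + s.card / Real.log T ^ k := by
        apply add_le_add _ h8
        apply mul_le_mul_of_nonneg_left _ (by norm_num)
        exact mul_le_mul_of_nonneg_left h7 hs0

end Pool.Agent.Run7.h844.RP
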