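import Pool.Agent.Run7.h844.RP.PwS5

set_option autoImplicit false
set_option maxHeartbeats 4000000

/-!
A lower bound for the sums of `(D | p) / p` over the primes, uniform in `D` (from the theorem of Siegel and Walfisz).
-/

namespace Pool.Agent.Run7.h844.RP

open Finset Filter Polynomial
open scoped NumberTheorySymbols
open Pool.Agent.H373R2.T7 (pz mem_pz)
open Pool.Agent.H474R2.PG (rho Sg PR)
open Pool.Agent.H474R2.GE (mertens_rho)
open Pool.Agent.H262R3.Lk.SWQ (av SS fw partial_bound SS_bound)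

lemma kchar_ne_one (D : ℤ) [NeZero (4 * D.natAbs)] (hD : ¬ IsSquare D) : kchar D ≠ 1 := by
  intro h
  have hD0 : D ≠ 0 := by rintro rfl; exact hD ⟨0, by ring⟩
  obtain ⟨C₁, hC₁, h1⟩ := mertens_rho _ (irr_quad' hD) (by
    rw [natDegree_X_pow_sub_C]; norm_num)
  obtain ⟨C₂, hC₂, h2⟩ := mert_one'
  obtain ⟨S, hS⟩ : ∃ S : ℝ, S = ∑ p ∈ (4 * D.natAbs).primeFactors, 2 / (p : ℝ) := ⟨_, rfl⟩
  have hM0 : 4 * D.natAbs ≠ 0 := NeZero.ne _
  have hkey : ∀ w : ℝ, 3 ≤ w → Real.log (Real.log w) ≤ C₁ + 2 * C₂ + S := by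
    intro w hw
    have a1 := (abs_le.1 (h1 w hw)).2
    have a2 := (abs_le.1 (h2 w hw)).1
    have e1 : ∑ p ∈ PR w, 2 / (p : ℝ) - S ≤ Sg (rho (X ^ 2 - C D)) w := by
      unfold Sg
      have e2 : ∑ p ∈ PR w, 2 / (p : ℝ) ≤ ∑ p ∈ PR w, ((rho (X ^ 2 - C D) p : ℝ) / p +
          (if p ∈ (4 * D.natAbs).primeFactors then 2 / (p : ℝ) else 0)) := by
        apply sum_le_sum
        intro p hp
        have hpp := (mem_PR'.1 hp).1
        have hp0 : (0 : ℝ) < p := by exact_mod_cast hpp.pos
        by_cases hc : p ∈ (4 * D.natAbs).primeFactors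
        · rw [if_pos hc]
          have : 0 ≤ (rho (X ^ 2 - C D) p : ℝ) / p := by positivity
          linarith
        · rw [if_neg hc, add_zero]
          have hnd : ¬ p ∣ 4 * D.natAbs := fun hd => hc (Nat.mem_primeFactors.2 ⟨hpp, hd, hM0⟩)
          have hp2 : p ≠ 2 := by
            rintro rfl
            exact hnd ⟨2 * D.natAbs, by ring⟩
          have hu : IsUnit (p : ZMod (4 * D.natAbs)) := by
            rw [ZMod.isUnit_iff_coprime]
            exact (Nat.Prime.coprime_iff_not_dvd hpp).2 hnd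
          have h3 := kchar_apply D p
          rw [h, MulChar.one_apply hu] at h3
          have h4 : jD D p = 1 := by exact_mod_cast h3.symm
          have h5 : J(D | p) = 1 := by
            unfold jD at h4
            rw [if_pos] at h4
            · exact h4
            · rcases hpp.eq_two_or_odd with h6 | h6
              · exact absurd h6 hp2
              · exact h6
          have h6 := rho_quad' D hpp hp2
          rw [h5] at h6
          have h7 : rho (X ^ 2 - C D) p = 2 := by exact_mod_cast h6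
          rw [h7]
          norm_num
      rw [sum_add_distrib] at e2
      have e3 : ∑ p ∈ PR w, (if p ∈ (4 * D.natAbs).primeFactors then 2 / (p : ℝ) else 0) ≤ S := by
        rw [← sum_filter, hS]
        apply sum_le_sum_of_subset_of_nonneg
        · intro p hp
          exact (mem_filter.1 hp).2
        · intro p _ _
          positivity
      linarith
    have e4 : ∑ p ∈ PR w, 2 / (p : ℝ) = 2 * ∑ p ∈ PR w, 1 / (p : ℝ) := by
      rw [mul_sum]
      exact sum_congr rfl fun p _ => by ring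
    rw [e4] at e1
    linarith
  have ht : Tendsto (fun w : ℝ => Real.log (Real.log w)) atTop atTop :=
    Real.tendsto_log_atTop.comp Real.tendsto_log_atTop
  obtain ⟨w, hw1, hw2⟩ := ((ht.eventually_gt_atTop (C₁ + 2 * C₂ + S)).and (eventually_ge_atTop 3)).exists
  have := hkey w hw2
  linarith

/-- the limit `σ → 0` -/
lemma partial_zero {z : ℕ} (hz : 4 ≤ z) {K : ℝ} (hK : 0 ≤ K) {a : ℕ → ℂ}
    (ha : ∀ n, z ≤ n → ‖∑ k ∈ Icc 1 n, a k‖ ≤ K * n / (Real.log n) ^ 2) {N : ℕ} (hN : z ≤ N) :
    ‖∑ n ∈ Ioc z N, a n * ((1 / ((n : ℝ) * Real.log n) : ℝ) : ℂ)‖ ≤ 7 * K / Real.log ((z:ℝ) - 1) := by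
  have h1 : Tendsto (fun σ : ℝ => ‖∑ n ∈ Ioc z N, a n * ((fw σ n : ℝ) : ℂ)‖) (nhdsWithin 0 (Set.Ioi 0))
      (nhds ‖∑ n ∈ Ioc z N, a n * ((1 / ((n : ℝ) * Real.log n) : ℝ) : ℂ)‖) := by
    apply Tendsto.norm
    apply tendsto_finset_sum
    intro n hn
    rw [mem_Ioc] at hn
    have hn0 : (0 : ℝ) < n := by exact_mod_cast (by omega : 0 < n)
    apply Tendsto.const_mul
    have h2 : Tendsto (fun σ : ℝ => fw σ n) (nhdsWithin 0 (Set.Ioi 0)) (nhds (1 / ((n : ℝ) * Real.log n))) := by
      have h3 : ContinuousAt (fun σ : ℝ => fw σ n) 0 := by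
        unfold fw
        apply ContinuousAt.div continuousAt_const
        · apply ContinuousAt.mul _ continuousAt_const
          exact (continuousAt_const.rpow (continuousAt_const.add continuousAt_id) (Or.inl hn0.ne'))
        · have hl : 0 < Real.log n := Real.log_pos (by exact_mod_cast (by omega : 1 < n))
          have : (0 : ℝ) < (n : ℝ) ^ (1 + (0 : ℝ)) := by positivity
          positivity
      have h4 := h3.tendsto.mono_left (nhdsWithin_le_nhds (s := Set.Ioi 0))
      have h5 : fw 0 n = 1 / ((n : ℝ) * Real.log n) := by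
        unfold fw
        rw [add_zero, Real.rpow_one]
      rwa [h5] at h4
    exact (Complex.continuous_ofReal.tendsto _).comp h2
  refine le_of_tendsto h1 ?_
  have h6 : Set.Ioc (0 : ℝ) 1 ∈ nhdsWithin (0 : ℝ) (Set.Ioi 0) := Ioc_mem_nhdsGT one_pos
  filter_upwards [h6] with σ hσ
  exact partial_bound hz hK hσ.1 hσ.2 ha hN

/-- **a lower bound for the sums of `(D | p) / p`** -/
theorem char_low (ε : ℝ) (hε : 0 < ε) : ∃ C : ℝ, 0 ≤ C ∧ ∀ D : ℤ, ¬ IsSquare D → ∀ N : ℕ, 3 ≤ N →
    -(ε * Real.log D.natAbs + C) ≤ ∑ p ∈ pz N, (jD D p : ℝ) / p := by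
  obtain ⟨B, hB⟩ : ∃ B : ℕ, B = ⌈2 / ε⌉₊ + 1 := ⟨_, rfl⟩
  have hB1 : 2 / ε ≤ B := by rw [hB]; push_cast; linarith [Nat.le_ceil (2 / ε)]
  have hB0 : (0 : ℝ) < B := by rw [hB]; positivity
  have hBε : 1 / (B : ℝ) ≤ ε / 2 := by
    rw [div_le_iff₀ hB0]
    rw [div_le_iff₀ hε] at hB1
    linarith
  obtain ⟨n₁, hn₁⟩ := SS_bound B
  obtain ⟨C₂, hC₂, h2⟩ := mert_one'
  obtain ⟨C₃, hC₃, h3⟩ := sgm_le (ε / 2) (by positivity)
  -- the constant for `log log z`
  obtain ⟨m, hm⟩ : ∃ m : ℕ, m = max n₁ 4 := ⟨_, rfl⟩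
  have hm4 : 4 ≤ m := by rw [hm]; exact le_max_right _ _
  have hmr : (4 : ℝ) ≤ m := by exact_mod_cast hm4
  have hlm : 1 ≤ Real.log m := by
    rw [Real.le_log_iff_exp_le (by linarith)]
    have := Real.exp_one_lt_d9
    linarith
  refine ⟨Real.log (2 * Real.log m + 2) + C₂ + ε * Real.log 4 + C₃ + 140 + ε * Real.log 4, ?_, fun D hD N hN => ?_⟩
  · have e1 : 0 ≤ Real.log (2 * Real.log m + 2) := Real.log_nonneg (by linarith)
    have e2 : 0 ≤ Real.log 4 := Real.log_nonneg (by norm_num)
    positivity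
  have hD0 : D ≠ 0 := by rintro rfl; exact hD ⟨0, by ring⟩
  have hDn : 1 ≤ D.natAbs := Int.natAbs_pos.2 hD0
  have hNZ : NeZero (4 * D.natAbs) := ⟨by omega⟩
  have hNr : (3 : ℝ) ≤ N := by exact_mod_cast hN
  have hDr : (1 : ℝ) ≤ D.natAbs := by exact_mod_cast hDn
  have hlD : 0 ≤ Real.log D.natAbs := Real.log_nonneg hDr
  have hl4 : 0 ≤ Real.log 4 := Real.log_nonneg (by norm_num)
  obtain ⟨χ, hχ⟩ : ∃ χ, χ = kchar D := ⟨_, rfl⟩
  have hχ1 : χ ≠ 1 := by rw [hχ]; exact kchar_ne_one D hD
  have hc1 : χ.conductor ≠ 1 := fun h => hχ1 ((χ.eq_one_iff_conductor_eq_one).mpr h)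
  have hc0 : χ.conductor ≠ 0 := χ.conductor_ne_zero
  have hcd := χ.conductor_dvd_level
  obtain ⟨q, hq⟩ : ∃ q : ℕ, q = χ.conductor := ⟨_, rfl⟩
  have hq1 : 1 < q := by omega
  have hq4 : q ≤ 4 * D.natAbs := by rw [hq]; exact Nat.le_of_dvd (by omega) hcd
  have hqr : (1 : ℝ) ≤ q := by exact_mod_cast hq1.le
  have hq0 : (0 : ℝ) < q := by linarith
  obtain ⟨u, hu⟩ : ∃ u : ℝ, u = (q : ℝ) ^ (1 / (B : ℝ)) := ⟨_, rfl⟩
  have hu1 : 1 ≤ u := by rw [hu]; exact Real.one_le_rpow hqr (by positivity)
  obtain ⟨z, hz⟩ : ∃ z : ℕ, z = max m ⌈Real.exp u⌉₊ := ⟨_, rfl⟩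
  have hz4 : 4 ≤ z := by rw [hz]; exact hm4.trans (le_max_left _ _)
  have hzr : (4 : ℝ) ≤ z := by exact_mod_cast hz4
  have hzu : Real.exp u ≤ z := by
    rw [hz]
    refine (Nat.le_ceil _).trans ?_
    exact_mod_cast le_max_right _ _
  -- the size of `log log z`
  have hllz : Real.log (Real.log z) ≤ Real.log (2 * Real.log m + 2) + ε / 2 * Real.log (4 * D.natAbs) := by
    have e1 : Real.log z ≤ (2 * Real.log m + 2) * u := by
      rcases le_total (⌈Real.exp u⌉₊) m with h | h
      · rw [hz, max_eq_left h]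
        nlinarith
      · rw [hz, max_eq_right h]
        have e2 : (⌈Real.exp u⌉₊ : ℝ) ≤ Real.exp (u + 1) := by
          have e3 : (⌈Real.exp u⌉₊ : ℝ) < Real.exp u + 1 := Nat.ceil_lt_add_one (Real.exp_pos _).le
          have e4 : 1 ≤ Real.exp u := Real.one_le_exp (by linarith)
          have e5 : Real.exp (u + 1) = Real.exp u * Real.exp 1 := Real.exp_add _ _
          have e6 : 2 ≤ Real.exp 1 := by linarith [Real.add_one_le_exp (1 : ℝ)]
          nlinarith
        have e7 : 0 < (⌈Real.exp u⌉₊ : ℝ) := by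
          exact_mod_cast Nat.ceil_pos.2 (Real.exp_pos u)
        have e8 := Real.log_le_log e7 e2
        rw [Real.log_exp] at e8
        nlinarith
    have hlz : 0 < Real.log z := Real.log_pos (by linarith)
    have e2 := Real.log_le_log hlz e1
    rw [Real.log_mul (by positivity) (by positivity), hu, Real.log_rpow hq0] at e2
    have e3 : Real.log q ≤ Real.log (4 * D.natAbs) := Real.log_le_log hq0 (by exact_mod_cast hq4)
    have e4 : 0 ≤ Real.log q := Real.log_nonneg hqr
    have e5 : 1 / (B : ℝ) * Real.log q ≤ ε / 2 * Real.log (4 * D.natAbs) := mul_le_mul hBε e3 e4 (by positivity)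
    linarith
  have hl4D : Real.log (4 * D.natAbs) = Real.log 4 + Real.log D.natAbs := by
    rw [Real.log_mul (by norm_num) (by positivity)]
  have htriv : ∀ L : ℕ, 3 ≤ L → L ≤ z → -(Real.log (Real.log z) + C₂) ≤ ∑ p ∈ pz L, (jD D p : ℝ) / p := by
    intro L hL hLz
    have e1 : ∑ p ∈ pz L, (jD D p : ℝ) / p ≥ -∑ p ∈ pz L, (1 : ℝ) / p := by
      rw [← sum_neg_distrib]
      apply sum_le_sum
      intro p hp
      have hp0 : (0 : ℝ) < p := by exact_mod_cast (mem_pz.1 hp).2.pos
      rw [← neg_div]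
      exact div_le_div_of_nonneg_right (abs_le.1 (jD_abs D p)).1 hp0.le
    have e2 : ∑ p ∈ pz L, (1 : ℝ) / p ≤ ∑ p ∈ pz z, (1 : ℝ) / p := by
      apply sum_le_sum_of_subset_of_nonneg
      · intro p hp
        rw [mem_pz] at hp ⊢
        exact ⟨hp.1.trans hLz, hp.2⟩
      · intro p _ _
        positivity
    have e3 := (abs_le.1 (h2 (z : ℝ) (by linarith))).2
    rw [← pz_PR] at e3
    linarith
  by_cases hNz : N ≤ z
  · have e1 := htriv N hN hNz
    rw [hl4D] at hllz
    nlinarith
  · push Not at hNz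
    -- the tail
    have hSS : ∀ n, z ≤ n → ‖∑ k ∈ Icc 1 n, av χ.primitiveCharacter k‖ ≤ 20 * n / (Real.log n) ^ 2 := by
      intro n hn
      have e1 : n₁ ≤ n := by
        refine le_trans ?_ hn
        rw [hz]
        refine le_trans ?_ (le_max_left _ _)
        rw [hm]
        exact le_max_left _ _
      have hnz : (z : ℝ) ≤ n := by exact_mod_cast hn
      have e2 : u ≤ Real.log n := by
        rw [Real.le_log_iff_exp_le (by linarith)]
        exact hzu.trans hnz
      have e3 : (q : ℝ) ≤ Real.log n ^ B := by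
        calc (q : ℝ) = u ^ B := by
              rw [hu, ← Real.rpow_natCast, ← Real.rpow_mul hq0.le, one_div_mul_cancel hB0.ne', Real.rpow_one]
          _ ≤ Real.log n ^ B := pow_le_pow_left₀ (by linarith) e2 B
      have := hn₁ n e1 χ.conductor (by omega) (by rw [← hq]; exact e3) χ.primitiveCharacter χ.primitiveCharacter_isPrimitive
      exact this
    have e1 := partial_zero hz4 (by norm_num : (0 : ℝ) ≤ 20) hSS hNz.le
    have e2 : 7 * 20 / Real.log ((z : ℝ) - 1) ≤ 140 := by
      have hl3 : 1 ≤ Real.log ((z : ℝ) - 1) := by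
        rw [Real.le_log_iff_exp_le (by linarith)]
        have := Real.exp_one_lt_d9
        linarith
      rw [div_le_iff₀ (by linarith)]
      linarith
    have e3 : -140 ≤ (∑ n ∈ Ioc z N, av χ.primitiveCharacter n * ((1 / ((n : ℝ) * Real.log n) : ℝ) : ℂ)).re := by
      have e4 := (abs_le.1 (Complex.abs_re_le_norm (∑ n ∈ Ioc z N, av χ.primitiveCharacter n * ((1 / ((n : ℝ) * Real.log n) : ℝ) : ℂ)))).1
      linarith
    have e5 : (∑ n ∈ Ioc z N, av χ.primitiveCharacter n * ((1 / ((n : ℝ) * Real.log n) : ℝ) : ℂ)).re ≤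
        ∑ p ∈ (Ioc z N).filter Nat.Prime, (jD D p : ℝ) / p + sgm (4 * D.natAbs) := by
      rw [Complex.re_sum, sum_filter]
      have e6 : ∀ n ∈ Ioc z N, (av χ.primitiveCharacter n * ((1 / ((n : ℝ) * Real.log n) : ℝ) : ℂ)).re ≤
          (if n.Prime then (jD D n : ℝ) / n else 0) + (if n ∈ (4 * D.natAbs).primeFactors then 1 / (n : ℝ) else 0) := by
        intro n hn
        rw [mem_Ioc] at hn
        have hn1 : (1 : ℝ) < n := by exact_mod_cast (by omega : 1 < n)
        have hn0 : (0 : ℝ) < n := by linarith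
        have hl : 0 < Real.log n := Real.log_pos hn1
        unfold av
        by_cases hp : n.Prime
        · rw [if_pos hp, if_pos hp]
          have e7 : χ.primitiveCharacter (n : ZMod χ.conductor) * ((Real.log n : ℝ) : ℂ) * ((1 / ((n : ℝ) * Real.log n) : ℝ) : ℂ) =
              χ.primitiveCharacter (n : ZMod χ.conductor) * ((1 / (n : ℝ) : ℝ) : ℂ) := by
            rw [mul_assoc, ← Complex.ofReal_mul]
            congr 2
            field_simp
          rw [e7, Complex.re_mul_ofReal]
          by_cases hc : n ∈ (4 * D.natAbs).primeFactors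
          · rw [if_pos hc]
            have e8 : jD D n = 0 := by
              have h9 := kchar_apply D n
              have h10 : ¬ IsUnit (n : ZMod (4 * D.natAbs)) := by
                rw [ZMod.isUnit_iff_coprime]
                exact fun h11 => (Nat.Prime.coprime_iff_not_dvd hp).1 h11 (Nat.dvd_of_mem_primeFactors hc)
              rw [MulChar.map_nonunit _ h10] at h9
              exact_mod_cast h9.symm
            rw [e8]
            push_cast
            rw [zero_div, zero_add]
            have e9 : (χ.primitiveCharacter (n : ZMod χ.conductor)).re ≤ 1 :=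
              (Complex.re_le_norm _).trans (DirichletCharacter.norm_le_one _ _)
            have : (0 : ℝ) ≤ 1 / n := by positivity
            nlinarith
          · rw [if_neg hc, add_zero]
            have hnd : n.Coprime (4 * D.natAbs) :=
              (Nat.Prime.coprime_iff_not_dvd hp).2 fun hd => hc (Nat.mem_primeFactors.2 ⟨hp, hd, by omega⟩)
            have h3' : IsCoprime (n : ℤ) ((4 * D.natAbs : ℕ) : ℤ) := Nat.isCoprime_iff_coprime.mpr hnd
            have h4 := χ.primitiveCharacter_apply_of_isCoprime h3'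
            push_cast at h4
            have h5 : χ.primitiveCharacter (n : ZMod χ.conductor) = ((jD D n : ℤ) : ℂ) := by
              rw [← kchar_apply D n, ← hχ]
              exact_mod_cast h4
            rw [h5]
            have h6 : (((jD D n : ℤ) : ℂ)).re = (jD D n : ℝ) := by
              rw [Complex.intCast_re]
            rw [h6]
            exact le_of_eq (by ring)
        · rw [if_neg hp, if_neg hp, zero_mul]
          rw [Complex.zero_re, zero_add]
          split_ifs <;> positivity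
      refine (sum_le_sum e6).trans ?_
      rw [sum_add_distrib]
      apply add_le_add le_rfl
      rw [← sum_filter]
      unfold sgm
      apply sum_le_sum_of_subset_of_nonneg
      · intro p hp
        exact (mem_filter.1 hp).2
      · intro p _ _
        positivity
    have e6 := h3 (4 * D.natAbs) (by omega)
    have e7 : ∑ p ∈ pz N, (jD D p : ℝ) / p = ∑ p ∈ pz z, (jD D p : ℝ) / p + ∑ p ∈ (Ioc z N).filter Nat.Prime, (jD D p : ℝ) / p := by
      rw [← sum_union]
      · congr 1
        ext p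
        rw [mem_union, mem_pz, mem_pz, mem_filter, mem_Ioc]
        constructor
        · rintro ⟨g1, g2⟩
          by_cases hpz : p ≤ z
          · exact Or.inl ⟨hpz, g2⟩
          · exact Or.inr ⟨⟨by omega, g1⟩, g2⟩
        · rintro (⟨g1, g2⟩ | ⟨⟨g1, g2⟩, g3⟩)
          · exact ⟨by omega, g2⟩
          · exact ⟨g2, g3⟩
      · rw [disjoint_left]
        intro p hp hp2
        rw [mem_pz] at hp
        rw [mem_filter, mem_Ioc] at hp2
        omega
    have e8 := htriv z (by omega) le_rfl
    rw [e7]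
    push_cast at e6
    rw [hl4D] at hllz e6
    nlinarith

end Pool.Agent.Run7.h844.RP
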