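import Pool.Agent.Run7.h844.RP.PwD
import Pool.Agent.N384.MQ.Tws

set_option autoImplicit false

/-!
Sums of traces and products for almost all members of a family of integers with small exponential sums (adapted from
`Pool.Agent.N384.MQ.Tws`).
-/

namespace Pool.Agent.Run7.h844.RP

open Finset
open Pool.Agent.W263.BSD (GoodPrime pointCount)
open Pool.Agent.R459.Eq
open Pool.Agent.R459.Bsd
open Pool.Agent.H491R4.TW
open Pool.Agent.H491R4.AF (DecaysFrom)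
open Pool.Agent.H807R2.Dav (ee)
open Pool.Agent.N384.MQ (TW TrSys gen_tr_all)

/-- the sums of the traces of general type -/
theorem ip_gtr : ∃ W : ℕ, 1 ≤ W ∧
    ∀ κ : ℤ, κ ≠ 0 → ∀ δ : ℝ, 0 < δ → δ ≤ 1 / 2 → ∃ X₀ : ℕ, ∀ X : ℕ, X₀ ≤ X → ∀ (ι : Type) (s : Finset ι) (y : ι → ℤ) (Zf : ℝ), IFam s y Zf → ∀ (c₀ : ℤ) (T : ℕ → ℤ → ℝ), TrSys T →
      AlmostI s y κ c₀ ((X : ℝ) ^ (-δ)) (fun n => ∀ x : ℕ, X ≤ x → (x : ℝ) ^ W ≤ Zf →
        |∑ p ∈ pri x, T p n * Real.log p| ≤ (x : ℝ) ^ (1 + δ)) := by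
  classical
  obtain ⟨W, hW, HK⟩ := gen_tr_all 2 le_rfl 5 (1 / 2) (by norm_num) (by norm_num)
  refine ⟨W + 1, by omega, fun κ hκ δ hδ hδ1 => ?_⟩
  obtain ⟨X₀, J⟩ := HK 1 κ le_rfl hκ δ hδ hδ1
  refine ⟨2 + X₀, fun X hX ι s y Zf hF c₀ T hT => ?_⟩
  refine ip_pass W X (by omega) s y Zf hF κ c₀ (fun x n => |∑ p ∈ pri x, T p n * Real.log p| ≤ (x : ℝ) ^ (1 + δ)) _
    (by positivity) fun k ι Ω w v hdec E hE hbad => ?_
  refine J X (by omega) k ι Ω w v hdec T hT E hE fun i hi => ?_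
  have h1 := hbad i hi
  push Not at h1
  exact h1

/-- the product of Birch and Swinnerton-Dyer of the twists -/
theorem ip_tw : ∃ W : ℕ, 1 ≤ W ∧
    ∀ κ : ℤ, κ ≠ 0 → ∃ C : ℝ, 0 < C ∧ ∀ (ι : Type) (s : Finset ι) (y : ι → ℤ) (Zf : ℝ), IFam s y Zf → ∀ (c₀ a b : ℤ) (x : ℕ), 16 ≤ x → (x : ℝ) ^ W ≤ Zf →
      ∀ l : ℝ, 0 < l → AlmostI s y κ c₀ (C / l ^ 2) (fun D =>
        |∑ p ∈ pri x, HH a b p D - ∑ p ∈ pri x, cc a b p| ≤ l * √(Real.log (Real.log x))) := by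
  classical
  obtain ⟨W, hW, HK⟩ := tw_ms_from 2 le_rfl 5 (1 / 2) (by norm_num) (by norm_num)
  refine ⟨W + 1, by omega, fun κ hκ => ?_⟩
  obtain ⟨C, hC, J⟩ := HK 1 κ le_rfl hκ
  refine ⟨C, hC, fun ι s y Zf hF c₀ a b x hx hxW l hl => ?_⟩
  have h0 := ip_pass W x (by omega) s y Zf hF κ c₀ (fun y D => y = x →
    |∑ p ∈ pri x, HH a b p D - ∑ p ∈ pri x, cc a b p| ≤ l * √(Real.log (Real.log x))) (C / l ^ 2) (by positivity)
    fun k ι Ω w v hdec E hE hbad => ?_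
  · refine h0.mono fun n hn => hn x le_rfl hxW rfl
  · by_cases hE0 : E = ∅
    · rw [hE0, sum_empty]
      positivity
    obtain ⟨i₀, hi₀⟩ := Finset.nonempty_of_ne_empty hE0
    have hxk : x ^ W ≤ 2 ^ k := by
      by_contra hcon
      apply hbad i₀ hi₀
      intro y _ hyk hyx
      rw [hyx] at hyk
      exact absurd hyk hcon
    have hms := J a b k x 0 (by omega) (by omega) hxk (by rw [pow_zero]; omega) ι Ω w v
      ⟨hdec.nonneg, hdec.sum, fun θ N _ => hdec.char θ N⟩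
    obtain ⟨S₀, hS₀⟩ : ∃ S₀, S₀ = ∑ p ∈ pri x, cc a b p := ⟨_, rfl⟩
    obtain ⟨ℓ, hℓ⟩ : ∃ ℓ, ℓ = Real.log (Real.log x) := ⟨_, rfl⟩
    have hℓ0 : 0 < ℓ := by
      rw [hℓ]
      apply Real.log_pos
      have hxr : (16 : ℝ) ≤ x := by exact_mod_cast hx
      rw [Real.lt_log_iff_exp_lt (by linarith)]
      have h5 := Real.exp_one_lt_d9
      linarith
    rw [← hℓ, ← hS₀] at hms
    have h5 : ∀ i ∈ E, l ^ 2 * ℓ ≤ (∑ p ∈ pri x, HH a b p (v i) - S₀) ^ 2 := by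
      intro i hi
      have h6 := hbad i hi
      rw [← hℓ, ← hS₀] at h6
      push Not at h6
      obtain ⟨y, _, _, _, h6⟩ := h6
      have h7 : (l * √ℓ) ^ 2 ≤ |∑ p ∈ pri x, HH a b p (v i) - S₀| ^ 2 := pow_le_pow_left₀ (by positivity) h6.le 2
      rw [mul_pow, Real.sq_sqrt hℓ0.le, sq_abs] at h7
      exact h7
    have h6 : (∑ i ∈ E, w i) * (l ^ 2 * ℓ) ≤ C * ℓ := by
      rw [sum_mul]
      calc ∑ i ∈ E, w i * (l ^ 2 * ℓ) ≤ ∑ i ∈ E, w i * (∑ p ∈ pri x, HH a b p (v i) - S₀) ^ 2 :=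
            sum_le_sum fun i hi => mul_le_mul_of_nonneg_left (h5 i hi) (hdec.nonneg i (hE hi))
        _ ≤ ∑ i ∈ Ω, w i * (∑ p ∈ pri x, HH a b p (v i) - S₀) ^ 2 :=
            sum_le_sum_of_subset_of_nonneg hE fun i hi _ => mul_nonneg (hdec.nonneg i hi) (sq_nonneg _)
        _ ≤ C * ℓ := hms
    rw [le_div_iff₀ (by positivity)]
    rw [← mul_assoc] at h6
    exact le_of_mul_le_mul_right h6 hℓ0

end Pool.Agent.Run7.h844.RP
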