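import Pool.Agent.Run7.h844.RP.PwPu
import Pool.Agent.Run7.h556.MW.Exp
import Pool.Agent.TH181.MW.Max

set_option autoImplicit false
set_option maxHeartbeats 4000000

/-!
Weyl sums with arbitrary bounded weights: the supremum over the linear coefficient and its moments over a family of leading
coefficients.
-/

namespace Pool.Agent.Run7.h844.RP.Wy

open Finset
open Pool.Agent.H469R2.NK (e norm_e e_add)
open Pool.Agent.TH181.MW (tup prs J tup_sum_le)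
open Pool.Agent.Run7.h556.MW (PR De J_eq De_le PR_card)

lemma eW (x : ℝ) : Pool.Agent.W928.MW.e x = e x := by
  unfold Pool.Agent.W928.MW.e Pool.Agent.H469R2.NK.e
  congr 1
  push_cast
  ring

lemma e_zero : e 0 = 1 := by rw [← eW]; exact Pool.Agent.TH181.MW.e_zero

lemma e_conj (x : ℝ) : (starRingEnd ℂ) (e x) = e (-x) := by
  rw [← eW, ← eW]
  exact Pool.Agent.TH181.MW.e_conj x

lemma e_sum {ι : Type*} (s : Finset ι) (f : ι → ℝ) : e (∑ i ∈ s, f i) = ∏ i ∈ s, e (f i) := by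
  simp only [← eW]
  exact Pool.Agent.TH181.MW.e_sum s f

/-- the weighted Weyl sum -/
noncomputable def ws (w : ℕ → ℂ) (k N : ℕ) (t ξ : ℝ) : ℂ := ∑ n ∈ Icc 1 N, w n * e (t * (n : ℝ) ^ k + ξ * (n : ℝ))

noncomputable def wp (w : ℕ → ℂ) (s k N m : ℕ) (t : ℝ) : ℂ :=
  ∑ z ∈ prs s N m, (∏ i, w (z i)) * e (t * ((∑ i, z i ^ k : ℕ) : ℝ))

noncomputable def wQ (w : ℕ → ℂ) (s k N : ℕ) (t : ℝ) : ℝ := ∑ m ∈ range (s * N + 1), ‖wp w s k N m t‖ ^ 2

theorem ws_pow (w : ℕ → ℂ) (s k N : ℕ) (t ξ : ℝ) :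
    ws w k N t ξ ^ s = ∑ m ∈ range (s * N + 1), e (ξ * m) * wp w s k N m t := by
  have h1 : ws w k N t ξ ^ s = ∑ z ∈ tup s N, e (ξ * ((∑ i, z i : ℕ) : ℝ)) *
      ((∏ i, w (z i)) * e (t * ((∑ i, z i ^ k : ℕ) : ℝ))) := by
    unfold ws tup
    rw [Finset.sum_pow']
    apply Finset.sum_congr rfl
    intro z _
    rw [prod_mul_distrib, ← e_sum]
    have h2 : ∑ i, (t * (z i : ℝ) ^ k + ξ * (z i : ℝ)) = ξ * ((∑ i, z i : ℕ) : ℝ) + t * ((∑ i, z i ^ k : ℕ) : ℝ) := by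
      push_cast
      rw [Finset.mul_sum, Finset.mul_sum, ← Finset.sum_add_distrib]
      apply Finset.sum_congr rfl
      intro i _
      ring
    rw [h2, e_add]
    ring
  rw [h1, ← Finset.sum_fiberwise_of_maps_to (s := tup s N) (t := range (s * N + 1))
    (g := fun z : Fin s → ℕ => ∑ i, z i)]
  · apply Finset.sum_congr rfl
    intro m _
    unfold wp prs
    rw [Finset.mul_sum]
    apply Finset.sum_congr rfl
    intro z hz
    rw [Finset.mem_filter] at hz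
    rw [hz.2]
  · intro z hz
    rw [Finset.mem_range]
    have := tup_sum_le s N z hz
    omega

theorem ws_sup (w : ℕ → ℂ) (s k N : ℕ) (t ξ : ℝ) : ‖ws w k N t ξ‖ ^ (2 * s) ≤ ((s : ℝ) * (N : ℝ) + 1) * wQ w s k N t := by
  have h1 : ‖ws w k N t ξ‖ ^ (2 * s) = ‖ws w k N t ξ ^ s‖ ^ 2 := by
    rw [norm_pow, ← pow_mul, mul_comm]
  rw [h1, ws_pow]
  have h2 : ‖∑ m ∈ range (s * N + 1), e (ξ * m) * wp w s k N m t‖ ≤ ∑ m ∈ range (s * N + 1), ‖wp w s k N m t‖ := by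
    refine (norm_sum_le _ _).trans (le_of_eq ?_)
    apply Finset.sum_congr rfl
    intro m _
    rw [norm_mul, norm_e, one_mul]
  have h3 := sq_sum_le_card_mul_sum_sq (s := range (s * N + 1)) (f := fun m => ‖wp w s k N m t‖)
  rw [Finset.card_range] at h3
  have h4 : (((s * N + 1 : ℕ) : ℝ)) = (s : ℝ) * (N : ℝ) + 1 := by push_cast; ring
  rw [h4] at h3
  refine le_trans ?_ h3
  exact pow_le_pow_left₀ (norm_nonneg _) h2 2

/-- a mean square over a family -/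
theorem fam_sq {ι κ : Type*} (S : Finset ι) (t : ι → ℝ) (Z : Finset κ) (c : κ → ℂ) (hc : ∀ z ∈ Z, ‖c z‖ ≤ 1) (D : κ → ℝ) :
    ∑ i ∈ S, ‖∑ z ∈ Z, c z * e (t i * D z)‖ ^ 2 ≤ ∑ z ∈ Z, ∑ z' ∈ Z, ‖∑ i ∈ S, e ((D z - D z') * t i)‖ := by
  have h1 : ∀ i ∈ S, ((‖∑ z ∈ Z, c z * e (t i * D z)‖ ^ 2 : ℝ) : ℂ) =
      ∑ z ∈ Z, ∑ z' ∈ Z, (c z * (starRingEnd ℂ) (c z')) * e ((D z - D z') * t i) := by
    intro i _
    have h2 : ((‖∑ z ∈ Z, c z * e (t i * D z)‖ ^ 2 : ℝ) : ℂ) =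
        (∑ z ∈ Z, c z * e (t i * D z)) * (starRingEnd ℂ) (∑ z ∈ Z, c z * e (t i * D z)) := by
      rw [Complex.mul_conj, Complex.normSq_eq_norm_sq]
    rw [h2, map_sum, Finset.sum_mul_sum]
    refine sum_congr rfl fun z _ => sum_congr rfl fun z' _ => ?_
    rw [map_mul, e_conj]
    have h3 : e ((D z - D z') * t i) = e (t i * D z) * e (-(t i * D z')) := by
      rw [← e_add]
      congr 1
      ring
    rw [h3]
    ring
  have h2 : ((∑ i ∈ S, ‖∑ z ∈ Z, c z * e (t i * D z)‖ ^ 2 : ℝ) : ℂ) =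
      ∑ z ∈ Z, ∑ z' ∈ Z, (c z * (starRingEnd ℂ) (c z')) * ∑ i ∈ S, e ((D z - D z') * t i) := by
    rw [Complex.ofReal_sum, sum_congr rfl h1, sum_comm]
    refine sum_congr rfl fun z _ => ?_
    rw [sum_comm]
    refine sum_congr rfl fun z' _ => ?_
    rw [mul_sum]
  have h3 : ∑ i ∈ S, ‖∑ z ∈ Z, c z * e (t i * D z)‖ ^ 2 = ‖((∑ i ∈ S, ‖∑ z ∈ Z, c z * e (t i * D z)‖ ^ 2 : ℝ) : ℂ)‖ := by
    rw [Complex.norm_real, Real.norm_of_nonneg (sum_nonneg fun i _ => by positivity)]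
  rw [h3, h2]
  refine (norm_sum_le _ _).trans (sum_le_sum fun z hz => ?_)
  refine (norm_sum_le _ _).trans (sum_le_sum fun z' hz' => ?_)
  rw [norm_mul, norm_mul, RCLike.norm_conj]
  have g1 := hc z hz
  have g2 := hc z' hz'
  have g3 : ‖c z‖ * ‖c z'‖ ≤ 1 := by
    have := mul_le_mul g1 g2 (norm_nonneg _) zero_le_one
    linarith
  have g4 := mul_le_mul_of_nonneg_right g3 (norm_nonneg (∑ i ∈ S, e ((D z - D z') * t i)))
  linarith

lemma sum_prs (s N : ℕ) (g : (Fin s → ℕ) × (Fin s → ℕ) → ℝ) :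
    ∑ m ∈ range (s * N + 1), ∑ z ∈ prs s N m, ∑ z' ∈ prs s N m, g (z, z') = ∑ z ∈ PR s N, g z := by
  rw [← Finset.sum_fiberwise_of_maps_to (s := PR s N) (t := range (s * N + 1))
    (g := fun z : (Fin s → ℕ) × (Fin s → ℕ) => ∑ i, z.1 i)]
  · apply Finset.sum_congr rfl
    intro m _
    rw [← sum_product']
    apply sum_congr _ (fun _ _ => rfl)
    ext z
    simp only [Finset.mem_filter, Finset.mem_product, prs, PR]
    constructor
    · rintro ⟨⟨a1, a2⟩, b1, b2⟩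
      exact ⟨⟨⟨a1, b1⟩, a2.trans b2.symm⟩, a2⟩
    · rintro ⟨⟨⟨a1, b1⟩, d⟩, a2⟩
      exact ⟨⟨a1, a2⟩, b1, d.symm.trans a2⟩
  · intro z hz
    unfold PR at hz
    rw [mem_filter, mem_product] at hz
    have := tup_sum_le s N z.1 hz.1.1
    rw [mem_range]
    omega

/-- **the moment over a family** -/
theorem wQ_fam {ι : Type*} (S : Finset ι) (t : ι → ℝ) (w : ℕ → ℂ) (hw : ∀ n, ‖w n‖ ≤ 1) (s k N : ℕ) (hs : 1 ≤ s) (τ : ℝ)
    (hτ : 0 ≤ τ) (h : ∀ H : ℤ, H ≠ 0 → H.natAbs ≤ s * N ^ k → ‖∑ i ∈ S, e ((H : ℝ) * t i)‖ ≤ S.card * τ) :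
    ∑ i ∈ S, wQ w s k N (t i) ≤ S.card * (J s k N + τ * (N : ℝ) ^ (2 * s - 1)) := by
  classical
  have h1 : ∑ i ∈ S, wQ w s k N (t i) ≤ ∑ z ∈ PR s N, ‖∑ i ∈ S, e (((De s k z : ℤ) : ℝ) * t i)‖ := by
    unfold wQ
    rw [sum_comm, ← sum_prs]
    refine sum_le_sum fun m _ => ?_
    have h2 := fam_sq S t (prs s N m) (fun z => ∏ i, w (z i)) (fun z _ => by
      rw [norm_prod]
      exact prod_le_one (fun i _ => norm_nonneg _) fun i _ => hw _) (fun z => ((∑ i, z i ^ k : ℕ) : ℝ))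
    refine h2.trans (le_of_eq ?_)
    refine sum_congr rfl fun z _ => sum_congr rfl fun z' _ => ?_
    congr 1
    refine sum_congr rfl fun i _ => ?_
    congr 2
    unfold De
    push_cast
    ring
  refine h1.trans ?_
  rw [← sum_filter_add_sum_filter_not (PR s N) (fun z => De s k z = 0)]
  have h3 : ∑ z ∈ (PR s N).filter (fun z => De s k z = 0), ‖∑ i ∈ S, e (((De s k z : ℤ) : ℝ) * t i)‖ ≤
      S.card * J s k N := by
    rw [J_eq]
    refine (sum_le_sum fun z _ => ?_).trans (le_of_eq ((sum_const (S.card : ℝ)).trans ?_))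
    · refine (norm_sum_le _ _).trans ?_
      simp only [norm_e]
      rw [sum_const, nsmul_eq_mul, mul_one]
    · rw [nsmul_eq_mul, mul_comm]
  have h4 : ∑ z ∈ (PR s N).filter (fun z => ¬ De s k z = 0), ‖∑ i ∈ S, e (((De s k z : ℤ) : ℝ) * t i)‖ ≤
      S.card * τ * (N : ℝ) ^ (2 * s - 1) := by
    refine (sum_le_card_nsmul _ _ (S.card * τ) fun z hz => ?_).trans ?_
    · rw [mem_filter] at hz
      exact h _ hz.2 (De_le s k N z hz.1)
    · rw [nsmul_eq_mul, mul_comm]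
      refine mul_le_mul_of_nonneg_left ?_ (by positivity)
      have h5 := (card_filter_le (PR s N) (fun z => ¬ De s k z = 0)).trans (PR_card s N hs)
      exact_mod_cast h5
  calc _ ≤ (S.card : ℝ) * J s k N + S.card * τ * (N : ℝ) ^ (2 * s - 1) := add_le_add h3 h4
    _ = _ := by ring

/-- Markov's inequality for the supremum over the linear coefficient -/
theorem ws_mark {ι : Type*} (S : Finset ι) (t : ι → ℝ) (w : ℕ → ℂ) (hw : ∀ n, ‖w n‖ ≤ 1) (s k N : ℕ) (hs : 1 ≤ s) (τ : ℝ)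
    (hτ : 0 ≤ τ) (h : ∀ H : ℤ, H ≠ 0 → H.natAbs ≤ s * N ^ k → ‖∑ i ∈ S, e ((H : ℝ) * t i)‖ ≤ S.card * τ)
    (K : ℝ) (hK : 0 < K) : open scoped Classical in
    ((S.filter fun i => ∃ ξ : ℝ, K < ‖ws w k N (t i) ξ‖).card : ℝ) ≤
      S.card * (((s : ℝ) * N + 1) * (J s k N + τ * (N : ℝ) ^ (2 * s - 1)) / K ^ (2 * s)) := by
  classical
  have h1 := wQ_fam S t w hw s k N hs τ hτ h
  have hKs : 0 < K ^ (2 * s) := by positivity
  have h2 : ((S.filter fun i => ∃ ξ : ℝ, K < ‖ws w k N (t i) ξ‖).card : ℝ) * (K ^ (2 * s) / ((s : ℝ) * N + 1)) ≤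
      ∑ i ∈ S, wQ w s k N (t i) := by
    rw [← nsmul_eq_mul, ← sum_const]
    refine (sum_le_sum (g := fun i => wQ w s k N (t i)) fun i hi => ?_).trans
      (sum_le_sum_of_subset_of_nonneg (filter_subset _ _) fun i _ _ => by unfold wQ; positivity)
    rw [mem_filter] at hi
    obtain ⟨_, ξ, hξ⟩ := hi
    rw [div_le_iff₀ (by positivity)]
    have h3 := ws_sup w s k N (t i) ξ
    have h4 : K ^ (2 * s) ≤ ‖ws w k N (t i) ξ‖ ^ (2 * s) := pow_le_pow_left₀ hK.le hξ.le _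
    linarith
  have h3 := h2.trans h1
  have hN0 : (0 : ℝ) < (s : ℝ) * N + 1 := by positivity
  have hK0 : 0 < K ^ (2 * s) / ((s : ℝ) * N + 1) := by positivity
  have h4 := (le_div_iff₀ hK0).2 h3
  refine h4.trans (le_of_eq ?_)
  field_simp

end Pool.Agent.Run7.h844.RP.Wy
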