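import Pool.Agent.Run7.h844.RP.PwU1

set_option autoImplicit false
set_option maxHeartbeats 4000000

/-!
Weyl sums of degree `k` with arbitrary bounded weights at the leading coefficients `f(p) + z`.
-/

namespace Pool.Agent.Run7.h844.RP.Wy

open Finset Filter
open Pool.Agent.H469R2.NK (e norm_e e_add)
open Pool.Agent.TH181.MW (tup prs J tup_sum_le)
open Pool.Agent.Run7.h556.MW (PR De J_eq De_le PR_card Mv Mv_three)
open scoped Classical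

lemma ws_max (w : ℕ → ℂ) (k N M : ℕ) (t K : ℝ) (hN : 1 ≤ N) (hM : M ≤ N) (h : ∀ ξ : ℝ, ‖ws w k N t ξ‖ ≤ K) (ξ : ℝ) :
    ‖ws w k M t ξ‖ ≤ (2 + Real.log N) * K := by
  have h0 : ∀ (L : ℕ) (x : ℝ), ws w k L t x = ∑ n ∈ Icc 1 L, (w n * Pool.Agent.W928.MW.e (t * (n : ℝ) ^ k)) *
      Pool.Agent.W928.MW.e (x * n) := by
    intro L x
    unfold ws
    refine sum_congr rfl fun n _ => ?_
    rw [eW, eW, mul_assoc, ← e_add]
  have h1 := Pool.Agent.TH181.MW.max_le N M hN hM (fun n => w n * Pool.Agent.W928.MW.e (t * (n : ℝ) ^ k)) K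
    (fun η => by have := h η; rwa [h0] at this) ξ
  rwa [← h0] at h1

/-- **families of reals with small exponential sums** -/
theorem fam_weyl (k : ℕ) (hk : 2 ≤ k) (δ : ℝ) (hδ : 0 < δ) : ∃ y₀ : ℝ, 1 ≤ y₀ ∧ ∀ (ι : Type) (S : Finset ι) (t : ι → ℝ)
    (w : ℕ → ℂ), (∀ n, ‖w n‖ ≤ 1) → ∀ L τ : ℝ, 0 ≤ τ → τ * (2 * L) ^ 2 ≤ 1 →
    (∀ H : ℤ, H ≠ 0 → |(H : ℝ)| ≤ 3 * (2 * L) ^ k → ‖∑ i ∈ S, e ((H : ℝ) * t i)‖ ≤ S.card * τ) → ∀ y : ℝ, y₀ ≤ y →
    ((S.filter fun i => ∃ N : ℕ, y ≤ N ∧ (N : ℝ) ≤ L ∧ ∃ ξ : ℝ, (N : ℝ) ^ (2 / 3 + δ) < ‖ws w k N (t i) ξ‖).card : ℝ) ≤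
      y ^ (-δ) * S.card := by
  obtain ⟨C, hC, hJ⟩ := Mv_three k hk δ hδ
  obtain ⟨r, hr⟩ : ∃ r : ℝ, r = (2 : ℝ) ^ (-(2 * δ)) := ⟨_, rfl⟩
  have hr0 : 0 < r := by rw [hr]; positivity
  have hr1 : r < 1 := by
    rw [hr]
    exact Real.rpow_lt_one_of_one_lt_of_neg (by norm_num) (by linarith)
  -- the threshold
  have hlim : ∀ᶠ y : ℝ in atTop, 2 ≤ y ∧ (2 + Real.log y) * 2 ^ (2 / 3 + δ) ≤ y ^ (δ / 2) ∧
      4 * (C + 1) / (1 - r) ≤ y ^ δ := by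
    have e1 : (fun x : ℝ => Real.log x) =o[atTop] (fun x : ℝ => x ^ (δ / 2)) := isLittleO_log_rpow_atTop (by positivity)
    have e2 := e1.def (show (0 : ℝ) < 1 / (2 * 2 ^ (2 / 3 + δ)) by positivity)
    have e3 := (tendsto_rpow_atTop (show 0 < δ / 2 by positivity)).eventually_ge_atTop (4 * 2 ^ (2 / 3 + δ))
    filter_upwards [eventually_ge_atTop (2 : ℝ), e2, e3,
      (tendsto_rpow_atTop hδ).eventually_ge_atTop (4 * (C + 1) / (1 - r))] with y g1 g2 g3 g4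
    refine ⟨g1, ?_, g4⟩
    have hy : (0 : ℝ) < y := by linarith
    rw [Real.norm_of_nonneg (Real.log_nonneg (by linarith)), Real.norm_of_nonneg (by positivity)] at g2
    have hb : (0 : ℝ) < 2 ^ (2 / 3 + δ) := by positivity
    have g5 : Real.log y * 2 ^ (2 / 3 + δ) ≤ y ^ (δ / 2) / 2 := by
      calc Real.log y * 2 ^ (2 / 3 + δ) ≤ 1 / (2 * 2 ^ (2 / 3 + δ)) * y ^ (δ / 2) * 2 ^ (2 / 3 + δ) :=
            mul_le_mul_of_nonneg_right g2 hb.le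
        _ = y ^ (δ / 2) / 2 := by field_simp
    linarith
  obtain ⟨y₀, hy₀⟩ := eventually_atTop.1 hlim
  refine ⟨max y₀ 2, by linarith [le_max_right y₀ 2], fun ι S t w hw L τ hτ hτL hS y hy => ?_⟩
  obtain ⟨g1, _, g3⟩ := hy₀ y ((le_max_left _ _).trans hy)
  have hy0 : 0 < y := by linarith
  -- the blocks
  obtain ⟨j₀, hj₀⟩ : ∃ j₀ : ℕ, j₀ = Nat.clog 2 ⌈y⌉₊ := ⟨_, rfl⟩
  have hj₀y : y ≤ (2 : ℝ) ^ j₀ := by
    have e1 : ⌈y⌉₊ ≤ 2 ^ j₀ := by rw [hj₀]; exact Nat.le_pow_clog (by norm_num) _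
    have e2 : ((⌈y⌉₊ : ℕ) : ℝ) ≤ ((2 ^ j₀ : ℕ) : ℝ) := by exact_mod_cast e1
    push_cast at e2
    exact (Nat.le_ceil y).trans e2
  obtain ⟨B, hB⟩ : ∃ B : ℕ → Finset ι, B = fun j => S.filter fun i => ∃ ξ : ℝ,
      ((2 ^ j : ℕ) : ℝ) ^ (2 / 3 + δ / 2) < ‖ws w k (2 ^ j) (t i) ξ‖ := ⟨_, rfl⟩
  have hBj : ∀ j : ℕ, j₀ ≤ j → (2 : ℝ) ^ j ≤ 2 * L → ((B j).card : ℝ) ≤ S.card * (4 * (C + 1) * r ^ j) := by
    intro j hj hjL
    obtain ⟨M, hM⟩ : ∃ M : ℕ, M = 2 ^ j := ⟨_, rfl⟩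
    have hM1 : 1 ≤ M := by rw [hM]; exact Nat.one_le_two_pow
    have hMr : (M : ℝ) = 2 ^ j := by rw [hM]; push_cast; ring
    have hM1r : (1 : ℝ) ≤ M := by exact_mod_cast hM1
    have hM0 : (0 : ℝ) < M := by linarith
    have hML : (M : ℝ) ≤ 2 * L := by rw [hMr]; exact hjL
    have e1 := ws_mark S t w hw 3 k M (by norm_num) τ hτ (fun H hH hHM => by
      refine hS H hH ?_
      have e2 : ((H.natAbs : ℕ) : ℝ) ≤ ((3 * M ^ k : ℕ) : ℝ) := by exact_mod_cast hHM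
      rw [Nat.cast_natAbs] at e2
      push_cast at e2
      refine e2.trans ?_
      have e3 : (M : ℝ) ^ k ≤ (2 * L) ^ k := pow_le_pow_left₀ hM0.le hML k
      linarith) ((M : ℝ) ^ (2 / 3 + δ / 2)) (by positivity)
    have hBd : B j = S.filter fun i => ∃ ξ : ℝ, (M : ℝ) ^ (2 / 3 + δ / 2) < ‖ws w k M (t i) ξ‖ := by
      rw [hB, hM]
    rw [hBd]
    refine e1.trans (mul_le_mul_of_nonneg_left ?_ (Nat.cast_nonneg _))
    have e4 : ((M : ℝ) ^ (2 / 3 + δ / 2)) ^ (2 * 3) = (M : ℝ) ^ (4 + 3 * δ) := by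
      rw [← Real.rpow_natCast, ← Real.rpow_mul hM0.le]
      congr 1
      push_cast
      ring
    have e5 : (M : ℝ) ^ (4 + 3 * δ) = (M : ℝ) * (M : ℝ) ^ (3 + δ) * (M : ℝ) ^ (2 * δ) := by
      rw [← Real.rpow_one_add' hM0.le (by linarith), ← Real.rpow_add hM0]
      congr 1
      ring
    have e6 : τ * (M : ℝ) ^ (2 * 3 - 1) ≤ (M : ℝ) ^ (3 + δ) := by
      have e7 : τ * (M : ℝ) ^ 2 ≤ 1 := by
        refine le_trans (mul_le_mul_of_nonneg_left (pow_le_pow_left₀ hM0.le hML 2) hτ) hτL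
      have e8 : (M : ℝ) ^ 3 ≤ (M : ℝ) ^ (3 + δ) := by
        rw [← Real.rpow_natCast (M : ℝ) 3]
        exact Real.rpow_le_rpow_of_exponent_le hM1r (by push_cast; linarith)
      calc τ * (M : ℝ) ^ (2 * 3 - 1) = τ * (M : ℝ) ^ 2 * (M : ℝ) ^ 3 := by norm_num; ring
        _ ≤ 1 * (M : ℝ) ^ 3 := mul_le_mul_of_nonneg_right e7 (by positivity)
        _ ≤ _ := by linarith
    have e6' : τ * (M : ℝ) ^ 5 ≤ (M : ℝ) ^ (3 + δ) := e6
    have e9 := hJ M hM1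
    rw [show (2 * (3 : ℕ) : ℝ) - 3 + δ = 3 + δ by push_cast; ring] at e9
    have e10 : r ^ j = ((M : ℝ) ^ (2 * δ))⁻¹ := by
      rw [hr, hMr, ← Real.rpow_natCast, ← Real.rpow_mul (by norm_num), ← Real.rpow_natCast, ← Real.rpow_mul (by norm_num),
        ← Real.rpow_neg (by norm_num)]
      congr 1
      ring
    rw [e4, e5, e10, div_le_iff₀ (by positivity)]
    have e11 : 0 < (M : ℝ) ^ (3 + δ) := by positivity
    have e12 : 0 < (M : ℝ) ^ (2 * δ) := by positivity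
    have e13 : 4 * (C + 1) * ((M : ℝ) ^ (2 * δ))⁻¹ * ((M : ℝ) * (M : ℝ) ^ (3 + δ) * (M : ℝ) ^ (2 * δ)) =
        (4 * M) * ((C + 1) * (M : ℝ) ^ (3 + δ)) := by
      field_simp
    rw [e13]
    push_cast
    refine mul_le_mul (by linarith) (by linarith) ?_ (by positivity)
    have : (0 : ℝ) ≤ J 3 k M := Nat.cast_nonneg _
    positivity
  -- the union
  obtain ⟨n, hn⟩ : ∃ n : ℕ, n = ⌈L⌉₊ + 2 := ⟨_, rfl⟩
  have hsub : (S.filter fun i => ∃ N : ℕ, y ≤ N ∧ (N : ℝ) ≤ L ∧ ∃ ξ : ℝ, (N : ℝ) ^ (2 / 3 + δ) < ‖ws w k N (t i) ξ‖) ⊆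
      ((Ico j₀ (j₀ + n)).filter fun j => (2 : ℝ) ^ j ≤ 2 * L).biUnion B := by
    intro i hi
    rw [mem_filter] at hi
    obtain ⟨hiS, N, hyN, hNL, ξ, hξ⟩ := hi
    have hN2 : 2 ≤ N := by exact_mod_cast (g1.trans hyN)
    have hN0 : (0 : ℝ) < N := by linarith
    obtain ⟨j, hj⟩ : ∃ j : ℕ, j = Nat.clog 2 N := ⟨_, rfl⟩
    have f1 : N ≤ 2 ^ j := by rw [hj]; exact Nat.le_pow_clog (by norm_num) _
    have f2 : 2 ^ j < 2 * N := by
      have h5 : 1 ≤ j := by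
        rw [hj]
        exact Nat.clog_pos (by norm_num) hN2
      have h6 : 2 ^ (j - 1) < N := by
        rw [hj]
        have := Nat.pow_pred_clog_lt_self (b := 2) (by norm_num) (x := N) (by omega)
        simpa using this
      calc 2 ^ j = 2 * 2 ^ (j - 1) := by rw [← pow_succ']; congr 1; omega
        _ < 2 * N := by omega
    have f1r : (N : ℝ) ≤ 2 ^ j := by exact_mod_cast f1
    have f2r : (2 : ℝ) ^ j ≤ 2 * N := by exact_mod_cast f2.le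
    have f3 : j₀ ≤ j := by
      rw [hj₀, hj]
      refine Nat.clog_mono_right 2 ?_
      exact Nat.ceil_le.2 hyN
    have f4 : j < j₀ + n := by
      have h5 : j < 2 ^ j := Nat.lt_two_pow_self
      have h6 : j ≤ N := by
        rw [hj]
        exact Nat.clog_le_of_le_pow (by
          have := Nat.lt_two_pow_self (n := N)
          omega)
      have h7 : N ≤ ⌈L⌉₊ := by
        have := hNL.trans (Nat.le_ceil L)
        exact_mod_cast this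
      omega
    rw [mem_biUnion]
    refine ⟨j, ?_, ?_⟩
    · rw [mem_filter, mem_Ico]
      exact ⟨⟨f3, f4⟩, by linarith⟩
    · rw [hB, mem_filter]
      refine ⟨hiS, ?_⟩
      by_contra hcon
      push Not at hcon
      have f5 := ws_max w k (2 ^ j) N (t i) _ Nat.one_le_two_pow f1 hcon ξ
      have f6 : y₀ ≤ ((2 ^ j : ℕ) : ℝ) := by
        push_cast
        exact ((le_max_left _ _).trans hy).trans (hyN.trans f1r)
      obtain ⟨_, f7, _⟩ := hy₀ _ f6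
      obtain ⟨M, hM⟩ : ∃ M : ℝ, M = ((2 ^ j : ℕ) : ℝ) := ⟨_, rfl⟩
      rw [← hM] at f5 f7
      have hMN : M ≤ 2 * N := by rw [hM]; push_cast; exact f2r
      have hM0 : 0 < M := by rw [hM]; positivity
      have f8 : (2 + Real.log M) * M ^ (2 / 3 + δ / 2) ≤ (N : ℝ) ^ (2 / 3 + δ) := by
        have f9 : M ^ (2 / 3 + δ) = M ^ (2 / 3 + δ / 2) * M ^ (δ / 2) := by
          rw [← Real.rpow_add hM0]
          congr 1
          ring
        have f10 : M ^ (2 / 3 + δ) ≤ 2 ^ (2 / 3 + δ) * (N : ℝ) ^ (2 / 3 + δ) := by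
          rw [← Real.mul_rpow (by norm_num) hN0.le]
          exact Real.rpow_le_rpow hM0.le hMN (by positivity)
        have f11 : 0 < M ^ (2 / 3 + δ / 2) := by positivity
        have f12 : (0 : ℝ) < 2 ^ (2 / 3 + δ) := by positivity
        have f13 := mul_le_mul_of_nonneg_left f7 f11.le
        rw [← f9] at f13
        have f14 : 2 ^ (2 / 3 + δ) * ((2 + Real.log M) * M ^ (2 / 3 + δ / 2)) ≤ 2 ^ (2 / 3 + δ) * (N : ℝ) ^ (2 / 3 + δ) := by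
          calc _ = M ^ (2 / 3 + δ / 2) * ((2 + Real.log M) * 2 ^ (2 / 3 + δ)) := by ring
            _ ≤ _ := f13.trans f10
        exact le_of_mul_le_mul_left f14 f12
      linarith
  have hcard : ((S.filter fun i => ∃ N : ℕ, y ≤ N ∧ (N : ℝ) ≤ L ∧ ∃ ξ : ℝ, (N : ℝ) ^ (2 / 3 + δ) <
      ‖ws w k N (t i) ξ‖).card : ℝ) ≤ ∑ j ∈ (Ico j₀ (j₀ + n)).filter (fun j => (2 : ℝ) ^ j ≤ 2 * L), ((B j).card : ℝ) := by
    have e1 := (card_le_card hsub).trans card_biUnion_le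
    exact_mod_cast e1
  refine hcard.trans ?_
  have h5 : ∑ j ∈ (Ico j₀ (j₀ + n)).filter (fun j => (2 : ℝ) ^ j ≤ 2 * L), ((B j).card : ℝ) ≤
      ∑ j ∈ Ico j₀ (j₀ + n), S.card * (4 * (C + 1) * r ^ j) := by
    refine (sum_le_sum (g := fun j => (S.card : ℝ) * (4 * (C + 1) * r ^ j)) fun j hj => ?_).trans
      (sum_le_sum_of_subset_of_nonneg (filter_subset _ _) fun j _ _ => by positivity)
    rw [mem_filter, mem_Ico] at hj
    exact hBj j hj.1.1 hj.2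
  refine h5.trans ?_
  have h6 : ∑ j ∈ Ico j₀ (j₀ + n), (S.card : ℝ) * (4 * (C + 1) * r ^ j) ≤ S.card * (4 * (C + 1) * (r ^ j₀ / (1 - r))) := by
    rw [← mul_sum, ← mul_sum]
    refine mul_le_mul_of_nonneg_left (mul_le_mul_of_nonneg_left ?_ (by positivity)) (Nat.cast_nonneg _)
    rw [sum_Ico_eq_sum_range]
    have e1 : ∀ i ∈ range (j₀ + n - j₀), r ^ (j₀ + i) = r ^ j₀ * r ^ i := fun i _ => pow_add _ _ _
    rw [sum_congr rfl e1, ← mul_sum, div_eq_mul_inv]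
    refine mul_le_mul_of_nonneg_left ?_ (by positivity)
    have e2 := (summable_geometric_of_lt_one hr0.le hr1).sum_le_tsum (range (j₀ + n - j₀)) (fun i _ => by positivity)
    rwa [tsum_geometric_of_lt_one hr0.le hr1] at e2
  refine h6.trans ?_
  have h7 : r ^ j₀ ≤ y ^ (-(2 * δ)) := by
    have e1 : r ^ j₀ = ((2 : ℝ) ^ j₀) ^ (-(2 * δ)) := by
      rw [hr, ← Real.rpow_natCast, ← Real.rpow_mul (by norm_num), ← Real.rpow_natCast, ← Real.rpow_mul (by norm_num)]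
      congr 1
      ring
    rw [e1]
    exact Real.rpow_le_rpow_of_nonpos hy0 hj₀y (by linarith)
  have h8 : 4 * (C + 1) * (r ^ j₀ / (1 - r)) ≤ y ^ (-δ) := by
    have hr' : 0 < 1 - r := by linarith
    have e1 : y ^ (-(2 * δ)) = y ^ (-δ) * (y ^ δ)⁻¹ := by
      rw [← Real.rpow_neg hy0.le, ← Real.rpow_add hy0]
      congr 1
      ring
    calc 4 * (C + 1) * (r ^ j₀ / (1 - r)) = 4 * (C + 1) / (1 - r) * r ^ j₀ := by ring
      _ ≤ y ^ δ * y ^ (-(2 * δ)) := mul_le_mul g3 h7 (by positivity) (by positivity)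
      _ = y ^ (-δ) := by
        rw [e1]
        have : y ^ δ ≠ 0 := by positivity
        field_simp
  calc (S.card : ℝ) * (4 * (C + 1) * (r ^ j₀ / (1 - r))) ≤ S.card * y ^ (-δ) :=
        mul_le_mul_of_nonneg_left h8 (Nat.cast_nonneg _)
    _ = _ := mul_comm _ _

end Pool.Agent.Run7.h844.RP.Wy
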