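import Pool.Agent.Run7.h844.RP.PwU2

set_option autoImplicit false
set_option maxHeartbeats 4000000

/-!
Weyl sums at the leading coefficients `f(p) + z`, `p` prime.
-/

namespace Pool.Agent.Run7.h844.RP.Wy

open Finset Filter
open Pool.Agent.H469R2.NK (e norm_e e_add)
open Pool.Agent.N193.PS (log_pow_ev)
open scoped Classical

/-- integer multiples of the values at primes -/
theorem primes_H (F : Finset ℝ) (c : ℝ) (hcF : c ∈ F) (hn : ∀ m : ℕ, c ≠ m) (hc : 0 < c) (hmax : ∀ x ∈ F, x ≤ c)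
    (a : ℝ → ℝ) (ha : a c ≠ 0) : ∃ β : ℝ, 0 < β ∧ ∃ X₀ : ℕ, ∀ X : ℕ, X₀ ≤ X → ∀ z : ℝ, ∀ H : ℤ, H ≠ 0 →
      |(H : ℝ)| ≤ (X : ℝ) ^ β →
      ‖∑ p ∈ (Ioc X (2 * X)).filter Nat.Prime, e ((H : ℝ) * (ph F a p + z))‖ ≤
        ((Ioc X (2 * X)).filter Nat.Prime).card * (X : ℝ) ^ (-β) := by
  obtain ⟨ρ, hρ0, hρ1, h⟩ := primes_PWu F c hcF hn hc hmax a ha
  obtain ⟨X₁, h1⟩ := h 1 one_pos
  obtain ⟨X₂, h2⟩ := sc_log 1 c one_pos hc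
  have hβ0 : 0 < c * ρ / 2 := by positivity
  have hev := (tendsto_natCast_atTop_atTop (R := ℝ)).eventually
    (log_pow_ev 8 (2 * (c + 1) ^ 8) (c * ρ / 2) (by positivity) hβ0)
  have hl := (Real.tendsto_log_atTop.comp (tendsto_natCast_atTop_atTop (R := ℝ))).eventually_ge_atTop (max 1 (2 / c))
  obtain ⟨X₃, h3⟩ := eventually_atTop.mp (hev.and hl)
  refine ⟨c * ρ / 2, hβ0, X₁ + X₂ + X₃ + 3, fun X hX z H hH hHX => ?_⟩
  obtain ⟨g1, g2⟩ := h3 X (by omega)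
  obtain ⟨f1, f2⟩ := h2 X (by omega)
  simp only [Function.comp] at g2
  have hX1 : (1 : ℝ) ≤ X := by exact_mod_cast (by omega : 1 ≤ X)
  have hX0 : (0 : ℝ) < X := by linarith
  have gl1 : 1 ≤ Real.log X := (le_max_left _ _).trans g2
  have gl2 : 2 / c ≤ Real.log X := (le_max_right _ _).trans g2
  obtain ⟨M, hM⟩ : ∃ M : ℕ, M = sc 1 c X := ⟨_, rfl⟩
  have hMge : (X : ℝ) ^ c ≤ M := by
    have := sc_ge 1 c X
    rw [one_mul] at this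
    rw [hM]
    exact this
  have hXc : 1 ≤ (X : ℝ) ^ c := Real.one_le_rpow hX1 hc.le
  have hM1 : (1 : ℝ) ≤ M := hXc.trans hMge
  have hM0 : (0 : ℝ) < M := by linarith
  have hp := (h1 X (by omega)).shift z
  rw [← hM] at hp f1 f2
  have hH1 : 1 ≤ |(H : ℝ)| := by
    have : 1 ≤ |H| := Int.one_le_abs hH
    exact_mod_cast this
  have hHr : (H : ℝ) ≠ 0 := by exact_mod_cast hH
  have e1 : (X : ℝ) ^ (c * ρ / 2) ≤ (M : ℝ) ^ ρ := by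
    calc (X : ℝ) ^ (c * ρ / 2) ≤ (X : ℝ) ^ (c * ρ) := Real.rpow_le_rpow_of_exponent_le hX1 (by nlinarith [mul_pos hc hρ0])
      _ = ((X : ℝ) ^ c) ^ ρ := Real.rpow_mul hX0.le c ρ
      _ ≤ _ := Real.rpow_le_rpow (by positivity) hMge hρ0.le
  have e2 := hp H hHr (hHX.trans e1)
  refine e2.trans (mul_le_mul_of_nonneg_left ?_ (Nat.cast_nonneg _))
  have e3 : (M : ℝ) ^ (-ρ) ≤ (X : ℝ) ^ (-(c * ρ)) := by
    rw [show -(c * ρ) = c * (-ρ) by ring, Real.rpow_mul hX0.le]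
    exact Real.rpow_le_rpow_of_nonpos (by positivity) hMge (by linarith)
  have e4 : (|(H : ℝ)| * M) ^ (-ρ) ≤ (M : ℝ) ^ (-ρ) :=
    Real.rpow_le_rpow_of_nonpos hM0 (by nlinarith) (by linarith)
  have hlM : 1 ≤ Real.log M := by
    have : 1 = c / 2 * (2 / c) := by field_simp
    rw [this]
    exact (mul_le_mul_of_nonneg_left gl2 (by positivity)).trans f1
  have hlM8 : Real.log M ^ 8 ≤ ((c + 1) * Real.log X) ^ 8 := pow_le_pow_left₀ (by linarith) f2 8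
  have hlM8' : 1 ≤ Real.log M ^ 8 := one_le_pow₀ hlM
  have e5 : Real.log M ^ 8 * (|(H : ℝ)| * M) ^ (-ρ) + (M : ℝ) ^ (-ρ) ≤ 2 * Real.log M ^ 8 * (X : ℝ) ^ (-(c * ρ)) := by
    have e6 : 0 ≤ (M : ℝ) ^ (-ρ) := by positivity
    have e7 : Real.log M ^ 8 * (|(H : ℝ)| * M) ^ (-ρ) ≤ Real.log M ^ 8 * (X : ℝ) ^ (-(c * ρ)) :=
      mul_le_mul_of_nonneg_left (e4.trans e3) (by linarith)
    have e8 : 0 ≤ (X : ℝ) ^ (-(c * ρ)) := by positivity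
    have e9 : (X : ℝ) ^ (-(c * ρ)) ≤ Real.log M ^ 8 * (X : ℝ) ^ (-(c * ρ)) := by nlinarith
    linarith
  refine e5.trans ?_
  have e10 : (X : ℝ) ^ (-(c * ρ)) = (X : ℝ) ^ (-(c * ρ / 2)) * (X : ℝ) ^ (-(c * ρ / 2)) := by
    rw [← Real.rpow_add hX0]
    congr 1
    ring
  rw [e10, ← mul_assoc]
  have e11 : 0 ≤ (X : ℝ) ^ (-(c * ρ / 2)) := by positivity
  have e12 : 2 * Real.log M ^ 8 * (X : ℝ) ^ (-(c * ρ / 2)) ≤ 1 := by
    rw [Real.rpow_neg hX0.le, ← div_eq_mul_inv, div_le_one (by positivity)]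
    refine le_trans ?_ g1
    have e13 : Real.log X ^ 8 ≤ (1 + Real.log X) ^ 8 := pow_le_pow_left₀ (by linarith) (by linarith) 8
    calc 2 * Real.log M ^ 8 ≤ 2 * ((c + 1) * Real.log X) ^ 8 := by linarith
      _ = 2 * (c + 1) ^ 8 * Real.log X ^ 8 := by rw [mul_pow]; ring
      _ ≤ _ := mul_le_mul_of_nonneg_left e13 (by positivity)
  nlinarith

/-- **Weyl sums at the values of a generalised polynomial at primes** -/
theorem primes_weyl (F : Finset ℝ) (c : ℝ) (hcF : c ∈ F) (hn : ∀ m : ℕ, c ≠ m) (hc : 0 < c) (hmax : ∀ x ∈ F, x ≤ c)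
    (a : ℝ → ℝ) (ha : a c ≠ 0) (k : ℕ) (hk : 2 ≤ k) (δ : ℝ) (hδ : 0 < δ) : ∃ κ y₀ : ℝ, 0 < κ ∧ 1 ≤ y₀ ∧
    ∃ X₀ : ℕ, ∀ X : ℕ, X₀ ≤ X → ∀ z y : ℝ, y₀ ≤ y → ∀ w : ℕ → ℂ, (∀ n, ‖w n‖ ≤ 1) →
    ((((Ioc X (2 * X)).filter Nat.Prime).filter fun p : ℕ => ∃ N : ℕ, y ≤ N ∧ (N : ℝ) ≤ (X : ℝ) ^ κ ∧ ∃ ξ : ℝ,
      (N : ℝ) ^ (2 / 3 + δ) < ‖ws w k N (ph F a p + z) ξ‖).card : ℝ) ≤
      y ^ (-δ) * ((Ioc X (2 * X)).filter Nat.Prime).card := by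
  obtain ⟨β, hβ, X₁, h1⟩ := primes_H F c hcF hn hc hmax a ha
  obtain ⟨y₀, hy₀, h2⟩ := fam_weyl k hk δ hδ
  have hk0 : (0 : ℝ) < k := by exact_mod_cast (by omega : 0 < k)
  have hk2 : (2 : ℝ) ≤ k := by exact_mod_cast hk
  obtain ⟨κ, hκ⟩ : ∃ κ : ℝ, κ = β / (2 * k) := ⟨_, rfl⟩
  have hκ0 : 0 < κ := by rw [hκ]; positivity
  have hκk : κ * k = β / 2 := by rw [hκ]; field_simp
  have hκ2 : κ * 2 ≤ β / 2 := by nlinarith
  have hev := ((tendsto_rpow_atTop (show 0 < β / 2 by positivity)).comp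
    (tendsto_natCast_atTop_atTop (R := ℝ))).eventually_ge_atTop (max (3 * 2 ^ k) 4)
  obtain ⟨X₃, h3⟩ := eventually_atTop.mp hev
  refine ⟨κ, y₀, hκ0, hy₀, X₁ + X₃ + 1, fun X hX z y hy w hw => ?_⟩
  have g1 := h3 X (by omega)
  simp only [Function.comp] at g1
  have hX1 : (1 : ℝ) ≤ X := by exact_mod_cast (by omega : 1 ≤ X)
  have hX0 : (0 : ℝ) < X := by linarith
  refine h2 ℕ _ (fun p : ℕ => ph F a p + z) w hw ((X : ℝ) ^ κ) ((X : ℝ) ^ (-β)) (by positivity) ?_ (fun H hH hHL => ?_) y hy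
  · have e1 : ((2 : ℝ) * (X : ℝ) ^ κ) ^ 2 = 4 * (X : ℝ) ^ (κ * 2) := by
      rw [mul_pow, ← Real.rpow_natCast ((X : ℝ) ^ κ) 2, ← Real.rpow_mul hX0.le]
      norm_num
    have e2 : (X : ℝ) ^ (κ * 2) ≤ (X : ℝ) ^ (β / 2) := Real.rpow_le_rpow_of_exponent_le hX1 hκ2
    have e3 : (4 : ℝ) ≤ (X : ℝ) ^ (β / 2) := (le_max_right _ _).trans g1
    rw [e1, Real.rpow_neg hX0.le, ← div_eq_inv_mul, div_le_one (by positivity)]
    calc 4 * (X : ℝ) ^ (κ * 2) ≤ (X : ℝ) ^ (β / 2) * (X : ℝ) ^ (β / 2) := mul_le_mul e3 e2 (by positivity) (by positivity)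
      _ = (X : ℝ) ^ β := by rw [← Real.rpow_add hX0]; congr 1; ring
  · refine h1 X (by omega) z H hH (hHL.trans ?_)
    have e1 : ((2 : ℝ) * (X : ℝ) ^ κ) ^ k = 2 ^ k * (X : ℝ) ^ (β / 2) := by
      rw [mul_pow, ← Real.rpow_natCast ((X : ℝ) ^ κ) k, ← Real.rpow_mul hX0.le, hκk]
    rw [e1]
    have e3 : 3 * (2 : ℝ) ^ k ≤ (X : ℝ) ^ (β / 2) := (le_max_left _ _).trans g1
    calc 3 * (2 ^ k * (X : ℝ) ^ (β / 2)) = 3 * 2 ^ k * (X : ℝ) ^ (β / 2) := by ring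
      _ ≤ (X : ℝ) ^ (β / 2) * (X : ℝ) ^ (β / 2) := mul_le_mul_of_nonneg_right e3 (by positivity)
      _ = (X : ℝ) ^ β := by rw [← Real.rpow_add hX0]; congr 1; ring

lemma big_le (k N q : ℕ) (η ε : ℝ) (hη : 0 ≤ η) (hN : 1 ≤ N) :
    (N : ℝ) ^ (1 - η + ε) ≤ (N : ℝ) ^ (1 + ε) *
      (1 / (q : ℝ) + 1 / (N : ℝ) + (q : ℝ) / (N : ℝ) ^ k) ^ η := by
  have hN' : (1 : ℝ) ≤ (N : ℝ) := by exact_mod_cast hN
  have h1 : (N : ℝ) ^ (1 - η + ε) = (N : ℝ) ^ (1 + ε) * (1 / (N : ℝ)) ^ η := by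
    rw [Real.div_rpow (by norm_num) (by positivity), Real.one_rpow, mul_one_div, ← Real.rpow_sub (by positivity)]
    congr 1
    ring
  rw [h1]
  apply mul_le_mul_of_nonneg_left _ (by positivity)
  apply Real.rpow_le_rpow (by positivity) _ hη
  have h2 : (0 : ℝ) ≤ 1 / (q : ℝ) := by positivity
  have h3 : (0 : ℝ) ≤ (q : ℝ) / (N : ℝ) ^ k := by positivity
  linarith

end Pool.Agent.Run7.h844.RP.Wy
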