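import Pool.Agent.Run7.h844.RP.PwU3
import Pool.Agent.N965.LN.Fej
import Pool.Agent.N965.LN.Log

set_option autoImplicit false
set_option maxHeartbeats 4000000

/-!
Rational approximations with small denominators to the values of a generalised polynomial at primes.
-/

namespace Pool.Agent.Run7.h844.RP.Wy

open Finset Filter
open Pool.Agent.H469R2.NK (e norm_e e_add)
open Pool.Agent.N965.LN (dn lang lang_summable lang_nonneg)
open scoped Classical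

lemma eL (x : ℝ) : Pool.Agent.N965.LN.Fej.e x = e x := by
  unfold Pool.Agent.N965.LN.Fej.e Pool.Agent.H469R2.NK.e
  rw [mul_comm]

/-- the number of the members close to an integer -/
theorem cnt_near {ι : Type*} (S : Finset ι) (x : ι → ℝ) (τ : ℝ) (hτ : 0 ≤ τ) (H : ℕ) (hH : 1 ≤ H)
    (h : ∀ k : ℤ, k ≠ 0 → k.natAbs ≤ H → ‖∑ i ∈ S, e ((k : ℝ) * x i)‖ ≤ S.card * τ) :
    ((S.filter fun i => dn (x i) ≤ 1 / (2 * H)).card : ℝ) ≤ S.card * (5 / 2 * (1 / H + τ)) := by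
  have hH0 : (0 : ℝ) < H := by exact_mod_cast hH
  have h1 := fam_sq S x (range H) (fun _ => 1) (fun _ _ => by simp) (fun k : ℕ => (k : ℝ))
  have h2 : ∑ z ∈ range H, ∑ z' ∈ range H, ‖∑ i ∈ S, e (((z : ℝ) - (z' : ℝ)) * x i)‖ ≤
      ∑ z ∈ range H, ((S.card : ℝ) + H * (S.card * τ)) := by
    refine sum_le_sum fun z hz => ?_
    rw [mem_range] at hz
    rw [← add_sum_erase (range H) _ (mem_range.2 hz)]
    refine add_le_add ?_ ?_
    · refine (norm_sum_le _ _).trans ?_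
      simp only [norm_e]
      rw [sum_const, nsmul_eq_mul, mul_one]
    · refine (sum_le_card_nsmul _ _ (S.card * τ) fun z' hz' => ?_).trans ?_
      · rw [mem_erase, mem_range] at hz'
        have e1 := h ((z : ℤ) - z') (by
          intro h0
          exact hz'.1 (by omega)) (by omega)
        push_cast at e1
        exact e1
      · rw [nsmul_eq_mul]
        refine mul_le_mul_of_nonneg_right ?_ (by positivity)
        have : ((range H).erase z).card ≤ H := (card_erase_le).trans (by rw [card_range])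
        exact_mod_cast this
  rw [sum_const, card_range, nsmul_eq_mul] at h2
  have h3 : ((S.filter fun i => dn (x i) ≤ 1 / (2 * H)).card : ℝ) * (2 / 5 * (H : ℝ) ^ 2) ≤
      ∑ i ∈ S, ‖∑ z ∈ range H, (1 : ℂ) * e (x i * (z : ℝ))‖ ^ 2 := by
    rw [← nsmul_eq_mul, ← sum_const]
    refine (sum_le_sum (g := fun i => ‖∑ z ∈ range H, (1 : ℂ) * e (x i * (z : ℝ))‖ ^ 2) fun i hi => ?_).trans
      (sum_le_sum_of_subset_of_nonneg (filter_subset _ _) fun i _ _ => by positivity)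
    rw [mem_filter] at hi
    have e1 := Pool.Agent.N965.LN.Fej.D_ge hH hi.2
    have e2 : Pool.Agent.N965.LN.Fej.D H (x i) = ∑ z ∈ range H, (1 : ℂ) * e (x i * (z : ℝ)) := by
      unfold Pool.Agent.N965.LN.Fej.D
      refine sum_congr rfl fun z _ => ?_
      rw [eL, one_mul, mul_comm]
    rw [e2] at e1
    have hpi := Real.pi_pos
    have hpi2 : Real.pi ^ 2 ≤ 10 := by
      have := Real.pi_lt_d2
      nlinarith
    have e3 : (2 * (H : ℝ) / Real.pi) ^ 2 ≤ ‖∑ z ∈ range H, (1 : ℂ) * e (x i * (z : ℝ))‖ ^ 2 :=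
      pow_le_pow_left₀ (by positivity) e1 2
    refine le_trans ?_ e3
    rw [div_pow, le_div_iff₀ (by positivity)]
    have : 0 ≤ (H : ℝ) ^ 2 := by positivity
    nlinarith
  have h4 := h3.trans (h1.trans h2)
  have h5 : (0 : ℝ) < 2 / 5 * (H : ℝ) ^ 2 := by positivity
  rw [← le_div_iff₀ h5] at h4
  refine h4.trans (le_of_eq ?_)
  field_simp

/-- the primes with `‖q (f(p) + z)‖ ≤ δ` -/
theorem primes_near (F : Finset ℝ) (c : ℝ) (hcF : c ∈ F) (hn : ∀ m : ℕ, c ≠ m) (hc : 0 < c) (hmax : ∀ x ∈ F, x ≤ c)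
    (a : ℝ → ℝ) (ha : a c ≠ 0) : ∃ β : ℝ, 0 < β ∧ ∃ X₀ : ℕ, 2 ≤ X₀ ∧ ∀ X : ℕ, X₀ ≤ X → ∀ z : ℝ, ∀ q : ℕ, 1 ≤ q →
      (q : ℝ) ≤ (X : ℝ) ^ (β / 8) → ∀ δ : ℝ, 0 ≤ δ →
      ((((Ioc X (2 * X)).filter Nat.Prime).filter fun p : ℕ => dn (q * (ph F a p + z)) ≤ δ).card : ℝ) ≤
        ((Ioc X (2 * X)).filter Nat.Prime).card * (10 * δ + 25 / 2 * (X : ℝ) ^ (-(β / 2))) := by
  obtain ⟨β, hβ, X₁, h1⟩ := primes_H F c hcF hn hc hmax a ha
  have hev := ((tendsto_rpow_atTop (show 0 < β / 2 by positivity)).comp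
    (tendsto_natCast_atTop_atTop (R := ℝ))).eventually_ge_atTop 3
  obtain ⟨X₃, h3⟩ := eventually_atTop.mp hev
  refine ⟨β, hβ, X₁ + X₃ + 2, by omega, fun X hX z q hq hqX δ hδ => ?_⟩
  have g1 := h3 X (by omega)
  simp only [Function.comp] at g1
  obtain ⟨S, hS⟩ : ∃ S : Finset ℕ, S = (Ioc X (2 * X)).filter Nat.Prime := ⟨_, rfl⟩
  have g2 := h1 X (by omega) z
  rw [← hS] at g2 ⊢
  have hX1 : (1 : ℝ) ≤ X := by exact_mod_cast (by omega : 1 ≤ X)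
  have hX0 : (0 : ℝ) < X := by linarith
  have hτ0 : 0 < (X : ℝ) ^ (-(β / 2)) := by positivity
  have hτ3 : (X : ℝ) ^ (-(β / 2)) ≤ 1 / 3 := by
    rw [Real.rpow_neg hX0.le, ← one_div]
    exact one_div_le_one_div_of_le (by norm_num) g1
  have hS0 : (0 : ℝ) ≤ S.card := Nat.cast_nonneg _
  obtain ⟨δ', hδ'⟩ : ∃ δ' : ℝ, δ' = max δ ((X : ℝ) ^ (-(β / 2))) := ⟨_, rfl⟩
  have hδ'1 : δ ≤ δ' := by rw [hδ']; exact le_max_left _ _
  have hδ'2 : (X : ℝ) ^ (-(β / 2)) ≤ δ' := by rw [hδ']; exact le_max_right _ _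
  have hδ'3 : δ' ≤ δ + (X : ℝ) ^ (-(β / 2)) := by
    rw [hδ']
    exact max_le (by linarith) (by linarith)
  have hδ'0 : 0 < δ' := by linarith
  by_cases hbig : 1 / 2 < δ'
  · have e1 : ((S.filter fun p : ℕ => dn (q * (ph F a p + z)) ≤ δ).card : ℝ) ≤ S.card := by
      exact_mod_cast card_filter_le _ _
    refine e1.trans ?_
    have : 1 ≤ 10 * δ + 25 / 2 * (X : ℝ) ^ (-(β / 2)) := by linarith
    nlinarith
  push Not at hbig
  obtain ⟨H, hH⟩ : ∃ H : ℕ, H = ⌊1 / (2 * δ')⌋₊ := ⟨_, rfl⟩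
  have e0 : 1 ≤ 1 / (2 * δ') := by
    rw [le_div_iff₀ (by positivity)]
    linarith
  have hH1 : 1 ≤ H := by
    rw [hH]
    exact Nat.le_floor (by exact_mod_cast e0)
  have hHr : (1 : ℝ) ≤ H := by exact_mod_cast hH1
  have hH0 : (0 : ℝ) < H := by linarith
  have hHle : (H : ℝ) ≤ 1 / (2 * δ') := by rw [hH]; exact Nat.floor_le (by positivity)
  have hHge : 1 / (2 * δ') < H + 1 := by rw [hH]; exact Nat.lt_floor_add_one _
  have e1 : δ' ≤ 1 / (2 * H) := by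
    rw [le_div_iff₀ (by positivity)] at hHle ⊢
    linarith
  have e2 : 1 / (H : ℝ) ≤ 4 * δ' := by
    rw [div_le_iff₀ hH0]
    rw [div_lt_iff₀ (by positivity)] at hHge
    nlinarith
  have e3 : (H : ℝ) ≤ (X : ℝ) ^ (β / 2) := by
    refine hHle.trans ?_
    rw [div_le_iff₀ (by positivity)]
    have e4 : (X : ℝ) ^ (β / 2) * (X : ℝ) ^ (-(β / 2)) = 1 := by
      rw [← Real.rpow_add hX0]; simp
    have e5 : (X : ℝ) ^ (β / 2) * (X : ℝ) ^ (-(β / 2)) ≤ (X : ℝ) ^ (β / 2) * δ' :=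
      mul_le_mul_of_nonneg_left hδ'2 (by positivity)
    nlinarith
  have h5 := cnt_near S (fun p : ℕ => q * (ph F a p + z)) ((X : ℝ) ^ (-β)) (by positivity) H hH1 (fun k hk hkH => by
    have hq0 : (0 : ℝ) < q := by exact_mod_cast hq
    have f1 := g2 (k * q) (by
      intro h0
      rcases mul_eq_zero.1 h0 with h6 | h6
      · exact hk h6
      · omega) (by
      push_cast
      rw [abs_mul, abs_of_pos hq0]
      have f2 : |(k : ℝ)| ≤ H := by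
        have f3 : ((k.natAbs : ℕ) : ℝ) ≤ ((H : ℕ) : ℝ) := by exact_mod_cast hkH
        rw [Nat.cast_natAbs] at f3
        push_cast at f3
        exact f3
      calc |(k : ℝ)| * q ≤ (X : ℝ) ^ (β / 2) * (X : ℝ) ^ (β / 8) := mul_le_mul (f2.trans e3) hqX hq0.le (by positivity)
        _ = (X : ℝ) ^ (β / 2 + β / 8) := by rw [← Real.rpow_add hX0]
        _ ≤ _ := Real.rpow_le_rpow_of_exponent_le hX1 (by linarith))
    refine le_trans (le_of_eq ?_) f1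
    congr 1
    refine sum_congr rfl fun p _ => ?_
    congr 1
    push_cast
    ring)
  have h6 : ((S.filter fun p : ℕ => dn (q * (ph F a p + z)) ≤ δ).card : ℝ) ≤
      ((S.filter fun p : ℕ => dn (q * (ph F a p + z)) ≤ 1 / (2 * H)).card : ℝ) := by
    apply Nat.cast_le.2
    apply card_le_card
    intro p hp
    rw [mem_filter] at hp ⊢
    exact ⟨hp.1, hp.2.trans (hδ'1.trans e1)⟩
  refine h6.trans (h5.trans (mul_le_mul_of_nonneg_left ?_ hS0))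
  have h7 : (X : ℝ) ^ (-β) ≤ (X : ℝ) ^ (-(β / 2)) := Real.rpow_le_rpow_of_exponent_le hX1 (by linarith)
  linarith

/-- **Lang's inequality in Khintchine form at the values at primes** -/
theorem primes_lang (F : Finset ℝ) (c : ℝ) (hcF : c ∈ F) (hn : ∀ m : ℕ, c ≠ m) (hc : 0 < c) (hmax : ∀ x ∈ F, x ≤ c)
    (a : ℝ → ℝ) (ha : a c ≠ 0) : ∃ κ : ℝ, 0 < κ ∧ ∃ X₀ : ℕ, 2 ≤ X₀ ∧ ∀ X : ℕ, X₀ ≤ X → ∀ z : ℝ, ∀ ψ : ℕ → ℝ,
      (∀ q, 0 ≤ ψ q) → ∀ Y : ℕ, 1 ≤ Y →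
      ((((Ioc X (2 * X)).filter Nat.Prime).filter fun p : ℕ => ∃ q : ℕ, Y ≤ q ∧ (q : ℝ) ≤ (X : ℝ) ^ κ ∧ ∃ b : ℤ,
        |ph F a p + z - (b : ℝ) / q| ≤ ψ q / q).card : ℝ) ≤
        ((Ioc X (2 * X)).filter Nat.Prime).card * (10 * ∑ q ∈ Icc Y ⌊(X : ℝ) ^ κ⌋₊, ψ q + (X : ℝ) ^ (-κ)) := by
  obtain ⟨β, hβ, X₁, hX₁, h1⟩ := primes_near F c hcF hn hc hmax a ha
  have hev := ((tendsto_rpow_atTop (show 0 < β / 4 by positivity)).comp
    (tendsto_natCast_atTop_atTop (R := ℝ))).eventually_ge_atTop (25 / 2)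
  obtain ⟨X₃, h3⟩ := eventually_atTop.mp hev
  refine ⟨β / 8, by positivity, X₁ + X₃, by omega, fun X hX z ψ hψ Y hY => ?_⟩
  have g1 := h3 X (by omega)
  simp only [Function.comp] at g1
  have g2 := h1 X (by omega) z
  obtain ⟨S, hS⟩ : ∃ S : Finset ℕ, S = (Ioc X (2 * X)).filter Nat.Prime := ⟨_, rfl⟩
  rw [← hS] at g2 ⊢
  have hX1 : (1 : ℝ) ≤ X := by exact_mod_cast (by omega : 1 ≤ X)
  have hX0 : (0 : ℝ) < X := by linarith
  have hS0 : (0 : ℝ) ≤ S.card := Nat.cast_nonneg _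
  have h4 : (S.filter fun p : ℕ => ∃ q : ℕ, Y ≤ q ∧ (q : ℝ) ≤ (X : ℝ) ^ (β / 8) ∧ ∃ b : ℤ,
        |ph F a p + z - (b : ℝ) / q| ≤ ψ q / q) ⊆
      (Icc Y ⌊(X : ℝ) ^ (β / 8)⌋₊).biUnion fun q => S.filter fun p : ℕ => dn (q * (ph F a p + z)) ≤ ψ q := by
    intro p hp
    rw [mem_filter] at hp
    obtain ⟨hpS, q, hq1, hq2, b, hb⟩ := hp
    rw [mem_biUnion]
    refine ⟨q, mem_Icc.2 ⟨hq1, Nat.le_floor hq2⟩, mem_filter.2 ⟨hpS, ?_⟩⟩
    have hq0 : (0 : ℝ) < q := by exact_mod_cast (by omega : 0 < q)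
    have f1 : dn (q * (ph F a p + z)) ≤ |q * (ph F a p + z) - b| := round_le _ _
    refine f1.trans ?_
    have f2 : q * (ph F a p + z) - b = q * (ph F a p + z - (b : ℝ) / q) := by field_simp
    rw [f2, abs_mul, abs_of_pos hq0]
    calc q * |ph F a p + z - (b : ℝ) / q| ≤ q * (ψ q / q) := mul_le_mul_of_nonneg_left hb hq0.le
      _ = ψ q := by field_simp
  have h5 := (card_le_card h4).trans card_biUnion_le
  have h6 : ((S.filter fun p : ℕ => ∃ q : ℕ, Y ≤ q ∧ (q : ℝ) ≤ (X : ℝ) ^ (β / 8) ∧ ∃ b : ℤ,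
        |ph F a p + z - (b : ℝ) / q| ≤ ψ q / q).card : ℝ) ≤
      ∑ q ∈ Icc Y ⌊(X : ℝ) ^ (β / 8)⌋₊, (S.card : ℝ) * (10 * ψ q + 25 / 2 * (X : ℝ) ^ (-(β / 2))) := by
    refine ((Nat.cast_le (α := ℝ)).2 h5).trans ?_
    rw [Nat.cast_sum]
    refine sum_le_sum fun q hq => ?_
    rw [mem_Icc] at hq
    refine g2 q (by omega) ?_ (ψ q) (hψ q)
    exact le_trans (by exact_mod_cast hq.2) (Nat.floor_le (by positivity))
  refine h6.trans ?_
  rw [← mul_sum]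
  refine mul_le_mul_of_nonneg_left ?_ hS0
  rw [sum_add_distrib, ← mul_sum]
  refine add_le_add le_rfl ?_
  rw [sum_const, nsmul_eq_mul]
  have h7 : ((Icc Y ⌊(X : ℝ) ^ (β / 8)⌋₊).card : ℝ) ≤ (X : ℝ) ^ (β / 8) := by
    rw [Nat.card_Icc]
    refine le_trans ?_ (Nat.floor_le (by positivity))
    exact_mod_cast (by omega : ⌊(X : ℝ) ^ (β / 8)⌋₊ + 1 - Y ≤ ⌊(X : ℝ) ^ (β / 8)⌋₊)
  calc ((Icc Y ⌊(X : ℝ) ^ (β / 8)⌋₊).card : ℝ) * (25 / 2 * (X : ℝ) ^ (-(β / 2)))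
      ≤ (X : ℝ) ^ (β / 8) * ((X : ℝ) ^ (β / 4) * (X : ℝ) ^ (-(β / 2))) := by
        refine mul_le_mul h7 (mul_le_mul_of_nonneg_right g1 (by positivity)) (by positivity) (by positivity)
    _ = (X : ℝ) ^ (-(β / 8)) := by
        rw [← Real.rpow_add hX0, ← Real.rpow_add hX0]
        congr 1
        ring

end Pool.Agent.Run7.h844.RP.Wy
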