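import Pool.Agent.Run7.h844.RP.PwU3

set_option autoImplicit false
set_option maxHeartbeats 4000000

/-!
Dirichlet polynomials near the values of a generalised polynomial at primes: moments of all orders.
-/

namespace Pool.Agent.Run7.h844.RP.Wy

open Finset Filter
open Pool.Agent.H469R2.NK (e norm_e e_add)
open Pool.Agent.TH181.MW (tup)
open Pool.Agent.N193.PS (log_pow_ev)
open scoped Classical

/-- real multiples of the values at primes -/
theorem primes_R (F : Finset ℝ) (c : ℝ) (hcF : c ∈ F) (hn : ∀ m : ℕ, c ≠ m) (hc : 0 < c) (hmax : ∀ x ∈ F, x ≤ c)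
    (a : ℝ → ℝ) (ha : a c ≠ 0) : ∃ β : ℝ, 0 < β ∧ ∃ X₀ : ℕ, 2 ≤ X₀ ∧ ∀ X : ℕ, X₀ ≤ X → ∀ z : ℝ, ∀ θ : ℝ,
      (X : ℝ) ^ (-β) ≤ |θ| → |θ| ≤ (X : ℝ) ^ β →
      ‖∑ p ∈ (Ioc X (2 * X)).filter Nat.Prime, e (θ * (ph F a p + z))‖ ≤
        ((Ioc X (2 * X)).filter Nat.Prime).card * (X : ℝ) ^ (-β) := by
  obtain ⟨ρ, hρ0, hρ1, h⟩ := primes_PWu F c hcF hn hc hmax a ha
  obtain ⟨X₁, h1⟩ := h 1 one_pos
  obtain ⟨X₂, h2⟩ := sc_log 1 c one_pos hc
  have hcρ : 0 < c * ρ := by positivity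
  have hev := (tendsto_natCast_atTop_atTop (R := ℝ)).eventually
    (log_pow_ev 8 (2 * (c + 1) ^ 8) (c * ρ / 4) (by positivity) (by positivity))
  have hl := (Real.tendsto_log_atTop.comp (tendsto_natCast_atTop_atTop (R := ℝ))).eventually_ge_atTop (max 1 (2 / c))
  obtain ⟨X₃, h3⟩ := eventually_atTop.mp (hev.and hl)
  refine ⟨c * ρ / 4, by positivity, X₁ + X₂ + X₃ + 3, by omega, fun X hX z θ hθ1 hθ2 => ?_⟩
  obtain ⟨g1, g2⟩ := h3 X (by omega)
  obtain ⟨f1, f2⟩ := h2 X (by omega)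
  simp only [Function.comp] at g2
  have hX1 : (1 : ℝ) ≤ X := by exact_mod_cast (by omega : 1 ≤ X)
  have hX0 : (0 : ℝ) < X := by linarith
  have gl1 : 1 ≤ Real.log X := (le_max_left _ _).trans g2
  have gl2 : 2 / c ≤ Real.log X := (le_max_right _ _).trans g2
  obtain ⟨M, hM⟩ : ∃ M : ℕ, M = sc 1 c X := ⟨_, rfl⟩
  have hMge : (X : ℝ) ^ c ≤ M := by
    have := sc_ge 1 c X
    rw [one_mul] at this
    rw [hM]
    exact this
  have hXc : 1 ≤ (X : ℝ) ^ c := Real.one_le_rpow hX1 hc.le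
  have hM1 : (1 : ℝ) ≤ M := hXc.trans hMge
  have hM0 : (0 : ℝ) < M := by linarith
  have hp := (h1 X (by omega)).shift z
  rw [← hM] at hp f1 f2
  have hθ0 : 0 < |θ| := lt_of_lt_of_le (by positivity) hθ1
  have hcρc : c * ρ ≤ c := by nlinarith
  have e1 : (X : ℝ) ^ (c * ρ / 4) ≤ (M : ℝ) ^ ρ := by
    calc (X : ℝ) ^ (c * ρ / 4) ≤ (X : ℝ) ^ (c * ρ) := Real.rpow_le_rpow_of_exponent_le hX1 (by linarith)
      _ = ((X : ℝ) ^ c) ^ ρ := Real.rpow_mul hX0.le c ρ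
      _ ≤ _ := Real.rpow_le_rpow (by positivity) hMge hρ0.le
  have e2 := hp θ (abs_pos.1 hθ0) (hθ2.trans e1)
  refine e2.trans (mul_le_mul_of_nonneg_left ?_ (Nat.cast_nonneg _))
  have e3 : (M : ℝ) ^ (-ρ) ≤ (X : ℝ) ^ (-(c * ρ / 2)) := by
    calc (M : ℝ) ^ (-ρ) ≤ ((X : ℝ) ^ c) ^ (-ρ) := Real.rpow_le_rpow_of_nonpos (by positivity) hMge (by linarith)
      _ = (X : ℝ) ^ (-(c * ρ)) := by rw [← Real.rpow_mul hX0.le]; congr 1; ring
      _ ≤ _ := Real.rpow_le_rpow_of_exponent_le hX1 (by linarith)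
  have e4 : (|θ| * M) ^ (-ρ) ≤ (X : ℝ) ^ (-(c * ρ / 2)) := by
    have f3 : (X : ℝ) ^ (c / 2) ≤ |θ| * M := by
      calc (X : ℝ) ^ (c / 2) ≤ (X : ℝ) ^ (-(c * ρ / 4) + c) := Real.rpow_le_rpow_of_exponent_le hX1 (by linarith)
        _ = (X : ℝ) ^ (-(c * ρ / 4)) * (X : ℝ) ^ c := Real.rpow_add hX0 _ _
        _ ≤ _ := mul_le_mul hθ1 hMge (by positivity) hθ0.le
    calc (|θ| * M) ^ (-ρ) ≤ ((X : ℝ) ^ (c / 2)) ^ (-ρ) := Real.rpow_le_rpow_of_nonpos (by positivity) f3 (by linarith)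
      _ = _ := by rw [← Real.rpow_mul hX0.le]; congr 1; ring
  have hlM : 1 ≤ Real.log M := by
    have : 1 = c / 2 * (2 / c) := by field_simp
    rw [this]
    exact (mul_le_mul_of_nonneg_left gl2 (by positivity)).trans f1
  have hlM8 : Real.log M ^ 8 ≤ ((c + 1) * Real.log X) ^ 8 := pow_le_pow_left₀ (by linarith) f2 8
  have hlM8' : 1 ≤ Real.log M ^ 8 := one_le_pow₀ hlM
  have e5 : Real.log M ^ 8 * (|θ| * M) ^ (-ρ) + (M : ℝ) ^ (-ρ) ≤ 2 * Real.log M ^ 8 * (X : ℝ) ^ (-(c * ρ / 2)) := by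
    have e7 : Real.log M ^ 8 * (|θ| * M) ^ (-ρ) ≤ Real.log M ^ 8 * (X : ℝ) ^ (-(c * ρ / 2)) :=
      mul_le_mul_of_nonneg_left e4 (by linarith)
    have e8 : 0 ≤ (X : ℝ) ^ (-(c * ρ / 2)) := by positivity
    have e9 : (X : ℝ) ^ (-(c * ρ / 2)) ≤ Real.log M ^ 8 * (X : ℝ) ^ (-(c * ρ / 2)) := by nlinarith
    linarith
  refine e5.trans ?_
  have e10 : (X : ℝ) ^ (-(c * ρ / 2)) = (X : ℝ) ^ (-(c * ρ / 4)) * (X : ℝ) ^ (-(c * ρ / 4)) := by
    rw [← Real.rpow_add hX0]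
    congr 1
    ring
  rw [e10, ← mul_assoc]
  have e11 : 0 ≤ (X : ℝ) ^ (-(c * ρ / 4)) := by positivity
  have e12 : 2 * Real.log M ^ 8 * (X : ℝ) ^ (-(c * ρ / 4)) ≤ 1 := by
    rw [Real.rpow_neg hX0.le, ← div_eq_mul_inv, div_le_one (by positivity)]
    refine le_trans ?_ g1
    have e13 : Real.log X ^ 8 ≤ (1 + Real.log X) ^ 8 := pow_le_pow_left₀ (by linarith) (by linarith) 8
    calc 2 * Real.log M ^ 8 ≤ 2 * ((c + 1) * Real.log X) ^ 8 := by linarith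
      _ = 2 * (c + 1) ^ 8 * Real.log X ^ 8 := by rw [mul_pow]; ring
      _ ≤ _ := mul_le_mul_of_nonneg_left e13 (by positivity)
  nlinarith

/-- the phase of `n^(-it)` -/
noncomputable def lg (n : ℕ) : ℝ := -(Real.log n / (2 * Real.pi))

/-- the Dirichlet polynomial `∑ a(n) n^(-it)` -/
noncomputable def dp (a : ℕ → ℂ) (N : ℕ) (t : ℝ) : ℂ := ∑ n ∈ Icc 1 N, a n * e (t * lg n)

theorem dp_pow (a : ℕ → ℂ) (s N : ℕ) (x t : ℝ) : dp a N (x + t) ^ s =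
    ∑ z ∈ tup s N, ((∏ i, a (z i)) * e (t * lg (∏ i, z i))) * e (x * lg (∏ i, z i)) := by
  unfold dp tup
  rw [Finset.sum_pow']
  apply Finset.sum_congr rfl
  intro z hz
  rw [Fintype.mem_piFinset] at hz
  rw [prod_mul_distrib, ← e_sum, mul_assoc, ← e_add]
  congr 2
  have h1 : lg (∏ i, z i) = ∑ i, lg (z i) := by
    unfold lg
    have h2 : Real.log ((∏ i, z i : ℕ) : ℝ) = ∑ i, Real.log (z i) := by
      push_cast
      refine Real.log_prod fun i _ => ?_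
      have := mem_Icc.1 (hz i)
      have h3 : (0 : ℝ) < z i := by exact_mod_cast (by omega : 0 < z i)
      exact h3.ne'
    rw [h2, sum_div, sum_neg_distrib]
  rw [h1, ← add_mul, mul_sum]
  refine sum_congr rfl fun i _ => ?_
  ring

/-- the tuples with a given product -/
lemma tup_prod (s N m D : ℕ) (hm : 1 ≤ m) (hD : m.divisors.card ≤ D) :
    ((tup s N).filter fun z => ∏ i, z i = m).card ≤ D ^ s := by
  have h1 : (tup s N).filter (fun z => ∏ i, z i = m) ⊆ Fintype.piFinset fun _ : Fin s => m.divisors := by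
    intro z hz
    rw [mem_filter] at hz
    rw [Fintype.mem_piFinset]
    intro i
    rw [Nat.mem_divisors]
    refine ⟨?_, by omega⟩
    rw [← hz.2]
    exact dvd_prod_of_mem _ (mem_univ i)
  refine (card_le_card h1).trans ?_
  rw [Fintype.card_piFinset]
  simp only [prod_const, card_univ, Fintype.card_fin]
  exact Nat.pow_le_pow_left hD s

/-- **the moment over a family** -/
theorem dp_fam {ι : Type*} (S : Finset ι) (x : ι → ℝ) (a : ℕ → ℂ) (ha : ∀ n, ‖a n‖ ≤ 1) (s N D : ℕ) (τ : ℝ) (hτ : 0 ≤ τ)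
    (hD : ∀ m : ℕ, 1 ≤ m → m ≤ N ^ s → m.divisors.card ≤ D)
    (h : ∀ m m' : ℕ, 1 ≤ m → m ≤ N ^ s → 1 ≤ m' → m' ≤ N ^ s → m ≠ m' →
      ‖∑ i ∈ S, e ((lg m - lg m') * x i)‖ ≤ S.card * τ) (t : ℝ) :
    ∑ i ∈ S, ‖dp a N (x i + t)‖ ^ (2 * s) ≤ S.card * ((N : ℝ) ^ s * (D : ℝ) ^ s + (N : ℝ) ^ (2 * s) * τ) := by
  have hz1 : ∀ z ∈ tup s N, 1 ≤ ∏ i, z i ∧ ∏ i, z i ≤ N ^ s := by
    intro z hz
    unfold tup at hz
    rw [Fintype.mem_piFinset] at hz
    refine ⟨Nat.one_le_iff_ne_zero.2 (prod_ne_zero_iff.2 fun i _ => ?_), ?_⟩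
    · have := mem_Icc.1 (hz i)
      omega
    · calc ∏ i, z i ≤ ∏ _i : Fin s, N := prod_le_prod' fun i _ => (mem_Icc.1 (hz i)).2
        _ = N ^ s := by simp
  have hcard : (tup s N).card = N ^ s := by
    unfold tup
    rw [Fintype.card_piFinset]
    simp
  have h1 : ∑ i ∈ S, ‖dp a N (x i + t)‖ ^ (2 * s) ≤
      ∑ z ∈ tup s N, ∑ z' ∈ tup s N, ‖∑ i ∈ S, e ((lg (∏ i, z i) - lg (∏ i, z' i)) * x i)‖ := by
    refine le_trans (le_of_eq ?_) (fam_sq S x (tup s N) (fun z => (∏ i, a (z i)) * e (t * lg (∏ i, z i))) (fun z _ => ?_)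
      (fun z => lg (∏ i, z i)))
    · refine sum_congr rfl fun i _ => ?_
      rw [← dp_pow, norm_pow, ← pow_mul, mul_comm]
    · rw [norm_mul, norm_e, mul_one, norm_prod]
      exact prod_le_one (fun i _ => norm_nonneg _) fun i _ => ha _
  refine h1.trans ?_
  have h2 : ∀ z ∈ tup s N, ∑ z' ∈ tup s N, ‖∑ i ∈ S, e ((lg (∏ i, z i) - lg (∏ i, z' i)) * x i)‖ ≤
      (D : ℝ) ^ s * S.card + (N : ℝ) ^ s * (S.card * τ) := by
    intro z hz
    obtain ⟨g1, g2⟩ := hz1 z hz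
    rw [← sum_filter_add_sum_filter_not (tup s N) (fun z' => ∏ i, z' i = ∏ i, z i)]
    refine add_le_add ?_ ?_
    · refine (sum_le_card_nsmul _ _ (S.card : ℝ) fun z' _ => ?_).trans ?_
      · refine (norm_sum_le _ _).trans ?_
        simp only [norm_e]
        rw [sum_const, nsmul_eq_mul, mul_one]
      · rw [nsmul_eq_mul]
        refine mul_le_mul_of_nonneg_right ?_ (Nat.cast_nonneg _)
        exact_mod_cast tup_prod s N (∏ i, z i) D g1 (hD _ g1 g2)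
    · refine (sum_le_card_nsmul _ _ (S.card * τ) fun z' hz' => ?_).trans ?_
      · rw [mem_filter] at hz'
        obtain ⟨g3, g4⟩ := hz1 z' hz'.1
        exact h _ _ g1 g2 g3 g4 (fun h0 => hz'.2 h0.symm)
      · rw [nsmul_eq_mul]
        refine mul_le_mul_of_nonneg_right ?_ (by positivity)
        have : ((tup s N).filter (fun z' => ¬ ∏ i, z' i = ∏ i, z i)).card ≤ N ^ s := by
          rw [← hcard]
          exact card_filter_le _ _
        exact_mod_cast this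
  refine (sum_le_card_nsmul _ _ _ h2).trans (le_of_eq ?_)
  rw [hcard, nsmul_eq_mul]
  push_cast
  ring

lemma lg_diff (m m' : ℕ) (hm : 1 ≤ m) (hm' : 1 ≤ m') (hne : m ≠ m') (M : ℝ) (h1 : (m : ℝ) ≤ M) (h2 : (m' : ℝ) ≤ M) :
    1 / (7 * M) ≤ |lg m - lg m'| ∧ |lg m - lg m'| ≤ M := by
  have key : ∀ u v : ℕ, 1 ≤ u → u < v → (v : ℝ) ≤ M → 1 / (7 * M) ≤ |lg u - lg v| ∧ |lg u - lg v| ≤ M := by
    intro u v hu huv hv
    have hu0 : (0 : ℝ) < u := by exact_mod_cast hu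
    have hv0 : (0 : ℝ) < v := by exact_mod_cast (by omega : 0 < v)
    have hM0 : 0 < M := by linarith
    have hM1 : 1 ≤ M := le_trans (by exact_mod_cast (by omega : 1 ≤ v)) hv
    have huv' : (u : ℝ) + 1 ≤ v := by exact_mod_cast huv
    have hpi := Real.pi_gt_three
    have hpi2 := Real.pi_lt_d2
    have e1 : lg u - lg v = (Real.log v - Real.log u) / (2 * Real.pi) := by
      unfold lg
      ring
    have e2 : Real.log v - Real.log u = Real.log (v / u) := (Real.log_div hv0.ne' hu0.ne').symm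
    have e3 : 1 / M ≤ Real.log (v / u) := by
      have f1 := Real.one_sub_inv_le_log_of_pos (show (0 : ℝ) < v / u by positivity)
      refine le_trans ?_ f1
      rw [inv_div, one_sub_div hv0.ne']
      calc 1 / M ≤ 1 / (v : ℝ) := one_div_le_one_div_of_le hv0 hv
        _ ≤ _ := by
          apply div_le_div_of_nonneg_right _ hv0.le
          linarith
    have e4 : Real.log (v / u) ≤ M := by
      have f1 : Real.log (v / u) ≤ Real.log v := by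
        apply Real.log_le_log (by positivity)
        rw [div_le_iff₀ hu0]
        have : (1 : ℝ) ≤ u := by exact_mod_cast hu
        nlinarith
      have f2 := Real.log_le_sub_one_of_pos hv0
      linarith
    have e5 : 0 ≤ Real.log (v / u) := le_trans (by positivity) e3
    rw [e1, e2, abs_of_nonneg (by positivity)]
    constructor
    · rw [le_div_iff₀ (by positivity)]
      calc 1 / (7 * M) * (2 * Real.pi) = (2 * Real.pi / 7) * (1 / M) := by field_simp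
        _ ≤ 1 * (1 / M) := mul_le_mul_of_nonneg_right (by linarith) (by positivity)
        _ ≤ _ := by linarith
    · rw [div_le_iff₀ (by positivity)]
      nlinarith
  rcases lt_or_gt_of_ne hne with h | h
  · exact key m m' hm h h2
  · rw [abs_sub_comm]
    exact key m' m hm' h h1

/-- **moments of all orders near the values at primes** -/
theorem primes_dp (F : Finset ℝ) (c : ℝ) (hcF : c ∈ F) (hn : ∀ m : ℕ, c ≠ m) (hc : 0 < c) (hmax : ∀ x ∈ F, x ≤ c)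
    (b : ℝ → ℝ) (hb : b c ≠ 0) (s : ℕ) (ε : ℝ) (hε : 0 < ε) : ∃ κ C : ℝ, 0 < κ ∧ 0 < C ∧ ∃ X₀ : ℕ,
      ∀ X : ℕ, X₀ ≤ X → ∀ z : ℝ, ∀ N : ℕ, 1 ≤ N → (N : ℝ) ≤ (X : ℝ) ^ κ → ∀ a : ℕ → ℂ, (∀ n, ‖a n‖ ≤ 1) → ∀ t : ℝ,
      ∑ p ∈ (Ioc X (2 * X)).filter Nat.Prime, ‖dp a N (ph F b p + z + t)‖ ^ (2 * s) ≤
        C * (N : ℝ) ^ ((s : ℝ) + ε) * ((Ioc X (2 * X)).filter Nat.Prime).card := by
  obtain ⟨β, hβ, X₁, hX₁, h1⟩ := primes_R F c hcF hn hc hmax b hb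
  obtain ⟨κ, hκ⟩ : ∃ κ : ℝ, κ = β / (2 * (s + 1)) := ⟨_, rfl⟩
  have hs1 : (0 : ℝ) < (s : ℝ) + 1 := by positivity
  have hκ0 : 0 < κ := by rw [hκ]; positivity
  obtain ⟨C₀, hC₀, hdiv⟩ := Pool.Agent.Run7.h556.MW.div_bd 1 s le_rfl (ε / (s + 1)) (by positivity)
  have hev := ((tendsto_rpow_atTop (show 0 < β / 2 by positivity)).comp
    (tendsto_natCast_atTop_atTop (R := ℝ))).eventually_ge_atTop 7
  obtain ⟨X₃, h3⟩ := eventually_atTop.mp hev
  refine ⟨κ, C₀ ^ s + 1, hκ0, by positivity, X₁ + X₃, fun X hX z N hN hNX a ha t => ?_⟩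
  have g1 := h3 X (by omega)
  simp only [Function.comp] at g1
  obtain ⟨D, hD, hDC⟩ := hdiv N hN
  have hX1 : (1 : ℝ) ≤ X := by exact_mod_cast (by omega : 1 ≤ X)
  have hX0 : (0 : ℝ) < X := by linarith
  have hN1 : (1 : ℝ) ≤ N := by exact_mod_cast hN
  have hN0 : (0 : ℝ) < N := by linarith
  have hNs : (N : ℝ) ^ s ≤ (X : ℝ) ^ (β / 2) := by
    calc (N : ℝ) ^ s ≤ ((X : ℝ) ^ κ) ^ s := pow_le_pow_left₀ hN0.le hNX s
      _ = (X : ℝ) ^ (κ * s) := by rw [← Real.rpow_natCast, ← Real.rpow_mul hX0.le]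
      _ ≤ _ := by
        apply Real.rpow_le_rpow_of_exponent_le hX1
        rw [hκ]
        rw [div_mul_eq_mul_div, div_le_div_iff₀ (by positivity) (by norm_num)]
        nlinarith
  have h4 := dp_fam ((Ioc X (2 * X)).filter Nat.Prime) (fun p : ℕ => ph F b p + z) a ha s N D ((X : ℝ) ^ (-β))
    (by positivity) (fun m hm1 hm2 => hD m hm1 (by linarith)) (fun m m' hm1 hm2 hm3 hm4 hne => by
      have e1 : (m : ℝ) ≤ (N : ℝ) ^ s := by exact_mod_cast hm2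
      have e2 : (m' : ℝ) ≤ (N : ℝ) ^ s := by exact_mod_cast hm4
      obtain ⟨e3, e4⟩ := lg_diff m m' hm1 hm3 hne _ (e1.trans hNs) (e2.trans hNs)
      refine h1 X (by omega) z _ ?_ ?_
      · refine le_trans ?_ e3
        rw [Real.rpow_neg hX0.le, ← one_div]
        apply one_div_le_one_div_of_le (by positivity)
        calc 7 * (X : ℝ) ^ (β / 2) ≤ (X : ℝ) ^ (β / 2) * (X : ℝ) ^ (β / 2) := mul_le_mul_of_nonneg_right g1 (by positivity)
          _ = (X : ℝ) ^ β := by rw [← Real.rpow_add hX0]; congr 1; ring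
      · exact e4.trans (Real.rpow_le_rpow_of_exponent_le hX1 (by linarith))) t
  refine h4.trans ?_
  rw [mul_comm]
  refine mul_le_mul_of_nonneg_right ?_ (Nat.cast_nonneg _)
  have e5 : (D : ℝ) ^ s ≤ C₀ ^ s * (N : ℝ) ^ ε := by
    calc (D : ℝ) ^ s ≤ (C₀ * (N : ℝ) ^ (ε / (s + 1))) ^ s := pow_le_pow_left₀ (Nat.cast_nonneg _) hDC s
      _ = C₀ ^ s * (N : ℝ) ^ (ε / (s + 1) * s) := by
        rw [mul_pow, ← Real.rpow_natCast ((N : ℝ) ^ (ε / (s + 1))), ← Real.rpow_mul hN0.le]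
      _ ≤ _ := by
        refine mul_le_mul_of_nonneg_left ?_ (by positivity)
        apply Real.rpow_le_rpow_of_exponent_le hN1
        rw [div_mul_eq_mul_div, div_le_iff₀ hs1]
        nlinarith
  have e6 : (N : ℝ) ^ (2 * s) * (X : ℝ) ^ (-β) ≤ 1 := by
    rw [Real.rpow_neg hX0.le, ← div_eq_mul_inv, div_le_one (by positivity)]
    calc (N : ℝ) ^ (2 * s) = (N : ℝ) ^ s * (N : ℝ) ^ s := by rw [← pow_add]; congr 1; ring
      _ ≤ (X : ℝ) ^ (β / 2) * (X : ℝ) ^ (β / 2) := mul_le_mul hNs hNs (by positivity) (by positivity)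
      _ = (X : ℝ) ^ β := by rw [← Real.rpow_add hX0]; congr 1; ring
  have e7 : (N : ℝ) ^ ((s : ℝ) + ε) = (N : ℝ) ^ s * (N : ℝ) ^ ε := by
    rw [Real.rpow_add hN0, Real.rpow_natCast]
  have e8 : 1 ≤ (N : ℝ) ^ s * (N : ℝ) ^ ε := by
    rw [← e7]
    exact Real.one_le_rpow hN1 (by positivity)
  rw [e7]
  calc (N : ℝ) ^ s * (D : ℝ) ^ s + (N : ℝ) ^ (2 * s) * (X : ℝ) ^ (-β)
      ≤ (N : ℝ) ^ s * (C₀ ^ s * (N : ℝ) ^ ε) + (N : ℝ) ^ s * (N : ℝ) ^ ε :=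
        add_le_add (mul_le_mul_of_nonneg_left e5 (by positivity)) (e6.trans e8)
    _ = _ := by ring

end Pool.Agent.Run7.h844.RP.Wy
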