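import Pool.Agent.Run7.h844.RP.PwU5

set_option autoImplicit false
set_option maxHeartbeats 4000000

/-!
Dirichlet polynomials have no large values in the neighbourhoods of almost all of the values of a generalised polynomial at primes.
-/

namespace Pool.Agent.Run7.h844.RP.Wy

open Finset Filter
open Pool.Agent.H469R2.NK (e norm_e e_add)
open scoped Classical

lemma e_lip (x y : ℝ) : ‖e x - e y‖ ≤ 2 * Real.pi * |x - y| := by
  rw [← eW, ← eW]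
  exact Pool.Agent.W928.MW.e_lip x y

lemma dp_lip (a : ℕ → ℂ) (ha : ∀ n, ‖a n‖ ≤ 1) (N : ℕ) (t t' : ℝ) : ‖dp a N t - dp a N t'‖ ≤ (N : ℝ) ^ 2 * |t - t'| := by
  unfold dp
  rw [← sum_sub_distrib]
  refine (norm_sum_le _ _).trans ?_
  have h1 : ∀ n ∈ Icc 1 N, ‖a n * e (t * lg n) - a n * e (t' * lg n)‖ ≤ (N : ℝ) * |t - t'| := by
    intro n hn
    rw [mem_Icc] at hn
    have hn0 : (0 : ℝ) < n := by exact_mod_cast (by omega : 0 < n)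
    have hn1 : (1 : ℝ) ≤ n := by exact_mod_cast (by omega : 1 ≤ n)
    have hnN : (n : ℝ) ≤ N := by exact_mod_cast hn.2
    rw [← mul_sub, norm_mul]
    have e1 := e_lip (t * lg n) (t' * lg n)
    have e2 : |t * lg n - t' * lg n| = |t - t'| * |lg n| := by rw [← sub_mul, abs_mul]
    have hpi := Real.pi_pos
    have e3 : 2 * Real.pi * |lg n| = Real.log n := by
      unfold lg
      rw [abs_neg, abs_of_nonneg (div_nonneg (Real.log_nonneg hn1) (by positivity))]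
      field_simp
    have e4 : Real.log n ≤ N := (Real.log_le_sub_one_of_pos hn0).trans (by linarith)
    calc ‖a n‖ * ‖e (t * lg n) - e (t' * lg n)‖ ≤ 1 * (2 * Real.pi * (|t - t'| * |lg n|)) := by
          rw [← e2]
          exact mul_le_mul (ha n) e1 (norm_nonneg _) zero_le_one
      _ = (2 * Real.pi * |lg n|) * |t - t'| := by ring
      _ = Real.log n * |t - t'| := by rw [e3]
      _ ≤ _ := mul_le_mul_of_nonneg_right e4 (abs_nonneg _)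
  refine (sum_le_sum h1).trans (le_of_eq ?_)
  rw [sum_const, Nat.card_Icc, nsmul_eq_mul]
  push_cast
  ring

/-- the number of the primes with a large value in the window -/
theorem primes_win (F : Finset ℝ) (c : ℝ) (hcF : c ∈ F) (hn : ∀ m : ℕ, c ≠ m) (hc : 0 < c) (hmax : ∀ x ∈ F, x ≤ c)
    (b : ℝ → ℝ) (hb : b c ≠ 0) (A : ℝ) (hA : 0 ≤ A) (s : ℕ) : ∃ κ C : ℝ, 0 < κ ∧ 0 < C ∧ ∃ X₀ : ℕ,
      ∀ X : ℕ, X₀ ≤ X → ∀ z : ℝ, ∀ N : ℕ, 1 ≤ N → (N : ℝ) ≤ (X : ℝ) ^ κ → ∀ a : ℕ → ℂ, (∀ n, ‖a n‖ ≤ 1) →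
      ∀ V : ℝ, 2 ≤ V →
      ((((Ioc X (2 * X)).filter Nat.Prime).filter fun p : ℕ => ∃ t : ℝ, |t| ≤ (N : ℝ) ^ A ∧
        V ≤ ‖dp a N (ph F b p + z + t)‖).card : ℝ) ≤
        C * (N : ℝ) ^ (A + 3) * ((N : ℝ) / V ^ 2) ^ s * ((Ioc X (2 * X)).filter Nat.Prime).card := by
  obtain ⟨κ, C, hκ, hC, X₀, h1⟩ := primes_dp F c hcF hn hc hmax b hb s 1 one_pos
  refine ⟨κ, 5 * (4 ^ s * C), hκ, by positivity, X₀, fun X hX z N hN hNX a ha V hV => ?_⟩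
  obtain ⟨S, hS⟩ : ∃ S : Finset ℕ, S = (Ioc X (2 * X)).filter Nat.Prime := ⟨_, rfl⟩
  have h2 := h1 X hX z N hN hNX a ha
  rw [← hS] at h2 ⊢
  have hN1 : (1 : ℝ) ≤ N := by exact_mod_cast hN
  have hN0 : (0 : ℝ) < N := by linarith
  have hV0 : 0 < V := by linarith
  -- the net
  obtain ⟨K, hK⟩ : ∃ K : ℕ, K = ⌈(N : ℝ) ^ (A + 2)⌉₊ := ⟨_, rfl⟩
  have hNA : 1 ≤ (N : ℝ) ^ (A + 2) := Real.one_le_rpow hN1 (by positivity)
  have hK1 : (N : ℝ) ^ (A + 2) ≤ K := by rw [hK]; exact Nat.le_ceil _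
  have hK2 : (K : ℝ) ≤ 2 * (N : ℝ) ^ (A + 2) := by
    have : (K : ℝ) < (N : ℝ) ^ (A + 2) + 1 := by rw [hK]; exact Nat.ceil_lt_add_one (by positivity)
    linarith
  have hsub : (S.filter fun p : ℕ => ∃ t : ℝ, |t| ≤ (N : ℝ) ^ A ∧ V ≤ ‖dp a N (ph F b p + z + t)‖) ⊆
      (Icc (-(K : ℤ)) K).biUnion fun j => S.filter fun p : ℕ => V / 2 ≤ ‖dp a N (ph F b p + z + (j : ℝ) / (N : ℝ) ^ 2)‖ := by
    intro p hp
    rw [mem_filter] at hp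
    obtain ⟨hpS, t, ht, hVt⟩ := hp
    rw [mem_biUnion]
    refine ⟨⌊t * (N : ℝ) ^ 2⌋, ?_, ?_⟩
    · have e1 : |t * (N : ℝ) ^ 2| ≤ K := by
        rw [abs_mul, abs_of_pos (show (0 : ℝ) < (N : ℝ) ^ 2 by positivity)]
        refine le_trans (mul_le_mul_of_nonneg_right ht (by positivity)) (le_trans (le_of_eq ?_) hK1)
        rw [Real.rpow_add hN0]
        norm_num
      rw [abs_le] at e1
      rw [mem_Icc]
      constructor
      · rw [Int.le_floor]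
        push_cast
        exact e1.1
      · have e2 : ((⌊t * (N : ℝ) ^ 2⌋ : ℤ) : ℝ) ≤ ((K : ℤ) : ℝ) := by
          push_cast
          exact (Int.floor_le _).trans e1.2
        exact_mod_cast e2
    · rw [mem_filter]
      refine ⟨hpS, ?_⟩
      have e1 := dp_lip a ha N (ph F b p + z + t) (ph F b p + z + ((⌊t * (N : ℝ) ^ 2⌋ : ℤ) : ℝ) / (N : ℝ) ^ 2)
      have e2 : (N : ℝ) ^ 2 * |ph F b p + z + t - (ph F b p + z + ((⌊t * (N : ℝ) ^ 2⌋ : ℤ) : ℝ) / (N : ℝ) ^ 2)| ≤ 1 := by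
        have e3 : ph F b p + z + t - (ph F b p + z + ((⌊t * (N : ℝ) ^ 2⌋ : ℤ) : ℝ) / (N : ℝ) ^ 2) =
            (t * (N : ℝ) ^ 2 - ((⌊t * (N : ℝ) ^ 2⌋ : ℤ) : ℝ)) / (N : ℝ) ^ 2 := by
          field_simp
          ring
        rw [e3, abs_div, abs_of_pos (show (0 : ℝ) < (N : ℝ) ^ 2 by positivity)]
        rw [mul_div_cancel₀ _ (by positivity)]
        have e4 := Int.floor_le (t * (N : ℝ) ^ 2)
        have e5 := (Int.lt_floor_add_one (t * (N : ℝ) ^ 2)).le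
        rw [abs_le]
        constructor <;> linarith
      have e4 := norm_sub_norm_le (dp a N (ph F b p + z + t))
        (dp a N (ph F b p + z + ((⌊t * (N : ℝ) ^ 2⌋ : ℤ) : ℝ) / (N : ℝ) ^ 2))
      linarith
  have h3 : ∀ j : ℤ, ((S.filter fun p : ℕ => V / 2 ≤ ‖dp a N (ph F b p + z + (j : ℝ) / (N : ℝ) ^ 2)‖).card : ℝ) ≤
      4 ^ s * C * (N : ℝ) * ((N : ℝ) / V ^ 2) ^ s * S.card := by
    intro j
    have e1 := h2 ((j : ℝ) / (N : ℝ) ^ 2)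
    have e2 : ((S.filter fun p : ℕ => V / 2 ≤ ‖dp a N (ph F b p + z + (j : ℝ) / (N : ℝ) ^ 2)‖).card : ℝ) * (V / 2) ^ (2 * s) ≤
        ∑ p ∈ S, ‖dp a N (ph F b p + z + (j : ℝ) / (N : ℝ) ^ 2)‖ ^ (2 * s) := by
      rw [← nsmul_eq_mul, ← sum_const]
      refine (sum_le_sum (g := fun p : ℕ => ‖dp a N (ph F b p + z + (j : ℝ) / (N : ℝ) ^ 2)‖ ^ (2 * s)) fun p hp => ?_).trans
        (sum_le_sum_of_subset_of_nonneg (filter_subset _ _) fun p _ _ => by positivity)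
      rw [mem_filter] at hp
      exact pow_le_pow_left₀ (by positivity) hp.2 _
    have e3 := e2.trans e1
    have hVs : 0 < (V / 2) ^ (2 * s) := by positivity
    rw [← le_div_iff₀ hVs] at e3
    refine e3.trans (le_of_eq ?_)
    rw [Real.rpow_add hN0, Real.rpow_one, Real.rpow_natCast]
    have e4 : (V / 2) ^ (2 * s) = (V ^ 2) ^ s / 4 ^ s := by
      rw [pow_mul, div_pow, div_pow]
      norm_num
    rw [e4, div_pow]
    field_simp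
  have h4 := (card_le_card hsub).trans card_biUnion_le
  have h5 : ((S.filter fun p : ℕ => ∃ t : ℝ, |t| ≤ (N : ℝ) ^ A ∧ V ≤ ‖dp a N (ph F b p + z + t)‖).card : ℝ) ≤
      ∑ _j ∈ Icc (-(K : ℤ)) K, 4 ^ s * C * (N : ℝ) * ((N : ℝ) / V ^ 2) ^ s * S.card := by
    refine ((Nat.cast_le (α := ℝ)).2 h4).trans ?_
    rw [Nat.cast_sum]
    exact sum_le_sum fun j _ => h3 j
  refine h5.trans ?_
  rw [sum_const, nsmul_eq_mul]
  have h6 : ((Icc (-(K : ℤ)) K).card : ℝ) ≤ 5 * (N : ℝ) ^ (A + 2) := by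
    rw [Int.card_Icc]
    have : ((K : ℤ) + 1 - -(K : ℤ)).toNat = 2 * K + 1 := by omega
    rw [this]
    push_cast
    linarith
  have h7 : (N : ℝ) ^ (A + 3) = (N : ℝ) ^ (A + 2) * N := by
    rw [← Real.rpow_add_one hN0.ne']
    congr 1
    ring
  rw [h7]
  calc ((Icc (-(K : ℤ)) K).card : ℝ) * (4 ^ s * C * (N : ℝ) * ((N : ℝ) / V ^ 2) ^ s * S.card)
      ≤ 5 * (N : ℝ) ^ (A + 2) * (4 ^ s * C * (N : ℝ) * ((N : ℝ) / V ^ 2) ^ s * S.card) :=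
        mul_le_mul_of_nonneg_right h6 (by positivity)
    _ = _ := by ring

/-- **no large values near almost all of the values at primes** -/
theorem primes_nolarge (F : Finset ℝ) (c : ℝ) (hcF : c ∈ F) (hn : ∀ m : ℕ, c ≠ m) (hc : 0 < c) (hmax : ∀ x ∈ F, x ≤ c)
    (b : ℝ → ℝ) (hb : b c ≠ 0) (u A h : ℝ) (hu : 0 < u) (hA : 0 ≤ A) : ∃ κ : ℝ, 0 < κ ∧ ∃ N₀ X₀ : ℕ, 2 ≤ N₀ ∧
      ∀ X : ℕ, X₀ ≤ X → ∀ z : ℝ, ∀ N : ℕ, N₀ ≤ N → (N : ℝ) ≤ (X : ℝ) ^ κ → ∀ a : ℕ → ℂ, (∀ n, ‖a n‖ ≤ 1) →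
      ((((Ioc X (2 * X)).filter Nat.Prime).filter fun p : ℕ => ∃ t : ℝ, |t| ≤ (N : ℝ) ^ A ∧
        (N : ℝ) ^ (1 / 2 + u) ≤ ‖dp a N (ph F b p + z + t)‖).card : ℝ) ≤
        (N : ℝ) ^ (-h) * ((Ioc X (2 * X)).filter Nat.Prime).card := by
  obtain ⟨s, hs⟩ : ∃ s : ℕ, (A + 4 + h) / (2 * u) ≤ s := exists_nat_ge _
  obtain ⟨κ, C, hκ, hC, X₀, h1⟩ := primes_win F c hcF hn hc hmax b hb A hA s
  obtain ⟨N₀, hN₀⟩ : ∃ N₀ : ℕ, max C 4 ≤ N₀ := exists_nat_ge _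
  have hN₀4 : (4 : ℝ) ≤ N₀ := (le_max_right _ _).trans hN₀
  have hN₀C : C ≤ N₀ := (le_max_left _ _).trans hN₀
  refine ⟨κ, hκ, N₀, X₀, by exact_mod_cast (by linarith : (2 : ℝ) ≤ N₀), fun X hX z N hN hNX a ha => ?_⟩
  have hNr : (N₀ : ℝ) ≤ N := by exact_mod_cast hN
  have hN4 : (4 : ℝ) ≤ N := by linarith
  have hN0 : (0 : ℝ) < N := by linarith
  have hN1 : (1 : ℝ) ≤ N := by linarith
  have hV : 2 ≤ (N : ℝ) ^ (1 / 2 + u) := by
    have e1 : (4 : ℝ) ^ (1 / 2 : ℝ) = 2 := by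
      rw [show (4 : ℝ) = 2 ^ (2 : ℝ) by norm_num, ← Real.rpow_mul (by norm_num)]
      norm_num
    calc (2 : ℝ) = 4 ^ (1 / 2 : ℝ) := e1.symm
      _ ≤ (N : ℝ) ^ (1 / 2 : ℝ) := Real.rpow_le_rpow (by norm_num) hN4 (by norm_num)
      _ ≤ _ := Real.rpow_le_rpow_of_exponent_le hN1 (by linarith)
  refine (h1 X hX z N (by exact_mod_cast hN1) hNX a ha _ hV).trans (mul_le_mul_of_nonneg_right ?_ (Nat.cast_nonneg _))
  have e1 : ((N : ℝ) / ((N : ℝ) ^ (1 / 2 + u)) ^ 2) ^ s = (N : ℝ) ^ (-(2 * u * s)) := by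
    have e2 : ((N : ℝ) ^ (1 / 2 + u)) ^ 2 = (N : ℝ) ^ (1 + 2 * u) := by
      rw [← Real.rpow_natCast ((N : ℝ) ^ (1 / 2 + u)) 2, ← Real.rpow_mul hN0.le]
      congr 1
      push_cast
      ring
    have e3 : (N : ℝ) / (N : ℝ) ^ (1 + 2 * u) = (N : ℝ) ^ (-(2 * u)) := by
      have e4 : (N : ℝ) / (N : ℝ) ^ (1 + 2 * u) = (N : ℝ) ^ (1 - (1 + 2 * u)) := by
        rw [Real.rpow_sub hN0, Real.rpow_one]
      rw [e4]
      congr 1
      ring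
    rw [e2, e3, ← Real.rpow_natCast, ← Real.rpow_mul hN0.le]
    congr 1
    ring
  have hsu : A + 4 + h ≤ 2 * u * s := by
    rw [div_le_iff₀ (by positivity)] at hs
    linarith
  rw [e1]
  calc C * (N : ℝ) ^ (A + 3) * (N : ℝ) ^ (-(2 * u * s)) ≤ N * (N : ℝ) ^ (A + 3) * (N : ℝ) ^ (-(2 * u * s)) :=
        mul_le_mul_of_nonneg_right (mul_le_mul_of_nonneg_right (hN₀C.trans hNr) (by positivity)) (by positivity)
    _ = (N : ℝ) ^ (1 : ℝ) * (N : ℝ) ^ (A + 3) * (N : ℝ) ^ (-(2 * u * s)) := by rw [Real.rpow_one]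
    _ = (N : ℝ) ^ (1 + (A + 3) + (-(2 * u * s))) := by
        rw [← Real.rpow_add hN0, ← Real.rpow_add hN0]
    _ ≤ (N : ℝ) ^ (-h) := Real.rpow_le_rpow_of_exponent_le hN1 (by linarith)

end Pool.Agent.Run7.h844.RP.Wy
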