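import Pool.Agent.Run7.h844.RP.PwU6

set_option autoImplicit false
set_option maxHeartbeats 4000000

/-!
Dirichlet polynomials near the values of a generalised polynomial at primes: the forms with `n ^ (-it)` and `n ^ (it)`.
-/

namespace Pool.Agent.Run7.h844.RP.Wy

open Finset Filter
open Pool.Agent.H469R2.NK (e norm_e e_add)
open scoped Classical

lemma e_cpow (n : ℕ) (hn : 1 ≤ n) (t : ℝ) : e (t * lg n) = (n : ℂ) ^ (-((t : ℂ) * Complex.I)) := by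
  have hn0 : (n : ℂ) ≠ 0 := by exact_mod_cast (by omega : n ≠ 0)
  rw [Complex.cpow_def_of_ne_zero hn0]
  unfold Pool.Agent.H469R2.NK.e lg
  congr 1
  rw [← Complex.natCast_log]
  have hpi : (Real.pi : ℂ) ≠ 0 := by exact_mod_cast Real.pi_ne_zero
  push_cast
  field_simp

lemma dp_eq (a : ℕ → ℂ) (N : ℕ) (t : ℝ) : dp a N t = ∑ n ∈ Icc 1 N, a n * (n : ℂ) ^ (-((t : ℂ) * Complex.I)) := by
  unfold dp
  refine sum_congr rfl fun n hn => ?_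
  rw [e_cpow n (mem_Icc.1 hn).1]

/-- the Dirichlet polynomial `∑_{N ≤ n ≤ 2N} b(n) n^(it)` -/
noncomputable def dq (b : ℕ → ℂ) (N : ℕ) (t : ℝ) : ℂ := ∑ n ∈ Icc N (2 * N), b n * (n : ℂ) ^ ((t : ℂ) * Complex.I)

lemma dq_norm (b : ℕ → ℂ) (N : ℕ) (hN : 1 ≤ N) (t : ℝ) :
    ‖dq b N t‖ = ‖dp (fun n => if N ≤ n then (starRingEnd ℂ) (b n) else 0) (2 * N) t‖ := by
  have h1 : dq b N t = (starRingEnd ℂ) (dp (fun n => if N ≤ n then (starRingEnd ℂ) (b n) else 0) (2 * N) t) := by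
    unfold dq dp
    rw [map_sum]
    have h2 : Icc N (2 * N) = (Icc 1 (2 * N)).filter fun n => N ≤ n := by
      ext n
      rw [mem_filter, mem_Icc, mem_Icc]
      omega
    rw [h2, sum_filter]
    refine sum_congr rfl fun n hn => ?_
    by_cases h3 : N ≤ n
    · have h4 := e_cpow n (mem_Icc.1 hn).1 (-t)
      have h5 : (starRingEnd ℂ) (e (t * lg n)) = (n : ℂ) ^ ((t : ℂ) * Complex.I) := by
        rw [e_conj, show -(t * lg n) = -t * lg n by ring, h4]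
        congr 1
        push_cast
        ring
      simp only [if_pos h3]
      rw [map_mul, Complex.conj_conj, h5]
    · simp only [if_neg h3]
      simp
  rw [h1, RCLike.norm_conj]

/-- no large values of `∑_{N ≤ n ≤ 2N} b(n) n^(it)` near almost all of the values at primes -/
theorem primes_dq (F : Finset ℝ) (c : ℝ) (hcF : c ∈ F) (hn : ∀ m : ℕ, c ≠ m) (hc : 0 < c) (hmax : ∀ x ∈ F, x ≤ c)
    (g : ℝ → ℝ) (hg : g c ≠ 0) (u A h : ℝ) (hu : 0 < u) (hA : 0 ≤ A) (hh : 0 ≤ h) : ∃ κ : ℝ, 0 < κ ∧ ∃ N₀ X₀ : ℕ,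
      2 ≤ N₀ ∧ ∀ X : ℕ, X₀ ≤ X → ∀ z : ℝ, ∀ N : ℕ, N₀ ≤ N → (N : ℝ) ≤ (X : ℝ) ^ κ → ∀ b : ℕ → ℂ, (∀ n, ‖b n‖ ≤ 1) →
      ((((Ioc X (2 * X)).filter Nat.Prime).filter fun p : ℕ => ∃ t : ℝ, |t| ≤ (N : ℝ) ^ A ∧
        (N : ℝ) ^ (1 / 2 + u) ≤ ‖dq b N (ph F g p + z + t)‖).card : ℝ) ≤
        (N : ℝ) ^ (-h) * ((Ioc X (2 * X)).filter Nat.Prime).card := by
  obtain ⟨κ, hκ, N₀, X₀, hN₀, h1⟩ := primes_nolarge F c hcF hn hc hmax g hg (u / 2) A h (by positivity) hA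
  -- `(2N)^(1/2+u/2) ≤ N^(1/2+u)` and `2N ≤ X^κ`
  have hev := ((tendsto_rpow_atTop (show 0 < u / 2 by positivity)).comp
    (tendsto_natCast_atTop_atTop (R := ℝ))).eventually_ge_atTop ((2 : ℝ) ^ (1 / 2 + u / 2))
  obtain ⟨N₁, hN₁⟩ := eventually_atTop.mp hev
  have hev2 := ((tendsto_rpow_atTop (show 0 < κ / 2 by positivity)).comp
    (tendsto_natCast_atTop_atTop (R := ℝ))).eventually_ge_atTop 2
  obtain ⟨X₁, hX₁⟩ := eventually_atTop.mp hev2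
  refine ⟨κ / 2, by positivity, N₀ + N₁, X₀ + X₁ + 1, by omega, fun X hX z N hN hNX b hb => ?_⟩
  have g1 := hN₁ N (by omega)
  have g2 := hX₁ X (by omega)
  simp only [Function.comp] at g1 g2
  have hX0 : (0 : ℝ) < X := by exact_mod_cast (by omega : 0 < X)
  have hN1 : (1 : ℝ) ≤ N := by exact_mod_cast (by omega : 1 ≤ N)
  have hN0 : (0 : ℝ) < N := by linarith
  have h2 := h1 X (by omega) z (2 * N) (by omega) (by
    push_cast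
    calc 2 * (N : ℝ) ≤ (X : ℝ) ^ (κ / 2) * (X : ℝ) ^ (κ / 2) := mul_le_mul g2 hNX hN0.le (by positivity)
      _ = (X : ℝ) ^ κ := by rw [← Real.rpow_add hX0]; congr 1; ring)
    (fun n => if N ≤ n then (starRingEnd ℂ) (b n) else 0) (fun n => by
      split_ifs
      · rw [RCLike.norm_conj]; exact hb n
      · simp)
  push_cast at h2
  have h3 : (2 * (N : ℝ)) ^ (-h) ≤ (N : ℝ) ^ (-h) :=
    Real.rpow_le_rpow_of_nonpos hN0 (by linarith) (by linarith)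
  refine le_trans ?_ (h2.trans (mul_le_mul_of_nonneg_right h3 (Nat.cast_nonneg _)))
  apply Nat.cast_le.2
  apply card_le_card
  intro p hp
  rw [mem_filter] at hp ⊢
  obtain ⟨hp1, t, ht, hV⟩ := hp
  refine ⟨hp1, t, ht.trans (Real.rpow_le_rpow hN0.le (by linarith) hA), ?_⟩
  rw [dq_norm b N (by omega)] at hV
  refine le_trans ?_ hV
  rw [Real.mul_rpow (by norm_num) hN0.le]
  calc (2 : ℝ) ^ (1 / 2 + u / 2) * (N : ℝ) ^ (1 / 2 + u / 2) ≤ (N : ℝ) ^ (u / 2) * (N : ℝ) ^ (1 / 2 + u / 2) :=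
        mul_le_mul_of_nonneg_right g1 (by positivity)
    _ = _ := by rw [← Real.rpow_add hN0]; congr 1; ring

lemma dq_triv (b : ℕ → ℂ) (hb : ∀ n, ‖b n‖ ≤ 1) (N : ℕ) (hN : 1 ≤ N) (t : ℝ) : ‖dq b N t‖ ≤ 2 * N := by
  unfold dq
  refine (norm_sum_le _ _).trans ?_
  have h1 : ∀ n ∈ Icc N (2 * N), ‖b n * (n : ℂ) ^ ((t : ℂ) * Complex.I)‖ ≤ 1 := by
    intro n hn
    have hn1 : 1 ≤ n := hN.trans (mem_Icc.1 hn).1
    have h2 := e_cpow n hn1 (-t)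
    have h3 : (n : ℂ) ^ ((t : ℂ) * Complex.I) = e (-t * lg n) := by
      rw [h2]
      congr 1
      push_cast
      ring
    rw [norm_mul, h3, norm_e, mul_one]
    exact hb n
  refine (sum_le_card_nsmul _ _ _ h1).trans ?_
  rw [Nat.card_Icc, nsmul_eq_mul, mul_one]
  have : 2 * N + 1 - N = N + 1 := by omega
  rw [this]
  push_cast
  have : (1 : ℝ) ≤ N := by exact_mod_cast hN
  linarith

/-- **moments at points near the values at primes** -/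
theorem primes_mom (F : Finset ℝ) (c : ℝ) (hcF : c ∈ F) (hn : ∀ m : ℕ, c ≠ m) (hc : 0 < c) (hmax : ∀ x ∈ F, x ≤ c)
    (g : ℝ → ℝ) (hg : g c ≠ 0) (q₀ A ε : ℝ) (hq₀ : 0 < q₀) (hA : 0 ≤ A) (hε : 0 < ε) : ∃ κ : ℝ, 0 < κ ∧ ∃ N₀ X₀ : ℕ,
      ∀ X : ℕ, X₀ ≤ X → ∀ z : ℝ, ∀ N : ℕ, N₀ ≤ N → (N : ℝ) ≤ (X : ℝ) ^ κ → ∀ b : ℕ → ℂ, (∀ n, ‖b n‖ ≤ 1) →
      ∀ τ : ℕ → ℝ, (∀ p, |τ p - (ph F g p + z)| ≤ (N : ℝ) ^ A) → ∀ q : ℝ, 0 ≤ q → q ≤ q₀ →
      ∑ p ∈ (Ioc X (2 * X)).filter Nat.Prime, ‖dq b N (τ p)‖ ^ q ≤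
        (N : ℝ) ^ (q / 2 + ε) * ((Ioc X (2 * X)).filter Nat.Prime).card := by
  obtain ⟨κ, hκ, N₀, X₀, hN₀, h1⟩ := primes_dq F c hcF hn hc hmax g hg (ε / (2 * q₀)) A q₀ (by positivity) hA hq₀.le
  have hev := ((tendsto_rpow_atTop (show 0 < ε / 2 by positivity)).comp
    (tendsto_natCast_atTop_atTop (R := ℝ))).eventually_ge_atTop (1 + (2 : ℝ) ^ q₀)
  obtain ⟨N₁, hN₁⟩ := eventually_atTop.mp hev
  refine ⟨κ, hκ, N₀ + N₁ + 1, X₀, fun X hX z N hN hNX b hb τ hτ q hq0 hq => ?_⟩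
  obtain ⟨S, hS⟩ : ∃ S : Finset ℕ, S = (Ioc X (2 * X)).filter Nat.Prime := ⟨_, rfl⟩
  have h2 := h1 X hX z N (by omega) hNX b hb
  rw [← hS] at h2 ⊢
  have g1 := hN₁ N (by omega)
  simp only [Function.comp] at g1
  have hN1 : (1 : ℝ) ≤ N := by exact_mod_cast (by omega : 1 ≤ N)
  have hN0 : (0 : ℝ) < N := by linarith
  rw [← sum_filter_add_sum_filter_not S (fun p : ℕ => ∃ t : ℝ, |t| ≤ (N : ℝ) ^ A ∧
        (N : ℝ) ^ (1 / 2 + ε / (2 * q₀)) ≤ ‖dq b N (ph F g p + z + t)‖)]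
  have hS0 : (0 : ℝ) ≤ S.card := Nat.cast_nonneg _
  have h3 : ∑ p ∈ S.filter (fun p : ℕ => ∃ t : ℝ, |t| ≤ (N : ℝ) ^ A ∧
        (N : ℝ) ^ (1 / 2 + ε / (2 * q₀)) ≤ ‖dq b N (ph F g p + z + t)‖), ‖dq b N (τ p)‖ ^ q ≤ 2 ^ q₀ * S.card := by
    refine (sum_le_card_nsmul _ _ ((2 * (N : ℝ)) ^ q) fun p _ => ?_).trans ?_
    · exact Real.rpow_le_rpow (norm_nonneg _) (dq_triv b hb N (by omega) _) hq0
    · rw [nsmul_eq_mul]
      have e1 : (2 * (N : ℝ)) ^ q ≤ 2 ^ q₀ * (N : ℝ) ^ q₀ := by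
        rw [← Real.mul_rpow (by norm_num) hN0.le]
        exact Real.rpow_le_rpow_of_exponent_le (by linarith) hq
      have e2 : (N : ℝ) ^ (-q₀) * (N : ℝ) ^ q₀ = 1 := by
        rw [← Real.rpow_add hN0]; simp
      calc _ ≤ ((N : ℝ) ^ (-q₀) * S.card) * (2 ^ q₀ * (N : ℝ) ^ q₀) := mul_le_mul h2 e1 (by positivity) (by positivity)
        _ = 2 ^ q₀ * S.card * ((N : ℝ) ^ (-q₀) * (N : ℝ) ^ q₀) := by ring
        _ = _ := by rw [e2, mul_one]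
  have h4 : ∑ p ∈ S.filter (fun p : ℕ => ¬ ∃ t : ℝ, |t| ≤ (N : ℝ) ^ A ∧
        (N : ℝ) ^ (1 / 2 + ε / (2 * q₀)) ≤ ‖dq b N (ph F g p + z + t)‖), ‖dq b N (τ p)‖ ^ q ≤
      S.card * (N : ℝ) ^ (q / 2 + ε / 2) := by
    refine (sum_le_card_nsmul _ _ ((N : ℝ) ^ (q / 2 + ε / 2)) fun p hp => ?_).trans ?_
    · rw [mem_filter] at hp
      have e1 : ‖dq b N (τ p)‖ ≤ (N : ℝ) ^ (1 / 2 + ε / (2 * q₀)) := by
        by_contra hcon
        push Not at hcon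
        apply hp.2
        refine ⟨τ p - (ph F g p + z), hτ p, ?_⟩
        rw [show ph F g p + z + (τ p - (ph F g p + z)) = τ p by ring]
        exact hcon.le
      calc ‖dq b N (τ p)‖ ^ q ≤ ((N : ℝ) ^ (1 / 2 + ε / (2 * q₀))) ^ q := Real.rpow_le_rpow (norm_nonneg _) e1 hq0
        _ = (N : ℝ) ^ ((1 / 2 + ε / (2 * q₀)) * q) := by rw [← Real.rpow_mul hN0.le]
        _ ≤ _ := by
          apply Real.rpow_le_rpow_of_exponent_le hN1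
          have e2 : ε / (2 * q₀) * q ≤ ε / 2 := by
            rw [div_mul_eq_mul_div, div_le_div_iff₀ (by positivity) (by norm_num)]
            nlinarith
          linarith
    · rw [nsmul_eq_mul]
      refine mul_le_mul_of_nonneg_right ?_ (by positivity)
      exact_mod_cast card_filter_le _ _
  refine (add_le_add h3 h4).trans ?_
  have e5 : (N : ℝ) ^ (q / 2 + ε) = (N : ℝ) ^ (q / 2 + ε / 2) * (N : ℝ) ^ (ε / 2) := by
    rw [← Real.rpow_add hN0]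
    congr 1
    ring
  have e6 : 1 ≤ (N : ℝ) ^ (q / 2 + ε / 2) := Real.one_le_rpow hN1 (by positivity)
  have e7 : 2 ^ q₀ + (N : ℝ) ^ (q / 2 + ε / 2) ≤ (N : ℝ) ^ (q / 2 + ε) := by
    rw [e5]
    have e8 : (0 : ℝ) < 2 ^ q₀ := by positivity
    nlinarith
  calc 2 ^ q₀ * (S.card : ℝ) + S.card * (N : ℝ) ^ (q / 2 + ε / 2) = (2 ^ q₀ + (N : ℝ) ^ (q / 2 + ε / 2)) * S.card := by ring
    _ ≤ _ := mul_le_mul_of_nonneg_right e7 hS0

end Pool.Agent.Run7.h844.RP.Wy
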