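import Pool.Agent.Run7.h844.RP.Vec2
import Pool.Agent.N625.PT.I

set_option autoImplicit false

/-!
Prime tuples for all the multiples of the integers near the members of several families of reals.
-/

namespace Pool.Agent.Run7.h844.RP

open Finset Filter
open Pool.Agent.N384.MQ (ev_log_pow ev_log_ge)
open Pool.Agent.W93.TD (HLs)

/-- the formula of Hardy and Littlewood for all the factors `h` up to `H` -/
def TupP {s : ℕ} (ε : ℝ) (U X : ℕ) (H : ℝ) (q : Fin s → ℤ) : Prop :=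
  (∀ i, 0 ≤ q i) → ∀ h : Fin s → ℕ, (∀ i, 1 ≤ h i ∧ (h i : ℝ) ≤ H) → HLs ε U X (fun i => h i * (q i).toNat)

open Classical in
theorem tup_near (s : ℕ) (hs : 1 ≤ s) (B : ℕ) (δ : ℝ) (hδ : 0 < δ) (hδ1 : δ ≤ 1) (a J J₂ W U : ℕ) (ε : ℝ) (hε : 0 < ε) :
    ∃ V M₀ : ℕ, ∀ M : ℕ, M₀ ≤ M → ∀ Y : ℕ, ((M : ℝ) * Real.log M ^ (J + 6) ≤ Y ∧ (Y : ℝ) ≤ M * Real.log M ^ J₂) →
      ∀ N : Fin s → ℕ, (∀ i, (N i : ℝ) ≤ M * Real.log M ∧ (M : ℝ) ≤ N i * Real.log M ^ a) →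
      ∀ (ι : Fin s → Type) (S : ∀ i, Finset (ι i)) (y : ∀ i, ι i → ℝ), (∀ i, ∀ j ∈ S i, |y i j| ≤ M * Real.log M) →
      (∀ i, ES B δ V (N i) (S i) (y i)) →
      (((Fintype.piFinset S).filter fun n => ¬ NearV (TupP ε U Y (Real.log M ^ J)) (Real.log M ^ W)
        (fun i => y i (n i))).card : ℝ) ≤ (∏ i, ((S i).card : ℝ)) / Real.log M ^ U := by
  obtain ⟨V, M₀, h0⟩ := near2V (Θ := ℕ) s B δ hδ hδ1 a W U
    (fun k Y => k ^ (J + 1) * 2 ^ k ≤ Y ∧ Y ≤ k ^ J₂ * 2 ^ k)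
    (fun k Y q => (∀ i, 0 ≤ q i) → ∀ h : Fin s → ℕ, (∀ i, 1 ≤ h i ∧ h i ≤ k ^ J) → HLs ε U Y (fun i => h i * (q i).toNat))
    (fun C hC => by
      obtain ⟨k₀, h1⟩ := Pool.Agent.N625.PT.t_tuples (b := 2) s hs le_rfl (fun _ => 1) (fun _ => C)
        (fun _ => (hC 1 one_ne_zero).2) 1 J J₂ (W + 1) U ε hε
      refine ⟨k₀, fun k hk Y hY p hp c hc => ?_⟩
      have h2 := h1 k hk p hp c (fun i => by rw [Nat.cast_one, one_mul]; exact hc i) Y hY.1 hY.2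
      refine le_trans (sum_le_sum fun v _ => ?_) h2
      have hpv : 0 ≤ ∏ i, p i (v i) := prod_nonneg fun i _ => (hC 1 one_ne_zero).2.nonneg k _ (hp i) _
      by_cases h3 : ∀ h : Fin s → ℕ, (∀ i, 1 ≤ h i ∧ h i ≤ k ^ J) →
        ∀ q : Fin s → ℕ, (∀ i, |(q i : ℤ) - (c i + 1 * v i)| ≤ (k : ℤ) ^ (W + 1)) → HLs ε U Y (fun i => h i * q i)
      · rw [if_pos h3, if_pos]
        intro q hq hq0 h hh
        exact h3 h hh (fun i => (q i).toNat) (fun i => by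
          rw [Int.toNat_of_nonneg (hq0 i)]
          exact hq i)
      · rw [if_neg h3]
        split_ifs
        · exact hpv
        · exact le_rfl)
  obtain ⟨M₁, h1⟩ := eventually_atTop.mp (ev_log_ge ((4 : ℝ) ^ (J + 5)))
  refine ⟨V, M₀ + M₁ + 1, fun M hM Y hY N hN ι S y hy hes => ?_⟩
  obtain ⟨k, g1, g2, g3, g4, h2⟩ := h0 M (by omega)
  have hL := h1 M (by omega)
  have h4 : (1 : ℝ) ≤ 4 ^ (J + 5) := one_le_pow₀ (by norm_num)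
  have hL0 : 0 < Real.log M := by linarith
  have hM0 : (0 : ℝ) < M := by exact_mod_cast (by omega : 0 < M)
  have hk0 : (0 : ℝ) < k := by linarith
  have hM2 : (M : ℝ) ≤ 2 ^ k := by
    refine le_trans ?_ g3
    exact le_mul_of_one_le_right hM0.le (one_le_pow₀ (by linarith))
  have h3 := h2 Y ⟨by
    have : ((k ^ (J + 1) * 2 ^ k : ℕ) : ℝ) ≤ (Y : ℝ) := by
      push_cast
      refine le_trans ?_ hY.1
      calc (k : ℝ) ^ (J + 1) * 2 ^ k ≤ (k : ℝ) ^ (J + 1) * ((k : ℝ) ^ 4 * M) := by gcongr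
        _ = (k : ℝ) ^ (J + 5) * M := by rw [show J + 5 = (J + 1) + 4 by ring, pow_add _ (J + 1) 4]; ring
        _ ≤ (4 * Real.log M) ^ (J + 5) * M := by gcongr
        _ = 4 ^ (J + 5) * (Real.log M ^ (J + 5) * M) := by rw [mul_pow]; ring
        _ ≤ Real.log M * (Real.log M ^ (J + 5) * M) := by gcongr
        _ = _ := by rw [pow_succ _ (J + 5)]; ring
    exact_mod_cast this, by
    have : (Y : ℝ) ≤ ((k ^ J₂ * 2 ^ k : ℕ) : ℝ) := by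
      push_cast
      refine hY.2.trans ?_
      rw [mul_comm]
      gcongr
    exact_mod_cast this⟩ N hN ι S y hy hes
  refine le_trans ?_ h3
  apply Nat.cast_le.2
  apply card_le_card
  intro n hn
  rw [mem_filter] at hn ⊢
  refine ⟨hn.1, fun hcon => hn.2 (nearV_mono hcon le_rfl fun q hq hq0 h hh => ?_)⟩
  refine hq hq0 h (fun i => ⟨(hh i).1, ?_⟩)
  have : (h i : ℝ) ≤ ((k ^ J : ℕ) : ℝ) := by
    push_cast
    exact (hh i).2.trans (pow_le_pow_left₀ hL0.le g1 J)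
  exact_mod_cast this

open Classical in
theorem tup_primes (s : ℕ) (hs : 1 ≤ s) (F : Fin s → Finset ℝ) (c : Fin s → ℝ)
    (hcF : ∀ i, c i ∈ F i) (hn : ∀ i, ∀ m : ℕ, c i ≠ m) (hc : ∀ i, 0 < c i) (hmax : ∀ i, ∀ x ∈ F i, x ≤ c i)
    (a : Fin s → ℝ → ℝ) (ha : ∀ i, a i (c i) ≠ 0) (A J J₂ W U : ℕ) (ε : ℝ) (hε : 0 < ε) :
    ∃ M₀ : ℕ, ∀ M : ℕ, M₀ ≤ M → ∀ X : Fin s → ℕ,
      (∀ i, (X i : ℝ) ^ (c i) ≤ M ∧ (M : ℝ) ≤ (X i : ℝ) ^ (c i) * Real.log M ^ A) →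
      ∀ z : Fin s → ℝ, (∀ i, |z i| ≤ M) → ∀ Y : ℕ, (M : ℝ) * Real.log M ^ (J + 6) ≤ Y → (Y : ℝ) ≤ M * Real.log M ^ J₂ →
      (((Fintype.piFinset fun i => (Ioc (X i) (2 * X i)).filter Nat.Prime).filter fun p =>
        ¬ NearV (TupP ε U Y (Real.log M ^ J))
          (Real.log M ^ W) (fun i => ph (F i) (a i) (p i) + z i)).card : ℝ) ≤ (∏ i, (X i : ℝ)) / Real.log M ^ U := by
  obtain ⟨V, N₀, h1⟩ := tup_near s hs 8 (1 / 2) (by norm_num) (by norm_num) A J J₂ W U ε hε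
  obtain ⟨M₀, h0⟩ := primes_nearV (Θ := ℕ) s F c hcF hn hc hmax a ha A W U
    (fun M Y => (M : ℝ) * Real.log M ^ (J + 6) ≤ Y ∧ (Y : ℝ) ≤ M * Real.log M ^ J₂)
    (fun M Y => TupP ε U Y (Real.log M ^ J))
    ⟨V, N₀, fun M hM Y hY N hN S y hy hes => h1 M hM Y hY N hN (fun _ => ℕ) S y hy hes⟩
  exact ⟨M₀, fun M hM X hX z hz Y hY1 hY2 => h0 M hM Y ⟨hY1, hY2⟩ X hX z hz⟩

end Pool.Agent.Run7.h844.RP
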